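import Pool.Agent.Lib.MP_8cb858_nt.PU.SpecU

/-!
# Specs, block V: the law for the curves with large twist part, in the height ordering

Every Spec is a closed proposition with a complete proof in its doc string. Notation: `n = [F : ℚ]`,
`N I = Ideal.absNorm I`, `V = vol ρ`, `pr A = ∏_(v ∈ A) v`. Module XXX = file `PV/XXX.lean`
(import `Pool.Agent.Lib.MP_8cb858_nt.PV.SpecV`), `theorem specXXX (hYYY : SpecYYY) .. : SpecXXX` in the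
namespace `Pool.Agent.Lib.MP_8cb858_nt.PV` (hypotheses: any Spec of this file, of `PU/Spec*`, `PF/Spec*`,
`SEL/Spec`), own lemmas in the namespace `Pool.Agent.Lib.MP_8cb858_nt.PV.XXXM`.
-/

namespace Pool.Agent.Lib.MP_8cb858_nt.PV

open Polynomial NumberField IsDedekindDomain Filter Pool.Agent.Lib.MP_8cb858_nt.SEL
open Pool.Agent.Lib.MP_8cb858_nt.PF Pool.Agent.Lib.MP_8cb858_nt.PU
open scoped Classical WithZero Topology

section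

variable {F : Type} [Field F] [NumberField F]

/-- `I^2` divides `a` and `I^3` divides `b`. -/
def Dv (I : Ideal (𝓞 F)) (q : 𝓞 F × 𝓞 F) : Prop := q.1 ∈ I ^ 2 ∧ q.2 ∈ I ^ 3

/-- `I` is the twist ideal of the pair `q`. -/
def Ex (I : Ideal (𝓞 F)) (q : 𝓞 F × 𝓞 F) : Prop := Dv I q ∧ ∀ v : Pl F, ¬ Dv (I * v.asIdeal) q

/-- The squarefree ideal of a finite set of places. -/
noncomputable def pr (A : Finset (Pl F)) : Ideal (𝓞 F) := ∏ v ∈ A, v.asIdeal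

/-- The pairs of the box in the class of `p` modulo `J`, with twist ideal `I`. -/
def Fam (J : Ideal (𝓞 F)) (p : 𝓞 F × 𝓞 F) (I : Ideal (𝓞 F)) (ρ : InfinitePlace F → ℝ) :
    Set (𝓞 F × 𝓞 F) :=
  {q ∈ Bx F ρ | q.1 - p.1 ∈ J ∧ q.2 - p.2 ∈ J ∧ Ex I q}

/-- The pairs `(a, b)` with twist ideal `c` such that `(y/g)^2 a` is in the class of `p.1` modulo `J` and
`(y/g)^3 b` in the class of `p.2`. -/
def Jf (J : Ideal (𝓞 F)) (p : 𝓞 F × 𝓞 F) (g y : 𝓞 F) (c : Ideal (𝓞 F)) : Set (𝓞 F × 𝓞 F) :=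
  {q | Ex c q ∧ y ^ 2 * q.1 - g ^ 2 * p.1 ∈ Ideal.span {g ^ 2} * J ∧
    y ^ 3 * q.2 - g ^ 3 * p.2 ∈ Ideal.span {g ^ 3} * J}

/-- `(N I)^(1/n)`. -/
noncomputable def rt (I : Ideal (𝓞 F)) : ℝ :=
  (Ideal.absNorm I : ℝ) ^ ((Module.finrank ℚ F : ℝ)⁻¹)

end

/-! ## Twist ideals (algebra) -/

/-- **TWX** (150 lines). Existence of the twist ideal; every `J` with `Dv J q` divides it.
Proof. `div`: if `J ∤ I` there is a prime `v` whose multiplicity `f` in `J` is larger than its multiplicity `e` in `I`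
(`UniqueFactorizationMonoid`; `Ideal` multiplicities via `normalizedFactors`, or: let `I = G I'`, `J = G J'` with `G = I ⊔ J` the gcd,
`I' ⊔ J' = ⊤`; `J' ≠ ⊤`, so some prime `v` divides `J'` and not `I'`). Then `Dv (I v) q`: with `G, I', J'`: `(I v)^2 = G^2 I'^2 v^2` and
`a ∈ I^2 ⊓ J^2`; `a ∈ J^2 ⊆ G^2 v^2`, `a ∈ G^2 I'^2`, and `I'`, `v` are coprime, so `(a) = G^2 K` with `I'^2 ∣ K`, `v^2 ∣ K`, hence
`I'^2 v^2 ∣ K`. The same with the cubes. This contradicts `Ex I q`. `ex`: `q ≠ 0`, so the norms of the `I ≠ ⊥` with `Dv I q` are bounded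
(`N I^2 ∣ |N a|`, `a ≠ 0`, or `N I^3 ∣ |N b|`, `b ≠ 0`; `Ideal.absNorm_dvd_norm_of_mem`), `⊤` is one of them; take one with the
largest norm (`N (I v) = N I nv v > N I`). `neb`: `Dv ⊥ q` gives `q = 0`. -/
structure SpecTWX : Prop where
  ex : ∀ (F : Type) [Field F] [NumberField F] (q : 𝓞 F × 𝓞 F), dsc q.1 q.2 ≠ 0 →
    ∃ I : Ideal (𝓞 F), I ≠ ⊥ ∧ Ex I q
  neb : ∀ (F : Type) [Field F] [NumberField F] (q : 𝓞 F × 𝓞 F) (I : Ideal (𝓞 F)),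
    dsc q.1 q.2 ≠ 0 → Dv I q → I ≠ ⊥
  div : ∀ (F : Type) [Field F] [NumberField F] (q : 𝓞 F × 𝓞 F) (I J : Ideal (𝓞 F)),
    dsc q.1 q.2 ≠ 0 → Ex I q → Dv J q → J ∣ I

/-- **TRF** (120 lines). Transfer. Ideals: `span {y} * c = span {g} * I`.
Proof. `dn`: `(A) ⊆ I^2`, so `(g^2 A) ⊆ g^2 I^2 = y^2 c^2 ⊆ (y^2)`. `up`: `(y^2 a) ⊆ y^2 c^2 = g^2 I^2 ⊆ (g^2)`. `eq`: `A ∈ (I J)^2` iff
`(g^2) (A) ⊆ (g)^2 I^2 J^2 = (y)^2 c^2 J^2` iff `(y)^2 (a) ⊆ (y)^2 (c J)^2` iff `a ∈ (c J)^2` (cancellation of nonzero ideals,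
`Ideal.mul_le_mul_left_iff..` or `Ideal.dvd_iff_le` and `mul_dvd_mul_iff_left`). The same with the cubes. -/
structure SpecTRF : Prop where
  dn : ∀ (F : Type) [Field F] [NumberField F] (g y : 𝓞 F) (I c : Ideal (𝓞 F)), g ≠ 0 → y ≠ 0 →
    Ideal.span {y} * c = Ideal.span {g} * I → ∀ A B : 𝓞 F, Dv I (A, B) →
    ∃ a b : 𝓞 F, g ^ 2 * A = y ^ 2 * a ∧ g ^ 3 * B = y ^ 3 * b
  up : ∀ (F : Type) [Field F] [NumberField F] (g y : 𝓞 F) (I c : Ideal (𝓞 F)), g ≠ 0 → y ≠ 0 →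
    Ideal.span {y} * c = Ideal.span {g} * I → ∀ a b : 𝓞 F, Dv c (a, b) →
    ∃ A B : 𝓞 F, g ^ 2 * A = y ^ 2 * a ∧ g ^ 3 * B = y ^ 3 * b
  eq : ∀ (F : Type) [Field F] [NumberField F] (g y : 𝓞 F) (I c : Ideal (𝓞 F)), g ≠ 0 → y ≠ 0 →
    Ideal.span {y} * c = Ideal.span {g} * I → ∀ A B a b : 𝓞 F,
    g ^ 2 * A = y ^ 2 * a → g ^ 3 * B = y ^ 3 * b →
    ∀ J : Ideal (𝓞 F), Dv (I * J) (A, B) ↔ Dv (c * J) (a, b)

/-- **PER** (180 lines; from TRF). The family with twist ideal `I` is, up to the twist by `y/g`, the family with twist ideal `c`.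
Proof. `(a, b) ↦ (A, B)`, `g^2 A = y^2 a`, `g^3 B = y^3 b`, is a bijection between the two sets. Existence: TRF `dn`, `up`. `Ex I (A, B)`
iff `Ex c (a, b)`: TRF `eq` for `J = ⊤` (`Ideal.mul_top`) and `J = v`. `A - p.1 ∈ J` iff `g^2 A - g^2 p.1 ∈ (g^2) J`
(`Ideal.mem_span_singleton_mul`, cancel `g^2`). Box: `dsc A B (g)^6 = dsc a b y^6`; `v A (v g)^2 = (v y)^2 v a`, so `v A ≤ (ρ v)^2` iff
`v a ≤ (ρ v * v g / v y)^2` (`v g, v y > 0`), the same with the cubes. In `F`: `A = a (y/g)^2`, `B = b (y/g)^3`. -/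
def SpecPER : Prop :=
  ∀ (F : Type) [Field F] [NumberField F] (J : Ideal (𝓞 F)) (p : 𝓞 F × 𝓞 F) (g y : 𝓞 F)
    (I c : Ideal (𝓞 F)), g ≠ 0 → y ≠ 0 → Ideal.span {y} * c = Ideal.span {g} * I →
    ∀ (ρ : InfinitePlace F → ℝ) (W : Set ℕ),
    {q ∈ Fam J p I ρ | Nat.card (Sel 2 (curve (q.1 : F) (q.2 : F))) ∈ W}.ncard =
      {q ∈ Jf J p g y c ∩ Bx F (fun v => ρ v * (v (g : F) / v (y : F))) |
        Nat.card (Sel 2 (curve ((q.1 : F) * ((y : F) / (g : F)) ^ 2)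
          ((q.2 : F) * ((y : F) / (g : F)) ^ 3))) ∈ W}.ncard

/-- **BAL** (180 lines). Balanced generators (theorem of Minkowski).
Proof. There is `C0 ≥ 1` such that every `I ≠ ⊥` has an element `y ≠ 0` with `v y < C0 (N I)^(1/n)` for all `v`:
`NumberField.mixedEmbedding.exists_ne_zero_mem_ideal_lt` (`convexBodyLT_volume`, `minkowskiBound`, `volume_fundamentalDomain_fractionalIdealLatticeBasis`:
both sides are constants times `N I`). `I ∣ (y)`: `(y) = I G`, `N G = |N y|/N I ≤ C0^n` (`InfinitePlace.prod_eq_abs_norm`). Let `g = ⌊C0^n⌋!` (a positive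
integer): `N G ∣ g` and `N G ∈ G`, so `(g) = G c`, and `(y) c = I G c = (g) I`, `N c ≤ N (g) = g^n`. Lower bound: `∏_w (w y)^mult = |N y| ≥ N I`, so
`(v y)^(mult v) ≥ N I/M^(n - mult v)`, `M = C0 (N I)^(1/n)`, that is `≥ M^(mult v)/C0^n`, and `v y ≥ M/C0^n` (`C0^n ≥ 1`). -/
def SpecBAL : Prop :=
  ∀ (F : Type) [Field F] [NumberField F], ∃ (g : ℕ) (B : ℝ), 0 < g ∧ 1 ≤ B ∧
    ∀ I : Ideal (𝓞 F), I ≠ ⊥ → ∃ (y : 𝓞 F) (c : Ideal (𝓞 F)), y ≠ 0 ∧ c ≠ ⊥ ∧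
      (Ideal.absNorm c : ℝ) ≤ B ∧ Ideal.span {y} * c = Ideal.span {(g : 𝓞 F)} * I ∧
      ∀ v : InfinitePlace F, B⁻¹ * rt I ≤ v (y : F) ∧ v (y : F) ≤ B * rt I

/-! ## Counting pairs -/

/-- **UPB** (150 lines; from `PF.SpecDNA`). Upper bound for the pairs divisible by `I`, uniform in `I`.
Proof. `N = N I`. If `N > V` the set is empty: `a ∈ I^2`, `a ≠ 0` gives `N^2 ≤ |N a| = ∏_v (v a)^mult ≤ V^2`, so `a = 0`, and `b = 0` in the same way,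
but `dsc a b ≠ 0`. If `N ≤ V`: the number of `a ∈ I^2` with `v a ≤ (ρ v)^2` is at most `C1 max(1, V^2/N^2) = C1 V^2/N^2` (DNA, `x0 = 0`,
centre 0; `vol (ρ^2) = V^2`), the number of `b` is at most `C1 V^3/N^3`. -/
def SpecUPB : Prop :=
  ∀ (F : Type) [Field F] [NumberField F], ∃ C : ℝ, 1 ≤ C ∧
    ∀ (I : Ideal (𝓞 F)) (ρ : InfinitePlace F → ℝ), I ≠ ⊥ → (∀ v, 1 ≤ ρ v) →
      ((Ideal.absNorm I : ℝ) ≤ vol ρ ∨ {q ∈ Bx F ρ | Dv I q} = ∅) ∧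
      ({q ∈ Bx F ρ | Dv I q}.ncard : ℝ) ≤ C * (vol ρ ^ 5 / (Ideal.absNorm I : ℝ) ^ 5)

/-- **SUI** (80 lines; from `SpecIDA`; `CNFM.tail` in `PU/CNF.lean` is the main part). Sums over ideals.
Proof. For `T ≥ 2`: `N I > ⌈T⌉ - 1 ≥ T/2`, `CNFM.tail`. For `1 ≤ T < 2`: the ideal `⊤` (`N I = 1`) contributes at most 1, the others by
`CNFM.tail` with `B = 1`. `1/N^5 ≤ (1/N^2)/T^3`. -/
def SpecSUI : Prop :=
  ∀ (F : Type) [Field F] [NumberField F], ∃ C : ℝ, 1 ≤ C ∧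
    ∀ (T : ℝ) (J : Finset (Ideal (𝓞 F))), 1 ≤ T → (∀ I ∈ J, I ≠ ⊥ ∧ T ≤ (Ideal.absNorm I : ℝ)) →
      ∑ I ∈ J, 1 / (Ideal.absNorm I : ℝ) ^ 2 ≤ C / T ∧
      ∑ I ∈ J, 1 / (Ideal.absNorm I : ℝ) ^ 5 ≤ C / T ^ 4

/-- **TAL** (120 lines; from UPB, SUI, `SpecIDA` `fin`). The tail.
Proof. The set is contained in the union of the sets `{q ∈ Bx ρ | Dv (t J) q}` over the ideals `J ≠ ⊥` with `T ≤ N J` and
`N (t J) ≤ V` (UPB), finitely many (IDA `fin`, `N J ≤ N (t J)`). `N (t J) = N t N J`; sum UPB over `J` (SUI). -/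
def SpecTAL : Prop :=
  ∀ (F : Type) [Field F] [NumberField F], ∃ C : ℝ, 1 ≤ C ∧
    ∀ (t : Ideal (𝓞 F)) (T : ℝ) (ρ : InfinitePlace F → ℝ), t ≠ ⊥ → 1 ≤ T → (∀ v, 1 ≤ ρ v) →
      ({q ∈ Bx F ρ | ∃ J : Ideal (𝓞 F), J ≠ ⊥ ∧ T ≤ (Ideal.absNorm J : ℝ) ∧
        Dv (t * J) q}.ncard : ℝ) ≤ C * (vol ρ ^ 5 / ((Ideal.absNorm t : ℝ) ^ 5 * T ^ 4))

/-- **SHB** (200 lines; from `PF.SpecDNS`, `SEL.SpecCNU`). Slightly different boxes.
Proof. Let `q` be in `Bx ρ`, not in `Bx ρ'`. For some `v`: `v a > (ρ' v)^2` or `v b > (ρ' v)^3`. DNS with `I = ⊤`, `x0 = 0`, `s = ρ'^2`, `k = (1+η)^2`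
(`k - 1 ≤ 3 η`, `k ≤ 8`), `ε = η`, `u = v`: at most `(3 C1 η + η) V'^2` values of `a`, `V' = vol ρ' ≤ V`, and at most `C2 V^3` values of `b` (CNU, `V ≥ 1`).
With `s = ρ'^3`, `k = (1+η)^3 ≤ 8`, `k - 1 ≤ 7 η`: at most `(7 C1 η + η) V'^3` values of `b`, at most `C2 V^2` values of `a`. Sum over the places `v`
(at most `n` or `Fintype.card (InfinitePlace F)`). -/
def SpecSHB : Prop :=
  ∀ (F : Type) [Field F] [NumberField F], ∃ C : ℝ, 0 < C ∧ ∀ η : ℝ, 0 < η → η ≤ 1 → ∃ R0 : ℝ,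
    ∀ ρ ρ' : InfinitePlace F → ℝ, (∀ v, R0 ≤ ρ' v) → (∀ v, ρ' v ≤ ρ v ∧ ρ v ≤ (1 + η) * ρ' v) →
      ((Bx F ρ \ Bx F ρ').ncard : ℝ) ≤ C * η * vol ρ ^ 5

/-- **LWA** (250 lines; from TWX, TAL, `PF.SpecDNB`, `SEL.SpecCNU`, `PF.SpecDNV`). Lower bound for one `A`.
Proof. Let `c` be the constant of DNB, `CT` of TAL, `m = N J ≥ 1` (`J` the modulus). `B ≥ 1` with `CT/B^4 ≤ c^2/(4 m^2)`, `S` = the places of norm `≤ B`
(DNV) and those containing `J`; `c1 = c^2/(2 m^2)`. Let `t = pr A`, `N t = NA A`; `J` and `t` are coprime. CRT: `a1 - p.1 ∈ J`, `a1 ∈ t^2`;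
`b1 - p.2 ∈ J`, `b1 ∈ t^3`. DNB: at least `c V^2/(m (N t)^2)` integers `a` with `a - a1 ∈ J t^2`, `v a ≤ (ρ v)^2`, at least `c V^3/(m (N t)^3)` integers `b` with
`b - b1 ∈ J t^3`, `v b ≤ (ρ v)^3` (large `ρ`). The pairs `(a, b)` are `≡ p` modulo `J` and `Dv t (a, b)`. At most `3 C2 V^3` of them have `dsc a b = 0` (for every
`b` at most 3 values of `a`; `EQZM.bad_le` in `PU/EQZ.lean`), which is `≤ (c^2/(4 m^2)) V^5/(N t)^5` for large `ρ` (depending on `A`). At most `CT V^5/((N t)^5 B^4)` have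
`Dv (t J') q` for some `J'` with `N J' ≥ B` (TAL). Let `q` be one of the others, `I` its twist ideal (TWX `ex`): `t ∣ I` (TWX `div`), `I = t s`,
`N s < B`, and a prime `v ∣ s` has norm `≤ N s < B`, so it is in `S`. -/
def SpecLWA : Prop :=
  ∀ (F : Type) [Field F] [NumberField F] (J : Ideal (𝓞 F)) (p : 𝓞 F × 𝓞 F), J ≠ ⊥ →
    ∃ (S : Finset (Pl F)) (B c1 : ℝ), 1 ≤ B ∧ 0 < c1 ∧
      ∀ A : Finset (Pl F), (∀ v ∈ A, v ∉ S) → ∃ R0 : ℝ, ∀ ρ : InfinitePlace F → ℝ, (∀ v, R0 ≤ ρ v) →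
        c1 * (vol ρ ^ 5 / (NA A : ℝ) ^ 5) ≤
          ({q ∈ Bx F ρ | q.1 - p.1 ∈ J ∧ q.2 - p.2 ∈ J ∧ ∃ s : Ideal (𝓞 F), s ≠ ⊥ ∧
            (Ideal.absNorm s : ℝ) ≤ B ∧ (∀ v : Pl F, v ∉ S → ¬ v.asIdeal ∣ s) ∧
            Ex (pr A * s) q}.ncard : ℝ)

/-- **LWC** (150 lines; from LWA, TWX, `SpecCNF`, `SpecWSU`, `SpecIDA`). Lower bound for the pairs with large twist part.
Proof. `S, B, c1` from LWA, `c, Y0` from CNF for `S`, `C` from WSU. `K = (C + 1)/c + 1`: for `Y ≥ max Y0 1` the number of `A ∈ WS S (K Y)` with `NA A > Y` is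
at least `c K Y - C Y ≥ Y`. The sets of LWA for different `A` are disjoint: `pr A s = pr A' s'` (TWX `div` twice: both ideals divide each other), and
`v ∈ A` iff `v ∉ S` and `v ∣ pr A s` (IDA `sqf`; `v` is prime). They are in the set of the claim (`N (pr A s) ≥ NA A > Y`). So its number of elements is at
least `Y c1 V^5/(K Y)^5 = (c1/K^5) V^5/Y^4`. `R0` = the maximum over the finitely many `A`. -/
def SpecLWC : Prop :=
  ∀ (F : Type) [Field F] [NumberField F] (J : Ideal (𝓞 F)) (p : 𝓞 F × 𝓞 F), J ≠ ⊥ →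
    ∃ c0 Y1 : ℝ, 0 < c0 ∧ ∀ Y : ℝ, Y1 ≤ Y → ∃ R0 : ℝ, ∀ ρ : InfinitePlace F → ℝ, (∀ v, R0 ≤ ρ v) →
      c0 * (vol ρ ^ 5 / Y ^ 4) ≤ ({q ∈ Bx F ρ | q.1 - p.1 ∈ J ∧ q.2 - p.2 ∈ J ∧
        ∃ I : Ideal (𝓞 F), Y ≤ (Ideal.absNorm I : ℝ) ∧ Dv I q}.ncard : ℝ)

/-- **LWO** (180 lines; from LWA, TWX, `SpecCNF`, `SpecWSU`, `SpecIDA`). Lower bound for the sum of the families in the boxes scaled by `rt I`.
Proof. `S, B, c1` from LWA, `A ∈ WS S (Y/B)`, `r = (NA A)^(1/n) = rt (pr A) ≥ 1`. `vol (fun v => r * ρ v) = NA A V` (`∑_v mult v = n`,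
`InfinitePlace.sum_mult_eq`), so the set of LWA for `A` and the box `r ρ` has at least `c1 V^5` elements. Its elements are in `Fam J p I (rt I ρ)` for
`I = pr A s`, `N I ≤ (NA A) B ≤ Y`, `rt I ≥ r` (the box is larger). For different `A` or different `s` these `I` are different; the total number of elements of the
sets for all `A ∈ WS S (Y/B)` is at most the sum of the claim (map `(A, q) ↦ (I, q)`, injective). `#(WS S (Y/B)) ≥ c Y/B`. -/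
def SpecLWO : Prop :=
  ∀ (F : Type) [Field F] [NumberField F] (J : Ideal (𝓞 F)) (p : 𝓞 F × 𝓞 F), J ≠ ⊥ →
    ∃ c0 Y1 : ℝ, 0 < c0 ∧ ∀ Y : ℝ, Y1 ≤ Y → ∃ R0 : ℝ, ∀ ρ : InfinitePlace F → ℝ, (∀ v, R0 ≤ ρ v) →
      ∀ T : Finset (Ideal (𝓞 F)),
        (∀ I : Ideal (𝓞 F), I ≠ ⊥ → (Ideal.absNorm I : ℝ) ≤ Y → I ∈ T) →
        c0 * Y * vol ρ ^ 5 ≤ ∑ I ∈ T, ((Fam J p I (fun v => rt I * ρ v)).ncard : ℝ)

/-! ## Counting ideals and classes -/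

/-- **TWU** (60 lines; from `SpecTNX`, `SpecWSU`, `SpecGNX`). Upper bound for the number of classes.
Proof. `CTWM.class_rep` (file `PU/CTW.lean`): `Tw F Y` is contained in the image of `G.U × WS G.S Y`. -/
def SpecTWU : Prop :=
  ∀ (F : Type) [Field F] [NumberField F], ∃ C : ℝ, 1 ≤ C ∧ ∀ Y : ℝ, 0 ≤ Y →
    ((Tw F Y).ncard : ℝ) ≤ C * Y

/-- **TNB** (120 lines). The norm of the twist by `y/g`.
Proof. At a place `v` where the valuation of `y/g` is odd, `v` divides `I c`: the multiplicity of `v` in `(y) c` is the one in `(g) I`, so the valuations of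
`y/g` and of `I/c` agree, and if `v` divides neither `I` nor `c` both are 0. (`v.valuation F y = v.intValuation y`, `intValuation_def`, `associates count`; or: if `v ∤ I c`
then the multiplicities of `v` in `(y)` and `(g)` are equal.) So `tn (y/g)` is the product of the norms of distinct primes dividing `I c`; their product
divides `I c` (`PU/IDA.lean`: `IDAM.prod_dvd`, `prod_norm`), and `N (I c) = N I N c`. See `PU/TNX.lean` (`tn_eq`, `od_iff`) for `tn`. -/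
def SpecTNB : Prop :=
  ∀ (F : Type) [Field F] [NumberField F] (g y : 𝓞 F) (I c : Ideal (𝓞 F)), g ≠ 0 → y ≠ 0 → I ≠ ⊥ →
    c ≠ ⊥ → Ideal.span {y} * c = Ideal.span {g} * I →
    tn ((y : F) / (g : F)) ≤ Ideal.absNorm I * Ideal.absNorm c

/-- **BDI** (250 lines; from `SpecIDA`, `SpecWSU`; `CNFM.sq_mul`, `CNFM.tail` in `PU/CNF.lean`). Few ideals have their class in a small set of classes.
Proof. `I = E^2 pr A` (`CNFM.sq_mul`), `E = E_I`. (1) `(c I, class, E_I)` determines `I ∈ T`: let `I, I'` have the same `c, E` and `y/g = (y'/g) z^2`, `z = s/t` with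
integers `s, t ≠ 0`. `y t^2 = y' s^2` and `(y) c = (g) I`, `(y') c = (g) I'`, so `(g) I (y') = (y) c (y') = (g) I' (y)`, `I (y') = I' (y)`, and
`I (y') (t)^2 = I' (y) (t)^2 = I' (y') (s)^2`, `I (t)^2 = I' (s)^2`, `pr A (t)^2 = pr A' (s)^2`. Comparing the parities of the multiplicities: `A = A'` (`v ∈ A` iff the
multiplicity of `v` in the ideal is odd). (2) Let `C` be the maximum of the constants of IDA `upp` and WSU, `B' ≥ 1` an integer with `4 C^2/B' ≤ ε/2`,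
`δ = ε/(2 (IC B) (IC B') + 1)`. The `I ∈ T` with `N E ≤ B'`: at most `IC(B) #Bad IC(B') ≤ (ε/2) Y` (map `I ↦ (c I, class, E)`). The others: `NA A ≤ Y/(N E)^2`, so at most
`∑_(N E > B') C Y/(N E)^2 ≤ 4 C^2 Y/B' ≤ (ε/2) Y` (`CNFM.tail`; `E` runs through the finite set `T.image E`). -/
def SpecBDI : Prop :=
  ∀ (F : Type) [Field F] [NumberField F] (B ε : ℝ), 1 ≤ B → 0 < ε → ∃ δ : ℝ, 0 < δ ∧
    ∀ (Y : ℝ) (Bad : Set (SqC F)), 1 ≤ Y → Bad.Finite → (Bad.ncard : ℝ) ≤ δ * Y →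
    ∀ (T : Finset (Ideal (𝓞 F))) (g : 𝓞 F) (y : Ideal (𝓞 F) → 𝓞 F) (c : Ideal (𝓞 F) → Ideal (𝓞 F)),
      g ≠ 0 → (∀ I ∈ T, I ≠ ⊥ ∧ (Ideal.absNorm I : ℝ) ≤ Y ∧ y I ≠ 0 ∧ c I ≠ ⊥ ∧
        (Ideal.absNorm (c I) : ℝ) ≤ B ∧ Ideal.span {y I} * c I = Ideal.span {g} * I ∧
        ∃ D : Fˣ, (D : F) = (y I : F) / (g : F) ∧ (QuotientGroup.mk D : SqC F) ∈ Bad) →
      (T.card : ℝ) ≤ ε * Y

/-! ## The main lemma and the final theorems (helper18) -/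

/-- **MLM** (from all). The sum over the ideals `I` of norm at most `Y` of the deviations from the law for the curves with twist ideal `I`, in
boxes comparable to `rt I * ρ`. -/
def SpecMLM : Prop :=
  ∀ (F : Type) [Field F] [NumberField F] (J : Ideal (𝓞 F)) (p : 𝓞 F × 𝓞 F) (ε Λ : ℝ), J ≠ ⊥ →
    0 < ε → 1 ≤ Λ → ∃ Y0 : ℝ, ∀ Y : ℝ, Y0 ≤ Y → ∃ R0 : ℝ, ∀ ρ : InfinitePlace F → ℝ,
    (∀ v, R0 ≤ ρ v) → ∀ (T : Finset (Ideal (𝓞 F))) (l : Ideal (𝓞 F) → InfinitePlace F → ℝ),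
    (∀ I ∈ T, I ≠ ⊥ ∧ (Ideal.absNorm I : ℝ) ≤ Y) → (∀ I ∈ T, ∀ v, Λ⁻¹ ≤ l I v ∧ l I v ≤ Λ) →
    ∀ d : ℕ, ∑ I ∈ T,
      |({q ∈ Fam J p I (fun v => l I v * (rt I * ρ v)) |
          Nat.card (Sel 2 (curve (q.1 : F) (q.2 : F))) = 2 ^ d}.ncard : ℝ) -
        PR.law d * ((Fam J p I (fun v => l I v * (rt I * ρ v))).ncard : ℝ)| ≤ ε * Y * vol ρ ^ 5

/-- **FNC**. The law for the curves with large twist part, in the height ordering. -/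
def SpecFNC : Prop :=
  ∀ (F : Type) [Field F] [NumberField F] (J : Ideal (𝓞 F)) (p : 𝓞 F × 𝓞 F) (ε : ℝ), J ≠ ⊥ →
    0 < ε → ∃ Y0 : ℝ, ∀ Y : ℝ, Y0 ≤ Y → ∃ c X0 : ℝ, 0 < c ∧ ∀ X : InfinitePlace F → ℝ,
    (∀ v, X0 ≤ X v) → ∀ Φ : Set (𝓞 F × 𝓞 F), Φ = {q ∈ Box F X | q.1 - p.1 ∈ J ∧ q.2 - p.2 ∈ J ∧
      ∃ I : Ideal (𝓞 F), Y ≤ (Ideal.absNorm I : ℝ) ∧ Dv I q} →
    c * ((Box F X).ncard : ℝ) ≤ (Φ.ncard : ℝ) ∧ ∀ d : ℕ,
      |({q ∈ Φ | Nat.card (Sel 2 (curve (q.1 : F) (q.2 : F))) = 2 ^ d}.ncard : ℝ) -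
        PR.law d * (Φ.ncard : ℝ)| ≤ ε * (Φ.ncard : ℝ)

end Pool.Agent.Lib.MP_8cb858_nt.PV
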