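import Pool.Agent.Lib.MP_8cb858_nt.PR.SpecDN
import Pool.Agent.Lib.MP_8cb858_nt.PF.SpecDN
import Pool.Agent.Lib.MP_8cb858_nt.PF.SpecG
import Pool.Agent.Lib.MP_8cb858_nt.PU.SpecT
import Pool.Agent.Lib.MP_8cb858_nt.PU.SpecQ
import Pool.Agent.Lib.MP_8cb858_nt.PV.SpecV
import Pool.Agent.Lib.MP_8cb858_nt.SEL.LO1

section
/-! Module DNX (helper14): a product. -/
namespace Pool.Agent.Lib.MP_8cb858_nt.PR

namespace DNXM

theorem prod_Ico (n : ℕ) (hn : 5 ≤ n) :
    ∏ j ∈ Finset.Ico 5 n, (1 - 4 / (j : ℝ) ^ 2) =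
      (2 / 5) * ((n : ℝ) * (n + 1)) / (((n : ℝ) - 2) * (n - 1)) := by
  induction n, hn using Nat.le_induction with
  | base => norm_num
  | succ n hn ih =>
    rw [Finset.prod_Ico_succ_top hn, ih]
    have h : (5 : ℝ) ≤ n := by exact_mod_cast hn
    have h1 : (n : ℝ) ≠ 0 := by linarith
    have h2 : (n : ℝ) - 2 ≠ 0 := by linarith
    have h3 : (n : ℝ) - 1 ≠ 0 := by linarith
    have h4 : (n : ℝ) + 1 - 2 ≠ 0 := by linarith
    have h5 : (n : ℝ) + 1 - 1 ≠ 0 := by linarith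
    push_cast
    field_simp
    ring

theorem pos {j : ℕ} (hj : 5 ≤ j) : 0 < 1 - 4 / (j : ℝ) ^ 2 := by
  have h : (5 : ℝ) ≤ j := by exact_mod_cast hj
  rw [sub_pos, div_lt_one (by positivity)]
  nlinarith

theorem le_one (j : ℕ) : 1 - 4 / (j : ℝ) ^ 2 ≤ 1 := by
  have : 0 ≤ 4 / (j : ℝ) ^ 2 := by positivity
  linarith

end DNXM

theorem specDNX : SpecDNX := by
  intro s hs
  obtain ⟨N, hN⟩ := s.exists_nat_subset_range
  set n := max N 5 with hn
  have h5 : 5 ≤ n := le_max_right _ _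
  have hsub : s ⊆ Finset.Ico 5 n := fun j hj =>
    Finset.mem_Ico.2 ⟨hs j hj, (Finset.mem_range.1 (hN hj)).trans_le (le_max_left _ _)⟩
  have h1 : ∏ j ∈ Finset.Ico 5 n, (1 - 4 / (j : ℝ) ^ 2) ≤ ∏ j ∈ s, (1 - 4 / (j : ℝ) ^ 2) := by
    rw [← Finset.prod_sdiff hsub]
    refine mul_le_of_le_one_left (Finset.prod_nonneg fun j hj => (DNXM.pos (hs j hj)).le) ?_
    refine Finset.prod_le_one (fun j hj => ?_) fun j _ => DNXM.le_one j
    exact (DNXM.pos (Finset.mem_Ico.1 (Finset.mem_sdiff.1 hj).1).1).le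
  refine le_trans ?_ h1
  rw [DNXM.prod_Ico n h5]
  have h : (5 : ℝ) ≤ n := by exact_mod_cast h5
  have h2 : 0 < (n : ℝ) - 2 := by linarith
  have h3 : 0 < (n : ℝ) - 1 := by linarith
  rw [le_div_iff₀ (by positivity)]
  nlinarith

end Pool.Agent.Lib.MP_8cb858_nt.PR
end

section
/-!
# Phase 2, block DN, module DNV (helper65): places of bounded norm
-/
namespace Pool.Agent.Lib.MP_8cb858_nt.PF

open NumberField IsDedekindDomain Pool.Agent.Lib.MP_8cb858_nt.SEL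
open scoped Classical

namespace DNVM

variable {F : Type} [Field F] [NumberField F]

theorem nv_ne_zero (v : HeightOneSpectrum (𝓞 F)) : nv v ≠ 0 := by
  unfold nv
  rw [Ne, Ideal.absNorm_eq_zero_iff]
  exact v.ne_bot

theorem nv_ne_one (v : HeightOneSpectrum (𝓞 F)) : nv v ≠ 1 := by
  unfold nv
  rw [Ne, Ideal.absNorm_eq_one_iff]
  exact v.isPrime.ne_top

theorem two_le_nv (v : HeightOneSpectrum (𝓞 F)) : 2 ≤ nv v := by
  have := nv_ne_zero v
  have := nv_ne_one v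
  omega

theorem nv_mem (v : HeightOneSpectrum (𝓞 F)) : ((nv v : ℕ) : 𝓞 F) ∈ v.asIdeal :=
  Ideal.absNorm_mem _

/-- the norm of `(p)` -/
theorem norm_nat (p : ℕ) :
    Ideal.absNorm (Ideal.span {((p : ℕ) : 𝓞 F)}) = p ^ Module.finrank ℚ F := by
  rw [Ideal.absNorm_span_singleton]
  have h : (((p : ℕ) : 𝓞 F)) = algebraMap ℤ (𝓞 F) (p : ℤ) := by simp
  rw [h, Algebra.norm_algebraMap, NumberField.RingOfIntegers.rank, Int.natAbs_pow, Int.natAbs_natCast]

theorem le_span {v : HeightOneSpectrum (𝓞 F)} {p : ℕ} (hp : (p : 𝓞 F) ∈ v.asIdeal) :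
    v.asIdeal ∣ Ideal.span {((p : ℕ) : 𝓞 F)} := by
  rw [Ideal.dvd_iff_le, Ideal.span_singleton_le_iff_mem]
  exact hp

/-- if a prime number `p` lies in `v` then `nv v` is a positive power of `p` -/
theorem nv_pow {v : HeightOneSpectrum (𝓞 F)} {p : ℕ} (hp : p.Prime) (hv : (p : 𝓞 F) ∈ v.asIdeal) :
    ∃ f : ℕ, 0 < f ∧ nv v = p ^ f := by
  have h1 : nv v ∣ p ^ Module.finrank ℚ F := by
    rw [← norm_nat (F := F) p]
    exact Ideal.absNorm_dvd_absNorm_of_le (Ideal.dvd_iff_le.1 (le_span hv))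
  obtain ⟨f, -, hf⟩ := (Nat.dvd_prime_pow hp).1 h1
  refine ⟨f, Nat.pos_of_ne_zero fun h0 => ?_, hf⟩
  rw [h0, pow_zero] at hf
  exact nv_ne_one v hf

theorem le_nv {v : HeightOneSpectrum (𝓞 F)} {p : ℕ} (hp : p.Prime) (hv : (p : 𝓞 F) ∈ v.asIdeal) :
    p ≤ nv v := by
  obtain ⟨f, hf, h⟩ := nv_pow hp hv
  rw [h]
  exact Nat.le_self_pow hf.ne' p

/-- at most `n` places over a prime number -/
theorem card_over (p : ℕ) (hp : p.Prime) (S : Finset (HeightOneSpectrum (𝓞 F)))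
    (hS : ∀ v ∈ S, (p : 𝓞 F) ∈ v.asIdeal) : S.card ≤ Module.finrank ℚ F := by
  have hinj : Function.Injective (fun v : HeightOneSpectrum (𝓞 F) => v.asIdeal) :=
    fun v w h => HeightOneSpectrum.ext h
  have hdvd : ∏ v ∈ S, v.asIdeal ∣ Ideal.span {((p : ℕ) : 𝓞 F)} := by
    rw [← Finset.prod_image (f := fun I : Ideal (𝓞 F) => I) (g := fun v : HeightOneSpectrum (𝓞 F) => v.asIdeal)
      (fun v _ w _ h => hinj h)]
    apply Finset.prod_primes_dvd
    · intro I hI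
      obtain ⟨v, -, rfl⟩ := Finset.mem_image.1 hI
      exact v.prime
    · intro I hI
      obtain ⟨v, hv, rfl⟩ := Finset.mem_image.1 hI
      exact le_span (hS v hv)
  have h1 : ∏ v ∈ S, nv v ∣ p ^ Module.finrank ℚ F := by
    rw [← norm_nat (F := F) p]
    have := Ideal.absNorm_dvd_absNorm_of_le (Ideal.dvd_iff_le.1 hdvd)
    rw [map_prod] at this
    exact this
  have h2 : p ^ S.card ≤ ∏ v ∈ S, nv v := by
    rw [← Finset.prod_const]
    exact Finset.prod_le_prod (fun _ _ => Nat.zero_le _) fun v hv => le_nv hp (hS v hv)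
  have h3 := h2.trans (Nat.le_of_dvd (pow_pos hp.pos _) h1)
  exact (Nat.pow_le_pow_iff_right hp.one_lt).1 h3

/-- every place contains a prime number -/
theorem exists_prime (v : HeightOneSpectrum (𝓞 F)) : ∃ p : ℕ, p.Prime ∧ (p : 𝓞 F) ∈ v.asIdeal := by
  have hex : ∃ m : ℕ, 0 < m ∧ (m : 𝓞 F) ∈ v.asIdeal :=
    ⟨nv v, Nat.pos_of_ne_zero (nv_ne_zero v), nv_mem v⟩
  obtain ⟨m0, hm⟩ := hex
  set m := Nat.find (p := fun m : ℕ => 0 < m ∧ (m : 𝓞 F) ∈ v.asIdeal) ⟨m0, hm⟩ with hmd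
  obtain ⟨m1, m2⟩ := Nat.find_spec (p := fun m : ℕ => 0 < m ∧ (m : 𝓞 F) ∈ v.asIdeal) ⟨m0, hm⟩
  rw [← hmd] at m1 m2
  have hm1 : m ≠ 1 := by
    intro h
    rw [h, Nat.cast_one] at m2
    exact v.isPrime.ne_top ((Ideal.eq_top_iff_one _).2 m2)
  refine ⟨m.minFac, Nat.minFac_prime hm1, ?_⟩
  obtain ⟨k, hk⟩ := Nat.minFac_dvd m
  have h2 : ((m.minFac : ℕ) : 𝓞 F) * ((k : ℕ) : 𝓞 F) ∈ v.asIdeal := by
    rw [← Nat.cast_mul, ← hk]
    exact m2
  rcases v.isPrime.mem_or_mem h2 with h | h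
  · exact h
  · exfalso
    have hk0 : 0 < k := Nat.pos_of_ne_zero fun h0 => by rw [h0, mul_zero] at hk; omega
    have hkm : k < m := by
      have h2 := (Nat.minFac_prime hm1).two_le
      nlinarith
    exact Nat.find_min (p := fun m : ℕ => 0 < m ∧ (m : 𝓞 F) ∈ v.asIdeal) ⟨m0, hm⟩
      (by rw [← hmd]; exact hkm) ⟨hk0, h⟩

theorem card_norm (m : ℕ) (S : Finset (HeightOneSpectrum (𝓞 F))) (hS : ∀ v ∈ S, nv v = m) :
    S.card ≤ Module.finrank ℚ F := by
  rcases S.eq_empty_or_nonempty with rfl | ⟨v0, hv0⟩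
  · simp
  obtain ⟨p, hp, hpv⟩ := exists_prime v0
  obtain ⟨f, hf, h⟩ := nv_pow hp hpv
  refine card_over p hp S fun v hv => ?_
  have h1 : ((p : ℕ) : 𝓞 F) ^ f ∈ v.asIdeal := by
    have e : nv v = p ^ f := by rw [hS v hv, ← hS v0 hv0, h]
    have := nv_mem v
    rw [e, Nat.cast_pow] at this
    exact this
  exact v.isPrime.mem_of_pow_mem f h1

theorem fin_of_card {α : Type} (X : Set α) (n : ℕ) (h : ∀ S : Finset α, (∀ x ∈ S, x ∈ X) → S.card ≤ n) :
    X.Finite ∧ X.ncard ≤ n := by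
  have hf : X.Finite := by
    by_contra hinf
    obtain ⟨t, ht, hc⟩ := (Set.Infinite.exists_subset_card_eq hinf (n + 1))
    have := h t (fun x hx => ht hx)
    omega
  refine ⟨hf, ?_⟩
  rw [Set.ncard_eq_toFinset_card X hf]
  exact h _ fun x hx => (hf.mem_toFinset).1 hx

theorem ncard_over (p : ℕ) (hp : p.Prime) :
    {v : HeightOneSpectrum (𝓞 F) | (p : 𝓞 F) ∈ v.asIdeal}.Finite ∧
    {v : HeightOneSpectrum (𝓞 F) | (p : 𝓞 F) ∈ v.asIdeal}.ncard ≤ Module.finrank ℚ F :=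
  fin_of_card _ _ fun S hS => card_over p hp S hS

theorem ncard_le (x : ℝ) : {v : HeightOneSpectrum (𝓞 F) | (nv v : ℝ) ≤ x}.Finite ∧
    {v : HeightOneSpectrum (𝓞 F) | (nv v : ℝ) ≤ x}.ncard ≤
      Nat.primeCounting ⌊x⌋₊ * Module.finrank ℚ F := by
  obtain ⟨P, hP⟩ : ∃ P : Finset ℕ, P = (Finset.range (⌊x⌋₊ + 1)).filter Nat.Prime := ⟨_, rfl⟩
  have hcard : P.card = Nat.primeCounting ⌊x⌋₊ := by
    rw [Nat.primeCounting, Nat.primeCounting', Nat.count_eq_card_filter_range, hP]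
  have hsub : {v : HeightOneSpectrum (𝓞 F) | (nv v : ℝ) ≤ x} ⊆
      ⋃ p ∈ P, {v : HeightOneSpectrum (𝓞 F) | (p : 𝓞 F) ∈ v.asIdeal} := by
    intro v hv
    obtain ⟨p, hp, hpv⟩ := exists_prime v
    refine Set.mem_iUnion₂.2 ⟨p, ?_, hpv⟩
    rw [hP, Finset.mem_filter, Finset.mem_range]
    refine ⟨Nat.lt_succ_of_le (Nat.le_floor ?_), hp⟩
    have h1 : (p : ℝ) ≤ nv v := by exact_mod_cast le_nv hp hpv
    exact h1.trans hv
  have hfin : (⋃ p ∈ P, {v : HeightOneSpectrum (𝓞 F) | (p : 𝓞 F) ∈ v.asIdeal}).Finite := by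
    refine Set.Finite.biUnion (Finset.finite_toSet P) fun p hp => ?_
    have hp' : p ∈ P := hp
    rw [hP, Finset.mem_filter] at hp'
    exact (ncard_over p hp'.2).1
  refine ⟨hfin.subset hsub, ?_⟩
  refine (Set.ncard_le_ncard hsub hfin).trans ((Finset.set_ncard_biUnion_le P _).trans ?_)
  rw [← hcard, ← smul_eq_mul, ← Finset.sum_const]
  refine Finset.sum_le_sum fun p hp => ?_
  rw [hP, Finset.mem_filter] at hp
  exact (ncard_over p hp.2).2

/-- Chebyshev (from `PR/DNT.lean`) -/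
theorem cheb (c : ℝ) (hc : 0 < c) : ∃ x0 : ℝ, ∀ x : ℝ, x0 ≤ x →
    (Nat.primeCounting ⌊x⌋₊ : ℝ) ≤ c * x := by
  have h1 := Chebyshev.eventually_primeCounting_le (ε := 1) one_pos
  have h2 := Real.tendsto_log_atTop.eventually_ge_atTop ((Real.log 4 + 1) / c)
  have h3 := Filter.eventually_ge_atTop (2 : ℝ)
  obtain ⟨x0, hx0⟩ := Filter.eventually_atTop.1 (h1.and (h2.and h3))
  refine ⟨x0, fun x hx => ?_⟩
  obtain ⟨g1, g2, g3⟩ := hx0 x hx
  refine g1.trans ?_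
  have hlog : 0 < Real.log x := Real.log_pos (by linarith)
  rw [div_le_iff₀ hlog]
  rw [div_le_iff₀ hc] at g2
  have hx0' : 0 ≤ x := by linarith
  nlinarith [mul_le_mul_of_nonneg_right g2 hx0']

theorem five_le (v : HeightOneSpectrum (𝓞 F)) (h6 : (6 : 𝓞 F) ∉ v.asIdeal) : 5 ≤ nv v := by
  by_contra hc
  have h2 := two_le_nv v
  have hm := nv_mem v
  have hk : ∀ k l : ℕ, k * l = 6 → (k : 𝓞 F) ∈ v.asIdeal → False := by
    intro k l hkl hk
    apply h6
    have : (6 : 𝓞 F) = (l : 𝓞 F) * (k : 𝓞 F) := by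
      rw [← Nat.cast_mul, mul_comm l k, hkl]
      norm_num
    rw [this]
    exact Ideal.mul_mem_left _ _ hk
  have hcases : nv v = 2 ∨ nv v = 3 ∨ nv v = 4 := by omega
  rcases hcases with h | h | h
  · rw [h] at hm
    exact hk 2 3 (by norm_num) hm
  · rw [h] at hm
    exact hk 3 2 (by norm_num) hm
  · rw [h] at hm
    have : ((4 : ℕ) : 𝓞 F) = ((2 : ℕ) : 𝓞 F) * ((2 : ℕ) : 𝓞 F) := by push_cast; norm_num
    rw [this] at hm
    rcases v.isPrime.mem_or_mem hm with h | h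
    · exact hk 2 3 (by norm_num) h
    · exact hk 2 3 (by norm_num) h

theorem sum_sq (M : ℕ) (hM : 0 < M) (T : Finset ℕ) (hT : ∀ m ∈ T, M < m) :
    ∑ m ∈ T, 1 / (m : ℝ) ^ 2 ≤ 1 / (M : ℝ) := by
  obtain ⟨K, hK⟩ := T.exists_nat_subset_range
  have hsub : T ⊆ Finset.Ioc M (max M K) := fun m hm =>
    Finset.mem_Ioc.2 ⟨hT m hm, (Finset.mem_range.1 (hK hm)).le.trans (le_max_right _ _)⟩
  have h1 := sum_Ioc_inv_sq_le_sub (α := ℝ) hM.ne' (le_max_left M K)
  have h2 : ∑ m ∈ T, 1 / (m : ℝ) ^ 2 ≤ ∑ m ∈ Finset.Ioc M (max M K), ((m : ℝ) ^ 2)⁻¹ := by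
    simp only [one_div]
    exact Finset.sum_le_sum_of_subset_of_nonneg hsub fun _ _ _ => by positivity
  have h3 : (0 : ℝ) ≤ ((max M K : ℕ) : ℝ)⁻¹ := by positivity
  rw [one_div]
  linarith

end DNVM

open DNVM

theorem specDNV : SpecDNV := by
  intro F _ _
  have hn : 0 < Module.finrank ℚ F := Module.finrank_pos
  have hnR : (0 : ℝ) < Module.finrank ℚ F := by exact_mod_cast hn
  refine ⟨card_norm, fun m S hm hS => card_over m hm S hS, fun x => (ncard_le x).1, ?_, ?_, five_le,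
    ?_⟩
  · intro ε hε
    obtain ⟨x0, hx0⟩ := cheb (ε / Module.finrank ℚ F) (by positivity)
    refine ⟨x0, fun x hx => ?_⟩
    have h1 := (ncard_le (F := F) x).2
    have h2 : ({v : HeightOneSpectrum (𝓞 F) | (nv v : ℝ) ≤ x}.ncard : ℝ) ≤
        (Nat.primeCounting ⌊x⌋₊ : ℝ) * Module.finrank ℚ F := by exact_mod_cast h1
    refine h2.trans ((mul_le_mul_of_nonneg_right (hx0 x hx) hnR.le).trans (le_of_eq ?_))
    field_simp
  · intro M S hM hS
    have h1 : ∑ v ∈ S, 1 / (nv v : ℝ) ^ 2 =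
        ∑ m ∈ S.image nv, (S.filter (fun v => nv v = m)).card • (1 / (m : ℝ) ^ 2) :=
      Finset.sum_comp (fun m : ℕ => 1 / (m : ℝ) ^ 2) nv
    rw [h1]
    have h2 : ∑ m ∈ S.image nv, (S.filter (fun v => nv v = m)).card • (1 / (m : ℝ) ^ 2) ≤
        ∑ m ∈ S.image nv, (Module.finrank ℚ F : ℝ) * (1 / (m : ℝ) ^ 2) := by
      refine Finset.sum_le_sum fun m _ => ?_
      rw [nsmul_eq_mul]
      refine mul_le_mul_of_nonneg_right ?_ (by positivity)
      exact_mod_cast card_norm m _ fun v hv => (Finset.mem_filter.1 hv).2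
    refine h2.trans ?_
    rw [← Finset.mul_sum]
    have h3 := sum_sq M hM (S.image nv) (fun m hm => by
      obtain ⟨v, hv, rfl⟩ := Finset.mem_image.1 hm
      exact hS v hv)
    calc (Module.finrank ℚ F : ℝ) * ∑ m ∈ S.image nv, 1 / (m : ℝ) ^ 2
        ≤ (Module.finrank ℚ F : ℝ) * (1 / (M : ℝ)) := mul_le_mul_of_nonneg_left h3 hnR.le
      _ = (Module.finrank ℚ F : ℝ) / (M : ℝ) := by ring
  · intro S hS
    have h5 : ∀ m ∈ S.image nv, 5 ≤ m := by
      intro m hm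
      obtain ⟨v, hv, rfl⟩ := Finset.mem_image.1 hm
      exact five_le v (hS v hv)
    have hg : ∀ m ∈ S.image nv, 0 ≤ 1 - 3 / (m : ℝ) ^ 2 ∧ 1 - 3 / (m : ℝ) ^ 2 ≤ 1 := by
      intro m hm
      have h : (5 : ℝ) ≤ m := by exact_mod_cast h5 m hm
      have hp : 0 ≤ 3 / (m : ℝ) ^ 2 := by positivity
      refine ⟨?_, by linarith⟩
      rw [sub_nonneg, div_le_one (by positivity)]
      nlinarith
    have h1 : ∏ v ∈ S, (1 - 3 / (nv v : ℝ) ^ 2) =
        ∏ m ∈ S.image nv, (1 - 3 / (m : ℝ) ^ 2) ^ (S.filter (fun v => nv v = m)).card :=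
      Finset.prod_comp (fun m : ℕ => 1 - 3 / (m : ℝ) ^ 2) nv
    rw [h1]
    have h2 : ∏ m ∈ S.image nv, (1 - 3 / (m : ℝ) ^ 2) ^ Module.finrank ℚ F ≤
        ∏ m ∈ S.image nv, (1 - 3 / (m : ℝ) ^ 2) ^ (S.filter (fun v => nv v = m)).card := by
      refine Finset.prod_le_prod (fun m hm => pow_nonneg (hg m hm).1 _) fun m hm => ?_
      exact pow_le_pow_of_le_one (hg m hm).1 (hg m hm).2
        (card_norm m _ fun v hv => (Finset.mem_filter.1 hv).2)
    refine le_trans ?_ h2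
    rw [Finset.prod_pow]
    refine pow_le_pow_left₀ (by norm_num) ?_ _
    refine (PR.specDNX (S.image nv) h5).trans ?_
    refine Finset.prod_le_prod (fun m hm => ?_) fun m hm => ?_
    · have h : (5 : ℝ) ≤ m := by exact_mod_cast h5 m hm
      rw [sub_nonneg, div_le_one (by positivity)]
      nlinarith
    · have h : (5 : ℝ) ≤ m := by exact_mod_cast h5 m hm
      have : 3 / (m : ℝ) ^ 2 ≤ 4 / (m : ℝ) ^ 2 := by gcongr; norm_num
      linarith

end Pool.Agent.Lib.MP_8cb858_nt.PF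
end

section
/-!
# PLC: elementary facts on places (helper73)
-/
set_option autoImplicit false

namespace Pool.Agent.Lib.MP_8cb858_nt.PF

open NumberField IsDedekindDomain Pool.Agent.Lib.MP_8cb858_nt.SEL
open scoped Classical

namespace PLCM

variable {F : Type} [Field F] [NumberField F]

/-- finitely many places contain a nonzero element -/
theorem fin (x : 𝓞 F) (hx : x ≠ 0) : {w : HeightOneSpectrum (𝓞 F) | x ∈ w.asIdeal}.Finite := by
  have h0 : Ideal.span {x} ≠ 0 := by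
    rw [Ne, Ideal.zero_eq_bot, Ideal.span_singleton_eq_bot]
    exact hx
  refine (Ideal.finite_factors h0).subset fun w hw => ?_
  show w.asIdeal ∣ Ideal.span {x}
  rw [Ideal.dvd_iff_le, Ideal.span_singleton_le_iff_mem]
  exact hw

theorem bdd (B : ℕ) : {w : HeightOneSpectrum (𝓞 F) | nv w ≤ B}.Finite := by
  have h := (DNVM.ncard_le (F := F) (B : ℝ)).1
  refine h.subset fun w hw => ?_
  show (nv w : ℝ) ≤ B
  exact_mod_cast hw

theorem dvd (v : HeightOneSpectrum (𝓞 F)) (k : ℕ) (hv : (nv v).Prime) :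
    (k : 𝓞 F) ∈ v.asIdeal ↔ nv v ∣ k := by
  constructor
  · intro hk
    by_contra hcon
    have hco : Nat.Coprime (nv v) k := (Nat.Prime.coprime_iff_not_dvd hv).2 hcon
    have h1 : IsCoprime ((nv v : ℕ) : 𝓞 F) ((k : ℕ) : 𝓞 F) := by
      have h2 : IsCoprime ((nv v : ℕ) : ℤ) ((k : ℕ) : ℤ) := Nat.isCoprime_iff_coprime.2 hco
      have h3 := h2.map (Int.castRingHom (𝓞 F))
      simpa using h3
    obtain ⟨x, y, hxy⟩ := h1
    have h2 : (1 : 𝓞 F) ∈ v.asIdeal := by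
      rw [← hxy]
      exact v.asIdeal.add_mem (v.asIdeal.mul_mem_left _ (DNVM.nv_mem v)) (v.asIdeal.mul_mem_left _ hk)
    exact v.isPrime.ne_top ((Ideal.eq_top_iff_one _).2 h2)
  · rintro ⟨m, rfl⟩
    rw [Nat.cast_mul]
    exact v.asIdeal.mul_mem_right _ (DNVM.nv_mem v)

theorem ex (p : ℕ) (hp : p.Prime) : ∃ w : HeightOneSpectrum (𝓞 F), (p : 𝓞 F) ∈ w.asIdeal := by
  have h1 : Ideal.span {((p : ℕ) : 𝓞 F)} ≠ ⊤ := by
    intro h
    have h2 := DNVM.norm_nat (F := F) p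
    rw [h, Ideal.absNorm_top] at h2
    have h3 : Module.finrank ℚ F ≠ 0 := (Module.finrank_pos (R := ℚ) (M := F)).ne'
    have h4 := Nat.one_lt_pow h3 hp.one_lt
    omega
  obtain ⟨M, hM, hle⟩ := Ideal.exists_le_maximal _ h1
  have hmem : ((p : ℕ) : 𝓞 F) ∈ M := hle (Ideal.mem_span_singleton_self _)
  refine ⟨⟨M, hM.isPrime, ?_⟩, hmem⟩
  intro h0
  rw [h0, Ideal.mem_bot] at hmem
  exact hp.ne_zero (by exact_mod_cast hmem)

end PLCM

/-- **PLC** -/
theorem specPLC : SpecPLC where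
  fin := fun _ _ _ x hx => PLCM.fin x hx
  bdd := fun _ _ _ B => PLCM.bdd B
  ovr := fun _ _ _ p hp => (DNVM.ncard_over p hp).2
  two := fun _ _ _ w => DNVM.two_le_nv w
  low := fun _ _ _ _ _ hp hw => DNVM.le_nv hp hw
  mem := fun _ _ _ w => DNVM.nv_mem w
  dvd := fun _ _ _ v k hv => PLCM.dvd v k hv
  ex := fun _ _ _ p hp => PLCM.ex p hp

end Pool.Agent.Lib.MP_8cb858_nt.PF
end

section
/-!
# Module EUL (helper20): the Euler product over the places
-/
namespace Pool.Agent.Lib.MP_8cb858_nt.PU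

open Polynomial NumberField IsDedekindDomain Filter Pool.Agent.Lib.MP_8cb858_nt.SEL
open Pool.Agent.Lib.MP_8cb858_nt.PF
open scoped Classical WithZero Topology

namespace EULM

variable {F : Type} [Field F] [NumberField F]

/-- exact powers -/
theorem exact_pow (v : Pl F) (I : Ideal (𝓞 F)) (hI : I ≠ ⊥) :
    ∃ (k : ℕ) (c : Ideal (𝓞 F)), I = v.asIdeal ^ k * c ∧ ¬ v.asIdeal ∣ c := by
  have hfin : FiniteMultiplicity v.asIdeal I := by
    apply FiniteMultiplicity.of_prime_left v.prime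
    exact hI
  obtain ⟨c, h1, h2⟩ := hfin.exists_eq_pow_mul_and_not_dvd
  exact ⟨_, c, h1, h2⟩

theorem geo (q : ℕ) (hq : 2 ≤ q) (s : Finset ℕ) :
    ∑ k ∈ s, (1 / (q : ℝ)) ^ k ≤ (1 - 1 / (q : ℝ))⁻¹ := by
  have hq' : (2 : ℝ) ≤ q := by exact_mod_cast hq
  have h0 : (0 : ℝ) ≤ 1 / (q : ℝ) := by positivity
  have h1 : 1 / (q : ℝ) < 1 := by
    rw [div_lt_one (by linarith)]
    linarith
  rw [← tsum_geometric_of_lt_one h0 h1]
  exact (summable_geometric_of_lt_one h0 h1).sum_le_tsum s fun k _ => by positivity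

theorem main (T : Finset (Pl F)) : ∀ J : Finset (Ideal (𝓞 F)),
    (∀ I ∈ J, I ≠ ⊥ ∧ ∀ v : Pl F, v.asIdeal ∣ I → v ∈ T) →
    ∑ I ∈ J, 1 / (Ideal.absNorm I : ℝ) ≤ ∏ v ∈ T, (1 - 1 / (nv v : ℝ))⁻¹ := by
  induction T using Finset.induction_on with
  | empty =>
    intro J hJ
    rw [Finset.prod_empty]
    have h1 : J ⊆ {⊤} := by
      intro I hI
      rw [Finset.mem_singleton]
      by_contra hne
      obtain ⟨P, hP, hPI⟩ := Ideal.exists_le_maximal I hne
      have hPb : P ≠ ⊥ := by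
        rintro rfl
        exact (hJ I hI).1 (le_bot_iff.1 hPI)
      have := (hJ I hI).2 ⟨P, hP.isPrime, hPb⟩ (Ideal.dvd_iff_le.2 hPI)
      exact absurd this (Finset.notMem_empty _)
    calc ∑ I ∈ J, 1 / (Ideal.absNorm I : ℝ)
        ≤ ∑ I ∈ ({⊤} : Finset (Ideal (𝓞 F))), 1 / (Ideal.absNorm I : ℝ) :=
          Finset.sum_le_sum_of_subset_of_nonneg h1 fun _ _ _ => by positivity
      _ = 1 := by rw [Finset.sum_singleton, Ideal.absNorm_top]; norm_num
  | insert v T hvT ih =>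
    intro J hJ
    rw [Finset.prod_insert hvT]
    have hex : ∀ I : Ideal (𝓞 F), ∃ (k : ℕ) (c : Ideal (𝓞 F)), I ≠ ⊥ →
        I = v.asIdeal ^ k * c ∧ ¬ v.asIdeal ∣ c := by
      intro I
      by_cases hI : I = ⊥
      · exact ⟨0, ⊤, fun h => absurd hI h⟩
      · obtain ⟨k, c, h⟩ := exact_pow v I hI
        exact ⟨k, c, fun _ => h⟩
    choose k c hkc using hex
    have hprod : 0 ≤ ∏ w ∈ T, (1 - 1 / (nv w : ℝ))⁻¹ := by
      refine Finset.prod_nonneg fun w _ => ?_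
      have h2 : (2 : ℝ) ≤ nv w := by exact_mod_cast DNVM.two_le_nv w
      have : 1 / (nv w : ℝ) ≤ 1 := by rw [div_le_one (by linarith)]; linarith
      exact inv_nonneg.2 (by linarith)
    have hfib : ∑ I ∈ J, 1 / (Ideal.absNorm I : ℝ) =
        ∑ j ∈ J.image k, ∑ I ∈ J.filter (fun I => k I = j), 1 / (Ideal.absNorm I : ℝ) :=
      (Finset.sum_fiberwise_of_maps_to (fun I hI => Finset.mem_image_of_mem k hI) _).symm
    rw [hfib]
    have hone : ∀ j ∈ J.image k,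
        ∑ I ∈ J.filter (fun I => k I = j), 1 / (Ideal.absNorm I : ℝ) ≤
          (1 / (nv v : ℝ)) ^ j * ∏ w ∈ T, (1 - 1 / (nv w : ℝ))⁻¹ := by
      intro j _
      have h1 : ∑ I ∈ J.filter (fun I => k I = j), 1 / (Ideal.absNorm I : ℝ) =
          (1 / (nv v : ℝ)) ^ j *
            ∑ I ∈ J.filter (fun I => k I = j), 1 / (Ideal.absNorm (c I) : ℝ) := by
        rw [Finset.mul_sum]
        refine Finset.sum_congr rfl fun I hI => ?_
        obtain ⟨hIJ, hk⟩ := Finset.mem_filter.1 hI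
        have h2 := (hkc I (hJ I hIJ).1).1
        conv_lhs => rw [h2]
        rw [map_mul, map_pow, hk, Nat.cast_mul, Nat.cast_pow, one_div_pow]
        show 1 / ((nv v : ℝ) ^ j * (Ideal.absNorm (c I) : ℝ)) = _
        rw [one_div_mul_one_div]
      have h3 : ∑ I ∈ J.filter (fun I => k I = j), 1 / (Ideal.absNorm (c I) : ℝ) =
          ∑ I' ∈ (J.filter (fun I => k I = j)).image c, 1 / (Ideal.absNorm I' : ℝ) := by
        rw [Finset.sum_image]
        intro I hI I' hI' h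
        obtain ⟨hIJ, hk⟩ := Finset.mem_filter.1 hI
        obtain ⟨hIJ', hk'⟩ := Finset.mem_filter.1 hI'
        have e1 := (hkc I (hJ I hIJ).1).1
        have e2 := (hkc I' (hJ I' hIJ').1).1
        have h' : c I = c I' := h
        rw [e1, e2, hk, hk', h']
      rw [h1, h3]
      refine mul_le_mul_of_nonneg_left (ih _ ?_) (by positivity)
      intro I' hI'
      obtain ⟨I, hI, rfl⟩ := Finset.mem_image.1 hI'
      obtain ⟨hIJ, hk⟩ := Finset.mem_filter.1 hI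
      obtain ⟨e1, e2⟩ := hkc I (hJ I hIJ).1
      refine ⟨fun h => (hJ I hIJ).1 ?_, fun w hw => ?_⟩
      · rw [e1, h, Ideal.mul_bot]
      · have h4 : w.asIdeal ∣ I := by
          rw [e1]; exact dvd_mul_of_dvd_right hw _
        rcases Finset.mem_insert.1 ((hJ I hIJ).2 w h4) with h5 | h5
        · subst h5; exact absurd hw e2
        · exact h5
    refine (Finset.sum_le_sum hone).trans ?_
    rw [← Finset.sum_mul]
    exact mul_le_mul_of_nonneg_right (geo (nv v) (DNVM.two_le_nv v) _) hprod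

end EULM

theorem specEUL : SpecEUL := fun _ _ _ T J hJ => EULM.main T J hJ

end Pool.Agent.Lib.MP_8cb858_nt.PU
end

section
/-!
# Module GIV: the second curve does not change
-/
namespace Pool.Agent.Lib.MP_8cb858_nt.PU

open NumberField IsDedekindDomain Pool.Agent.Lib.MP_8cb858_nt.SEL
open Pool.Agent.Lib.MP_8cb858_nt.PF
open scoped Classical

namespace GIVM

variable {F : Type} [Field F] [NumberField F] (S : Dat F)

theorem Kx_sub {p : Fin S.r → Pl F} (E E' : 𝓞 F × 𝓞 F) : S.Kx E p ⊆ S.K2 E E' p := by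
  rw [Dat.K2, Dat.Kx, Dat.Kp, Dat.Kp]
  exact Finset.union_subset_union_right (Finset.image_subset_image Finset.subset_union_left)

theorem Kx_sub' {p : Fin S.r → Pl F} (E E' : 𝓞 F × 𝓞 F) : S.Kx E' p ⊆ S.K2 E E' p := by
  rw [Dat.K2, Dat.Kx, Dat.Kp, Dat.Kp]
  exact Finset.union_subset_union_right (Finset.image_subset_image Finset.subset_union_right)

/-- types of the element of `fs` -/
theorem fs_ty {n : ℕ} {E E' : 𝓞 F × 𝓞 F} {p : Fin S.r → Pl F} {k : ℕ} {a : Fin S.r}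
    (ha : a ∈ S.fs n E E' p k) : ty (p a) E ≤ 1 ∧ ty (p a) E' = 1 := by
  rw [Dat.fs, Finset.mem_filter] at ha
  exact ha.2.1

end GIVM

open GIVM in
theorem specGIV (hEQR : SpecEQR) (hIVT : SpecIVT) (hCLM : SpecCLM) : SpecGIV := by
  intro F _ _ S n E E' lo lo' k p p' hS hll hk hp hp' hR
  obtain ⟨hJ, hJ', hU', hK, hrest⟩ := hEQR.rmv S n E E' (lo + k) p p' hR
  obtain ⟨hA, -, -⟩ := hrest lo lo' hll (by omega) (by omega)
  have hUk : S.Uk n E' E p lo' lo 0 = S.Uk n E' E p' lo' lo 0 := by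
    have e1 : ∀ q : Fin S.r → Pl F, S.Ax n E' E q lo' lo = S.Ax n E E' q lo lo' := by
      intro q
      rw [Dat.Ax, Dat.Ax, Finset.union_comm]
    have e2 : ∀ q : Fin S.r → Pl F, S.As n E' E q lo' (lo' + 0) = ∅ := by
      intro q
      rw [Dat.As]
      simp
    rw [Dat.Uk, Dat.Uk, e1, e1, e2, e2, hA, hU']
  rcases hR with rfl | ⟨a, ha, ha', hj, hcl⟩
  · exact ⟨rfl, rfl⟩
  · have t1 := fs_ty S ha
    have t2 := fs_ty S ha'
    have hcl' : cl (S.Kx E' p) (S.G.pi (p a) : F) = cl (S.Kx E' p) (S.G.pi (p' a) : F) :=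
      hCLM.mon _ _ _ _ (RingOfIntegers.coe_ne_zero_iff.2 (S.G.ne (p a)))
        (RingOfIntegers.coe_ne_zero_iff.2 (S.G.ne (p' a))) (Kx_sub' S E E') hcl
    obtain ⟨-, -, -, h4, -⟩ := hIVT F S E' p p' a hS hp hp' hj (by omega) (by omega) hcl'
    have na : a ∉ S.Ux E' p := by
      rw [Dat.Ux, Finset.mem_filter]
      rintro ⟨-, h⟩
      omega
    have na2 : a ∉ S.Uk n E' E p lo' lo 0 := by
      rw [Dat.Uk, Finset.mem_filter]
      exact fun h => na h.1
    refine ⟨?_, ?_⟩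
    · rw [← hU']
      exact (h4 _ na).2
    · rw [← hUk]
      exact (h4 _ na2).2

end Pool.Agent.Lib.MP_8cb858_nt.PU
end

section
/-!
# Module HSL (helper20): the harmonic sum of the ideals
-/
namespace Pool.Agent.Lib.MP_8cb858_nt.PU

open Polynomial NumberField IsDedekindDomain Filter Pool.Agent.Lib.MP_8cb858_nt.SEL
open Pool.Agent.Lib.MP_8cb858_nt.PF
open scoped Classical WithZero Topology

namespace HSLM

theorem specHSL (hIDA : SpecIDA) : SpecHSL := by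
  intro F _ _
  obtain ⟨κ, hκ, hlim⟩ := hIDA.asy F
  have hev : ∀ᶠ x : ℝ in atTop, κ / 2 < IC F x / x ∧ IC F x / x < 2 * κ :=
    (hlim.eventually (lt_mem_nhds (by linarith : κ / 2 < κ))).and
      (hlim.eventually (gt_mem_nhds (by linarith : κ < 2 * κ)))
  obtain ⟨x1, hx1⟩ := eventually_atTop.1 hev
  set x0 : ℝ := max x1 1 with hx0
  have hx01 : 1 ≤ x0 := le_max_right _ _
  have hb : ∀ x : ℝ, x0 ≤ x → κ / 2 * x ≤ IC F x ∧ IC F x ≤ 2 * κ * x := by
    intro x hx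
    have hxp : 0 < x := by linarith
    obtain ⟨h1, h2⟩ := hx1 x ((le_max_left _ _).trans hx)
    rw [lt_div_iff₀ hxp] at h1
    rw [div_lt_iff₀ hxp] at h2
    exact ⟨h1.le, h2.le⟩
  set JJ : ℝ → Finset (Ideal (𝓞 F)) := fun x => (hIDA.fin F x).toFinset with hJJ
  have hmem : ∀ (x : ℝ) (I : Ideal (𝓞 F)), I ∈ JJ x ↔ I ≠ ⊥ ∧ (Ideal.absNorm I : ℝ) ≤ x := by
    intro x I
    rw [hJJ]
    simp
  have hcard : ∀ x : ℝ, ((JJ x).card : ℝ) = IC F x := by
    intro x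
    unfold IC
    rw [Set.ncard_eq_toFinset_card _ (hIDA.fin F x)]
  have hsub : ∀ x y : ℝ, x ≤ y → JJ x ⊆ JJ y := by
    intro x y h I hI
    rw [hmem] at hI ⊢
    exact ⟨hI.1, hI.2.trans h⟩
  set f : ℝ → ℝ := fun x => ∑ I ∈ JJ x, 1 / (Ideal.absNorm I : ℝ) with hf
  have hf0 : ∀ x, 0 ≤ f x := fun x => Finset.sum_nonneg fun _ _ => by positivity
  have hfm : ∀ x y, x ≤ y → f x ≤ f y := fun x y h =>
    Finset.sum_le_sum_of_subset_of_nonneg (hsub x y h) fun _ _ _ => by positivity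
  have hstep : ∀ x : ℝ, x0 ≤ x → f x + κ / 4 ≤ f (8 * x) := by
    intro x hx
    have hxp : 0 < x := by linarith
    have hs := hsub x (8 * x) (by linarith)
    have h1 : f (8 * x) = f x + ∑ I ∈ JJ (8 * x) \ JJ x, 1 / (Ideal.absNorm I : ℝ) := by
      rw [hf]
      simp only
      rw [add_comm]
      exact (Finset.sum_sdiff hs).symm
    rw [h1]
    have h2 : ((JJ (8 * x) \ JJ x).card : ℝ) = IC F (8 * x) - IC F x := by
      rw [Finset.card_sdiff_of_subset hs, Nat.cast_sub (Finset.card_le_card hs), hcard, hcard]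
    have h3 : 2 * κ * x ≤ ((JJ (8 * x) \ JJ x).card : ℝ) := by
      rw [h2]
      have a1 := (hb (8 * x) (by linarith)).1
      have a2 := (hb x hx).2
      linarith
    have h4 : ((JJ (8 * x) \ JJ x).card : ℝ) * (1 / (8 * x)) ≤
        ∑ I ∈ JJ (8 * x) \ JJ x, 1 / (Ideal.absNorm I : ℝ) := by
      rw [← nsmul_eq_mul, ← Finset.sum_const]
      refine Finset.sum_le_sum fun I hI => ?_
      obtain ⟨h5, h6⟩ := Finset.mem_sdiff.1 hI
      rw [hmem] at h5
      have h7 : (0 : ℝ) < (Ideal.absNorm I : ℝ) := by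
        have : Ideal.absNorm I ≠ 0 := by
          rw [Ne, Ideal.absNorm_eq_zero_iff]; exact h5.1
        exact_mod_cast Nat.pos_of_ne_zero this
      exact one_div_le_one_div_of_le h7 h5.2
    have h5 : κ / 4 = 2 * κ * x * (1 / (8 * x)) := by
      field_simp
      norm_num
    have h6 : 2 * κ * x * (1 / (8 * x)) ≤ ((JJ (8 * x) \ JJ x).card : ℝ) * (1 / (8 * x)) :=
      mul_le_mul_of_nonneg_right h3 (by positivity)
    linarith
  have hpow : ∀ k : ℕ, (k : ℝ) * (κ / 4) ≤ f (8 ^ k * x0) := by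
    intro k
    induction k with
    | zero => simpa using hf0 _
    | succ k ih =>
      have h8 : (1 : ℝ) ≤ 8 ^ k := one_le_pow₀ (by norm_num)
      have h1 := hstep (8 ^ k * x0) (by nlinarith)
      have h2 : 8 * (8 ^ k * x0) = 8 ^ (k + 1) * x0 := by ring
      rw [h2] at h1
      push_cast
      linarith
  have hl8 : 0 < Real.log 8 := Real.log_pos (by norm_num)
  refine ⟨κ / (4 * Real.log 8), κ / 4 * (Real.log x0 / Real.log 8 + 1), by positivity,
    fun y hy => ⟨JJ y, fun I hI => (hmem y I).1 hI, ?_⟩⟩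
  change _ ≤ f y
  rcases lt_or_ge y x0 with hlt | hge
  · refine le_trans ?_ (hf0 y)
    have h1 : Real.log y ≤ Real.log x0 := Real.log_le_log (by linarith) hlt.le
    have h2 : κ / (4 * Real.log 8) * Real.log y ≤ κ / (4 * Real.log 8) * Real.log x0 :=
      mul_le_mul_of_nonneg_left h1 (by positivity)
    have h3 : κ / (4 * Real.log 8) * Real.log x0 = κ / 4 * (Real.log x0 / Real.log 8) := by
      field_simp
    rw [h3] at h2
    nlinarith
  · set k : ℕ := ⌊Real.log (y / x0) / Real.log 8⌋₊ with hk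
    have hx0p : 0 < x0 := by linarith
    have hyx : 1 ≤ y / x0 := by rw [le_div_iff₀ hx0p]; linarith
    have hlog0 : 0 ≤ Real.log (y / x0) := Real.log_nonneg hyx
    have h1 : (k : ℝ) ≤ Real.log (y / x0) / Real.log 8 := Nat.floor_le (by positivity)
    have h2 : Real.log (y / x0) / Real.log 8 < k + 1 := Nat.lt_floor_add_one _
    have h3 : (8 : ℝ) ^ k * x0 ≤ y := by
      rw [← le_div_iff₀ hx0p]
      rw [le_div_iff₀ hl8] at h1
      rw [← Real.log_pow] at h1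
      exact (Real.log_le_log_iff (by positivity) (by positivity)).1 h1
    have h4 := (hpow k).trans (hfm _ _ h3)
    have h5 : Real.log (y / x0) = Real.log y - Real.log x0 :=
      Real.log_div (by linarith) (by linarith)
    rw [h5] at h2
    have h6 : κ / (4 * Real.log 8) * Real.log y - κ / 4 * (Real.log x0 / Real.log 8 + 1) =
        κ / 4 * ((Real.log y - Real.log x0) / Real.log 8 - 1) := by
      field_simp
      ring
    rw [h6]
    refine le_trans ?_ h4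
    rw [mul_comm (k : ℝ)]
    exact mul_le_mul_of_nonneg_left (by linarith) (by positivity)

end HSLM

theorem specHSL (hIDA : SpecIDA) : SpecHSL := HSLM.specHSL hIDA

end Pool.Agent.Lib.MP_8cb858_nt.PU
end

section
/-!
# Module IDA: counting ideals
-/
namespace Pool.Agent.Lib.MP_8cb858_nt.PU

open Polynomial NumberField IsDedekindDomain Filter Pool.Agent.Lib.MP_8cb858_nt.SEL
open Pool.Agent.Lib.MP_8cb858_nt.PF
open scoped Classical WithZero Topology nonZeroDivisors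

namespace IDAM

variable {F : Type} [Field F] [NumberField F]

theorem fin (x : ℝ) : {I : Ideal (𝓞 F) | I ≠ ⊥ ∧ (Ideal.absNorm I : ℝ) ≤ x}.Finite := by
  refine (Ideal.finite_setOfPred_absNorm_le (S := 𝓞 F) ⌊x⌋₊).subset ?_
  rintro I ⟨_, hI⟩
  exact Nat.le_floor hI

theorem IC_eq (x : ℝ) : IC F x =
    (Nat.card {I : (Ideal (𝓞 F))⁰ // (Ideal.absNorm (I : Ideal (𝓞 F)) : ℝ) ≤ x} : ℝ) := by
  unfold IC
  rw [← Nat.card_coe_set_eq]
  congr 1
  refine Nat.card_congr ⟨fun I => ⟨⟨I.1, ?_⟩, I.2.2⟩, fun I => ⟨I.1.1, ?_, I.2⟩, fun _ => rfl,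
    fun _ => rfl⟩
  · exact mem_nonZeroDivisors_iff_ne_zero.2 I.2.1
  · exact mem_nonZeroDivisors_iff_ne_zero.1 I.1.2

theorem asy : ∃ κ : ℝ, 0 < κ ∧ Tendsto (fun x : ℝ => IC F x / x) atTop (𝓝 κ) := by
  refine ⟨_, ?_, (NumberField.Ideal.tendsto_norm_le_div_atTop₀ F).congr fun x => ?_⟩
  · refine div_pos ?_ ?_
    · exact mul_pos (mul_pos (by positivity) (Units.regulator_pos F))
        (Nat.cast_pos.mpr (classNumber_pos F))
    · exact mul_pos (Nat.cast_pos.mpr (Units.torsionOrder_pos F)) <|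
        Real.sqrt_pos_of_pos <| abs_pos.mpr (Int.cast_ne_zero.mpr (discr_ne_zero F))
  · rw [IC_eq]

theorem IC_mono {x y : ℝ} (h : x ≤ y) : IC F x ≤ IC F y := by
  unfold IC
  have h1 : {I : Ideal (𝓞 F) | I ≠ ⊥ ∧ (Ideal.absNorm I : ℝ) ≤ x} ⊆
      {I : Ideal (𝓞 F) | I ≠ ⊥ ∧ (Ideal.absNorm I : ℝ) ≤ y} := fun I hI => ⟨hI.1, hI.2.trans h⟩
  exact_mod_cast Set.ncard_le_ncard h1 (fin y)

theorem IC_nonneg (x : ℝ) : 0 ≤ IC F x := Nat.cast_nonneg _

theorem IC_small {x : ℝ} (h : x < 1) : IC F x = 0 := by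
  unfold IC
  have : {I : Ideal (𝓞 F) | I ≠ ⊥ ∧ (Ideal.absNorm I : ℝ) ≤ x} = ∅ := by
    ext I
    simp only [Set.mem_ofPred_eq, Set.mem_empty_iff_false, iff_false, not_and, not_le]
    intro hI
    have h1 : Ideal.absNorm I ≠ 0 := Ideal.absNorm_eq_zero_iff.not.2 hI
    have h2 : (1 : ℝ) ≤ (Ideal.absNorm I : ℝ) := by exact_mod_cast Nat.one_le_iff_ne_zero.2 h1
    linarith
  rw [this]
  simp

theorem upp : ∃ C : ℝ, 1 ≤ C ∧ ∀ x : ℝ, 0 ≤ x → IC F x ≤ C * x := by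
  obtain ⟨κ, hκ, h⟩ := asy (F := F)
  have h1 := (h.eventually_lt_const (show κ < κ + 1 by linarith)).and (eventually_ge_atTop 1)
  obtain ⟨x0, hx0⟩ := h1.exists_forall_of_atTop
  have hx01 : 1 ≤ x0 := (hx0 x0 le_rfl).2
  refine ⟨max (κ + 1) (IC F x0) , le_max_of_le_left (by linarith), fun x hx => ?_⟩
  rcases lt_or_ge x 1 with hx1 | hx1
  · rw [IC_small hx1]
    exact mul_nonneg (le_max_of_le_left (by linarith)) hx
  · rcases le_or_gt x0 x with hx2 | hx2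
    · have h2 := (hx0 x hx2).1
      rw [div_lt_iff₀ (by linarith)] at h2
      exact h2.le.trans (mul_le_mul_of_nonneg_right (le_max_left _ _) hx)
    · calc IC F x ≤ IC F x0 := IC_mono hx2.le
        _ ≤ max (κ + 1) (IC F x0) := le_max_right _ _
        _ ≤ max (κ + 1) (IC F x0) * x :=
          le_mul_of_one_le_right (le_max_of_le_left (by linarith)) hx1

theorem cop {v w : Pl F} (h : v ≠ w) : IsCoprime v.asIdeal w.asIdeal := by
  rw [Ideal.isCoprime_iff_sup_eq]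
  exact (v.isMaximal.coprime_of_ne w.isMaximal fun he => h (HeightOneSpectrum.ext he))

theorem prod_dvd (B : Finset (Pl F)) (I : Ideal (𝓞 F)) :
    (∀ v ∈ B, v.asIdeal ∣ I) ↔ ∏ v ∈ B, v.asIdeal ∣ I := by
  constructor
  · intro h
    exact Finset.prod_dvd_of_coprime (fun v _ w _ hvw => cop hvw) h
  · intro h v hv
    exact (Finset.dvd_prod_of_mem _ hv).trans h

theorem prod_ne (A : Finset (Pl F)) : ∏ v ∈ A, v.asIdeal ≠ ⊥ := by
  have : ∏ v ∈ A, v.asIdeal ≠ (0 : Ideal (𝓞 F)) := Finset.prod_ne_zero_iff.2 fun v _ => v.ne_bot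
  exact this

theorem prod_norm (A : Finset (Pl F)) : Ideal.absNorm (∏ v ∈ A, v.asIdeal) = NA A := by
  rw [map_prod]
  rfl

theorem NA_pos (A : Finset (Pl F)) : 1 ≤ NA A := by
  rw [← prod_norm]
  exact Nat.one_le_iff_ne_zero.2 (Ideal.absNorm_eq_zero_iff.not.2 (prod_ne A))

theorem dvd_iff (A : Finset (Pl F)) (v : Pl F) : v.asIdeal ∣ ∏ w ∈ A, w.asIdeal ↔ v ∈ A := by
  constructor
  · intro h
    obtain ⟨w, hw, h1⟩ := (Prime.dvd_finsetProd_iff v.prime _).1 h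
    have h2 : v.asIdeal = w.asIdeal := by
      have h3 := Ideal.dvd_iff_le.1 h1
      exact (w.isMaximal.eq_of_le v.isMaximal.ne_top h3).symm
    rwa [HeightOneSpectrum.ext h2]
  · intro h
    exact Finset.dvd_prod_of_mem _ h

theorem dvd_card (B : Finset (Pl F)) (x : ℝ) :
    ({I : Ideal (𝓞 F) | I ≠ ⊥ ∧ (Ideal.absNorm I : ℝ) ≤ x ∧ ∀ v ∈ B, v.asIdeal ∣ I}.ncard : ℝ) =
      IC F (x / NA B) := by
  unfold IC
  congr 1
  set P : Ideal (𝓞 F) := ∏ v ∈ B, v.asIdeal with hP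
  have hP0 : P ≠ 0 := prod_ne B
  have hN : (0 : ℝ) < (NA B : ℝ) := by exact_mod_cast NA_pos B
  have : {I : Ideal (𝓞 F) | I ≠ ⊥ ∧ (Ideal.absNorm I : ℝ) ≤ x ∧ ∀ v ∈ B, v.asIdeal ∣ I} =
      (fun J => P * J) '' {J : Ideal (𝓞 F) | J ≠ ⊥ ∧ (Ideal.absNorm J : ℝ) ≤ x / NA B} := by
    ext I
    simp only [Set.mem_ofPred_eq, Set.mem_image]
    constructor
    · rintro ⟨h1, h2, h3⟩
      obtain ⟨J, rfl⟩ := (prod_dvd B I).1 h3
      refine ⟨J, ⟨fun hJ => h1 ?_, ?_⟩, rfl⟩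
      · rw [hJ]
        exact mul_zero _
      · rw [le_div_iff₀ hN, ← prod_norm, ← Nat.cast_mul, mul_comm, ← map_mul]
        exact h2
    · rintro ⟨J, ⟨h1, h2⟩, rfl⟩
      refine ⟨mul_ne_zero hP0 h1, ?_, (prod_dvd B _).2 (dvd_mul_right _ _)⟩
      rw [le_div_iff₀ hN, ← prod_norm, ← Nat.cast_mul, mul_comm, ← map_mul] at h2
      exact h2
  rw [this, Set.ncard_image_of_injective]
  exact mul_right_injective₀ hP0

end IDAM

open IDAM in
theorem specIDA : SpecIDA where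
  fin := fun _ _ _ x => IDAM.fin x
  asy := fun _ _ _ => IDAM.asy
  upp := fun _ _ _ => IDAM.upp
  dvd := fun _ _ _ B x => dvd_card B x
  sqf := fun _ _ _ A => ⟨prod_ne A, prod_norm A, NA_pos A, fun v => dvd_iff A v⟩

end Pool.Agent.Lib.MP_8cb858_nt.PU
end

section
/-!
# Module MEL (helper20): the theorem of Mertens for the places, lower bound
-/
namespace Pool.Agent.Lib.MP_8cb858_nt.PU

open Polynomial NumberField IsDedekindDomain Filter Pool.Agent.Lib.MP_8cb858_nt.SEL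
open Pool.Agent.Lib.MP_8cb858_nt.PF
open scoped Classical WithZero Topology

namespace MELM

lemma neg_log (q : ℕ) (hq : 2 ≤ q) :
    Real.log (1 - 1 / (q : ℝ))⁻¹ ≤ 1 / (q : ℝ) + 2 * (1 / (q : ℝ) ^ 2) := by
  have hq' : (2 : ℝ) ≤ q := by exact_mod_cast hq
  have h1 : (0 : ℝ) < 1 - 1 / (q : ℝ) := by
    have : 1 / (q : ℝ) < 1 := by rw [div_lt_one (by linarith)]; linarith
    linarith
  have h2 := Real.log_le_sub_one_of_pos (inv_pos.2 h1)
  refine h2.trans ?_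
  have h3 : (1 - 1 / (q : ℝ))⁻¹ - 1 = 1 / ((q : ℝ) - 1) := by
    have : (q : ℝ) - 1 ≠ 0 := by linarith
    have hq0 : (q : ℝ) ≠ 0 := by linarith
    field_simp
    ring
  rw [h3]
  have h4 : 1 / (q : ℝ) + 2 * (1 / (q : ℝ) ^ 2) = ((q : ℝ) + 2) / (q : ℝ) ^ 2 := by
    have hq0 : (q : ℝ) ≠ 0 := by linarith
    field_simp
  rw [h4, div_le_div_iff₀ (by linarith) (by positivity)]
  nlinarith

end MELM

theorem specMEL (hEUL : SpecEUL) (hHSL : SpecHSL) (hDNV : PF.SpecDNV) : SpecMEL := by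
  intro F _ _
  obtain ⟨c, C, hc, hJ⟩ := hHSL F
  obtain ⟨-, -, hfin, -, hsq, -, -⟩ := hDNV F
  set n : ℝ := (Module.finrank ℚ F : ℝ) with hn
  have hn0 : 0 ≤ n := by positivity
  set y1 : ℝ := max 3 (Real.exp (2 * |C| / c)) with hy1
  refine ⟨2 * n + |Real.log (c / 2)| + |Real.log (Real.log y1)| + 1, by positivity, fun y hy => ?_⟩
  refine ⟨(hfin y).toFinset, fun v => by simp, ?_⟩
  set T : Finset (Pl F) := (hfin y).toFinset with hT
  have hTm : ∀ v, v ∈ T ↔ (nv v : ℝ) ≤ y := fun v => by rw [hT]; simp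
  have hS0 : 0 ≤ ∑ v ∈ T, 1 / (nv v : ℝ) := Finset.sum_nonneg fun _ _ => by positivity
  have hlogy : 0 < Real.log y := Real.log_pos (by linarith)
  rcases lt_or_ge y y1 with hlt | hge
  · have h1 : Real.log (Real.log y) ≤ Real.log (Real.log y1) :=
      Real.log_le_log hlogy (Real.log_le_log (by linarith) hlt.le)
    have h2 := le_abs_self (Real.log (Real.log y1))
    have h3 := abs_nonneg (Real.log (c / 2))
    linarith
  · obtain ⟨J, hJ1, hJ2⟩ := hJ y (by linarith)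
    have h1 : ∑ I ∈ J, 1 / (Ideal.absNorm I : ℝ) ≤ ∏ v ∈ T, (1 - 1 / (nv v : ℝ))⁻¹ := by
      refine hEUL F T J fun I hI => ⟨(hJ1 I hI).1, fun v hv => ?_⟩
      rw [hTm]
      have h2 : nv v ≤ Ideal.absNorm I := by
        apply Nat.le_of_dvd
        · have : Ideal.absNorm I ≠ 0 := by
            rw [Ne, Ideal.absNorm_eq_zero_iff]; exact (hJ1 I hI).1
          exact Nat.pos_of_ne_zero this
        · exact Ideal.absNorm_dvd_absNorm_of_le (Ideal.dvd_iff_le.1 hv)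
      have h3 : (nv v : ℝ) ≤ (Ideal.absNorm I : ℝ) := by exact_mod_cast h2
      exact h3.trans (hJ1 I hI).2
    have h2 : 2 * |C| / c ≤ Real.log y := by
      rw [Real.le_log_iff_exp_le (by linarith)]
      exact (le_max_right _ _).trans hge
    have h3 : c / 2 * Real.log y ≤ ∏ v ∈ T, (1 - 1 / (nv v : ℝ))⁻¹ := by
      refine le_trans ?_ (hJ2.trans h1)
      rw [div_le_iff₀ hc] at h2
      have := le_abs_self C
      nlinarith
    have hposv : ∀ v ∈ T, (0 : ℝ) < (1 - 1 / (nv v : ℝ))⁻¹ := by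
      intro v _
      have h2 : (2 : ℝ) ≤ nv v := by exact_mod_cast DNVM.two_le_nv v
      have : 1 / (nv v : ℝ) < 1 := by rw [div_lt_one (by linarith)]; linarith
      exact inv_pos.2 (by linarith)
    have h4 : Real.log (c / 2 * Real.log y) ≤ ∑ v ∈ T, Real.log (1 - 1 / (nv v : ℝ))⁻¹ := by
      rw [← Real.log_prod (fun v hv => (hposv v hv).ne')]
      exact Real.log_le_log (by positivity) h3
    rw [Real.log_mul (by positivity) hlogy.ne'] at h4
    have h5 : ∑ v ∈ T, Real.log (1 - 1 / (nv v : ℝ))⁻¹ ≤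
        ∑ v ∈ T, (1 / (nv v : ℝ) + 2 * (1 / (nv v : ℝ) ^ 2)) :=
      Finset.sum_le_sum fun v _ => MELM.neg_log (nv v) (DNVM.two_le_nv v)
    rw [Finset.sum_add_distrib, ← Finset.mul_sum] at h5
    have h6 : ∑ v ∈ T, 1 / (nv v : ℝ) ^ 2 ≤ n / ((1 : ℕ) : ℝ) :=
      hsq 1 T one_pos fun v _ => by have := DNVM.two_le_nv v; omega
    rw [Nat.cast_one, div_one] at h6
    have h7 := neg_abs_le (Real.log (c / 2))
    have h8 := abs_nonneg (Real.log (Real.log y1))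
    linarith

end Pool.Agent.Lib.MP_8cb858_nt.PU
end

section
/-!
# Module PAI: the pair theorem, over `F`
-/
namespace Pool.Agent.Lib.MP_8cb858_nt.PU

open Polynomial NumberField IsDedekindDomain Pool.Agent.Lib.MP_8cb858_nt.SEL
open Pool.Agent.Lib.MP_8cb858_nt.PF
open scoped Classical WithZero

namespace PAIM

/-- product of two numbers of absolute value at most one -/
theorem prod_diff {x y a b : ℝ} (hy : |y| ≤ 1) (ha : |a| ≤ 1) :
    |x * y - a * b| ≤ |x - a| + |y - b| := by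
  have e : x * y - a * b = (x - a) * y + a * (y - b) := by ring
  rw [e]
  refine (abs_add_le _ _).trans (add_le_add ?_ ?_)
  · rw [abs_mul]
    exact mul_le_of_le_one_right (abs_nonneg _) hy
  · rw [abs_mul]
    exact mul_le_of_le_one_left (abs_nonneg _) ha

theorem prod_two {x y a b : ℝ} (hx : |x| ≤ 1) (hy : |y| ≤ 1) (ha : |a| ≤ 1) (hb : |b| ≤ 1) :
    |x * y - a * b| ≤ 2 := by
  refine (abs_sub _ _).trans ?_
  rw [abs_mul, abs_mul]
  have h1 : |x| * |y| ≤ 1 := mul_le_one₀ hx (abs_nonneg _) hy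
  have h2 : |a| * |b| ≤ 1 := mul_le_one₀ ha (abs_nonneg _) hb
  linarith

/-- The final comparison with the limit law. -/
theorem core {X : Type} (Ω : Finset X) (B : X → Prop) (a b : X → ℕ) (u v : ℕ → ℝ)
    {lu lv δ : ℝ} (H : ℕ) (hu : ∀ k, |u k| ≤ 1) (hv : ∀ k, |v k| ≤ 1) (hlu : |lu| ≤ 1)
    (hlv : |lv| ≤ 1) (hδu : ∀ k ≤ H, |u k - lu| ≤ δ) (hδv : ∀ k ≤ H, |v k - lv| ≤ δ)
    (hδ : 0 ≤ δ)
    (ha : ∑ p ∈ Ω.filter (fun p => ¬ B p), (2 : ℝ) ^ a p ≤ 7 * (Ω.card : ℝ))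
    (hb : ∑ p ∈ Ω.filter (fun p => ¬ B p), (2 : ℝ) ^ b p ≤ 7 * (Ω.card : ℝ)) :
    |∑ p ∈ Ω, u (a p) * v (b p) - lu * lv * (Ω.card : ℝ)| ≤
      (2 * δ + 28 / 2 ^ H) * (Ω.card : ℝ) + 2 * ((Ω.filter B).card : ℝ) := by
  have e1 : ∑ p ∈ Ω, u (a p) * v (b p) - lu * lv * (Ω.card : ℝ) =
      ∑ p ∈ Ω, (u (a p) * v (b p) - lu * lv) := by
    rw [Finset.sum_sub_distrib, Finset.sum_const, nsmul_eq_mul]
    ring
  have hH : (0 : ℝ) < 2 ^ H := by positivity
  have hpt : ∀ p, |u (a p) * v (b p) - lu * lv| ≤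
      2 * δ + 2 / 2 ^ H * 2 ^ a p + 2 / 2 ^ H * 2 ^ b p := by
    intro p
    have n1 : (0 : ℝ) ≤ 2 / 2 ^ H * 2 ^ a p := by positivity
    have n2 : (0 : ℝ) ≤ 2 / 2 ^ H * 2 ^ b p := by positivity
    by_cases h1 : a p ≤ H
    · by_cases h2 : b p ≤ H
      · have := prod_diff (x := u (a p)) (b := lv) (hv (b p)) hlu
        have h3 := hδu _ h1
        have h4 := hδv _ h2
        linarith
      · have h3 := prod_two (hu (a p)) (hv (b p)) hlu hlv
        have h4 : (2 : ℝ) ≤ 2 / 2 ^ H * 2 ^ b p := by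
          rw [div_mul_eq_mul_div, le_div_iff₀ hH]
          exact mul_le_mul_of_nonneg_left (pow_le_pow_right₀ (by norm_num) (by omega))
            (by norm_num)
        linarith
    · have h3 := prod_two (hu (a p)) (hv (b p)) hlu hlv
      have h4 : (2 : ℝ) ≤ 2 / 2 ^ H * 2 ^ a p := by
        rw [div_mul_eq_mul_div, le_div_iff₀ hH]
        exact mul_le_mul_of_nonneg_left (pow_le_pow_right₀ (by norm_num) (by omega))
          (by norm_num)
      linarith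
  rw [e1]
  refine (Finset.abs_sum_le_sum_abs _ _).trans ?_
  rw [← Finset.sum_filter_add_sum_filter_not Ω B]
  have g1 : ∑ p ∈ Ω.filter B, |u (a p) * v (b p) - lu * lv| ≤ 2 * ((Ω.filter B).card : ℝ) := by
    refine (Finset.sum_le_card_nsmul _ _ 2 fun p _ =>
      prod_two (hu (a p)) (hv (b p)) hlu hlv).trans ?_
    rw [nsmul_eq_mul]
    linarith
  have g2 : ∑ p ∈ Ω.filter (fun p => ¬ B p), |u (a p) * v (b p) - lu * lv| ≤
      (2 * δ + 28 / 2 ^ H) * (Ω.card : ℝ) := by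
    refine (Finset.sum_le_sum fun p _ => hpt p).trans ?_
    rw [Finset.sum_add_distrib, Finset.sum_add_distrib, Finset.sum_const, nsmul_eq_mul,
      ← Finset.mul_sum, ← Finset.mul_sum]
    have h1 : ((Ω.filter (fun p => ¬ B p)).card : ℝ) ≤ (Ω.card : ℝ) := by
      exact_mod_cast Finset.card_filter_le _ _
    have h2 : ((Ω.filter (fun p => ¬ B p)).card : ℝ) * (2 * δ) ≤ (Ω.card : ℝ) * (2 * δ) :=
      mul_le_mul_of_nonneg_right h1 (by linarith)
    have h3 := mul_le_mul_of_nonneg_left ha (by positivity : (0 : ℝ) ≤ 2 / 2 ^ H)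
    have h4 := mul_le_mul_of_nonneg_left hb (by positivity : (0 : ℝ) ≤ 2 / 2 ^ H)
    have h5 : (2 * δ + 28 / 2 ^ H) * (Ω.card : ℝ) = (Ω.card : ℝ) * (2 * δ) +
        2 / 2 ^ H * (7 * (Ω.card : ℝ)) + 2 / 2 ^ H * (7 * (Ω.card : ℝ)) := by ring
    rw [h5]
    linarith
  linarith

/-- Replacing a function at the bad points. -/
theorem replace {X : Type} (Ω : Finset X) (B : X → Prop) (f g f' g' : X → ℝ)
    (hf : ∀ p, |f p| ≤ 1) (hg : ∀ p, |g p| ≤ 1) (hf' : ∀ p, |f' p| ≤ 1) (hg' : ∀ p, |g' p| ≤ 1)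
    (h : ∀ p ∈ Ω, ¬ B p → f p = f' p ∧ g p = g' p) :
    |∑ p ∈ Ω, f p * g p - ∑ p ∈ Ω, f' p * g' p| ≤ 2 * ((Ω.filter B).card : ℝ) := by
  rw [← Finset.sum_sub_distrib]
  refine (Finset.abs_sum_le_sum_abs _ _).trans ?_
  rw [← Finset.sum_filter_add_sum_filter_not Ω B]
  have g1 : ∑ p ∈ Ω.filter B, |f p * g p - f' p * g' p| ≤ 2 * ((Ω.filter B).card : ℝ) := by
    refine (Finset.sum_le_card_nsmul _ _ 2 fun p _ =>
      prod_two (hf p) (hg p) (hf' p) (hg' p)).trans ?_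
    rw [nsmul_eq_mul]
    linarith
  have g2 : ∑ p ∈ Ω.filter (fun p => ¬ B p), |f p * g p - f' p * g' p| = 0 := by
    refine Finset.sum_eq_zero fun p hp => ?_
    obtain ⟨h1, h2⟩ := Finset.mem_filter.mp hp
    obtain ⟨h3, h4⟩ := h p h1 h2
    rw [h3, h4, sub_self, abs_zero]
  linarith

variable {F : Type} [Field F] [NumberField F] {S : Dat F} {n : ℕ} {η κ : ℝ} {lo : ℕ}
  {E E' : 𝓞 F × 𝓞 F} {p : Fin S.r → Pl F}

theorem fin_eq (hNST : SpecNST) (hS : S.Ok) (hp : p ∈ S.Om) (hη0 : 0 ≤ η) (hη1 : η < 1 / 2)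
    (hκ : κ < 1 / 3) (hSf : Sf S.M0 E) (hdz : dsc E.1 E.2 ≠ 0)
    (hG : S.Gh n η κ lo E E' p) :
    sc E (S.D1 * S.pp p Finset.univ) = sc E (S.Dx E p (S.Ux E p)) := by
  have hr := hS.rp
  have h12 := hG.t12
  have hne : (S.Ux E p).Nonempty := by
    rw [← Finset.card_pos]
    omega
  obtain ⟨i0, hi0⟩ := hne
  have hiJ : i0 ∉ S.Jx E p := by
    intro h
    have h1 := (Finset.mem_filter.mp h).2
    have h2 := (Finset.mem_filter.mp hi0).2
    omega
  have hdisj : ∀ V : Finset (Fin S.r), Disjoint (S.Jx E p) (Finset.univ \ (S.Jx E p ∪ V)) := by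
    intro V
    rw [Finset.disjoint_left]
    intro x hx hx2
    exact (Finset.mem_sdiff.mp hx2).2 (Finset.mem_union_left _ hx)
  have hNd : S.Nd η κ E E' p (S.Kp p ∅) i0 ∅ :=
    hG.nod i0 ∅ (S.Jx E p ∪ ∅) (S.Jx E p) (Finset.univ \ (S.Jx E p ∪ ∅))
      (Finset.notMem_empty i0) (by rw [Finset.union_empty]; exact hiJ) (hdisj ∅)
  have hAok : S.Aok E p (S.Ux E p) :=
    (hG.nod i0 ∅ ∅ (S.Jx E p) (Finset.univ \ (S.Jx E p ∪ S.Ux E p)) (Finset.notMem_empty i0)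
      (Finset.notMem_empty i0) (hdisj _)).aux
  exact (hNST F S η κ E E' p _ i0 hS hp hη0 hη1 hκ hSf hdz hG.bad hiJ hNd).2 hAok

end PAIM

open PAIM in
theorem specPAI (hKPM : PT.SpecKPM) (hNST : SpecNST) (hTGP : SpecTGP) (hMXP : SpecMXP)
    (hGIV : SpecGIV) : SpecPAI := by
  intro ε hε
  obtain ⟨H, hH⟩ : ∃ H : ℕ, 14 / 2 ^ H ≤ ε / 8 := by
    obtain ⟨H, hH⟩ := exists_pow_lt_of_lt_one (show (0 : ℝ) < ε / 112 by positivity)
      (show (1 / 2 : ℝ) < 1 by norm_num)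
    refine ⟨H, ?_⟩
    rw [one_div, inv_pow] at hH
    rw [div_eq_mul_inv]
    linarith
  obtain ⟨n, hn0, hn⟩ : ∃ n : ℕ, 0 < n ∧ 25 * (7 / 10) ^ n * 2 ^ H ≤ ε / 16 := by
    obtain ⟨n, hn⟩ := exists_pow_lt_of_lt_one
      (show (0 : ℝ) < ε / 16 / (25 * 2 ^ H) by positivity)
      (show (7 / 10 : ℝ) < 1 by norm_num)
    refine ⟨n + 1, Nat.succ_pos n, ?_⟩
    have h1 : (7 / 10 : ℝ) ^ (n + 1) ≤ (7 / 10) ^ n :=
      pow_le_pow_of_le_one (by norm_num) (by norm_num) (Nat.le_succ n)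
    have h2 : (7 / 10 : ℝ) ^ (n + 1) < ε / 16 / (25 * 2 ^ H) := lt_of_le_of_lt h1 hn
    rw [lt_div_iff₀ (by positivity)] at h2
    linarith
  have hnR : (0 : ℝ) < n := by exact_mod_cast hn0
  obtain ⟨η, hηdef⟩ : ∃ η : ℝ, η = min (1 / 1000) (ε / (64 * n)) := ⟨_, rfl⟩
  have hη : 0 < η := by
    rw [hηdef]
    exact lt_min (by norm_num) (by positivity)
  have hη1 : η ≤ 1 / 1000 := by
    rw [hηdef]
    exact min_le_left _ _
  have hη2 : 64 * n * η ≤ ε := by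
    have : η ≤ ε / (64 * n) := by
      rw [hηdef]
      exact min_le_right _ _
    rw [le_div_iff₀ (by positivity)] at this
    linarith
  refine ⟨n, η, η, 4 * n + 4, hn0, hη, hη, hη1, by positivity, ?_⟩
  intro F _ _ S E E' hS hr hSf hdz hSf' hdz' f g hf hg
  have h2n : 2 * n ≤ S.r := by omega
  obtain ⟨B, hB⟩ : ∃ B : (Fin S.r → Pl F) → Prop, B = fun p =>
    ¬ (S.Gh n η η 0 E E' p ∧ S.Gh n η η n E' E p) := ⟨_, rfl⟩
  have hBcard : ((S.Om.filter (fun p => ¬ (S.Gh n η η 0 E E' p ∧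
      S.Gh n η η n E' E p))).card : ℝ) = ((S.Om.filter B).card : ℝ) := by
    congr 2
    ext p
    rw [Finset.mem_filter, Finset.mem_filter]
    simp only [hB]
  rw [hBcard]
  -- step 1
  have st1 := PAIM.replace S.Om B (fun p => f (Nat.log 2 (sc E (S.D1 * S.pp p Finset.univ))))
    (fun p => g (Nat.log 2 (sc E' (S.D1 * S.pp p Finset.univ))))
    (fun p => f (S.sx E p (S.Ux E p))) (fun p => g (S.sx E' p (S.Ux E' p)))
    (fun p => hf _) (fun p => hg _) (fun p => hf _) (fun p => hg _) (by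
      intro p hp hnB
      rw [hB] at hnB
      obtain ⟨hG, hG'⟩ := not_not.mp hnB
      constructor
      · show f _ = f _
        rw [fin_eq hNST hS hp hη.le (by linarith) (by linarith) hSf hdz hG]
        rfl
      · show g _ = g _
        rw [fin_eq hNST hS hp hη.le (by linarith) (by linarith) hSf' hdz' hG']
        rfl)
  -- step 2
  have st2 := hMXP F S n η η E E' 0 n (fun p => g (S.sx E' p (S.Ux E' p))) hS hn0 h2n hη.le
    (by linarith) hη.le (by linarith) hSf hdz (Or.inl ⟨rfl, rfl⟩) (fun p _ => hg _)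
    (fun k hk p hp p' hp' hR => by
      show g _ = g _
      rw [(hGIV F S n E E' 0 n k p p' hS (Or.inl ⟨rfl, rfl⟩) hk hp hp' hR).1]) f hf
  -- step 3
  have hPf := hKPM.bdd f n hf
  have hPg := hKPM.bdd g n hg
  have st3 := hMXP F S n η η E' E n 0
    (fun p => (PT.Pop^[n] f) (S.sx E p (S.Uk n E E' p 0 n 0))) hS hn0 h2n hη.le
    (by linarith) hη.le (by linarith) hSf' hdz' (Or.inr ⟨rfl, rfl⟩) (fun p _ => hPf _)
    (fun k hk p hp p' hp' hR => by
      show (PT.Pop^[n] f) _ = (PT.Pop^[n] f) _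
      rw [(hGIV F S n E' E n 0 k p p' hS (Or.inr ⟨rfl, rfl⟩) hk hp hp' hR).2]) g hg
  -- step 4
  have t1 := hTGP F S n η η E E' 0 n hS hn0 hr hη.le (by linarith) (by linarith) hSf hdz
    (Or.inl ⟨rfl, rfl⟩)
  have t2 := hTGP F S n η η E' E n 0 hS hn0 hr hη.le (by linarith) (by linarith) hSf' hdz'
    (Or.inr ⟨rfl, rfl⟩)
  have hsub1 : S.Om.filter (fun p => ¬ B p) ⊆ S.Om.filter (S.Gh n η η 0 E E') := by
    intro p hp
    obtain ⟨h1, h2⟩ := Finset.mem_filter.mp hp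
    rw [hB] at h2
    exact Finset.mem_filter.mpr ⟨h1, (not_not.mp h2).1⟩
  have hsub2 : S.Om.filter (fun p => ¬ B p) ⊆ S.Om.filter (S.Gh n η η n E' E) := by
    intro p hp
    obtain ⟨h1, h2⟩ := Finset.mem_filter.mp hp
    rw [hB] at h2
    exact Finset.mem_filter.mpr ⟨h1, (not_not.mp h2).2⟩
  have st4 := PAIM.core S.Om B (fun p => S.sx E p (S.Uk n E E' p 0 n 0))
    (fun p => S.sx E' p (S.Uk n E' E p n 0 0)) (PT.Pop^[n] f) (PT.Pop^[n] g) (lu := PT.Lm f)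
    (lv := PT.Lm g) (δ := ε / 16) H hPf hPg (hKPM.lmb f hf) (hKPM.lmb g hg)
    (fun k hk => (hKPM.mix f n k hf).trans ((mul_le_mul_of_nonneg_left
      (pow_le_pow_right₀ (by norm_num) hk) (by positivity)).trans hn))
    (fun k hk => (hKPM.mix g n k hg).trans ((mul_le_mul_of_nonneg_left
      (pow_le_pow_right₀ (by norm_num) hk) (by positivity)).trans hn))
    (by positivity)
    ((Finset.sum_le_sum_of_subset_of_nonneg hsub1 fun _ _ _ => by positivity).trans t1)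
    ((Finset.sum_le_sum_of_subset_of_nonneg hsub2 fun _ _ _ => by positivity).trans t2)
  -- sizes
  have hB1 : ((S.Om.filter (fun p => ¬ S.Gh n η η 0 E E' p)).card : ℝ) ≤
      ((S.Om.filter B).card : ℝ) := by
    have : S.Om.filter (fun p => ¬ S.Gh n η η 0 E E' p) ⊆ S.Om.filter B := by
      intro p hp
      obtain ⟨h1, h2⟩ := Finset.mem_filter.mp hp
      refine Finset.mem_filter.mpr ⟨h1, ?_⟩
      simp only [hB]
      exact fun h => h2 h.1
    exact_mod_cast Finset.card_le_card this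
  have hB2 : ((S.Om.filter (fun p => ¬ S.Gh n η η n E' E p)).card : ℝ) ≤
      ((S.Om.filter B).card : ℝ) := by
    have : S.Om.filter (fun p => ¬ S.Gh n η η n E' E p) ⊆ S.Om.filter B := by
      intro p hp
      obtain ⟨h1, h2⟩ := Finset.mem_filter.mp hp
      refine Finset.mem_filter.mpr ⟨h1, ?_⟩
      simp only [hB]
      exact fun h => h2 h.2
    exact_mod_cast Finset.card_le_card this
  -- the sum of the errors
  obtain ⟨N, hN⟩ : ∃ N : ℝ, N = (S.Om.card : ℝ) := ⟨_, rfl⟩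
  obtain ⟨b, hb⟩ : ∃ b : ℝ, b = ((S.Om.filter B).card : ℝ) := ⟨_, rfl⟩
  rw [← hN] at st2 st3 st4 ⊢
  rw [← hb] at st1 st4 hB1 hB2 ⊢
  have hN0 : 0 ≤ N := by rw [hN]; positivity
  have c1 : 2 * (n : ℝ) * ((S.Om.filter (fun p => ¬ S.Gh n η η 0 E E' p)).card : ℝ) ≤
      2 * n * b := mul_le_mul_of_nonneg_left hB1 (by positivity)
  have c2 : 2 * (n : ℝ) * ((S.Om.filter (fun p => ¬ S.Gh n η η n E' E p)).card : ℝ) ≤
      2 * n * b := mul_le_mul_of_nonneg_left hB2 (by positivity)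
  have c3 : (n : ℝ) * (4 * η + 4 * η) * N ≤ ε / 8 * N :=
    mul_le_mul_of_nonneg_right (by linarith) hN0
  have c4 : 28 / 2 ^ H * N ≤ ε / 4 * N := by
    refine mul_le_mul_of_nonneg_right ?_ hN0
    have : (28 : ℝ) / 2 ^ H = 2 * (14 / 2 ^ H) := by ring
    rw [this]
    linarith
  have comm3 : ∑ p ∈ S.Om, g (S.sx E' p (S.Ux E' p)) *
      (PT.Pop^[n] f) (S.sx E p (S.Uk n E E' p 0 n 0)) =
      ∑ p ∈ S.Om, (PT.Pop^[n] f) (S.sx E p (S.Uk n E E' p 0 n 0)) *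
        g (S.sx E' p (S.Ux E' p)) := Finset.sum_congr rfl fun p _ => mul_comm _ _
  have comm4 : ∑ p ∈ S.Om, (PT.Pop^[n] g) (S.sx E' p (S.Uk n E' E p n 0 0)) *
      (PT.Pop^[n] f) (S.sx E p (S.Uk n E E' p 0 n 0)) =
      ∑ p ∈ S.Om, (PT.Pop^[n] f) (S.sx E p (S.Uk n E E' p 0 n 0)) *
        (PT.Pop^[n] g) (S.sx E' p (S.Uk n E' E p n 0 0)) :=
    Finset.sum_congr rfl fun p _ => mul_comm _ _
  simp only [comm3, comm4] at st3
  obtain ⟨T0, hT0⟩ : ∃ T0 : ℝ, T0 = ∑ p ∈ S.Om,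
    f (Nat.log 2 (sc E (S.D1 * S.pp p Finset.univ))) *
      g (Nat.log 2 (sc E' (S.D1 * S.pp p Finset.univ))) := ⟨_, rfl⟩
  rw [← hT0] at st1 ⊢
  rw [abs_le] at st1 st2 st3 st4 ⊢
  have d1 : (4 * (n : ℝ) + 4) * b = 4 * n * b + 4 * b := by ring
  have d2 : (2 * (ε / 16) + 28 / 2 ^ H) * N = ε / 8 * N + 28 / 2 ^ H * N := by ring
  have d3 : 0 ≤ ε * N := by positivity
  rw [d2] at st4
  rw [d1]
  constructor
  · linarith [st1.1, st2.1, st3.1, st4.1]
  · linarith [st1.2, st2.2, st3.2, st4.2]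

end Pool.Agent.Lib.MP_8cb858_nt.PU
end

section
/-!
# PRX: the proportions
-/
namespace Pool.Agent.Lib.MP_8cb858_nt.PU

open Polynomial NumberField IsDedekindDomain Filter Pool.Agent.Lib.MP_8cb858_nt.SEL
open Pool.Agent.Lib.MP_8cb858_nt.PF
open scoped Classical WithZero Topology

theorem specPRX (hGEN : SpecGEN) (hBOX : PF.SpecBOX) : SpecPRX := by
  intro F _ _ R0
  obtain ⟨hbox, _, _, _⟩ := hBOX F
  have hex : ∃ X0 : ℝ, ∀ x : ℝ, X0 ≤ x → 0 ≤ x ∧ ∀ v : InfinitePlace F,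
      R0 ≤ x ^ (1 / (6 * (v.mult : ℝ))) := by
    have hev : ∀ᶠ x : ℝ in atTop, ∀ v ∈ (Finset.univ : Finset (InfinitePlace F)),
        R0 ≤ x ^ (1 / (6 * (v.mult : ℝ))) := by
      rw [Filter.eventually_all_finset]
      intro v _
      have hm : (0 : ℝ) < 1 / (6 * (v.mult : ℝ)) := by
        have : (0 : ℝ) < v.mult := by exact_mod_cast v.mult_pos
        positivity
      exact (tendsto_rpow_atTop hm).eventually_ge_atTop R0
    obtain ⟨X0, hX0⟩ := eventually_atTop.1 (hev.and (eventually_ge_atTop (0 : ℝ)))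
    exact ⟨X0, fun x hx => ⟨(hX0 x hx).2, fun v => (hX0 x hx).1 v (Finset.mem_univ v)⟩⟩
  obtain ⟨X0, hX0⟩ := hex
  refine ⟨X0, fun X hX => ⟨fun v => X v ^ (1 / (6 * (v.mult : ℝ))),
    fun v => (hX0 _ (hX v)).2 v, fun D x t d hD ht hx => ?_⟩⟩
  unfold propX prop
  rw [← hbox X fun v => (hX0 _ (hX v)).1]
  congr 3
  ext q
  simp only [Set.mem_ofPred_eq]
  refine and_congr_right fun hq => ?_
  rw [← hGEN.sqt F q D x t hq.1 hD ht hx]
  rfl

end Pool.Agent.Lib.MP_8cb858_nt.PU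
end

section
/-!
# SML: small lists, over `F`
-/
namespace Pool.Agent.Lib.MP_8cb858_nt.PU.SMLM

open NumberField IsDedekindDomain
open Pool.Agent.Lib.MP_8cb858_nt.PU
open scoped Classical

variable {F : Type} [Field F] [NumberField F]

lemma ty_lt (q : Pl F) (E : 𝓞 F × 𝓞 F) : ty q E < 4 := by
  unfold ty
  split_ifs <;> norm_num

/-- The number of elements in small cells. -/
lemma small_cells (S : Dat F) (hS : S.Ok) (K : Finset (Pl F)) (L : Finset (Pl F))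
    (E' : 𝓞 F × 𝓞 F) (x : ℝ) (hx : 0 ≤ x) :
    ((L.filter (fun q => ((L.filter (fun q' => ty q' E' = ty q E' ∧
      cl K (S.G.pi q' : F) = cl K (S.G.pi q : F))).card : ℝ)
      < x)).card : ℝ) ≤ x * (4 * 2 ^ (S.c0 + 2 * K.card)) := by
  set B := L.filter (fun q => ((L.filter (fun q' => ty q' E' = ty q E' ∧
    cl K (S.G.pi q' : F) = cl K (S.G.pi q : F))).card : ℝ) < x) with hB
  let f : Pl F → ℕ × Set F := fun q => (ty q E', cl K (S.G.pi q : F))
  have h1 : B.card ≤ ⌊x⌋₊ * (B.image f).card := by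
    refine Finset.card_le_mul_card_image (f := f) B ⌊x⌋₊ ?_
    intro c hc
    obtain ⟨q, hq, rfl⟩ := Finset.mem_image.mp hc
    rw [hB, Finset.mem_filter] at hq
    apply Nat.le_floor
    refine le_trans ?_ hq.2.le
    have : (B.filter (fun x => f x = f q)) ⊆
        L.filter (fun q' => ty q' E' = ty q E' ∧
          cl K (S.G.pi q' : F) = cl K (S.G.pi q : F)) := by
      intro y hy
      rw [Finset.mem_filter] at hy ⊢
      refine ⟨?_, ?_⟩
      · have := hy.1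
        rw [hB, Finset.mem_filter] at this
        exact this.1
      · exact ⟨congrArg Prod.fst hy.2, congrArg Prod.snd hy.2⟩
    exact_mod_cast Finset.card_le_card this
  have h2 : B.image f ⊆ Finset.range 4 ×ˢ ((L.image (fun q => (S.G.pi q : F))).image (cl K)) := by
    intro c hc
    obtain ⟨q, hq, rfl⟩ := Finset.mem_image.mp hc
    rw [hB, Finset.mem_filter] at hq
    rw [Finset.mem_product]
    exact ⟨Finset.mem_range.mpr (ty_lt q E'),
      Finset.mem_image_of_mem _ (Finset.mem_image_of_mem _ hq.1)⟩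
  have h3 : (B.image f).card ≤ 4 * 2 ^ (S.c0 + 2 * K.card) := by
    refine (Finset.card_le_card h2).trans ?_
    rw [Finset.card_product, Finset.card_range]
    refine Nat.mul_le_mul_left 4 (hS.num K _ ?_)
    intro y hy
    obtain ⟨q, _, rfl⟩ := Finset.mem_image.mp hy
    intro h0
    exact S.G.ne q (by exact_mod_cast h0)
  have h4 : ((B.image f).card : ℝ) ≤ 4 * 2 ^ (S.c0 + 2 * K.card) := by
    exact_mod_cast h3
  calc (B.card : ℝ) ≤ ((⌊x⌋₊ * (B.image f).card : ℕ) : ℝ) := by exact_mod_cast h1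
    _ = (⌊x⌋₊ : ℝ) * ((B.image f).card : ℝ) := by push_cast; ring
    _ ≤ x * (4 * 2 ^ (S.c0 + 2 * K.card)) := by
        apply mul_le_mul (Nat.floor_le hx) h4 (Nat.cast_nonneg _) hx

lemma exp_bounds (r : ℕ) : (r : ℝ) ≤ Real.exp r ∧ (2 : ℝ) ^ r ≤ Real.exp r := by
  constructor
  · have := Real.add_one_le_exp (r : ℝ); linarith
  · have h : (2 : ℝ) ≤ Real.exp 1 := by
      have := Real.add_one_le_exp (1 : ℝ); linarith
    calc (2 : ℝ) ^ r ≤ (Real.exp 1) ^ r := pow_le_pow_left₀ (by norm_num) h r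
      _ = Real.exp r := by rw [← Real.exp_nat_mul]; simp

theorem main (hONE : SpecONE) : SpecSML := by
  intro r1 ε hε
  obtain ⟨m, hm⟩ := exists_nat_ge (Real.log (32 / ε))
  have hm' : 32 * Real.exp (-(m : ℝ)) ≤ ε := by
    have h1 : Real.exp (-(m : ℝ)) ≤ Real.exp (-(Real.log (32 / ε))) :=
      Real.exp_le_exp.mpr (by linarith)
    rw [Real.exp_neg, Real.exp_neg, Real.exp_log (by positivity)] at h1
    rw [Real.exp_neg]
    have h2 : (32 : ℝ) * (32 / ε)⁻¹ = ε := by field_simp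
    calc 32 * (Real.exp m)⁻¹ ≤ 32 * (32 / ε)⁻¹ := by linarith
      _ = ε := h2
  refine ⟨r1 + 10 + m, ?_⟩
  intro F _ _ S E' hS
  have hok := hS.ok
  have hr0 : 1 ≤ S.r := hok.rp
  have hrr : (r1 + 10 + m) ≤ S.r := hS.r
  set r := S.r with hr
  have hrR : (r1 : ℝ) + 10 + m ≤ (r : ℝ) := by exact_mod_cast hrr
  have hr1 : (1 : ℝ) ≤ r := by exact_mod_cast hr0
  have hK0 : S.M0.card ≤ r := by
    have := hS.m0
    have h2 : 1 * S.M0.card ≤ (r1 + 10 + m) * S.M0.card :=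
      Nat.mul_le_mul_right _ (by omega)
    omega
  have hc0' : S.c0 ≤ r := by
    have := hS.c0
    have h2 : 1 * S.c0 ≤ (r1 + 10 + m) * S.c0 :=
      Nat.mul_le_mul_right _ (by omega)
    omega
  set c : ℝ := 4 * 32 ^ r * Real.exp ((r1 : ℝ) * r) / Real.exp (((r1 + 10 + m : ℕ) : ℝ) * r)
    with hc
  have hc0 : 0 ≤ c := by rw [hc]; positivity
  -- one pair
  have key : ∀ (i : Fin r) (I : Finset (Fin r)), i ∉ I →
      ((S.Om.filter (fun p => ((S.Ls E' (S.Kp p I) p i).card : ℝ) <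
        Real.exp (r1 * r))).card : ℝ) ≤ c * (S.Om.card : ℝ) := by
    intro i I hiI
    refine hONE (Pl F) S.r S.L i (fun p => ((S.Ls E' (S.Kp p I) p i).card : ℝ) <
        Real.exp (r1 * r)) c hc0 ?_
    intro p hp
    set K := S.Kp p I with hK
    have h1 : (S.L i).filter (fun q => ((S.Ls E' (S.Kp (Function.update p i q) I)
        (Function.update p i q) i).card : ℝ) < Real.exp (r1 * r)) =
        (S.L i).filter (fun q => (((S.L i).filter (fun q' => ty q' E' = ty q E' ∧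
          cl K (S.G.pi q' : F) = cl K (S.G.pi q : F))).card : ℝ) < Real.exp (r1 * r)) := by
      apply Finset.filter_congr
      intro q _
      have h2 : S.Kp (Function.update p i q) I = K := by
        rw [hK]
        unfold Dat.Kp
        congr 1
        apply Finset.image_congr
        intro j hj
        show Function.update p i q j = p j
        rw [Function.update_of_ne]
        rintro rfl
        exact hiI (Finset.mem_coe.1 hj)
      rw [h2]
      unfold Dat.Ls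
      rw [Function.update_self]
    have h3 := small_cells S hok K (S.L i) E' (Real.exp (r1 * r)) (Real.exp_pos _).le
    rw [← h1] at h3
    refine h3.trans ?_
    have h4 : S.c0 + 2 * K.card ≤ 5 * r := by
      have h40 : K.card ≤ S.M0.card + r := by
        rw [hK]
        unfold Dat.Kp
        refine (Finset.card_union_le _ _).trans ?_
        have h41 : (I.image p).card ≤ r := by
          refine Finset.card_image_le.trans ?_
          have := Finset.card_le_univ I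
          rwa [Fintype.card_fin] at this
        omega
      omega
    have h5 : (2 : ℝ) ^ (S.c0 + 2 * K.card) ≤ 32 ^ r := by
      calc (2 : ℝ) ^ (S.c0 + 2 * K.card) ≤ 2 ^ (5 * r) := pow_le_pow_right₀ (by norm_num) h4
        _ = 32 ^ r := by rw [pow_mul]; norm_num
    have h6 := hS.card i
    rw [← hr] at h6
    have h7 : Real.exp (((r1 + 10 + m : ℕ) : ℝ) * r) > 0 := Real.exp_pos _
    calc Real.exp (r1 * r) * (4 * 2 ^ (S.c0 + 2 * K.card))
        ≤ Real.exp (r1 * r) * (4 * 32 ^ r) := by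
          apply mul_le_mul_of_nonneg_left _ (Real.exp_pos _).le
          linarith
      _ = c * Real.exp (((r1 + 10 + m : ℕ) : ℝ) * r) := by
          rw [hc]; field_simp
      _ ≤ c * ((S.L i).card : ℝ) := mul_le_mul_of_nonneg_left h6 hc0
  -- union
  let T : Finset (Fin r × Finset (Fin r)) := Finset.univ.filter (fun t => t.1 ∉ t.2)
  have hsub : S.Om.filter (fun p => ∃ (i : Fin S.r) (I : Finset (Fin S.r)), i ∉ I ∧
      ((S.Ls E' (S.Kp p I) p i).card : ℝ) < Real.exp (r1 * S.r)) ⊆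
      T.biUnion (fun t => S.Om.filter (fun p => ((S.Ls E' (S.Kp p t.2) p t.1).card : ℝ) <
        Real.exp (r1 * r))) := by
    intro p hp
    rw [Finset.mem_filter] at hp
    obtain ⟨hp1, i, I, hiI, hlt⟩ := hp
    rw [Finset.mem_biUnion]
    refine ⟨(i, I), ?_, ?_⟩
    · exact Finset.mem_filter.mpr ⟨Finset.mem_univ _, hiI⟩
    · exact Finset.mem_filter.mpr ⟨hp1, hlt⟩
  have hcard : ((S.Om.filter (fun p => ∃ (i : Fin S.r) (I : Finset (Fin S.r)), i ∉ I ∧
      ((S.Ls E' (S.Kp p I) p i).card : ℝ) < Real.exp (r1 * S.r))).card : ℝ) ≤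
      ∑ t ∈ T, ((S.Om.filter (fun p => ((S.Ls E' (S.Kp p t.2) p t.1).card : ℝ) <
        Real.exp (r1 * r))).card : ℝ) := by
    have := (Finset.card_le_card hsub).trans Finset.card_biUnion_le
    exact_mod_cast this
  refine hcard.trans ?_
  have h8 : ∑ t ∈ T, ((S.Om.filter (fun p => ((S.Ls E' (S.Kp p t.2) p t.1).card : ℝ) <
        Real.exp (r1 * r))).card : ℝ) ≤ ∑ t ∈ T, c * (S.Om.card : ℝ) := by
    refine Finset.sum_le_sum (fun t ht => ?_)
    exact key t.1 t.2 (Finset.mem_filter.mp ht).2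
  refine h8.trans ?_
  rw [Finset.sum_const, nsmul_eq_mul, ← mul_assoc]
  refine mul_le_mul_of_nonneg_right ?_ (Nat.cast_nonneg _)
  have h9 : (T.card : ℝ) ≤ r * 2 ^ r := by
    have : T.card ≤ r * 2 ^ r := by
      refine (Finset.card_filter_le _ _).trans ?_
      rw [Finset.card_univ, Fintype.card_prod, Fintype.card_fin, Fintype.card_finset,
        Fintype.card_fin]
    exact_mod_cast this
  obtain ⟨b1, b2⟩ := exp_bounds r
  have b4 : (32 : ℝ) ^ r ≤ Real.exp (5 * r) := by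
    have h32 : (32 : ℝ) ^ r = (2 ^ r) ^ 5 := by
      rw [← pow_mul, mul_comm r 5, pow_mul]; norm_num
    rw [h32]
    calc ((2 : ℝ) ^ r) ^ 5 ≤ (Real.exp r) ^ 5 := pow_le_pow_left₀ (by positivity) b2 5
      _ = Real.exp (5 * r) := by rw [← Real.exp_nat_mul]; norm_num
  have hcb : c ≤ 4 * Real.exp (5 * r) * Real.exp ((r1 : ℝ) * r) *
      Real.exp (-(((r1 + 10 + m : ℕ) : ℝ) * r)) := by
    rw [hc, Real.exp_neg, ← div_eq_mul_inv]
    apply div_le_div_of_nonneg_right _ (Real.exp_pos _).le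
    apply mul_le_mul_of_nonneg_right _ (Real.exp_pos _).le
    linarith
  calc (T.card : ℝ) * c ≤ (Real.exp r * Real.exp r) * (4 * Real.exp (5 * r) *
        Real.exp ((r1 : ℝ) * r) * Real.exp (-(((r1 + 10 + m : ℕ) : ℝ) * r))) := by
        apply mul_le_mul _ hcb hc0 (by positivity)
        exact h9.trans (mul_le_mul b1 b2 (by positivity) (Real.exp_pos _).le)
    _ = 4 * Real.exp (r + r + 5 * r + r1 * r + -(((r1 + 10 + m : ℕ) : ℝ) * r)) := by
        rw [Real.exp_add, Real.exp_add, Real.exp_add, Real.exp_add]; ring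
    _ ≤ 4 * Real.exp (-(m : ℝ)) := by
        apply mul_le_mul_of_nonneg_left _ (by norm_num)
        apply Real.exp_le_exp.mpr
        push_cast
        have hm0 : (0 : ℝ) ≤ m := Nat.cast_nonneg m
        nlinarith [mul_nonneg hm0 (by linarith : (0 : ℝ) ≤ r - 1)]
    _ ≤ 32 * Real.exp (-(m : ℝ)) := by
        have := Real.exp_pos (-(m : ℝ))
        linarith
    _ ≤ ε := hm'

end Pool.Agent.Lib.MP_8cb858_nt.PU.SMLM

namespace Pool.Agent.Lib.MP_8cb858_nt.PU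

theorem specSML (hONE : SpecONE) : SpecSML := SMLM.main hONE

end Pool.Agent.Lib.MP_8cb858_nt.PU
end

section
/-!
# LWO: lower bound for the sum of the families
-/
namespace Pool.Agent.Lib.MP_8cb858_nt.PV

open Polynomial NumberField IsDedekindDomain Filter Pool.Agent.Lib.MP_8cb858_nt.SEL
open Pool.Agent.Lib.MP_8cb858_nt.PF Pool.Agent.Lib.MP_8cb858_nt.PU
open scoped Classical WithZero Topology

namespace LWOM

variable {F : Type} [Field F] [NumberField F]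

lemma Bx_fin (ρ : InfinitePlace F → ℝ) : (Bx F ρ).Finite :=
  ((CNUM.box_finite (fun v => ρ v ^ 2)).prod (CNUM.box_finite (fun v => ρ v ^ 3))).subset
    fun q hq => ⟨fun v => (hq.2 v).1, fun v => (hq.2 v).2⟩

lemma Bx_mono {ρ ρ' : InfinitePlace F → ℝ} (h0 : ∀ v, 0 ≤ ρ v) (h : ∀ v, ρ v ≤ ρ' v) :
    Bx F ρ ⊆ Bx F ρ' := fun _ hq =>
  ⟨hq.1, fun v => ⟨(hq.2 v).1.trans (pow_le_pow_left₀ (h0 v) (h v) 2),
    (hq.2 v).2.trans (pow_le_pow_left₀ (h0 v) (h v) 3)⟩⟩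

lemma rt_pow (I : Ideal (𝓞 F)) : rt I ^ Module.finrank ℚ F = (Ideal.absNorm I : ℝ) := by
  unfold rt
  exact Real.rpow_inv_natCast_pow (Nat.cast_nonneg _) Module.finrank_pos.ne'

lemma rt_mono {I J : Ideal (𝓞 F)} (h : Ideal.absNorm I ≤ Ideal.absNorm J) : rt I ≤ rt J := by
  unfold rt
  exact Real.rpow_le_rpow (Nat.cast_nonneg _) (by exact_mod_cast h) (by positivity)

lemma one_le_rt {I : Ideal (𝓞 F)} (h : 1 ≤ Ideal.absNorm I) : 1 ≤ rt I := by
  unfold rt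
  exact Real.one_le_rpow (by exact_mod_cast h) (by positivity)

lemma vol_smul (r : ℝ) (ρ : InfinitePlace F → ℝ) :
    vol (fun v => r * ρ v) = r ^ Module.finrank ℚ F * vol ρ := by
  rw [CNUM.vol_mul (fun _ => r) ρ, CNUM.vol_const]

lemma Fam_fin (J : Ideal (𝓞 F)) (p : 𝓞 F × 𝓞 F) (I : Ideal (𝓞 F)) (ρ : InfinitePlace F → ℝ) :
    (Fam J p I ρ).Finite := (Bx_fin ρ).subset fun _ hq => hq.1

lemma union_le {α β : Type*} (X : Set α) (T : Finset β) (f : β → Set α)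
    (hf : ∀ b ∈ T, (f b).Finite) (h : ∀ x ∈ X, ∃ b ∈ T, x ∈ f b) :
    (X.ncard : ℝ) ≤ ∑ b ∈ T, ((f b).ncard : ℝ) := by
  have hU : (⋃ b ∈ T, f b).Finite := T.finite_toSet.biUnion hf
  have hX : X ⊆ ⋃ b ∈ T, f b := fun x hx => by
    obtain ⟨b, hb, hxb⟩ := h x hx
    exact Set.mem_biUnion hb hxb
  have h1 := Set.ncard_le_ncard hX hU
  have h2 : ∀ T' : Finset β, T' ⊆ T → (⋃ b ∈ T', f b).ncard ≤ ∑ b ∈ T', (f b).ncard := by
    intro T'
    induction T' using Finset.induction_on with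
    | empty => intro _; simp
    | insert a T' ha ih =>
      intro hT'
      rw [Finset.sum_insert ha, Finset.set_biUnion_insert]
      exact (Set.ncard_union_le _ _).trans
        (Nat.add_le_add_left (ih ((Finset.subset_insert _ _).trans hT')) _)
  exact_mod_cast h1.trans (h2 T (Finset.Subset.refl _))

end LWOM

open LWOM

theorem specLWO (hLWA : SpecLWA) (hCNF : SpecCNF) (hWSU : SpecWSU) : SpecLWO := by
  intro F _ _ J p hJ
  obtain ⟨S, B, c1, hB1, hc1, hL⟩ := hLWA F J p hJ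
  obtain ⟨c, Y0, hc, hC⟩ := hCNF F S
  have hB0 : 0 < B := by linarith
  refine ⟨c * c1 / B, B * Y0, by positivity, fun Y hY => ?_⟩
  have hYB : Y0 ≤ Y / B := by
    rw [le_div_iff₀ hB0]
    linarith
  choose! R hR using hL
  have hWfin := hWSU.fin F S (Y / B)
  set W := hWfin.toFinset with hW
  refine ⟨1 + ∑ A ∈ W, |R A|, fun ρ hρ T hT => ?_⟩
  have hR1 : ∀ A ∈ W, R A ≤ 1 + ∑ A ∈ W, |R A| := fun A hA => by
    have h1 := Finset.single_le_sum (f := fun A => |R A|) (fun _ _ => abs_nonneg _) hA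
    have h2 := le_abs_self (R A)
    linarith
  have hρ1 : ∀ v, 1 ≤ ρ v := fun v => by
    have h1 : 0 ≤ ∑ A ∈ W, |R A| := Finset.sum_nonneg fun _ _ => abs_nonneg _
    linarith [hρ v]
  have hV : 0 < vol ρ := CNUM.vol_pos fun v => by linarith [hρ1 v]
  have hWmem : ∀ A ∈ W, (∀ v ∈ A, v ∉ S) ∧ (NA A : ℝ) ≤ Y / B := fun A hA => by
    rw [hW, Set.Finite.mem_toFinset] at hA
    exact hA
  -- the ideals of the form `pr A * s`
  let TA : Finset (Pl F) → Finset (Ideal (𝓞 F)) := fun A => T.filter (fun I =>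
    ∃ s : Ideal (𝓞 F), (∀ v : Pl F, v ∉ S → ¬ v.asIdeal ∣ s) ∧ I = pr A * s)
  let f : Ideal (𝓞 F) → ℝ := fun I => ((Fam J p I (fun v => rt I * ρ v)).ncard : ℝ)
  have step1 : ∀ A ∈ W, c1 * vol ρ ^ 5 ≤ ∑ I ∈ TA A, f I := by
    intro A hA
    obtain ⟨hA1, hA2⟩ := hWmem A hA
    have hNA : Ideal.absNorm (pr A) = NA A := IDAM.prod_norm A
    have hNA1 : 1 ≤ NA A := IDAM.NA_pos A
    have hNA0 : (0 : ℝ) < (NA A : ℝ) := by exact_mod_cast hNA1
    have hr1 : 1 ≤ rt (pr A) := one_le_rt (by rw [hNA]; exact hNA1)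
    have h1 := hR A hA1 (fun v => rt (pr A) * ρ v) (fun v => by
      have h2 := (hR1 A hA).trans (hρ v)
      have h3 : ρ v ≤ rt (pr A) * ρ v := le_mul_of_one_le_left (by linarith [hρ1 v]) hr1
      linarith)
    rw [vol_smul, rt_pow, hNA] at h1
    have h4 : ((NA A : ℝ) * vol ρ) ^ 5 / (NA A : ℝ) ^ 5 = vol ρ ^ 5 := by
      rw [mul_pow, mul_div_cancel_left₀ _ (pow_pos hNA0 5).ne']
    rw [h4] at h1
    refine h1.trans (union_le _ _ (fun I => Fam J p I (fun v => rt I * ρ v))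
      (fun I _ => Fam_fin J p I _) ?_)
    rintro q ⟨hq1, hq2, hq3, s, hs0, hsB, hsS, hEx⟩
    have hs1 : 1 ≤ Ideal.absNorm s :=
      Nat.one_le_iff_ne_zero.2 (Ideal.absNorm_eq_zero_iff.not.2 hs0)
    have hN : Ideal.absNorm (pr A * s) = NA A * Ideal.absNorm s := by rw [map_mul, hNA]
    refine ⟨pr A * s, ?_, ?_⟩
    · refine Finset.mem_filter.2 ⟨hT _ ?_ ?_, s, hsS, rfl⟩
      · have h5 : pr A * s ≠ 0 := mul_ne_zero (IDAM.prod_ne A) hs0
        exact h5
      · rw [hN]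
        push_cast
        calc (NA A : ℝ) * (Ideal.absNorm s : ℝ) ≤ Y / B * B :=
              mul_le_mul hA2 hsB (Nat.cast_nonneg _) (hNA0.le.trans hA2)
          _ = Y := div_mul_cancel₀ _ hB0.ne'
    · refine ⟨Bx_mono (fun v => ?_) (fun v => ?_) hq1, hq2, hq3, hEx⟩
      · exact mul_nonneg (by linarith) (by linarith [hρ1 v])
      · refine mul_le_mul_of_nonneg_right (rt_mono ?_) (by linarith [hρ1 v])
        rw [hN, hNA]
        exact Nat.le_mul_of_pos_right _ hs1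
  have hdisj : (W : Set (Finset (Pl F))).PairwiseDisjoint TA := by
    intro A hA A' hA' hne
    rw [Function.onFun, Finset.disjoint_left]
    intro I hI hI'
    obtain ⟨s, hs, e⟩ := (Finset.mem_filter.1 hI).2
    obtain ⟨s', hs', e'⟩ := (Finset.mem_filter.1 hI').2
    apply hne
    have key : ∀ (A : Finset (Pl F)) (s : Ideal (𝓞 F)), A ∈ W →
        (∀ v : Pl F, v ∉ S → ¬ v.asIdeal ∣ s) → I = pr A * s →
        ∀ v : Pl F, v ∈ A ↔ (v ∉ S ∧ v.asIdeal ∣ I) := by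
      intro A s hA hs e v
      constructor
      · intro hv
        refine ⟨(hWmem A hA).1 v hv, ?_⟩
        rw [e]
        exact Dvd.dvd.mul_right ((IDAM.dvd_iff A v).2 hv) s
      · rintro ⟨hv, hd⟩
        rw [e] at hd
        rcases (v.prime.dvd_mul).1 hd with h | h
        · exact (IDAM.dvd_iff A v).1 h
        · exact absurd h (hs v hv)
    ext v
    rw [key A s hA hs e v, key A' s' hA' hs' e' v]
  have hcard : c * (Y / B) ≤ (W.card : ℝ) := by
    have h1 := hC (Y / B) hYB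
    rwa [Set.ncard_eq_toFinset_card _ hWfin] at h1
  calc c * c1 / B * Y * vol ρ ^ 5 = (c * (Y / B)) * (c1 * vol ρ ^ 5) := by
        field_simp
    _ ≤ (W.card : ℝ) * (c1 * vol ρ ^ 5) :=
        mul_le_mul_of_nonneg_right hcard (by positivity)
    _ = ∑ A ∈ W, c1 * vol ρ ^ 5 := by rw [Finset.sum_const, nsmul_eq_mul]
    _ ≤ ∑ A ∈ W, ∑ I ∈ TA A, f I := Finset.sum_le_sum step1
    _ = ∑ I ∈ W.biUnion TA, f I := (Finset.sum_biUnion hdisj).symm
    _ ≤ ∑ I ∈ T, f I := by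
        refine Finset.sum_le_sum_of_subset_of_nonneg ?_ fun _ _ _ => Nat.cast_nonneg _
        intro I hI
        obtain ⟨A, _, hA⟩ := Finset.mem_biUnion.1 hI
        exact (Finset.mem_filter.1 hA).1

end Pool.Agent.Lib.MP_8cb858_nt.PV
end

section
/-!
# TWX: existence of the twist ideal
-/
set_option autoImplicit false

namespace Pool.Agent.Lib.MP_8cb858_nt.PV

open Polynomial NumberField IsDedekindDomain Filter Pool.Agent.Lib.MP_8cb858_nt.SEL
open Pool.Agent.Lib.MP_8cb858_nt.PF Pool.Agent.Lib.MP_8cb858_nt.PU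
open scoped Classical WithZero Topology

namespace TWXM

variable {R : Type} [CommRing R] [IsDedekindDomain R]

/-- if `J` does not divide `I` there is a prime `v` such that `I^n ∣ A`, `J^n ∣ A` imply
`(I v)^n ∣ A` -/
theorem exists_prime (I J : Ideal R) (hJ : J ≠ ⊥) (h : ¬ J ∣ I) :
    ∃ v : HeightOneSpectrum R, ∀ (n : ℕ) (A : Ideal R), I ^ n ∣ A → J ^ n ∣ A →
      (I * v.asIdeal) ^ n ∣ A := by
  obtain ⟨G, hG⟩ : ∃ G : Ideal R, G = I ⊔ J := ⟨_, rfl⟩
  have hG0 : G ≠ ⊥ := by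
    intro e
    apply hJ
    rw [eq_bot_iff, ← e, hG]
    exact le_sup_right
  obtain ⟨I', hI'⟩ : G ∣ I := Ideal.dvd_iff_le.2 (hG ▸ le_sup_left)
  obtain ⟨J', hJ'⟩ : G ∣ J := Ideal.dvd_iff_le.2 (hG ▸ le_sup_right)
  have hcop : I' ⊔ J' = ⊤ := by
    have h1 : G * (I' ⊔ J') = G * ⊤ := by
      rw [Ideal.mul_sup, ← hI', ← hJ', ← hG, Ideal.mul_top]
    exact mul_left_cancel₀ hG0 h1
  have hJt : J' ≠ ⊤ := by
    intro e
    apply h
    rw [hJ', e, Ideal.mul_top]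
    exact ⟨I', hI'⟩
  have hJ'0 : J' ≠ ⊥ := by
    intro e
    apply hJ
    rw [hJ', e, Ideal.mul_bot]
  obtain ⟨P, hP, hle⟩ := Ideal.exists_le_maximal J' hJt
  have hP0 : P ≠ ⊥ := by
    intro e
    apply hJ'0
    rw [eq_bot_iff, ← e]
    exact hle
  refine ⟨⟨P, hP.isPrime, hP0⟩, fun n A hIA hJA => ?_⟩
  obtain ⟨X, hX⟩ := hIA
  have hG0' : G ^ n ≠ 0 := pow_ne_zero n hG0
  have h1 : J' ^ n ∣ I' ^ n * X := by
    rw [hX, hI', hJ', mul_pow, mul_pow, mul_assoc] at hJA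
    exact (mul_dvd_mul_iff_left hG0').1 hJA
  have h2 : IsCoprime (J' ^ n) (I' ^ n) :=
    (Ideal.isCoprime_iff_sup_eq.2 (by rw [sup_comm]; exact hcop)).pow
  have h3 : J' ^ n ∣ X := h2.dvd_of_dvd_mul_left h1
  have h4 : P ^ n ∣ J' ^ n := pow_dvd_pow_of_dvd (Ideal.dvd_iff_le.2 hle) n
  show (I * P) ^ n ∣ A
  rw [hX, mul_pow]
  exact mul_dvd_mul_left _ (h4.trans h3)

end TWXM

theorem specTWX : SpecTWX := by
  have hneb : ∀ (F : Type) [Field F] [NumberField F] (q : 𝓞 F × 𝓞 F) (I : Ideal (𝓞 F)),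
      dsc q.1 q.2 ≠ 0 → Dv I q → I ≠ ⊥ := by
    intro F _ _ q I hq hD e
    rw [e] at hD
    obtain ⟨h1, h2⟩ := hD
    rw [← Ideal.zero_eq_bot, zero_pow (by norm_num), Ideal.zero_eq_bot, Ideal.mem_bot] at h1 h2
    apply hq
    rw [h1, h2]
    simp [dsc]
  refine ⟨?_, hneb, ?_⟩
  · intro F _ _ q hq
    -- a bound for the norms
    obtain ⟨Bd, hBd⟩ : ∃ Bd : ℕ, ∀ I : Ideal (𝓞 F), Dv I q → Ideal.absNorm I ≤ Bd := by
      have key : ∀ (n : ℕ), 0 < n → ∀ (x : 𝓞 F), x ≠ 0 → ∀ I : Ideal (𝓞 F), x ∈ I ^ n →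
          Ideal.absNorm I ≤ Ideal.absNorm (Ideal.span {x}) := by
        intro n hn x hx I hI
        have h1 : I ^ n ∣ Ideal.span {x} := Ideal.dvd_iff_le.2 ((Ideal.span_singleton_le_iff_mem _).2 hI)
        have h2 : I ∣ Ideal.span {x} := (dvd_pow_self I hn.ne').trans h1
        have h3 : Ideal.absNorm I ∣ Ideal.absNorm (Ideal.span {x}) := Ideal.absNorm_dvd_absNorm_of_le
          (Ideal.dvd_iff_le.1 h2)
        refine Nat.le_of_dvd (Nat.pos_of_ne_zero ?_) h3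
        rw [Ne, Ideal.absNorm_eq_zero_iff, Ideal.span_singleton_eq_bot]
        exact hx
      by_cases h1 : q.1 = 0
      · have h2 : q.2 ≠ 0 := by
          intro h2
          apply hq
          rw [h1, h2]
          simp [dsc]
        exact ⟨_, fun I hI => key 3 (by norm_num) q.2 h2 I hI.2⟩
      · exact ⟨_, fun I hI => key 2 (by norm_num) q.1 h1 I hI.1⟩
    have hT : Dv (⊤ : Ideal (𝓞 F)) q := by
      unfold Dv
      rw [← Ideal.one_eq_top, one_pow, one_pow, Ideal.one_eq_top]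
      exact ⟨Submodule.mem_top, Submodule.mem_top⟩
    have hex : ∃ m ≤ Bd, ∃ I : Ideal (𝓞 F), Dv I q ∧ Ideal.absNorm I = m :=
      ⟨_, hBd ⊤ hT, ⊤, hT, rfl⟩
    obtain ⟨m, hm, I, hI, hIm⟩ := hex
    have hspec := Nat.findGreatest_spec (P := fun m => ∃ I : Ideal (𝓞 F), Dv I q ∧
      Ideal.absNorm I = m) hm ⟨I, hI, hIm⟩
    obtain ⟨I0, hI0, hI0m⟩ := hspec
    have hI00 := hneb F q I0 hq hI0
    refine ⟨I0, hI00, hI0, fun v hv => ?_⟩
    have h1 := Nat.le_findGreatest (P := fun m => ∃ I : Ideal (𝓞 F), Dv I q ∧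
      Ideal.absNorm I = m) (hBd _ hv) ⟨_, hv, rfl⟩
    rw [← hI0m, map_mul] at h1
    have h2 : 0 < Ideal.absNorm I0 := Nat.pos_of_ne_zero (by
      rw [Ne, Ideal.absNorm_eq_zero_iff]; exact hI00)
    have h3 : Ideal.absNorm v.asIdeal ≠ 1 := by
      rw [Ne, Ideal.absNorm_eq_one_iff]
      exact v.isPrime.ne_top
    have h4 : Ideal.absNorm v.asIdeal ≠ 0 := by
      rw [Ne, Ideal.absNorm_eq_zero_iff]
      exact v.ne_bot
    have h5 : Ideal.absNorm I0 * 2 ≤ Ideal.absNorm I0 * Ideal.absNorm v.asIdeal :=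
      Nat.mul_le_mul_left _ (by omega)
    omega
  · intro F _ _ q I J hq hE hD
    by_contra hnd
    obtain ⟨v, hv⟩ := TWXM.exists_prime I J (hneb F q J hq hD) hnd
    have key : ∀ (n : ℕ) (x : 𝓞 F), x ∈ I ^ n → x ∈ J ^ n → x ∈ (I * v.asIdeal) ^ n := by
      intro n x h1 h2
      have h3 := hv n (Ideal.span {x})
        (Ideal.dvd_iff_le.2 ((Ideal.span_singleton_le_iff_mem _).2 h1))
        (Ideal.dvd_iff_le.2 ((Ideal.span_singleton_le_iff_mem _).2 h2))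
      exact (Ideal.span_singleton_le_iff_mem _).1 (Ideal.dvd_iff_le.1 h3)
    exact hE.2 v ⟨key 2 _ hE.1.1 hD.1, key 3 _ hE.1.2 hD.2⟩

end Pool.Agent.Lib.MP_8cb858_nt.PV
end
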