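import Pool.Agent.Lib.MP_8cb858_nt.PR.SpecF
import Pool.Agent.Lib.MP_8cb858_nt.PF.SpecF
import Pool.Agent.Lib.MP_8cb858_nt.SEL.LO1
import Pool.Agent.Lib.MP_8cb858_nt.PT.SpecF
import Pool.Agent.Lib.MP_8cb858_nt.PU.SpecF
import Pool.Agent.Lib.MP_8cb858_nt.PV.SpecV
import Pool.Agent.Lib.MP_8cb858_nt.PV.TWX

section
/-!
# FATI: an attached pair depends only on the class of the cocycle
-/
namespace Pool.Agent.Lib.MP_8cb858_nt.PR

open Polynomial NumberField IsDedekindDomain Pool.Agent.Lib.MP_8cb858_nt.SEL Matrix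
open scoped Classical

namespace FATIM

universe u

/-- The statement over any field of characteristic zero. -/
theorem gen (hWEI : SpecWEI.{u}) (hPSH : SpecPSH.{u}) (F : Type u) [Field F] [CharZero F] (a b : F)
    (c c' : SEL.Gal F → Pt (curve a b) (AlgebraicClosure F)) (G H : Matrix (Fin 3) (Fin 3) F)
    (hc : ∀ s, (2 : ℕ) • c s = 0) (_hc' : ∀ s, (2 : ℕ) • c' s = 0)
    (hcob : c - c' ∈ Coboundaries 2 (curve a b)) (hatt : Att a b c G H) : Att a b c' G H := by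
  obtain ⟨th, hr, Z, hZ, hA, hB⟩ := hatt
  obtain ⟨T, hT, hTs⟩ := hcob
  obtain ⟨hadd, hsg, -, -⟩ := hWEI F (AlgebraicClosure F) a b th hr
  set m : Fin 3 → ℤ := fun i => sg th T i with hm
  have hm1 : ∀ i, m i = 1 ∨ m i = -1 := (hsg T hT).1
  have hmm : ∀ i, (m i : AlgebraicClosure F) * m i = 1 := by
    intro i
    rcases hm1 i with h | h <;> rw [h] <;> simp
  -- the relation of the cocycles
  have hrel : ∀ s : SEL.Gal F, c' s = c s +
      push (curve a b) (s : AlgebraicClosure F →ₐ[F] AlgebraicClosure F) T + T := by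
    intro s
    have h1 : c s - c' s =
      push (curve a b) (s : AlgebraicClosure F →ₐ[F] AlgebraicClosure F) T - T := hTs s
    set P := push (curve a b) (s : AlgebraicClosure F →ₐ[F] AlgebraicClosure F) T with hP
    have hP2 : P + P = 0 := by rw [← two_nsmul, hP, ← map_nsmul, hT, map_zero]
    have h2 : c' s = c s - (P - T) := by rw [← h1]; abel
    rw [h2]
    have h3 : c s - (P - T) = c s + P + T - (P + P) := by abel
    rw [h3, hP2, sub_zero]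
  have hsgn : ∀ (s : SEL.Gal F) (i k : Fin 3), s (th i) = th k →
      sg th (c' s) k = sg th (c s) k * m i * m k := by
    intro s i k hs
    set P := push (curve a b) (s : AlgebraicClosure F →ₐ[F] AlgebraicClosure F) T with hP
    have hP2 : (2 : ℕ) • P = 0 := by rw [hP, ← map_nsmul, hT, map_zero]
    have h1 : sg th P k = m i :=
      ((hPSH F (AlgebraicClosure F) (AlgebraicClosure F) a b th th
        (s : AlgebraicClosure F →ₐ[F] AlgebraicClosure F) hr hr i k hs).2 T).1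
    rw [hrel s, hadd _ _ (by rw [nsmul_add, hc, hP2, add_zero]) hT, hadd _ _ (hc s) hP2, h1]
  refine ⟨th, hr, Matrix.of fun i j => (m i : AlgebraicClosure F) * Z i j, ⟨?_, ?_⟩, ?_, ?_⟩
  · rw [Matrix.det_mul_column, Fin.prod_univ_three]
    refine mul_ne_zero ?_ hZ.1
    have h1 : m 0 * m 1 * m 2 = 1 := (hsg T hT).2
    have h2 : (m 0 : AlgebraicClosure F) * m 1 * m 2 = 1 := by exact_mod_cast h1
    rw [h2]
    exact one_ne_zero
  · intro s i k j hs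
    simp only [Matrix.of_apply]
    rw [map_mul, map_intCast, hZ.2 s i k j hs, hsgn s i k hs]
    push_cast
    linear_combination (-(m i : AlgebraicClosure F) * (sg th (c s) k : AlgebraicClosure F) *
      Z k j) * hmm k
  · rw [← hA]
    ext j k
    simp only [gA, Matrix.of_apply]
    refine Finset.sum_congr rfl fun i _ => ?_
    congr 1
    linear_combination (Z i j * Z i k) * hmm i
  · rw [← hB]
    ext j k
    simp only [gB, Matrix.of_apply]
    refine Finset.sum_congr rfl fun i _ => ?_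
    congr 1
    linear_combination (th i * Z i j * Z i k) * hmm i

end FATIM

theorem specFATI (hWEI : SpecWEI.{0}) (hPSH : SpecPSH.{0}) : SpecFATI :=
  fun a b c c' G H hc hc' hcob hatt => FATIM.gen hWEI hPSH ℚ a b c c' G H hc hc' hcob hatt

end Pool.Agent.Lib.MP_8cb858_nt.PR
end

section
/-!
# FATI: an attached pair depends only on the class of the cocycle
-/
namespace Pool.Agent.Lib.MP_8cb858_nt.PF

open Polynomial NumberField IsDedekindDomain Pool.Agent.Lib.MP_8cb858_nt.SEL Matrix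
open scoped Classical

theorem specFATI (hWEI : SpecWEI.{0}) (hPSH : SpecPSH.{0}) : SpecFATI :=
  fun F _ _ a b c c' G H hc hc' hcob hatt =>
    PR.FATIM.gen hWEI hPSH F a b c c' G H hc hc' hcob hatt

end Pool.Agent.Lib.MP_8cb858_nt.PF
end

section
/-!
# FCB: the local count over a finite field
-/
namespace Pool.Agent.Lib.MP_8cb858_nt.PF

open Polynomial NumberField IsDedekindDomain Pool.Agent.Lib.MP_8cb858_nt.SEL Matrix
open scoped Classical

namespace FCBM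

variable {k : Type} [Field k] [Finite k]

/-- The matrices with an eigenvector `w` and the symbol given by `e`. -/
def Tw (A : Matrix (Fin 3) (Fin 3) k) (e : Prop) (w : Fin 3 → k) : Set (Matrix (Fin 3) (Fin 3) k) :=
  {B | ∃ a b t : k, Gd a b A B ∧ B.mulVec w = t • A.mulVec w ∧
    (IsSquare ((3 * t ^ 2 + a) * (w ⬝ᵥ A.mulVec w)) ↔ e)}

theorem many [Fintype k] (hFEI : SpecFEI) (h2 : (2 : k) ≠ 0) (h3 : (3 : k) ≠ 0)
    (A : Matrix (Fin 3) (Fin 3) k) (hA : A.IsSymm) (hd : A.det ≠ 0) (e : Prop)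
    (B : Matrix (Fin 3) (Fin 3) k) (hB : ∃ a b, Gd a b A B ∧ (Sm a A B ↔ e)) :
    Nat.card k - 1 ≤ ((Finset.univ : Finset (Fin 3 → k)).filter
      (fun w => w ≠ 0 ∧ B ∈ Tw A e w)).card := by
  obtain ⟨a, b, hG, hS⟩ := hB
  obtain ⟨⟨t, w, hw, hBw⟩, hall⟩ := hFEI k a b A B h2 h3 hA hd hG
  have hcard : (Finset.univ.image (fun r : kˣ => (r : k) • w)).card = Nat.card k - 1 := by
    rw [Finset.card_image_of_injective, Finset.card_univ, ← Nat.card_eq_fintype_card,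
      Nat.card_units]
    intro r s hrs
    obtain ⟨i, hi⟩ := Function.ne_iff.1 hw
    have h1 : (r : k) * w i = (s : k) * w i := by
      have := congrFun hrs i
      simpa using this
    exact Units.ext (mul_right_cancel₀ hi h1)
  rw [← hcard]
  refine Finset.card_le_card ?_
  intro v hv
  obtain ⟨r, -, rfl⟩ := Finset.mem_image.1 hv
  have hrw : (r : k) • w ≠ 0 := smul_ne_zero r.ne_zero hw
  have hBv : B.mulVec ((r : k) • w) = t • A.mulVec ((r : k) • w) := by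
    rw [Matrix.mulVec_smul, Matrix.mulVec_smul, hBw, smul_comm]
  refine Finset.mem_filter.2 ⟨Finset.mem_univ _, hrw, a, b, t, hG, hBv, ?_⟩
  exact (hall t _ hrw hBv).2.2.2.symm.trans hS

theorem cnt (hFEI : SpecFEI) (hFWW : SpecFWW) (h2 : (2 : k) ≠ 0) (h3 : (3 : k) ≠ 0)
    (A : Matrix (Fin 3) (Fin 3) k) (hA : A.IsSymm)
    (hd : A.det ≠ 0) (e : Prop) :
    4 * {B : Matrix (Fin 3) (Fin 3) k | ∃ a b, Gd a b A B ∧ (Sm a A B ↔ e)}.ncard ≤
      Nat.card k ^ 3 * (Nat.card k + 1) ^ 2 := by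
  have := Fintype.ofFinite k
  set S : Set (Matrix (Fin 3) (Fin 3) k) := {B | ∃ a b, Gd a b A B ∧ (Sm a A B ↔ e)} with hS
  set p := Nat.card k with hp
  have hp1 : 1 < p := Finite.one_lt_card
  set M := (p - 1) * (p + 1) ^ 2 with hM
  let s : Finset (Matrix (Fin 3) (Fin 3) k) := Finset.univ.filter (fun B => B ∈ S)
  let t : Finset (Fin 3 → k) := Finset.univ.filter (fun w => w ≠ 0)
  have h1 : ∀ B ∈ s, p - 1 ≤ (t.bipartiteAbove (fun B w => B ∈ Tw A e w) B).card := by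
    intro B hB
    refine (many hFEI h2 h3 A hA hd e B (Finset.mem_filter.1 hB).2).trans ?_
    refine Finset.card_le_card ?_
    intro w hw
    obtain ⟨-, hw1, hw2⟩ := Finset.mem_filter.1 hw
    exact Finset.mem_filter.2 ⟨Finset.mem_filter.2 ⟨Finset.mem_univ _, hw1⟩, hw2⟩
  have h2 : ∀ w ∈ t, (s.bipartiteBelow (fun B w => B ∈ Tw A e w) w).card ≤ M / 4 := by
    intro w hw
    have hw0 : w ≠ 0 := (Finset.mem_filter.1 hw).2
    have h3 : 4 * (Tw A e w).ncard ≤ M := hFWW k A w e h2 h3 hA hd hw0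
    have h4 : (s.bipartiteBelow (fun B w => B ∈ Tw A e w) w).card ≤ (Tw A e w).ncard := by
      rw [← Set.ncard_coe_finset]
      refine Set.ncard_le_ncard ?_ (Set.toFinite _)
      intro B hB
      exact (Finset.mem_filter.1 (Finset.mem_coe.1 hB)).2
    omega
  have h3 := Finset.card_mul_le_card_mul (fun B w => B ∈ Tw A e w) h1 h2
  have hs : s.card = S.ncard := by
    rw [← Set.ncard_coe_finset]
    congr 1
    ext B
    simp [s]
  have ht : t.card ≤ p ^ 3 := by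
    refine (Finset.card_filter_le _ _).trans ?_
    rw [Finset.card_univ, Fintype.card_fun, Fintype.card_fin, hp, Nat.card_eq_fintype_card]
  rw [hs] at h3
  have h4 : (4 * S.ncard) * (p - 1) ≤ (p ^ 3 * (p + 1) ^ 2) * (p - 1) := by
    calc (4 * S.ncard) * (p - 1) = 4 * (S.ncard * (p - 1)) := by ring
      _ ≤ 4 * (t.card * (M / 4)) := Nat.mul_le_mul_left _ h3
      _ = t.card * (4 * (M / 4)) := by ring
      _ ≤ p ^ 3 * M := Nat.mul_le_mul ht (Nat.mul_div_le _ _)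
      _ = (p ^ 3 * (p + 1) ^ 2) * (p - 1) := by rw [hM]; ring
  exact Nat.le_of_mul_le_mul_right h4 (by omega)

end FCBM

theorem specFCB (hFEI : SpecFEI) (hFWW : SpecFWW) : SpecFCB := by
  intro k _ _ A h2 h3 hA hd
  constructor
  · have h := FCBM.cnt hFEI hFWW h2 h3 A hA hd True
    simp only [iff_true] at h
    exact h
  · have h := FCBM.cnt hFEI hFWW h2 h3 A hA hd False
    simp only [iff_false] at h
    exact h

end Pool.Agent.Lib.MP_8cb858_nt.PF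
end

section
/-!
# FDIA: counting `B` with eigenvector `e_3`, `A` diagonal
-/
namespace Pool.Agent.Lib.MP_8cb858_nt.PF

open Polynomial NumberField IsDedekindDomain Pool.Agent.Lib.MP_8cb858_nt.SEL Matrix
open scoped Classical

namespace FDIAM

theorem diag_eq {R : Type} [Zero R] (l m n : R) :
    Matrix.diagonal ![l, m, n] = !![l, 0, 0; 0, m, 0; 0, 0, n] := by
  ext i j
  fin_cases i <;> fin_cases j <;> simp

/-- The entries of `B`. -/
theorem entries {k : Type} [Field k] {l m n a b t : k} (hl : l ≠ 0) (hm : m ≠ 0)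
    (hn : n ≠ 0) {B : Matrix (Fin 3) (Fin 3) k} (hG : Gd a b (Matrix.diagonal ![l, m, n]) B)
    (hB : B.mulVec ![0, 0, 1] = t • (Matrix.diagonal ![l, m, n]).mulVec ![0, 0, 1]) :
    B 0 2 = 0 ∧ B 2 0 = 0 ∧ B 1 2 = 0 ∧ B 2 1 = 0 ∧ B 1 0 = B 0 1 ∧ B 2 2 = t * n ∧
      B 0 0 / l + B 1 1 / m + t = 0 ∧
      a = t * (B 0 0 / l + B 1 1 / m) + (B 0 0 / l) * (B 1 1 / m) - 1 / (l * m) * B 0 1 ^ 2 ∧
      b = -t * ((B 0 0 / l) * (B 1 1 / m) - 1 / (l * m) * B 0 1 ^ 2) ∧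
      ¬ IsSquare (-(4 * a ^ 3 + 27 * b ^ 2)) := by
  obtain ⟨⟨hs, h1, h2, h3⟩, h4⟩ := hG
  rw [diag_eq] at hB h1 h2 h3
  have e0 := congrFun hB 0
  have e1 := congrFun hB 1
  have e2 := congrFun hB 2
  simp [Matrix.mulVec, dotProduct, Fin.sum_univ_three] at e0 e1 e2
  have s01 : B 1 0 = B 0 1 := by
    have := congrFun (congrFun hs 0) 1
    simpa using this
  have s02 : B 2 0 = B 0 2 := by
    have := congrFun (congrFun hs 0) 2
    simpa using this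
  have s12 : B 2 1 = B 1 2 := by
    have := congrFun (congrFun hs 1) 2
    simpa using this
  rw [Matrix.adjugate_fin_three, Matrix.trace_fin_three] at h1
  rw [Matrix.adjugate_fin_three, Matrix.trace_fin_three, Matrix.det_fin_three] at h2
  rw [Matrix.det_fin_three, Matrix.det_fin_three] at h3
  simp [Matrix.mul_apply, Fin.sum_univ_three, e0, e1, s01, s02, s12] at h1 h2 h3
  rw [e2] at h1 h2 h3
  refine ⟨e0, s02.trans e0, e1, s12.trans e1, s01, e2, ?_, ?_, ?_, h4⟩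
  · field_simp
    have : n * (B 0 0 * m + B 1 1 * l + t * (l * m)) = 0 := by linear_combination h1
    rcases mul_eq_zero.1 this with h | h
    · exact absurd h hn
    · linear_combination h
  · field_simp
    have : n * (a * (l * m) - (t * (B 0 0 * m + l * B 1 1) + B 0 0 * B 1 1 - B 0 1 ^ 2)) = 0 := by
      linear_combination -h2
    rcases mul_eq_zero.1 this with h | h
    · exact absurd h hn
    · linear_combination h
  · field_simp
    have : n * (b * (l * m) + t * (B 0 0 * B 1 1 - B 0 1 ^ 2)) = 0 := by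
      linear_combination -h3
    rcases mul_eq_zero.1 this with h | h
    · exact absurd h hn
    · linear_combination h

end FDIAM

open FDIAM in
theorem specFDIA (hFTRI : SpecFTRI) : SpecFDIA := by
  intro k _ _ l m n e h2 h3 hl hm hn
  have hk : (1 : k) / (l * m) ≠ 0 := one_div_ne_zero (mul_ne_zero hl hm)
  refine le_trans (Nat.mul_le_mul_left 4 ?_) (hFTRI k (1 / (l * m)) n e h2 hk hn)
  refine Set.ncard_le_ncard_of_injOn
    (fun B : Matrix (Fin 3) (Fin 3) k => ((B 0 0 / l - B 1 1 / m) / 2, B 0 1, 3 * ((B 0 0 / l + B 1 1 / m) / 2)))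
    ?_ ?_ (Set.toFinite _)
  · rintro B ⟨a, b, t, hG, hB, he⟩
    obtain ⟨-, -, -, -, -, -, e7, e8, e9, e10⟩ := entries hl hm hn hG hB
    generalize B 0 0 / l = u at *
    generalize B 1 1 / m = v at *
    generalize B 0 1 = y at *
    generalize (1 : k) / (l * m) = κ at *
    have ht : t = -(u + v) := by linear_combination e7
    subst ht
    subst e8
    subst e9
    refine ⟨?_, ?_⟩
    · rintro ⟨r, hr⟩
      simp only at hr
      apply e10
      refine ⟨2 * r * (9 * ((u + v) / 2) ^ 2 - (((u - v) / 2) ^ 2 + κ * y ^ 2)), ?_⟩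
      have : 2 * r * (9 * ((u + v) / 2) ^ 2 - (((u - v) / 2) ^ 2 + κ * y ^ 2)) *
          (2 * r * (9 * ((u + v) / 2) ^ 2 - (((u - v) / 2) ^ 2 + κ * y ^ 2))) =
          4 * (r * r) * (9 * ((u + v) / 2) ^ 2 - (((u - v) / 2) ^ 2 + κ * y ^ 2)) ^ 2 := by ring
      rw [this, ← hr]
      field_simp
      ring
    · simp only
      rw [← he]
      have : ((3 * ((u + v) / 2)) ^ 2 - (((u - v) / 2) ^ 2 + κ * y ^ 2)) * n =
          (3 * (-(u + v)) ^ 2 + (-(u + v) * (u + v) + u * v - κ * y ^ 2)) * n := by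
        field_simp
        ring
      rw [this]
  · rintro B ⟨a, b, t, hG, hB, he⟩ B' ⟨a', b', t', hG', hB', he'⟩ hBB
    obtain ⟨c1, c2, c3, c4, c5, c6, c7, -, -, -⟩ := entries hl hm hn hG hB
    obtain ⟨d1, d2, d3, d4, d5, d6, d7, -, -, -⟩ := entries hl hm hn hG' hB'
    simp only [Prod.mk.injEq] at hBB
    obtain ⟨f1, f2, f3⟩ := hBB
    have f1' : B 0 0 / l - B 1 1 / m = B' 0 0 / l - B' 1 1 / m := by
      have := congrArg (fun z => z * 2) f1
      simpa [div_mul_cancel₀, h2] using this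
    have f3' : B 0 0 / l + B 1 1 / m = B' 0 0 / l + B' 1 1 / m := by
      have g3 := mul_left_cancel₀ h3 f3
      have := congrArg (fun z => z * 2) g3
      simpa [div_mul_cancel₀, h2] using this
    have g0 : B 0 0 / l = B' 0 0 / l := by
      apply mul_left_cancel₀ h2
      linear_combination f1' + f3'
    have g1 : B 1 1 / m = B' 1 1 / m := by
      apply mul_left_cancel₀ h2
      linear_combination f3' - f1'
    have g0' : B 0 0 = B' 0 0 := by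
      have := congrArg (fun z => z * l) g0
      simpa [div_mul_cancel₀, hl] using this
    have g1' : B 1 1 = B' 1 1 := by
      have := congrArg (fun z => z * m) g1
      simpa [div_mul_cancel₀, hm] using this
    have gt : t = t' := by linear_combination c7 - d7 - g0 - g1
    have g2 : B 2 2 = B' 2 2 := by rw [c6, d6, gt]
    ext i j
    fin_cases i <;> fin_cases j
    · exact g0'
    · exact f2
    · exact c1.trans d1.symm
    · exact (c5.trans f2).trans d5.symm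
    · exact g1'
    · exact c3.trans d3.symm
    · exact c2.trans d2.symm
    · exact c4.trans d4.symm
    · exact g2

end Pool.Agent.Lib.MP_8cb858_nt.PF
end

section
/-!
# FFIB: conditions modulo several coprime ideals
-/
namespace Pool.Agent.Lib.MP_8cb858_nt.PF

namespace FFIBM

/-- Membership in a product of pairwise coprime ideals. -/
theorem mem_prod {R ι : Type} [CommRing R] (J : ι → Ideal R) (x : R) (s : Finset ι) :
    (∀ i ∈ s, ∀ j ∈ s, i ≠ j → IsCoprime (J i) (J j)) → (∀ i ∈ s, x ∈ J i) →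
    x ∈ ∏ l ∈ s, J l := by
  classical
  induction s using Finset.induction_on with
  | empty =>
    intro _ _
    rw [Finset.prod_empty, Ideal.one_eq_top]
    exact Submodule.mem_top
  | insert a s ha ih =>
    intro hc hx
    rw [Finset.prod_insert ha]
    have h1 : IsCoprime (J a) (∏ l ∈ s, J l) := IsCoprime.prod_right fun l hl =>
      hc a (Finset.mem_insert_self _ _) l (Finset.mem_insert_of_mem hl) (fun h => ha (h ▸ hl))
    rw [Ideal.mul_eq_inf_of_isCoprime h1]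
    exact ⟨hx a (Finset.mem_insert_self _ _), ih (fun i hi j hj => hc i
      (Finset.mem_insert_of_mem hi) j (Finset.mem_insert_of_mem hj))
      (fun i hi => hx i (Finset.mem_insert_of_mem hi))⟩

end FFIBM

open FFIBM in
theorem specFFIB : SpecFFIB := by
  classical
  intro R0 _ ι Q J S T M hQ hfq hM hR
  obtain ⟨Y, hY⟩ : ∃ Y : Set (Matrix (Fin 3) (Fin 3) R0),
    Y = {B ∈ S | ∀ p ∈ Q, md (J p) B ∈ T p} := ⟨_, rfl⟩
  rw [← hY]
  have hYm : ∀ B ∈ Y, B ∈ S ∧ ∀ p ∈ Q, md (J p) B ∈ T p := by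
    intro B hB
    rw [hY] at hB
    exact hB
  have hfp : ∀ p : {p // p ∈ Q}, Finite (Matrix (Fin 3) (Fin 3) (R0 ⧸ J p)) := by
    rintro ⟨p, hp⟩
    have := hfq p hp
    infer_instance
  -- the map
  let F : Matrix (Fin 3) (Fin 3) R0 →
      (∀ p : {p // p ∈ Q}, Matrix (Fin 3) (Fin 3) (R0 ⧸ J p)) := fun B p => md (J p) B
  have hcl : ∀ B ∈ Y, ∀ R ∈ Y, F B = F R →
      B ∈ {B ∈ S | ∀ i j, B i j - R i j ∈ ∏ l ∈ Q, J l} := by
    intro B hB R _ he
    refine ⟨(hYm B hB).1, fun i j => ?_⟩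
    refine mem_prod J _ Q hQ fun p hp => ?_
    have h2 : md (J p) B = md (J p) R := congrFun he ⟨p, hp⟩
    have h3 : Ideal.Quotient.mk (J p) (B i j) = Ideal.Quotient.mk (J p) (R i j) :=
      congrFun (congrFun h2 i) j
    exact Ideal.Quotient.eq.1 h3
  have hfib : ∀ t, {B ∈ Y | F B = t}.Finite ∧ ({B ∈ Y | F B = t}.ncard : ℝ) ≤ M := by
    intro t
    by_cases hne : {B ∈ Y | F B = t}.Nonempty
    · obtain ⟨R, hR1, hR2⟩ := hne
      have hsub : {B ∈ Y | F B = t} ⊆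
          {B ∈ S | ∀ i j, B i j - R i j ∈ ∏ l ∈ Q, J l} := by
        rintro B ⟨h1, h2⟩
        exact hcl B h1 R hR1 (h2.trans hR2.symm)
      refine ⟨(hR R).1.subset hsub, le_trans ?_ (hR R).2⟩
      exact_mod_cast Set.ncard_le_ncard hsub (hR R).1
    · rw [Set.not_nonempty_iff_eq_empty] at hne
      rw [hne]
      refine ⟨Set.finite_empty, ?_⟩
      rw [Set.ncard_empty]
      simpa using hM
  have hYfin : Y.Finite := by
    have h1 : Y = ⋃ t, {B ∈ Y | F B = t} := by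
      ext B
      simp
    rw [h1]
    exact Set.finite_iUnion fun t => (hfib t).1
  refine ⟨hYfin, ?_⟩
  have hcard : hYfin.toFinset.card ≤ ⌊M⌋₊ * (hYfin.toFinset.image F).card := by
    apply Finset.card_le_mul_card_image
    intro t _
    apply Nat.le_floor
    refine le_trans ?_ (hfib t).2
    rw [Set.ncard_eq_toFinset_card _ (hfib t).1]
    apply Nat.cast_le.2
    apply Finset.card_le_card
    intro B hB
    rw [Finset.mem_filter, Set.Finite.mem_toFinset] at hB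
    rw [Set.Finite.mem_toFinset]
    exact hB
  have himg : (hYfin.toFinset.image F).card ≤ ∏ p ∈ Q, (T p).ncard := by
    have h1 : ((hYfin.toFinset.image F : Finset _) : Set (∀ p : {p // p ∈ Q}, Matrix (Fin 3) (Fin 3) (R0 ⧸ J p))) ⊆
        Set.range (fun (t : ∀ p : {p // p ∈ Q}, T p.1) (p : {p // p ∈ Q}) =>
          ((t p : T p.1) : Matrix (Fin 3) (Fin 3) (R0 ⧸ J p))) := by
      intro t ht
      rw [Finset.mem_coe, Finset.mem_image] at ht
      obtain ⟨B, hB, rfl⟩ := ht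
      rw [Set.Finite.mem_toFinset] at hB
      exact ⟨fun p => ⟨md (J p) B, (hYm B hB).2 p p.2⟩, rfl⟩
    have hft : ∀ p : {p // p ∈ Q}, Finite (T p.1) := fun p => by
      have := hfp p
      exact Subtype.finite
    have h2 : (Set.range (fun (t : ∀ p : {p // p ∈ Q}, T p.1) (p : {p // p ∈ Q}) =>
          ((t p : T p.1) : Matrix (Fin 3) (Fin 3) (R0 ⧸ J p)))).ncard ≤ ∏ p ∈ Q, (T p).ncard := by
      have h3 : (Set.range (fun (t : ∀ p : {p // p ∈ Q}, T p.1) (p : {p // p ∈ Q}) =>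
          ((t p : T p.1) : Matrix (Fin 3) (Fin 3) (R0 ⧸ J p)))).ncard ≤ Nat.card (∀ p : {p // p ∈ Q}, T p.1) := by
        rw [← Set.image_univ, ← Set.ncard_univ]
        exact Set.ncard_image_le Set.finite_univ
      refine h3.trans (le_of_eq ?_)
      rw [Nat.card_pi, ← Finset.prod_coe_sort Q]
      rfl
    rw [← Set.ncard_coe_finset]
    exact (Set.ncard_le_ncard h1 (Set.finite_range _)).trans h2
  have h8 : (Y.ncard : ℝ) ≤ (⌊M⌋₊ : ℝ) * ((∏ p ∈ Q, (T p).ncard : ℕ) : ℝ) := by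
    rw [Set.ncard_eq_toFinset_card _ hYfin]
    exact_mod_cast hcard.trans (Nat.mul_le_mul_left _ himg)
  refine h8.trans ?_
  push_cast
  exact mul_le_mul_of_nonneg_right (Nat.floor_le hM)
    (Finset.prod_nonneg fun _ _ => Nat.cast_nonneg _)

end Pool.Agent.Lib.MP_8cb858_nt.PF
end

section
/-!
# FP1: counting pairs of the first type with pattern (number fields)
-/
namespace Pool.Agent.Lib.MP_8cb858_nt.PF

open Polynomial NumberField IsDedekindDomain Pool.Agent.Lib.MP_8cb858_nt.SEL Matrix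
open scoped Classical

namespace FP1M

/-- Union over a finite set of first components. -/
theorem core {α : Type} {FA : Set α} (hF : FA.Finite) (S : α → Set α) (T : α → α → Prop) (K : ℝ)
    (h : ∀ A ∈ FA, {B ∈ S A | T A B}.Finite ∧ ({B ∈ S A | T A B}.ncard : ℝ) ≤ K) :
    {X : α × α | X.1 ∈ FA ∧ X.2 ∈ S X.1 ∧ T X.1 X.2}.Finite ∧
    ({X : α × α | X.1 ∈ FA ∧ X.2 ∈ S X.1 ∧ T X.1 X.2}.ncard : ℝ) ≤ (FA.ncard : ℝ) * K := by
  have hsub : {X : α × α | X.1 ∈ FA ∧ X.2 ∈ S X.1 ∧ T X.1 X.2} ⊆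
      ⋃ x ∈ hF.toFinset, (fun B : α => (x, B)) '' {B ∈ S x | T x B} := by
    rintro ⟨A, B⟩ ⟨hA, hB, hT⟩
    exact Set.mem_iUnion₂.2 ⟨A, hF.mem_toFinset.2 hA, B, ⟨hB, hT⟩, rfl⟩
  have hfin : (⋃ x ∈ hF.toFinset, (fun B : α => (x, B)) '' {B ∈ S x | T x B}).Finite := by
    refine Set.Finite.biUnion (Finset.finite_toSet hF.toFinset) fun x hx => ?_
    exact (h x (hF.mem_toFinset.1 hx)).1.image _
  refine ⟨hfin.subset hsub, ?_⟩
  have h1 := Set.ncard_le_ncard hsub hfin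
  have h2 := Finset.set_ncard_biUnion_le hF.toFinset
    (fun x => (fun B : α => (x, B)) '' {B ∈ S x | T x B})
  have h3 : ((∑ x ∈ hF.toFinset, ((fun B : α => (x, B)) '' {B ∈ S x | T x B}).ncard : ℕ) : ℝ) ≤
      ∑ _x ∈ hF.toFinset, K := by
    push_cast
    refine Finset.sum_le_sum fun x hx => ?_
    rw [Set.ncard_image_of_injective _ (Prod.mk_right_injective x)]
    exact (h x (hF.mem_toFinset.1 hx)).2
  have h5 : ({X : α × α | X.1 ∈ FA ∧ X.2 ∈ S X.1 ∧ T X.1 X.2}.ncard : ℝ) ≤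
      ((∑ x ∈ hF.toFinset, ((fun B : α => (x, B)) '' {B ∈ S x | T x B}).ncard : ℕ) : ℝ) := by
    exact_mod_cast h1.trans h2
  refine (h5.trans h3).trans (le_of_eq ?_)
  rw [Finset.sum_const, nsmul_eq_mul, Set.ncard_eq_toFinset_card FA hF]

variable {F : Type} [Field F] [NumberField F]

variable (F) in
/-- the set of matrices `A` -/
def FA (C : ℝ) : Set (MO F) :=
  {A | A.IsSymm ∧ A.det ≠ 0 ∧ ∀ (v : InfinitePlace F) (i j : Fin 3), v (A i j : F) ≤ C}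

theorem dns_nonneg (Q Q' P : Finset (HeightOneSpectrum (𝓞 F)))
    (Z : Finset (Finset (HeightOneSpectrum (𝓞 F)))) : 0 ≤ dns Q Q' P Z := by
  unfold dns
  positivity

theorem nv_pos (v : HeightOneSpectrum (𝓞 F)) : 0 < nv v := by
  have := finite_quot v
  rw [← card_quot]
  exact Nat.card_pos

theorem prod_pos (S : Finset (HeightOneSpectrum (𝓞 F))) : (0 : ℝ) < ∏ v ∈ S, (nv v : ℝ) :=
  Finset.prod_pos fun v _ => by exact_mod_cast nv_pos v

omit [NumberField F] in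
theorem prod_ne (S : Finset (HeightOneSpectrum (𝓞 F))) : (∏ v ∈ S, v.asIdeal) ≠ ⊥ :=
  Finset.prod_ne_zero_iff.2 fun v _ => v.ne_bot

theorem absNorm_prod (S : Finset (HeightOneSpectrum (𝓞 F))) :
    ((Ideal.absNorm (∏ v ∈ S, v.asIdeal) : ℕ) : ℝ) = ∏ v ∈ S, (nv v : ℝ) := by
  rw [map_prod]
  push_cast
  rfl

theorem vol_scale (C : ℝ) (ρ : InfinitePlace F → ℝ) :
    vol (fun v => C * ρ v) = C ^ Module.finrank ℚ F * vol ρ := by
  rw [CNUM.vol_mul, CNUM.vol_const]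

end FP1M

open FP1M

theorem specFP1 (hFI1 : SpecFI1) (hFPB : SpecFPB) (hFAD : SpecFAD) : SpecFP1 := by
  intro F _ _ C hC
  obtain ⟨C1, hC1, hI⟩ := hFI1 F
  obtain ⟨hfin, P0, hP0⟩ := hFAD F C
  have hFA : (FA F C).Finite := hfin.subset fun _ h => h.2.2
  have hC0 : 0 < C := by linarith
  have hC10 : 0 < C1 := by linarith
  refine ⟨((FA F C).ncard + 1) * (C1 * C ^ Module.finrank ℚ F) ^ 5, P0, by positivity, ?_⟩
  intro Q Q' P Z hQP hQ hQ' hZ ρ hρ hNρ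
  have hN := prod_pos (Q ∪ P)
  have hvs := vol_scale C ρ
  have hρ0 : 0 < vol ρ := lt_of_lt_of_le hN hNρ
  have hCn : 1 ≤ C ^ Module.finrank ℚ F := one_le_pow₀ hC
  have hvN : (∏ v ∈ Q ∪ P, (nv v : ℝ)) ≤ vol (fun v => C * ρ v) := by
    rw [hvs]
    nlinarith
  have hK : ∀ A ∈ FA F C,
      {B ∈ {B : MO F | B.IsSymm ∧ (A.adjugate * B).trace = 0 ∧
        ∀ (v : InfinitePlace F) (i j : Fin 3), v (B i j : F) ≤ C * ρ v} | Pat Q Q' P Z A B}.Finite ∧
      ({B ∈ {B : MO F | B.IsSymm ∧ (A.adjugate * B).trace = 0 ∧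
        ∀ (v : InfinitePlace F) (i j : Fin 3), v (B i j : F) ≤ C * ρ v} |
          Pat Q Q' P Z A B}.ncard : ℝ) ≤
        (C1 * C ^ Module.finrank ℚ F * vol ρ) ^ 5 * dns Q Q' P Z := by
    intro A hA
    obtain ⟨h1, h2⟩ := hFPB F Q Q' P Z A
      {B : MO F | B.IsSymm ∧ (A.adjugate * B).trace = 0 ∧
        ∀ (v : InfinitePlace F) (i j : Fin 3), v (B i j : F) ≤ C * ρ v}
      ((C1 * max 1 (vol (fun v => C * ρ v) / (∏ v ∈ Q ∪ P, (nv v : ℝ)))) ^ 5) hQP hQ' hZ hA.1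
      (fun v hv => ⟨(hP0 v (hQ v hv)).1, (hP0 v (hQ v hv)).2 A hA.2.2 hA.2.1⟩) (by positivity) (by
      intro R0
      have h := hI (∏ v ∈ Q ∪ P, v.asIdeal) (fun v => C * ρ v) A R0 (prod_ne _)
        (fun v => mul_pos hC0 (lt_of_lt_of_le one_pos (hρ v))) hA.1 hA.2.1
      rw [absNorm_prod] at h
      have e : {B ∈ {B : MO F | B.IsSymm ∧ (A.adjugate * B).trace = 0 ∧
          ∀ (v : InfinitePlace F) (i j : Fin 3), v (B i j : F) ≤ C * ρ v} |
            ∀ i j, B i j - R0 i j ∈ ∏ v ∈ Q ∪ P, v.asIdeal} =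
          {B : MO F | B.IsSymm ∧ (A.adjugate * B).trace = 0 ∧
            (∀ (v : InfinitePlace F) (i j : Fin 3), v (B i j : F) ≤ C * ρ v) ∧
            ∀ i j, B i j - R0 i j ∈ ∏ v ∈ Q ∪ P, v.asIdeal} := by
        ext B
        constructor
        · rintro ⟨⟨a, b, c⟩, d⟩
          exact ⟨a, b, c, d⟩
        · rintro ⟨a, b, c, d⟩
          exact ⟨⟨a, b, c⟩, d⟩
      rw [e]
      exact h)
    refine ⟨h1, h2.trans (le_of_eq ?_)⟩
    rw [max_eq_right ((one_le_div hN).2 hvN), ← mul_pow, hvs]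
    congr 2
    field_simp
  obtain ⟨h1, h2⟩ := core hFA _ (fun A B => Pat Q Q' P Z A B) _ hK
  have hsub : {X ∈ R1 F C ρ | Pat Q Q' P Z X.1 X.2} ⊆
      {X : MO F × MO F | X.1 ∈ FA F C ∧ X.2 ∈ {B : MO F | B.IsSymm ∧
        (X.1.adjugate * B).trace = 0 ∧
        ∀ (v : InfinitePlace F) (i j : Fin 3), v (B i j : F) ≤ C * ρ v} ∧
        Pat Q Q' P Z X.1 X.2} := by
    rintro X ⟨⟨a, b, c, d, e⟩, f⟩
    exact ⟨⟨a, c, fun v i j => (e v i j).1⟩, ⟨b, d, fun v i j => (e v i j).2⟩, f⟩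
  refine ⟨h1.subset hsub, ?_⟩
  have h3 : ({X ∈ R1 F C ρ | Pat Q Q' P Z X.1 X.2}.ncard : ℝ) ≤ _ :=
    (Nat.cast_le.2 (Set.ncard_le_ncard hsub h1)).trans h2
  refine h3.trans ?_
  have hd := dns_nonneg Q Q' P Z
  have hK0 : 0 ≤ (C1 * C ^ Module.finrank ℚ F * vol ρ) ^ 5 * dns Q Q' P Z := by positivity
  calc ((FA F C).ncard : ℝ) * ((C1 * C ^ Module.finrank ℚ F * vol ρ) ^ 5 * dns Q Q' P Z)
      ≤ ((FA F C).ncard + 1 : ℝ) * ((C1 * C ^ Module.finrank ℚ F * vol ρ) ^ 5 *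
        dns Q Q' P Z) := mul_le_mul_of_nonneg_right (by linarith) hK0
    _ = ((FA F C).ncard + 1) * (C1 * C ^ Module.finrank ℚ F) ^ 5 * dns Q Q' P Z *
        vol ρ ^ 5 := by ring

end Pool.Agent.Lib.MP_8cb858_nt.PF
end

section
/-!
# FP2: counting pairs of the second type with pattern (number fields)
-/
namespace Pool.Agent.Lib.MP_8cb858_nt.PF

open Polynomial NumberField IsDedekindDomain Pool.Agent.Lib.MP_8cb858_nt.SEL Matrix
open scoped Classical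

namespace FP2M

open FP1M

/-- The five maxima. -/
theorem five {V x : ℝ} (hx : 1 ≤ x) (hV : x ^ 2 ≤ V) :
    max 1 (V / x ^ 2) * max 1 (V / x) * max 1 V * max 1 (V * x) * max 1 (V * x ^ 2) = V ^ 5 := by
  have hx0 : 0 < x := by linarith
  have hxx : x ≤ x ^ 2 := by nlinarith
  have hV1 : 1 ≤ V := by linarith
  have hVx : 1 ≤ V * x := by nlinarith
  have hVx2 : 1 ≤ V * x ^ 2 := by nlinarith
  have h1 : 1 ≤ V / x ^ 2 := (one_le_div (by positivity)).2 hV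
  have h2 : 1 ≤ V / x := (one_le_div hx0).2 (by linarith)
  rw [max_eq_right h1, max_eq_right h2, max_eq_right hV1, max_eq_right hVx, max_eq_right hVx2]
  field_simp

theorem two_four (k : ℕ) : ((2 : ℝ) ^ k) ^ 2 = 4 ^ k := by
  rw [← pow_mul, mul_comm, pow_mul]
  norm_num

variable {F : Type} [Field F] [NumberField F]

/-- the set of the `B` -/
def SB (s : InfinitePlace F → ℝ) (k : ℕ) (A : MO F) : Set (MO F) :=
  {B : MO F | (A 0 0 = 0 ∧ A 0 1 = 0 ∧ A 1 2 = 0 ∧ A 2 2 = 0) ∧ B.IsSymm ∧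
    (A.adjugate * B).trace = 0 ∧
    ∀ (v : InfinitePlace F) (i j : Fin 3), v (B i j : F) ≤
      s v * (2 : ℝ) ^ ((k : ℤ) * ((i : ℕ) + (j : ℕ) - 2 : ℤ))}

end FP2M

open FP1M FP2M

theorem specFP2 (hFI2 : SpecFI2) (hFPB : SpecFPB) (hFAD : SpecFAD) : SpecFP2 := by
  intro F _ _ C hC
  obtain ⟨C1, hC1, hI⟩ := hFI2 F
  obtain ⟨hfin, P0, hP0⟩ := hFAD F C
  have hFA : (FA F C).Finite := hfin.subset fun _ h => h.2.2
  have hC0 : 0 < C := by linarith
  have hC10 : 0 < C1 := by linarith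
  refine ⟨((FA F C).ncard + 1) * (C1 * C ^ Module.finrank ℚ F) ^ 5, P0, by positivity, ?_⟩
  intro Q Q' P Z hQP hQ hQ' hZ ρ k hρ hNρ
  have hN := prod_pos (Q ∪ P)
  have hvs := vol_scale C ρ
  have hx1 : (1 : ℝ) ≤ 2 ^ (k * Module.finrank ℚ F) := one_le_pow₀ (by norm_num)
  have h41 : (1 : ℝ) ≤ 4 ^ (k * Module.finrank ℚ F) := one_le_pow₀ (by norm_num)
  have hρ0 : 0 < vol ρ := lt_of_lt_of_le (by positivity) hNρ
  have hCn : 1 ≤ C ^ Module.finrank ℚ F := one_le_pow₀ hC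
  have hvN : ((2 : ℝ) ^ (k * Module.finrank ℚ F)) ^ 2 ≤
      vol (fun v => C * ρ v) / (∏ v ∈ Q ∪ P, (nv v : ℝ)) := by
    rw [le_div_iff₀ hN, two_four, hvs]
    nlinarith
  have hfive := five hx1 hvN
  rw [two_four] at hfive
  have hK : ∀ A ∈ FA F C,
      {B ∈ SB (fun v => C * ρ v) k A | Pat Q Q' P Z A B}.Finite ∧
      ({B ∈ SB (fun v => C * ρ v) k A | Pat Q Q' P Z A B}.ncard : ℝ) ≤
        (C1 * C ^ Module.finrank ℚ F * vol ρ) ^ 5 * dns Q Q' P Z := by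
    intro A hA
    obtain ⟨h1, h2⟩ := hFPB F Q Q' P Z A (SB (fun v => C * ρ v) k A)
      ((C1 * (vol (fun v => C * ρ v) / (∏ v ∈ Q ∪ P, (nv v : ℝ)))) ^ 5) hQP hQ' hZ hA.1
      (fun v hv => ⟨(hP0 v (hQ v hv)).1, (hP0 v (hQ v hv)).2 A hA.2.2 hA.2.1⟩) (by
        rw [hvs]
        positivity) (by
      intro R0
      by_cases hz : A 0 0 = 0 ∧ A 0 1 = 0 ∧ A 1 2 = 0 ∧ A 2 2 = 0
      · have h := hI (∏ v ∈ Q ∪ P, v.asIdeal) (fun v => C * ρ v) k A R0 (prod_ne _)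
          (fun v => mul_pos hC0 (lt_of_lt_of_le one_pos (hρ v))) hA.1 hA.2.1 hz.1 hz.2.1 hz.2.2.1
          hz.2.2.2
        rw [absNorm_prod, hfive, ← mul_pow] at h
        have e : {B ∈ SB (fun v => C * ρ v) k A |
              ∀ i j, B i j - R0 i j ∈ ∏ v ∈ Q ∪ P, v.asIdeal} =
            {B : MO F | B.IsSymm ∧ (A.adjugate * B).trace = 0 ∧
              (∀ (v : InfinitePlace F) (i j : Fin 3), v (B i j : F) ≤
                (fun v => C * ρ v) v * (2 : ℝ) ^ ((k : ℤ) * ((i : ℕ) + (j : ℕ) - 2 : ℤ))) ∧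
              ∀ i j, B i j - R0 i j ∈ ∏ v ∈ Q ∪ P, v.asIdeal} := by
          ext B
          constructor
          · rintro ⟨⟨_, a, b, c⟩, d⟩
            exact ⟨a, b, c, d⟩
          · rintro ⟨a, b, c, d⟩
            exact ⟨⟨hz, a, b, c⟩, d⟩
        rw [e]
        exact h
      · have e : {B ∈ SB (fun v => C * ρ v) k A |
              ∀ i j, B i j - R0 i j ∈ ∏ v ∈ Q ∪ P, v.asIdeal} = ∅ := by
          ext B
          constructor
          · rintro ⟨⟨a, _⟩, _⟩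
            exact (hz a).elim
          · rintro h
            exact h.elim
        rw [e]
        refine ⟨Set.finite_empty, ?_⟩
        rw [Set.ncard_empty, hvs]
        push_cast
        positivity)
    refine ⟨h1, h2.trans (le_of_eq ?_)⟩
    rw [← mul_pow, hvs]
    congr 2
    field_simp
  obtain ⟨h1, h2⟩ := core hFA _ (fun A B => Pat Q Q' P Z A B) _ hK
  have hsub : {X ∈ R2 F C ρ k | Pat Q Q' P Z X.1 X.2} ⊆
      {X : MO F × MO F | X.1 ∈ FA F C ∧ X.2 ∈ SB (fun v => C * ρ v) k X.1 ∧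
        Pat Q Q' P Z X.1 X.2} := by
    rintro X ⟨⟨a, b, c, d, e1, e2, e3, e4, _, e⟩, f⟩
    exact ⟨⟨a, c, fun v i j => (e v i j).1⟩, ⟨⟨e1, e2, e3, e4⟩, b, d, fun v i j => (e v i j).2⟩, f⟩
  refine ⟨h1.subset hsub, ?_⟩
  have h3 : ({X ∈ R2 F C ρ k | Pat Q Q' P Z X.1 X.2}.ncard : ℝ) ≤ _ :=
    (Nat.cast_le.2 (Set.ncard_le_ncard hsub h1)).trans h2
  refine h3.trans ?_
  have hd := dns_nonneg Q Q' P Z
  have hK0 : 0 ≤ (C1 * C ^ Module.finrank ℚ F * vol ρ) ^ 5 * dns Q Q' P Z := by positivity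
  calc ((FA F C).ncard : ℝ) * ((C1 * C ^ Module.finrank ℚ F * vol ρ) ^ 5 * dns Q Q' P Z)
      ≤ ((FA F C).ncard + 1 : ℝ) * ((C1 * C ^ Module.finrank ℚ F * vol ρ) ^ 5 *
        dns Q Q' P Z) := mul_le_mul_of_nonneg_right (by linarith) hK0
    _ = ((FA F C).ncard + 1) * (C1 * C ^ Module.finrank ℚ F) ^ 5 * dns Q Q' P Z *
        vol ρ ^ 5 := by ring

end Pool.Agent.Lib.MP_8cb858_nt.PF
end

section
/-!
# MP1: counting pairs of the first type with pattern and conditions at the places dividing the twist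
-/
namespace Pool.Agent.Lib.MP_8cb858_nt.PT

open Polynomial NumberField IsDedekindDomain Pool.Agent.Lib.MP_8cb858_nt.SEL Matrix
open Pool.Agent.Lib.MP_8cb858_nt.PF
open scoped Classical

namespace MP1M

variable {F : Type} [Field F] [NumberField F]

theorem nmW_pos (Q P W : Finset (HeightOneSpectrum (𝓞 F))) : 0 < nmW Q P W := by
  unfold nmW
  exact mul_pos (FP1M.prod_pos _)
    (Finset.prod_pos fun v _ => pow_pos (by exact_mod_cast FP1M.nv_pos v) 3)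

theorem dnW_nonneg (Q P W : Finset (HeightOneSpectrum (𝓞 F)))
    (Z : Finset (Finset (HeightOneSpectrum (𝓞 F)))) : 0 ≤ dnW Q P W Z := by
  unfold dnW
  exact mul_nonneg (FP1M.dns_nonneg _ _ _ _) (Finset.prod_nonneg fun v _ => by positivity)

omit [NumberField F] in
theorem md_ne (Q P W : Finset (HeightOneSpectrum (𝓞 F))) :
    ((∏ v ∈ Q ∪ P, v.asIdeal) * ∏ v ∈ W, v.asIdeal ^ 3) ≠ ⊥ :=
  mul_ne_zero (FP1M.prod_ne _) (Finset.prod_ne_zero_iff.2 fun v _ => pow_ne_zero 3 v.ne_bot)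

theorem absNorm_md (Q P W : Finset (HeightOneSpectrum (𝓞 F))) :
    ((Ideal.absNorm ((∏ v ∈ Q ∪ P, v.asIdeal) * ∏ v ∈ W, v.asIdeal ^ 3) : ℕ) : ℝ) = nmW Q P W := by
  rw [map_mul]
  push_cast
  rw [FP1M.absNorm_prod, map_prod]
  push_cast
  unfold nmW
  congr 1
  refine Finset.prod_congr rfl fun v _ => ?_
  rw [map_pow]
  push_cast
  rfl

theorem mem_uu {Q P W : Finset (HeightOneSpectrum (𝓞 F))} {v : HeightOneSpectrum (𝓞 F)}
    (h : v ∈ Q ∪ P) : v ∈ Q ∪ P ∪ W := Finset.mem_union_left _ h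

end MP1M

open FP1M MP1M

theorem specMP1 (hMPB : SpecMPB) (hFI1 : PF.SpecFI1) (hFAD : PF.SpecFAD) : SpecMP1 := by
  intro F _ _ C hC
  obtain ⟨C1, hC1, hI⟩ := hFI1 F
  obtain ⟨hfin, P0, hP0⟩ := hFAD F C
  have hFA : (FA F C).Finite := hfin.subset fun _ h => h.2.2
  have hC0 : 0 < C := by linarith
  have hC10 : 0 < C1 := by linarith
  refine ⟨((FA F C).ncard + 1) * (C1 * C ^ Module.finrank ℚ F) ^ 5, P0, by positivity, ?_⟩
  intro Q P W Z hQP hW hQ hZ ρ hρ hNρ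
  have hN := nmW_pos Q P W
  have hvs := vol_scale C ρ
  have hρ0 : 0 < vol ρ := lt_of_lt_of_le hN hNρ
  have hCn : 1 ≤ C ^ Module.finrank ℚ F := one_le_pow₀ hC
  have hvN : nmW Q P W ≤ vol (fun v => C * ρ v) := by
    rw [hvs]
    nlinarith
  have hK : ∀ A ∈ FA F C,
      {B ∈ {B : MO F | B.IsSymm ∧ (A.adjugate * B).trace = 0 ∧
        ∀ (v : InfinitePlace F) (i j : Fin 3), v (B i j : F) ≤ C * ρ v} | PatW Q P W Z A B}.Finite ∧
      ({B ∈ {B : MO F | B.IsSymm ∧ (A.adjugate * B).trace = 0 ∧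
        ∀ (v : InfinitePlace F) (i j : Fin 3), v (B i j : F) ≤ C * ρ v} |
          PatW Q P W Z A B}.ncard : ℝ) ≤
        (C1 * C ^ Module.finrank ℚ F * vol ρ) ^ 5 * dnW Q P W Z := by
    intro A hA
    obtain ⟨h1, h2⟩ := hMPB F Q P W Z A
      {B : MO F | B.IsSymm ∧ (A.adjugate * B).trace = 0 ∧
        ∀ (v : InfinitePlace F) (i j : Fin 3), v (B i j : F) ≤ C * ρ v}
      ((C1 * max 1 (vol (fun v => C * ρ v) / nmW Q P W)) ^ 5) hQP hW hZ hA.1
      (fun v hv => ⟨(hP0 v (hQ v hv)).1, (hP0 v (hQ v hv)).2 A hA.2.2 hA.2.1⟩) (by positivity) (by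
      intro R0
      have h := hI ((∏ v ∈ Q ∪ P, v.asIdeal) * ∏ v ∈ W, v.asIdeal ^ 3) (fun v => C * ρ v) A R0
        (md_ne Q P W)
        (fun v => mul_pos hC0 (lt_of_lt_of_le one_pos (hρ v))) hA.1 hA.2.1
      rw [absNorm_md] at h
      have e : {B ∈ {B : MO F | B.IsSymm ∧ (A.adjugate * B).trace = 0 ∧
          ∀ (v : InfinitePlace F) (i j : Fin 3), v (B i j : F) ≤ C * ρ v} |
            ∀ i j, B i j - R0 i j ∈ (∏ v ∈ Q ∪ P, v.asIdeal) * ∏ v ∈ W, v.asIdeal ^ 3} =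
          {B : MO F | B.IsSymm ∧ (A.adjugate * B).trace = 0 ∧
            (∀ (v : InfinitePlace F) (i j : Fin 3), v (B i j : F) ≤ C * ρ v) ∧
            ∀ i j, B i j - R0 i j ∈ (∏ v ∈ Q ∪ P, v.asIdeal) * ∏ v ∈ W, v.asIdeal ^ 3} := by
        ext B
        constructor
        · rintro ⟨⟨a, b, c⟩, d⟩
          exact ⟨a, b, c, d⟩
        · rintro ⟨a, b, c, d⟩
          exact ⟨⟨a, b, c⟩, d⟩
      rw [e]
      exact h)
    refine ⟨h1, h2.trans (le_of_eq ?_)⟩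
    rw [max_eq_right ((one_le_div hN).2 hvN), ← mul_pow, hvs]
    congr 2
    field_simp
  obtain ⟨h1, h2⟩ := core hFA _ (fun A B => PatW Q P W Z A B) _ hK
  have hsub : {X ∈ R1 F C ρ | PatW Q P W Z X.1 X.2} ⊆
      {X : MO F × MO F | X.1 ∈ FA F C ∧ X.2 ∈ {B : MO F | B.IsSymm ∧
        (X.1.adjugate * B).trace = 0 ∧
        ∀ (v : InfinitePlace F) (i j : Fin 3), v (B i j : F) ≤ C * ρ v} ∧
        PatW Q P W Z X.1 X.2} := by
    rintro X ⟨⟨a, b, c, d, e⟩, f⟩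
    exact ⟨⟨a, c, fun v i j => (e v i j).1⟩, ⟨b, d, fun v i j => (e v i j).2⟩, f⟩
  refine ⟨h1.subset hsub, ?_⟩
  have h3 : ({X ∈ R1 F C ρ | PatW Q P W Z X.1 X.2}.ncard : ℝ) ≤ _ :=
    (Nat.cast_le.2 (Set.ncard_le_ncard hsub h1)).trans h2
  refine h3.trans ?_
  have hd := dnW_nonneg Q P W Z
  have hK0 : 0 ≤ (C1 * C ^ Module.finrank ℚ F * vol ρ) ^ 5 * dnW Q P W Z := by positivity
  calc ((FA F C).ncard : ℝ) * ((C1 * C ^ Module.finrank ℚ F * vol ρ) ^ 5 * dnW Q P W Z)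
      ≤ ((FA F C).ncard + 1 : ℝ) * ((C1 * C ^ Module.finrank ℚ F * vol ρ) ^ 5 *
        dnW Q P W Z) := mul_le_mul_of_nonneg_right (by linarith) hK0
    _ = ((FA F C).ncard + 1) * (C1 * C ^ Module.finrank ℚ F) ^ 5 * dnW Q P W Z *
        vol ρ ^ 5 := by ring

end Pool.Agent.Lib.MP_8cb858_nt.PT
end

section
/-!
# MP2: counting pairs of the second type with pattern and conditions at the places dividing the twist
-/
namespace Pool.Agent.Lib.MP_8cb858_nt.PT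

open Polynomial NumberField IsDedekindDomain Pool.Agent.Lib.MP_8cb858_nt.SEL Matrix
open Pool.Agent.Lib.MP_8cb858_nt.PF
open scoped Classical

open FP1M FP2M MP1M

theorem specMP2 (hMPB : SpecMPB) (hFI2 : PF.SpecFI2) (hFAD : PF.SpecFAD) : SpecMP2 := by
  intro F _ _ C hC
  obtain ⟨C1, hC1, hI⟩ := hFI2 F
  obtain ⟨hfin, P0, hP0⟩ := hFAD F C
  have hFA : (FA F C).Finite := hfin.subset fun _ h => h.2.2
  have hC0 : 0 < C := by linarith
  have hC10 : 0 < C1 := by linarith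
  refine ⟨((FA F C).ncard + 1) * (C1 * C ^ Module.finrank ℚ F) ^ 5, P0, by positivity, ?_⟩
  intro Q P W Z hQP hW hQ hZ ρ k hρ hNρ
  have hN := nmW_pos Q P W
  have hvs := vol_scale C ρ
  have hx1 : (1 : ℝ) ≤ 2 ^ (k * Module.finrank ℚ F) := one_le_pow₀ (by norm_num)
  have h41 : (1 : ℝ) ≤ 4 ^ (k * Module.finrank ℚ F) := one_le_pow₀ (by norm_num)
  have hρ0 : 0 < vol ρ := lt_of_lt_of_le (by positivity) hNρ
  have hCn : 1 ≤ C ^ Module.finrank ℚ F := one_le_pow₀ hC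
  have hvN : ((2 : ℝ) ^ (k * Module.finrank ℚ F)) ^ 2 ≤
      vol (fun v => C * ρ v) / nmW Q P W := by
    rw [le_div_iff₀ hN, two_four, hvs]
    nlinarith
  have hfive := five hx1 hvN
  rw [two_four] at hfive
  have hK : ∀ A ∈ FA F C,
      {B ∈ SB (fun v => C * ρ v) k A | PatW Q P W Z A B}.Finite ∧
      ({B ∈ SB (fun v => C * ρ v) k A | PatW Q P W Z A B}.ncard : ℝ) ≤
        (C1 * C ^ Module.finrank ℚ F * vol ρ) ^ 5 * dnW Q P W Z := by
    intro A hA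
    obtain ⟨h1, h2⟩ := hMPB F Q P W Z A (SB (fun v => C * ρ v) k A)
      ((C1 * (vol (fun v => C * ρ v) / nmW Q P W)) ^ 5) hQP hW hZ hA.1
      (fun v hv => ⟨(hP0 v (hQ v hv)).1, (hP0 v (hQ v hv)).2 A hA.2.2 hA.2.1⟩) (by
        rw [hvs]
        positivity) (by
      intro R0
      by_cases hz : A 0 0 = 0 ∧ A 0 1 = 0 ∧ A 1 2 = 0 ∧ A 2 2 = 0
      · have h := hI ((∏ v ∈ Q ∪ P, v.asIdeal) * ∏ v ∈ W, v.asIdeal ^ 3) (fun v => C * ρ v) k A R0
          (md_ne Q P W)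
          (fun v => mul_pos hC0 (lt_of_lt_of_le one_pos (hρ v))) hA.1 hA.2.1 hz.1 hz.2.1 hz.2.2.1
          hz.2.2.2
        rw [absNorm_md, hfive, ← mul_pow] at h
        have e : {B ∈ SB (fun v => C * ρ v) k A |
              ∀ i j, B i j - R0 i j ∈ (∏ v ∈ Q ∪ P, v.asIdeal) * ∏ v ∈ W, v.asIdeal ^ 3} =
            {B : MO F | B.IsSymm ∧ (A.adjugate * B).trace = 0 ∧
              (∀ (v : InfinitePlace F) (i j : Fin 3), v (B i j : F) ≤
                (fun v => C * ρ v) v * (2 : ℝ) ^ ((k : ℤ) * ((i : ℕ) + (j : ℕ) - 2 : ℤ))) ∧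
              ∀ i j, B i j - R0 i j ∈ (∏ v ∈ Q ∪ P, v.asIdeal) * ∏ v ∈ W, v.asIdeal ^ 3} := by
          ext B
          constructor
          · rintro ⟨⟨_, a, b, c⟩, d⟩
            exact ⟨a, b, c, d⟩
          · rintro ⟨a, b, c, d⟩
            exact ⟨⟨hz, a, b, c⟩, d⟩
        rw [e]
        exact h
      · have e : {B ∈ SB (fun v => C * ρ v) k A |
              ∀ i j, B i j - R0 i j ∈ (∏ v ∈ Q ∪ P, v.asIdeal) * ∏ v ∈ W, v.asIdeal ^ 3} = ∅ := by
          ext B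
          constructor
          · rintro ⟨⟨a, _⟩, _⟩
            exact (hz a).elim
          · rintro h
            exact h.elim
        rw [e]
        refine ⟨Set.finite_empty, ?_⟩
        rw [Set.ncard_empty, hvs]
        push_cast
        positivity)
    refine ⟨h1, h2.trans (le_of_eq ?_)⟩
    rw [← mul_pow, hvs]
    congr 2
    field_simp
  obtain ⟨h1, h2⟩ := core hFA _ (fun A B => PatW Q P W Z A B) _ hK
  have hsub : {X ∈ R2 F C ρ k | PatW Q P W Z X.1 X.2} ⊆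
      {X : MO F × MO F | X.1 ∈ FA F C ∧ X.2 ∈ SB (fun v => C * ρ v) k X.1 ∧
        PatW Q P W Z X.1 X.2} := by
    rintro X ⟨⟨a, b, c, d, e1, e2, e3, e4, _, e⟩, f⟩
    exact ⟨⟨a, c, fun v i j => (e v i j).1⟩, ⟨⟨e1, e2, e3, e4⟩, b, d, fun v i j => (e v i j).2⟩, f⟩
  refine ⟨h1.subset hsub, ?_⟩
  have h3 : ({X ∈ R2 F C ρ k | PatW Q P W Z X.1 X.2}.ncard : ℝ) ≤ _ :=
    (Nat.cast_le.2 (Set.ncard_le_ncard hsub h1)).trans h2
  refine h3.trans ?_
  have hd := dnW_nonneg Q P W Z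
  have hK0 : 0 ≤ (C1 * C ^ Module.finrank ℚ F * vol ρ) ^ 5 * dnW Q P W Z := by positivity
  calc ((FA F C).ncard : ℝ) * ((C1 * C ^ Module.finrank ℚ F * vol ρ) ^ 5 * dnW Q P W Z)
      ≤ ((FA F C).ncard + 1 : ℝ) * ((C1 * C ^ Module.finrank ℚ F * vol ρ) ^ 5 *
        dnW Q P W Z) := mul_le_mul_of_nonneg_right (by linarith) hK0
    _ = ((FA F C).ncard + 1) * (C1 * C ^ Module.finrank ℚ F) ^ 5 * dnW Q P W Z *
        vol ρ ^ 5 := by ring

end Pool.Agent.Lib.MP_8cb858_nt.PT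
end

section
/-!
# Module EQO: equidistribution of the integers of a box modulo an ideal
-/
namespace Pool.Agent.Lib.MP_8cb858_nt.PU

open NumberField IsDedekindDomain Pool.Agent.Lib.MP_8cb858_nt.SEL
open Pool.Agent.Lib.MP_8cb858_nt.PF
open scoped Classical

/-- **EQO**. -/
theorem specEQO (hESH : SpecESH) (hCNL : SpecCNL.{0}) : SpecEQO := by
  intro F _ _ I ε hI hε
  obtain ⟨c, hc, hL⟩ := hCNL F
  obtain ⟨S0, hS⟩ := hESH F I (ε * c) hI (by positivity)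
  refine ⟨max 1 S0, fun s hs => ⟨CNUM.box_finite s, fun x0 => ?_⟩⟩
  have hs1 : ∀ v, 1 ≤ s v := fun v => (le_max_left _ _).trans (hs v)
  have hs2 : ∀ v, S0 ≤ s v := fun v => (le_max_right _ _).trans (hs v)
  have hfB : (Bo s : Set (𝓞 F)).Finite := CNUM.box_finite s
  have hV : 0 < vol s := CNUM.vol_pos fun v => lt_of_lt_of_le one_pos (hs1 v)
  have hNn : 0 < Ideal.absNorm I := Nat.pos_of_ne_zero (Ideal.absNorm_eq_zero_iff.not.2 hI)
  have hN : (0 : ℝ) < Ideal.absNorm I := by exact_mod_cast hNn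
  have hN1 : (1 : ℝ) ≤ Ideal.absNorm I := by exact_mod_cast hNn
  have hfin : Finite (𝓞 F ⧸ I) := Ideal.finiteQuotientOfFreeOfNeBot I hI
  have : Fintype (𝓞 F ⧸ I) := Fintype.ofFinite _
  have hcard : (Fintype.card (𝓞 F ⧸ I) : ℝ) = Ideal.absNorm I := by
    rw [Fintype.card_eq_nat_card]
    rfl
  have hB : c * vol s ≤ ((Bo s : Set (𝓞 F)).ncard : ℝ) := hL s hs1
  -- the number of elements of the box
  have hsum : ((Bo s : Set (𝓞 F)).ncard : ℝ) =
      ∑ q : 𝓞 F ⧸ I, ({x ∈ Bo s | x - Quotient.out q ∈ I}.ncard : ℝ) := by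
    have h1 : (Bo s : Set (𝓞 F)).ncard =
        ∑ q : 𝓞 F ⧸ I, ({x ∈ Bo s | x - Quotient.out q ∈ I}.ncard) := by
      rw [Set.ncard_eq_toFinset_card _ hfB,
        Finset.card_eq_sum_card_fiberwise (f := fun x => Ideal.Quotient.mk I x)
          (t := Finset.univ) (fun x _ => Finset.mem_coe.2 (Finset.mem_univ _))]
      refine Finset.sum_congr rfl fun q _ => ?_
      rw [← Set.ncard_coe_finset]
      congr 1
      ext x
      simp only [Finset.coe_filter, Set.Finite.mem_toFinset, Set.mem_ofPred_eq]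
      refine and_congr_right fun _ => ?_
      rw [← Ideal.Quotient.eq]
      have h2 : Ideal.Quotient.mk I (Quotient.out q) = q := Ideal.Quotient.mk_out q
      rw [h2]
    rw [h1]
    push_cast
    rfl
  set A : ℝ := ({x ∈ Bo s | x - x0 ∈ I}.ncard : ℝ) with hA
  have h2 : |Ideal.absNorm I * A - ((Bo s : Set (𝓞 F)).ncard : ℝ)| ≤ ε * c * vol s := by
    rw [hsum]
    have h3 : Ideal.absNorm I * A = ∑ _q : 𝓞 F ⧸ I, A := by
      rw [Finset.sum_const, nsmul_eq_mul, Finset.card_univ, hcard]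
    rw [h3, ← Finset.sum_sub_distrib]
    refine (Finset.abs_sum_le_sum_abs _ _).trans ?_
    calc (∑ q : 𝓞 F ⧸ I, |A - ({x ∈ Bo s | x - Quotient.out q ∈ I}.ncard : ℝ)|)
        ≤ ∑ _q : 𝓞 F ⧸ I, ε * c * (vol s / Ideal.absNorm I) :=
          Finset.sum_le_sum fun q _ => hS s hs2 x0 (Quotient.out q)
      _ = ε * c * vol s := by
          rw [Finset.sum_const, nsmul_eq_mul, Finset.card_univ, hcard]
          field_simp
  have h4 : A - ((Bo s : Set (𝓞 F)).ncard : ℝ) / Ideal.absNorm I =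
      (Ideal.absNorm I * A - ((Bo s : Set (𝓞 F)).ncard : ℝ)) / Ideal.absNorm I := by
    field_simp
  rw [h4, abs_div, abs_of_pos hN, div_le_iff₀ hN]
  refine h2.trans ?_
  have h5 : ε * (c * vol s) ≤ ε * ((Bo s : Set (𝓞 F)).ncard : ℝ) :=
    mul_le_mul_of_nonneg_left hB hε.le
  have h6 : ε * ((Bo s : Set (𝓞 F)).ncard : ℝ) * 1 ≤
      ε * ((Bo s : Set (𝓞 F)).ncard : ℝ) * Ideal.absNorm I :=
    mul_le_mul_of_nonneg_left hN1 (by positivity)
  linarith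

end Pool.Agent.Lib.MP_8cb858_nt.PU
end

section
/-!
# EQZ: equidistribution of the pairs in residue classes
-/
namespace Pool.Agent.Lib.MP_8cb858_nt.PU

open Polynomial NumberField IsDedekindDomain Pool.Agent.Lib.MP_8cb858_nt.SEL Matrix
open Pool.Agent.Lib.MP_8cb858_nt.PF
open scoped Classical WithZero

namespace EQZM

/-- The number of pairs of a product in a set of classes. -/
lemma ncard_split {α β K L : Type*} [Finite K] [Finite L] (A : Set α) (B : Set β) (hA : A.Finite)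
    (hB : B.Finite) (f : α → K) (g : β → L) (R : Set (K × L)) :
    ({q : α × β | q.1 ∈ A ∧ q.2 ∈ B ∧ (f q.1, g q.2) ∈ R}.ncard : ℝ) =
      ∑ rs ∈ (Set.toFinite R).toFinset,
        ({x | x ∈ A ∧ f x = rs.1}.ncard : ℝ) * ({y | y ∈ B ∧ g y = rs.2}.ncard : ℝ) := by
  have hS : {q : α × β | q.1 ∈ A ∧ q.2 ∈ B ∧ (f q.1, g q.2) ∈ R}.Finite :=
    (hA.prod hB).subset fun q hq => ⟨hq.1, hq.2.1⟩
  have hmap : ∀ q ∈ hS.toFinset, (f q.1, g q.2) ∈ (Set.toFinite R).toFinset := by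
    intro q hq
    rw [Set.Finite.mem_toFinset] at hq ⊢
    exact hq.2.2
  rw [Set.ncard_eq_toFinset_card _ hS, Finset.card_eq_sum_card_fiberwise hmap]
  push_cast
  refine Finset.sum_congr rfl fun rs hrs => ?_
  rw [Set.Finite.mem_toFinset] at hrs
  rw [← Nat.cast_mul, ← Set.ncard_prod, ← Set.ncard_coe_finset]
  congr 2
  ext q
  simp only [Finset.coe_filter, Set.Finite.mem_toFinset, Set.mem_ofPred_eq, Set.mem_prod]
  constructor
  · rintro ⟨⟨h1, h2, h3⟩, h4⟩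
    rw [Prod.ext_iff] at h4
    exact ⟨⟨h1, h4.1⟩, ⟨h2, h4.2⟩⟩
  · rintro ⟨⟨h1, h2⟩, ⟨h3, h4⟩⟩
    exact ⟨⟨h1, h3, by rw [h2, h4]; exact hrs⟩, by rw [h2, h4]⟩

lemma prod_close {a b a' b' N e : ℝ} (ha : 0 ≤ a) (hb' : 0 ≤ b') (hbb : b' ≤ b)
    (hN : 1 ≤ N) (he : 0 ≤ e) (h1 : |a' - a / N| ≤ e * a) (h2 : |b' - b / N| ≤ e * b) :
    |a' * b' - a * b / N ^ 2| ≤ 2 * e * (a * b) := by
  have hb : 0 ≤ b := hb'.trans hbb
  have hN0 : N ≠ 0 := by linarith
  have e1 : a' * b' - a * b / N ^ 2 = (a' - a / N) * b' + a / N * (b' - b / N) := by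
    field_simp
    ring
  have haN0 : 0 ≤ a / N := div_nonneg ha (by linarith)
  have haN : a / N ≤ a := div_le_self ha hN
  have h3 : |(a' - a / N) * b'| ≤ e * a * b := by
    rw [abs_mul, abs_of_nonneg hb']
    exact mul_le_mul h1 hbb hb' (mul_nonneg he ha)
  have h4 : |a / N * (b' - b / N)| ≤ a * (e * b) := by
    rw [abs_mul, abs_of_nonneg haN0]
    exact mul_le_mul haN h2 (abs_nonneg _) ha
  rw [e1]
  refine (abs_add_le _ _).trans ?_
  linarith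

variable {F : Type} [Field F] [NumberField F]

/-- The pairs of a product with `dsc = 0`. -/
lemma bad_le (A B : Set (𝓞 F)) (hA : A.Finite) (hB : B.Finite) :
    ({q : 𝓞 F × 𝓞 F | q.1 ∈ A ∧ q.2 ∈ B ∧ 4 * q.1 ^ 3 + 27 * q.2 ^ 2 = 0}.ncard : ℝ) ≤
      2 * (A.ncard : ℝ) := by
  have hS : {q : 𝓞 F × 𝓞 F | q.1 ∈ A ∧ q.2 ∈ B ∧ 4 * q.1 ^ 3 + 27 * q.2 ^ 2 = 0}.Finite :=
    (hA.prod hB).subset fun q hq => ⟨hq.1, hq.2.1⟩
  have key : hS.toFinset.card ≤ 2 * hA.toFinset.card := by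
    refine Finset.card_le_mul_card_image_of_maps_to (f := Prod.fst) ?_ 2 ?_
    · intro q hq
      rw [Set.Finite.mem_toFinset] at hq ⊢
      exact hq.1
    · intro a _
      by_cases hne : ({q ∈ hS.toFinset | q.1 = a} : Finset (𝓞 F × 𝓞 F)).Nonempty
      · obtain ⟨⟨a0, b0⟩, h0⟩ := hne
        rw [Finset.mem_filter, Set.Finite.mem_toFinset] at h0
        obtain ⟨⟨_, _, h0'⟩, h00⟩ := h0
        simp only at h0' h00
        subst h00
        have hsub : ({q ∈ hS.toFinset | q.1 = a0} : Finset (𝓞 F × 𝓞 F)) ⊆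
            {(a0, b0), (a0, -b0)} := by
          rintro ⟨a1, b1⟩ h1
          rw [Finset.mem_filter, Set.Finite.mem_toFinset] at h1
          obtain ⟨⟨_, _, h1'⟩, h11⟩ := h1
          simp only at h1' h11
          subst h11
          have h4 : (27 : 𝓞 F) * ((b1 - b0) * (b1 + b0)) = 0 := by
            linear_combination h1' - h0'
          have h5 : (27 : 𝓞 F) ≠ 0 := by norm_num
          rw [Finset.mem_insert, Finset.mem_singleton]
          rcases mul_eq_zero.1 ((mul_eq_zero.1 h4).resolve_left h5) with h6 | h6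
          · left; rw [sub_eq_zero.1 h6]
          · right; rw [eq_neg_of_add_eq_zero_left h6]
        exact (Finset.card_le_card hsub).trans Finset.card_le_two
      · rw [Finset.not_nonempty_iff_eq_empty] at hne
        rw [hne]
        simp
  rw [Set.ncard_eq_toFinset_card _ hS, Set.ncard_eq_toFinset_card _ hA]
  exact_mod_cast key

end EQZM

open EQZM CNUM in
theorem specEQZ (hEQO : SpecEQO) (hLOW : SEL.SpecLOW.{0}) (hCNU : SEL.SpecCNU.{0}) : SpecEQZ := by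
  intro F _ _
  obtain ⟨c, hc, hL⟩ := hLOW F
  obtain ⟨C, hC1, hC⟩ := hCNU F
  have hBfin : ∀ ρ : InfinitePlace F → ℝ, (Bx F ρ).Finite := fun ρ =>
    ((box_finite (fun v => ρ v ^ 2)).prod (box_finite (fun v => ρ v ^ 3))).subset
      fun q hq => ⟨fun v => (hq.2 v).1, fun v => (hq.2 v).2⟩
  refine ⟨hBfin, ?_, ?_⟩
  · intro ρ hρ
    have h1 := (hL ρ hρ).2
    have h2 : 0 < c * vol ρ ^ 5 := mul_pos hc (pow_pos (vol_pos fun v => by linarith [hρ v]) _)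
    have h3 : (0 : ℝ) < ((Bx F ρ).ncard : ℝ) := lt_of_lt_of_le h2 h1
    exact_mod_cast h3
  intro I R ε hI hε
  obtain ⟨N, hNd⟩ : ∃ N : ℝ, N = (Ideal.absNorm I : ℝ) := ⟨_, rfl⟩
  have hfinq : Finite (𝓞 F ⧸ I) := Ideal.finiteQuotientOfFreeOfNeBot I hI
  have hcard : (Nat.card (𝓞 F ⧸ I) : ℝ) = N := by
    rw [hNd, Ideal.absNorm_apply, Submodule.cardQuot_apply]
  have hN1 : 1 ≤ N := by
    have h1 : 0 < Nat.card (𝓞 F ⧸ I) := Nat.card_pos
    rw [← hcard]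
    exact_mod_cast h1
  have hN0 : 0 < N := by linarith
  obtain ⟨e, he, he1, he2⟩ : ∃ e : ℝ, 0 < e ∧ e ≤ 1 ∧ (2 + 4 * N ^ 2) * e ≤ ε := by
    have hp : 0 < 2 + 4 * N ^ 2 := by positivity
    refine ⟨min 1 (ε / (2 + 4 * N ^ 2)), lt_min one_pos (div_pos hε hp), min_le_left _ _, ?_⟩
    have := mul_le_mul_of_nonneg_left (min_le_right 1 (ε / (2 + 4 * N ^ 2))) hp.le
    rwa [mul_div_cancel₀ _ hp.ne'] at this
  obtain ⟨S0, hS0⟩ := hEQO F I e hI he
  refine ⟨max (max 1 S0) (2 * C / (c * e)), fun ρ hρ => ?_⟩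
  have hρ1 : ∀ v, 1 ≤ ρ v := fun v =>
    ((le_max_left _ _).trans (le_max_left _ _)).trans (hρ v)
  have hρS : ∀ v, S0 ≤ ρ v := fun v => ((le_max_right _ _).trans (le_max_left _ _)).trans (hρ v)
  have hρC : ∀ v, 2 * C / (c * e) ≤ ρ v := fun v => (le_max_right _ _).trans (hρ v)
  have hvol1 : 1 ≤ vol ρ := one_le_vol hρ1
  have hvol : 2 * C / (c * e) ≤ vol ρ := by
    obtain ⟨v0⟩ : Nonempty (InfinitePlace F) := inferInstance
    obtain ⟨m, hm1, hm⟩ : ∃ m : ℝ, 1 ≤ m ∧ (2 * C / (c * e) ≤ m ∧ ∀ v, m ≤ ρ v) := by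
      refine ⟨max 1 (2 * C / (c * e)), le_max_left _ _, le_max_right _ _, fun v =>
        max_le (hρ1 v) (hρC v)⟩
    have h1 := vol_mono (r := fun _ : InfinitePlace F => m) (fun _ => by linarith) hm.2
    rw [vol_const] at h1
    have h2 : m ≤ m ^ Module.finrank ℚ F := le_self_pow₀ hm1 Module.finrank_pos.ne'
    linarith [hm.1]
  -- the two boxes
  obtain ⟨A, hA⟩ : ∃ A : Set (𝓞 F), A = Bo (fun v => ρ v ^ 2) := ⟨_, rfl⟩
  obtain ⟨B, hB⟩ : ∃ B : Set (𝓞 F), B = Bo (fun v => ρ v ^ 3) := ⟨_, rfl⟩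
  obtain ⟨hAf, hAe⟩ := hS0 (fun v => ρ v ^ 2) fun v =>
    (hρS v).trans (le_self_pow₀ (hρ1 v) (by norm_num))
  obtain ⟨hBf, hBe⟩ := hS0 (fun v => ρ v ^ 3) fun v =>
    (hρS v).trans (le_self_pow₀ (hρ1 v) (by norm_num))
  rw [← hA] at hAf hAe
  rw [← hB] at hBf hBe
  rw [← hNd] at hAe hBe ⊢
  -- the classes
  have hcls : ∀ (s : InfinitePlace F → ℝ) (x0 : 𝓞 F) (r : 𝓞 F ⧸ I), Ideal.Quotient.mk I x0 = r →
      {x | x ∈ Bo s ∧ Ideal.Quotient.mk I x = r} = {x ∈ Bo s | x - x0 ∈ I} := by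
    intro s x0 r h0
    ext x
    simp only [Set.mem_ofPred_eq]
    rw [← h0, Ideal.Quotient.eq]
  have hAr : ∀ r : 𝓞 F ⧸ I, |({x | x ∈ A ∧ Ideal.Quotient.mk I x = r}.ncard : ℝ) -
      (A.ncard : ℝ) / N| ≤ e * (A.ncard : ℝ) := by
    intro r
    obtain ⟨x0, hx0⟩ := Ideal.Quotient.mk_surjective r
    have h1 := hAe x0
    rw [hA, hcls _ x0 r hx0, ← hA]
    rw [hA] at h1 ⊢
    exact h1
  have hBr : ∀ r : 𝓞 F ⧸ I, |({x | x ∈ B ∧ Ideal.Quotient.mk I x = r}.ncard : ℝ) -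
      (B.ncard : ℝ) / N| ≤ e * (B.ncard : ℝ) := by
    intro r
    obtain ⟨x0, hx0⟩ := Ideal.Quotient.mk_surjective r
    have h1 := hBe x0
    rw [hB, hcls _ x0 r hx0, ← hB]
    rw [hB] at h1 ⊢
    exact h1
  have hBle : ∀ r : 𝓞 F ⧸ I, ({x | x ∈ B ∧ Ideal.Quotient.mk I x = r}.ncard : ℝ) ≤
      (B.ncard : ℝ) := by
    intro r
    have h1 : {x | x ∈ B ∧ Ideal.Quotient.mk I x = r} ⊆ B := fun x hx => hx.1
    exact_mod_cast Set.ncard_le_ncard h1 hBf
  -- the product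
  obtain ⟨a, ha⟩ : ∃ a : ℝ, a = (A.ncard : ℝ) := ⟨_, rfl⟩
  obtain ⟨b, hb⟩ : ∃ b : ℝ, b = (B.ncard : ℝ) := ⟨_, rfl⟩
  have ha0 : 0 ≤ a := by rw [ha]; exact Nat.cast_nonneg _
  have hb0 : 0 ≤ b := by rw [hb]; exact Nat.cast_nonneg _
  obtain ⟨T, hT⟩ : ∃ T : Set (𝓞 F × 𝓞 F), T = {q : 𝓞 F × 𝓞 F | q.1 ∈ A ∧ q.2 ∈ B ∧
    (Ideal.Quotient.mk I q.1, Ideal.Quotient.mk I q.2) ∈ R} := ⟨_, rfl⟩
  have hTf : T.Finite := by
    rw [hT]
    exact (hAf.prod hBf).subset fun q hq => ⟨hq.1, hq.2.1⟩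
  obtain ⟨k, hk⟩ : ∃ k : ℝ, k = (R.ncard : ℝ) / N ^ 2 := ⟨_, rfl⟩
  have hRN : (R.ncard : ℝ) ≤ N ^ 2 := by
    have h5 : R.ncard ≤ (Set.univ : Set ((𝓞 F ⧸ I) × (𝓞 F ⧸ I))).ncard :=
      Set.ncard_le_ncard (Set.subset_univ _) (Set.toFinite _)
    rw [Set.ncard_univ, Nat.card_prod] at h5
    have h6 : (R.ncard : ℝ) ≤ (Nat.card (𝓞 F ⧸ I) : ℝ) * Nat.card (𝓞 F ⧸ I) := by
      exact_mod_cast h5
    rw [hcard] at h6
    linarith [sq N]
  have hk0 : 0 ≤ k := by rw [hk]; positivity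
  have hk1 : k ≤ 1 := by
    rw [hk, div_le_one (by positivity)]
    exact hRN
  have hTc : |(T.ncard : ℝ) - k * (a * b)| ≤ 2 * N ^ 2 * e * (a * b) := by
    have h1 := ncard_split A B hAf hBf (Ideal.Quotient.mk I) (Ideal.Quotient.mk I) R
    rw [← hT] at h1
    have h2 : k * (a * b) = ∑ _rs ∈ (Set.toFinite R).toFinset, a * b / N ^ 2 := by
      rw [Finset.sum_const, nsmul_eq_mul, ← Set.ncard_eq_toFinset_card _ (Set.toFinite R), hk]
      ring
    rw [h1, h2, ← Finset.sum_sub_distrib]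
    refine (Finset.abs_sum_le_sum_abs _ _).trans ?_
    have h3 : ∀ rs ∈ (Set.toFinite R).toFinset,
        |({x | x ∈ A ∧ Ideal.Quotient.mk I x = rs.1}.ncard : ℝ) *
          ({y | y ∈ B ∧ Ideal.Quotient.mk I y = rs.2}.ncard : ℝ) - a * b / N ^ 2| ≤
          2 * e * (a * b) := by
      intro rs _
      refine prod_close ha0 (Nat.cast_nonneg _) ?_ hN1 he.le ?_ ?_
      · rw [hb]; exact hBle rs.2
      · rw [ha]; exact hAr rs.1
      · rw [hb]; exact hBr rs.2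
    refine (Finset.sum_le_sum h3).trans ?_
    rw [Finset.sum_const, nsmul_eq_mul, ← Set.ncard_eq_toFinset_card _ (Set.toFinite R)]
    have h4 : 0 ≤ 2 * e * (a * b) := by positivity
    have := mul_le_mul_of_nonneg_right hRN h4
    linarith
  -- the bad pairs
  obtain ⟨Z, hZ⟩ : ∃ Z : Set (𝓞 F × 𝓞 F), Z = {q : 𝓞 F × 𝓞 F | q.1 ∈ A ∧ q.2 ∈ B ∧
    4 * q.1 ^ 3 + 27 * q.2 ^ 2 = 0} := ⟨_, rfl⟩
  have hZf : Z.Finite := by
    rw [hZ]
    exact (hAf.prod hBf).subset fun q hq => ⟨hq.1, hq.2.1⟩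
  obtain ⟨H, hH⟩ : ∃ H : ℝ, H = ((Bx F ρ).ncard : ℝ) := ⟨_, rfl⟩
  have hH0 : 0 ≤ H := by rw [hH]; exact Nat.cast_nonneg _
  have hZc : (Z.ncard : ℝ) ≤ e * H := by
    have h1 := bad_le A B hAf hBf
    rw [← hZ] at h1
    have h2 : (A.ncard : ℝ) ≤ C * vol ρ ^ 2 := by
      have h3 := (hC (fun v => ρ v ^ 2) fun v => pow_pos (by linarith [hρ1 v]) _).2
      rw [vol_pow, max_eq_right (one_le_pow₀ hvol1)] at h3
      rw [hA]
      exact h3
    have h3 := (hL ρ hρ1).2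
    rw [← hH] at h3
    have hv0 : 0 < vol ρ := by linarith
    have h4 : 2 * C ≤ c * e * vol ρ := by
      have := (div_le_iff₀ (mul_pos hc he)).1 hvol
      linarith
    have h5 : 2 * C * vol ρ ^ 2 ≤ c * e * vol ρ * vol ρ ^ 2 :=
      mul_le_mul_of_nonneg_right h4 (by positivity)
    have h6 : c * e * vol ρ * vol ρ ^ 2 ≤ c * e * vol ρ ^ 5 := by
      have h7 : vol ρ ^ 3 ≤ vol ρ ^ 5 := pow_le_pow_right₀ hvol1 (by norm_num)
      have h8 := mul_le_mul_of_nonneg_left h7 (mul_pos hc he).le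
      have e9 : c * e * vol ρ * vol ρ ^ 2 = c * e * vol ρ ^ 3 := by ring
      rw [e9]; exact h8
    have h7 := mul_le_mul_of_nonneg_left h3 he.le
    have e8 : e * (c * vol ρ ^ 5) = c * e * vol ρ ^ 5 := by ring
    rw [e8] at h7
    linarith
  -- comparison
  obtain ⟨T', hT'⟩ : ∃ T' : Set (𝓞 F × 𝓞 F), T' = {q ∈ Bx F ρ | rd I q ∈ R} := ⟨_, rfl⟩
  rw [← hT', ← hk, ← hH]
  have s1 : T' ⊆ T := by
    rw [hT', hT, hA, hB]
    rintro q ⟨hq1, hq2⟩
    exact ⟨fun v => (hq1.2 v).1, fun v => (hq1.2 v).2, hq2⟩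
  have s2 : T ⊆ T' ∪ Z := by
    rw [hT', hT, hZ, hA, hB]
    rintro q ⟨hq1, hq2, hq3⟩
    by_cases h0 : 4 * q.1 ^ 3 + 27 * q.2 ^ 2 = 0
    · exact Or.inr ⟨hq1, hq2, h0⟩
    · exact Or.inl ⟨⟨h0, fun v => ⟨hq1 v, hq2 v⟩⟩, hq3⟩
  have s3 : Bx F ρ ⊆ A ×ˢ B := by
    rw [hA, hB]
    rintro q hq
    exact ⟨fun v => (hq.2 v).1, fun v => (hq.2 v).2⟩
  have s4 : A ×ˢ B ⊆ Bx F ρ ∪ Z := by
    rw [hZ, hA, hB]
    rintro q ⟨hq1, hq2⟩
    by_cases h0 : 4 * q.1 ^ 3 + 27 * q.2 ^ 2 = 0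
    · exact Or.inr ⟨hq1, hq2, h0⟩
    · exact Or.inl ⟨h0, fun v => ⟨hq1 v, hq2 v⟩⟩
  have hpf : (A ×ˢ B).Finite := hAf.prod hBf
  have hpc : ((A ×ˢ B).ncard : ℝ) = a * b := by
    rw [Set.ncard_prod, ha, hb]; push_cast; ring
  have c1 : (T'.ncard : ℝ) ≤ (T.ncard : ℝ) := by exact_mod_cast Set.ncard_le_ncard s1 hTf
  have c2 : (T.ncard : ℝ) ≤ (T'.ncard : ℝ) + (Z.ncard : ℝ) := by
    exact_mod_cast (Set.ncard_le_ncard s2 ((hTf.subset s1).union hZf)).trans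
      (Set.ncard_union_le _ _)
  have c3 : H ≤ a * b := by
    rw [← hpc, hH]; exact_mod_cast Set.ncard_le_ncard s3 hpf
  have c4 : a * b ≤ H + (Z.ncard : ℝ) := by
    rw [← hpc, hH]
    exact_mod_cast (Set.ncard_le_ncard s4 ((hBfin ρ).union hZf)).trans (Set.ncard_union_le _ _)
  obtain ⟨g1, g2⟩ := abs_le.1 hTc
  have c5 : a * b ≤ 2 * H := by
    have := mul_le_mul_of_nonneg_right he1 hH0
    linarith
  have c6 : k * (a * b) ≤ k * H + e * H := by
    have h1 := mul_le_mul_of_nonneg_left (by linarith : a * b - H ≤ e * H) hk0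
    have h2 := mul_le_mul_of_nonneg_right hk1 (mul_nonneg he.le hH0)
    linarith
  have c7 : k * H ≤ k * (a * b) := mul_le_mul_of_nonneg_left c3 hk0
  have c8 : 2 * N ^ 2 * e * (a * b) ≤ 4 * N ^ 2 * e * H := by
    have := mul_le_mul_of_nonneg_left c5 (by positivity : 0 ≤ 2 * N ^ 2 * e)
    linarith
  have c9 : (2 + 4 * N ^ 2) * e * H ≤ ε * H := mul_le_mul_of_nonneg_right he2 hH0
  have c10 : (2 + 4 * N ^ 2) * e * H = 2 * (e * H) + 4 * N ^ 2 * e * H := by ring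
  have c11 : 0 ≤ e * H := mul_nonneg he.le hH0
  rw [abs_le]
  constructor <;> linarith

end Pool.Agent.Lib.MP_8cb858_nt.PU
end

section
/-!
# Module ESH: the classes modulo an ideal have asymptotically the same number of elements in a large box
-/
namespace Pool.Agent.Lib.MP_8cb858_nt.PU

open NumberField IsDedekindDomain Pool.Agent.Lib.MP_8cb858_nt.SEL
open Pool.Agent.Lib.MP_8cb858_nt.PF
open scoped Classical

namespace ESHM

section

variable {F : Type} [Field F] [NumberField F]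

/-- Representatives of bounded size. -/
theorem reps (I : Ideal (𝓞 F)) (hI : I ≠ ⊥) :
    ∃ T : ℝ, 0 ≤ T ∧ ∀ x : 𝓞 F, ∃ t : 𝓞 F, x - t ∈ I ∧ ∀ v : InfinitePlace F, v (t : F) ≤ T := by
  have hfin : Finite (𝓞 F ⧸ I) := Ideal.finiteQuotientOfFreeOfNeBot I hI
  obtain ⟨T, hT⟩ := (Set.finite_range (fun p : (𝓞 F ⧸ I) × InfinitePlace F =>
    p.2 ((Quotient.out p.1 : 𝓞 F) : F))).bddAbove
  refine ⟨max T 0, le_max_right _ _, fun x => ⟨Quotient.out (Ideal.Quotient.mk I x), ?_, ?_⟩⟩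
  · rw [← Ideal.Quotient.eq]
    exact (Ideal.Quotient.mk_out (Ideal.Quotient.mk I x)).symm
  · intro v
    exact (hT ⟨(Ideal.Quotient.mk I x, v), rfl⟩).trans (le_max_left _ _)

/-- The one-sided inequality. -/
theorem half (hDNS : SpecDNS) (I : Ideal (𝓞 F)) (ε : ℝ) (hI : I ≠ ⊥) (hε : 0 < ε) :
    ∃ S0 : ℝ, ∀ s : InfinitePlace F → ℝ, (∀ v, S0 ≤ s v) → ∀ x0 x1 : 𝓞 F,
      ({x ∈ Bo s | x - x0 ∈ I}.ncard : ℝ) ≤ ({x ∈ Bo s | x - x1 ∈ I}.ncard : ℝ) +
        ε * (vol s / Ideal.absNorm I) := by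
  obtain ⟨C, hC, hD⟩ := hDNS F
  obtain ⟨T, hT0, hT⟩ := reps I hI
  set n : ℝ := ((Fintype.card (InfinitePlace F) : ℕ) : ℝ) with hn
  have hn0 : 0 < n := by
    rw [hn]
    exact_mod_cast Fintype.card_pos
  set δ : ℝ := min 1 (ε / (2 * n * C)) with hδ
  have hδ0 : 0 < δ := lt_min one_pos (by positivity)
  have hδ1 : δ ≤ 1 := min_le_left _ _
  have hδ2 : δ ≤ ε / (2 * n * C) := min_le_right _ _
  obtain ⟨S1, hS1⟩ := hD I (ε / (2 * n)) (1 + δ) hI (by positivity) (by linarith) (by linarith)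
  refine ⟨max 1 (max S1 (T / δ)), fun s hs x0 x1 => ?_⟩
  have hs1 : ∀ v, 1 ≤ s v := fun v => (le_max_left _ _).trans (hs v)
  have hs2 : ∀ v, S1 ≤ s v := fun v =>
    ((le_max_left _ _).trans (le_max_right _ _)).trans (hs v)
  have hs3 : ∀ v, T ≤ δ * s v := fun v => by
    have h := ((le_max_right _ _).trans (le_max_right _ _)).trans (hs v)
    rw [div_le_iff₀ hδ0] at h
    linarith
  have hV : 0 < vol s := CNUM.vol_pos fun v => lt_of_lt_of_le one_pos (hs1 v)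
  have hN : (0 : ℝ) < Ideal.absNorm I := by
    exact_mod_cast Nat.pos_of_ne_zero (Ideal.absNorm_eq_zero_iff.not.2 hI)
  have hvN : 0 < vol s / Ideal.absNorm I := div_pos hV hN
  obtain ⟨t, ht, htT⟩ := hT (x1 - x0)
  set Sh : InfinitePlace F → Set (𝓞 F) := fun u =>
    {x : 𝓞 F | x - x1 ∈ I ∧ (∀ v : InfinitePlace F, v (x : F) ≤ (1 + δ) * s v) ∧ s u < u (x : F)}
    with hSh
  have hfB : (Bo s : Set (𝓞 F)).Finite := CNUM.box_finite s
  have hfS : ∀ u, (Sh u).Finite := fun u =>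
    (CNUM.box_finite (fun v => (1 + δ) * s v)).subset fun x hx v => hx.2.1 v
  have hfA : {x ∈ Bo s | x - x1 ∈ I}.Finite := hfB.subset fun x hx => hx.1
  have hfU : (⋃ u, Sh u).Finite := Set.finite_iUnion hfS
  -- the translation
  have h1 : {x ∈ Bo s | x - x0 ∈ I}.ncard ≤ ({x ∈ Bo s | x - x1 ∈ I} ∪ ⋃ u, Sh u).ncard := by
    refine Set.ncard_le_ncard_of_injOn (fun x => x + t) ?_ (fun x _ y _ h => add_right_cancel h)
      (hfA.union hfU)
    rintro x ⟨hx, hx0⟩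
    have hmem : x + t - x1 ∈ I := by
      have : x + t - x1 = (x - x0) - (x1 - x0 - t) := by ring
      rw [this]
      exact I.sub_mem hx0 ht
    have hbd : ∀ v : InfinitePlace F, v ((x + t : 𝓞 F) : F) ≤ (1 + δ) * s v := by
      intro v
      have h2 : v ((x + t : 𝓞 F) : F) ≤ v (x : F) + v (t : F) := by
        have h21 : ((x + t : 𝓞 F) : F) = (x : F) + (t : F) := rfl
        rw [h21]
        exact v.val.add_le _ _
      have h3 := hx v
      have h4 := htT v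
      have h5 := hs3 v
      linarith
    by_cases hin : ∀ v : InfinitePlace F, v ((x + t : 𝓞 F) : F) ≤ s v
    · exact Or.inl ⟨hin, hmem⟩
    · push Not at hin
      obtain ⟨u, hu⟩ := hin
      exact Or.inr (Set.mem_iUnion.2 ⟨u, hmem, hbd, hu⟩)
  have h2 : ({x ∈ Bo s | x - x1 ∈ I} ∪ ⋃ u, Sh u).ncard ≤
      {x ∈ Bo s | x - x1 ∈ I}.ncard + ∑ u, (Sh u).ncard := by
    refine (Set.ncard_union_le _ _).trans (Nat.add_le_add_left ?_ _)
    have h3 : (⋃ u, Sh u) = ⋃ u ∈ (Finset.univ : Finset (InfinitePlace F)), Sh u := by simp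
    rw [h3]
    exact Finset.set_ncard_biUnion_le _ _
  have h3 : ((∑ u, (Sh u).ncard : ℕ) : ℝ) ≤ ε * (vol s / Ideal.absNorm I) := by
    push_cast
    have h4 : ∀ u, ((Sh u).ncard : ℝ) ≤ (ε / n) * (vol s / Ideal.absNorm I) := by
      intro u
      refine (hS1 x1 s u hs2).trans ?_
      refine mul_le_mul_of_nonneg_right ?_ hvN.le
      have h5 : C * δ ≤ ε / (2 * n) := by
        calc C * δ ≤ C * (ε / (2 * n * C)) := mul_le_mul_of_nonneg_left hδ2 hC.le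
          _ = ε / (2 * n) := by field_simp
      have h6 : ε / n = ε / (2 * n) + ε / (2 * n) := by field_simp; ring
      rw [add_sub_cancel_left, h6]
      linarith
    calc (∑ u, ((Sh u).ncard : ℝ)) ≤ ∑ _u : InfinitePlace F, (ε / n) * (vol s / Ideal.absNorm I) :=
          Finset.sum_le_sum fun u _ => h4 u
      _ = ε * (vol s / Ideal.absNorm I) := by
          rw [Finset.sum_const, nsmul_eq_mul, Finset.card_univ, ← hn]
          field_simp
  have h4 : (({x ∈ Bo s | x - x0 ∈ I}.ncard : ℕ) : ℝ) ≤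
      (({x ∈ Bo s | x - x1 ∈ I}.ncard + ∑ u, (Sh u).ncard : ℕ) : ℝ) := by
    exact_mod_cast h1.trans h2
  rw [Nat.cast_add] at h4
  linarith

end

end ESHM

/-- **ESH**. -/
theorem specESH (hDNS : SpecDNS) : SpecESH := by
  intro F _ _ I ε hI hε
  obtain ⟨S0, h⟩ := ESHM.half hDNS I ε hI hε
  refine ⟨S0, fun s hs x0 x1 => ?_⟩
  rw [abs_sub_le_iff]
  have h1 := h s hs x0 x1
  have h2 := h s hs x1 x0
  constructor <;> linarith

end Pool.Agent.Lib.MP_8cb858_nt.PU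
end

section
/-!
# LWA: lower bound for one set of places
-/
namespace Pool.Agent.Lib.MP_8cb858_nt.PV

open Polynomial NumberField IsDedekindDomain Filter Pool.Agent.Lib.MP_8cb858_nt.SEL
open Pool.Agent.Lib.MP_8cb858_nt.PF Pool.Agent.Lib.MP_8cb858_nt.PU
open scoped Classical WithZero Topology

namespace LWAM

variable {F : Type} [Field F] [NumberField F]

lemma Bx_fin (ρ : InfinitePlace F → ℝ) : (Bx F ρ).Finite :=
  ((CNUM.box_finite (fun v => ρ v ^ 2)).prod (CNUM.box_finite (fun v => ρ v ^ 3))).subset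
    fun _ hq => ⟨fun v => (hq.2 v).1, fun v => (hq.2 v).2⟩

lemma coprime_place {J : Ideal (𝓞 F)} {v : Pl F} (h : ¬ v.asIdeal ∣ J) :
    IsCoprime J v.asIdeal := by
  rw [Ideal.isCoprime_iff_sup_eq]
  by_contra h1
  have h2 := v.isMaximal.eq_of_le h1 (le_sup_right : v.asIdeal ≤ J ⊔ v.asIdeal)
  apply h
  rw [Ideal.dvd_iff_le, h2]
  exact le_sup_left

lemma coprime_pr {J : Ideal (𝓞 F)} {A : Finset (Pl F)} (h : ∀ v ∈ A, ¬ v.asIdeal ∣ J) :
    IsCoprime J (pr A) :=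
  IsCoprime.prod_right fun v hv => coprime_place (h v hv)

/-- Chinese remainder theorem -/
lemma crt {J t : Ideal (𝓞 F)} (h : IsCoprime J t) (x : 𝓞 F) :
    ∃ a : 𝓞 F, a - x ∈ J ∧ a ∈ t := by
  rw [Ideal.isCoprime_iff_exists] at h
  obtain ⟨j, hj, u, hu, e⟩ := h
  refine ⟨x * u, ?_, t.mul_mem_left _ hu⟩
  have : x * u - x = -(x * j) := by
    have e1 : u = 1 - j := by rw [← e]; ring
    rw [e1]
    ring
  rw [this]
  exact J.neg_mem (J.mul_mem_left _ hj)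

lemma nv_le {v : Pl F} {I : Ideal (𝓞 F)} (hI : I ≠ ⊥) (h : v.asIdeal ∣ I) :
    nv v ≤ Ideal.absNorm I :=
  Nat.le_of_dvd (Nat.pos_of_ne_zero (Ideal.absNorm_eq_zero_iff.not.2 hI))
    (Ideal.absNorm_dvd_absNorm_of_le (Ideal.dvd_iff_le.1 h))

/-- the integers of a class in a box -/
def cls (I : Ideal (𝓞 F)) (x0 : 𝓞 F) (s : InfinitePlace F → ℝ) : Set (𝓞 F) :=
  {x : 𝓞 F | x - x0 ∈ I ∧ ∀ v : InfinitePlace F, v (x : F) ≤ s v ∧
    (v.IsReal → 0 < (v.embedding (x : F)).re)}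

lemma cls_sub (I : Ideal (𝓞 F)) (x0 : 𝓞 F) (s : InfinitePlace F → ℝ) :
    cls I x0 s ⊆ {x : 𝓞 F | ∀ v : InfinitePlace F, v (x : F) ≤ s v} :=
  fun _ hx v => (hx.2 v).1

lemma cls_l {I K : Ideal (𝓞 F)} {x0 x : 𝓞 F} {s : InfinitePlace F → ℝ}
    (h : x ∈ cls (I * K) x0 s) : x - x0 ∈ I := by
  have h1 : x - x0 ∈ I * K := h.1
  exact Ideal.mul_le_left h1

lemma cls_r {I K : Ideal (𝓞 F)} {x0 x : 𝓞 F} {s : InfinitePlace F → ℝ}
    (h : x ∈ cls (I * K) x0 s) : x - x0 ∈ K := by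
  have h1 : x - x0 ∈ I * K := h.1
  exact Ideal.mul_le_right h1

lemma cls_v {I : Ideal (𝓞 F)} {x0 x : 𝓞 F} {s : InfinitePlace F → ℝ}
    (h : x ∈ cls I x0 s) (v : InfinitePlace F) : v (x : F) ≤ s v := (h.2 v).1

lemma add1 {I : Ideal (𝓞 F)} {x y z : 𝓞 F} (h : x - y ∈ I) (h' : y - z ∈ I) : x - z ∈ I := by
  have := I.add_mem h h'
  rwa [sub_add_sub_cancel] at this

lemma add2 {I : Ideal (𝓞 F)} {x y : 𝓞 F} (h : x - y ∈ I) (h' : y ∈ I) : x ∈ I := by
  have := I.add_mem h h'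
  rwa [sub_add_cancel] at this

lemma cls_fin (I : Ideal (𝓞 F)) (x0 : 𝓞 F) (s : InfinitePlace F → ℝ) : (cls I x0 s).Finite :=
  (CNUM.box_finite s).subset (cls_sub I x0 s)

lemma le_vol {ρ : InfinitePlace F → ℝ} {K : ℝ} (hK : 1 ≤ K) (h : ∀ v, K ≤ ρ v) : K ≤ vol ρ := by
  have h1 := CNUM.vol_mono (r := fun _ : InfinitePlace F => K) (fun _ => by linarith) h
  rw [CNUM.vol_const] at h1
  exact (le_self_pow₀ hK Module.finrank_pos.ne').trans h1

end LWAM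

open LWAM

theorem specLWA (hTWX : SpecTWX) (hTAL : SpecTAL) (hDNB : SpecDNB) (hCNU : SEL.SpecCNU.{0})
    (hDNV : SpecDNV) : SpecLWA := by
  intro F _ _ J p hJ
  obtain ⟨c, hc, hDN⟩ := hDNB F
  obtain ⟨CT, hCT, hT⟩ := hTAL F
  obtain ⟨C2, hC2, hCN⟩ := hCNU F
  obtain ⟨-, -, hfinv, -⟩ := hDNV F
  have hm1 : 1 ≤ Ideal.absNorm J :=
    Nat.one_le_iff_ne_zero.2 (Ideal.absNorm_eq_zero_iff.not.2 hJ)
  obtain ⟨m, hm⟩ : ∃ m : ℝ, m = (Ideal.absNorm J : ℝ) := ⟨_, rfl⟩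
  have hm1' : 1 ≤ m := by rw [hm]; exact_mod_cast hm1
  have hm0 : 0 < m := by linarith
  obtain ⟨B, hB⟩ : ∃ B : ℝ, B = max 1 (4 * m ^ 2 * CT / c ^ 2) := ⟨_, rfl⟩
  have hB1 : 1 ≤ B := by rw [hB]; exact le_max_left _ _
  have hB2 : 4 * m ^ 2 * CT / c ^ 2 ≤ B := by rw [hB]; exact le_max_right _ _
  have hB4 : CT / B ^ 4 ≤ c ^ 2 / (4 * m ^ 2) := by
    have h1 : B ≤ B ^ 4 := le_self_pow₀ hB1 (by norm_num)
    have h2 : 4 * m ^ 2 * CT / c ^ 2 ≤ B ^ 4 := hB2.trans h1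
    rw [div_le_iff₀ (by positivity)] at h2
    rw [div_le_div_iff₀ (by positivity) (by positivity)]
    linarith
  refine ⟨(hfinv (max B m)).toFinset, B, c ^ 2 / (2 * m ^ 2), hB1, by positivity,
    fun A hA => ?_⟩
  have hS : ∀ v : Pl F, v ∉ (hfinv (max B m)).toFinset → max B m < (nv v : ℝ) := by
    intro v hv
    rw [Set.Finite.mem_toFinset] at hv
    exact not_le.1 hv
  have hcop : IsCoprime J (pr A) := coprime_pr fun v hv hd => by
    have h1 := nv_le hJ hd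
    have h2 := hS v (hA v hv)
    have h3 : (nv v : ℝ) ≤ m := by rw [hm]; exact_mod_cast h1
    exact absurd (h2.trans_le h3) (not_lt.2 (le_max_right _ _))
  have ht0 : pr A ≠ ⊥ := IDAM.prod_ne A
  have hNt : Ideal.absNorm (pr A) = NA A := IDAM.prod_norm A
  have hNA1 : 1 ≤ NA A := IDAM.NA_pos A
  obtain ⟨N, hN⟩ : ∃ N : ℝ, N = (NA A : ℝ) := ⟨_, rfl⟩
  have hN1 : 1 ≤ N := by rw [hN]; exact_mod_cast hNA1
  have hN0 : 0 < N := by linarith
  obtain ⟨a1, ha1, ha1'⟩ := crt (hcop.pow_right (n := 2)) p.1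
  obtain ⟨b1, hb1, hb1'⟩ := crt (hcop.pow_right (n := 3)) p.2
  have hI2 : J * pr A ^ 2 ≠ ⊥ := by
    have : J * pr A ^ 2 ≠ 0 := mul_ne_zero hJ (pow_ne_zero _ ht0)
    exact this
  have hI3 : J * pr A ^ 3 ≠ ⊥ := by
    have : J * pr A ^ 3 ≠ 0 := mul_ne_zero hJ (pow_ne_zero _ ht0)
    exact this
  obtain ⟨S2, hS2⟩ := hDN (J * pr A ^ 2) hI2
  obtain ⟨S3, hS3⟩ := hDN (J * pr A ^ 3) hI3
  have hn2 : (Ideal.absNorm (J * pr A ^ 2) : ℝ) = m * N ^ 2 := by
    rw [map_mul, map_pow, hNt, hm, hN]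
    push_cast
    ring
  have hn3 : (Ideal.absNorm (J * pr A ^ 3) : ℝ) = m * N ^ 3 := by
    rw [map_mul, map_pow, hNt, hm, hN]
    push_cast
    ring
  obtain ⟨K, hK⟩ : ∃ K : ℝ, K = max 1 (8 * C2 * m ^ 2 * N ^ 5 / c ^ 2) := ⟨_, rfl⟩
  have hK1 : 1 ≤ K := by rw [hK]; exact le_max_left _ _
  have hK2 : 8 * C2 * m ^ 2 * N ^ 5 / c ^ 2 ≤ K := by rw [hK]; exact le_max_right _ _
  refine ⟨max K (max S2 S3), fun ρ hρ => ?_⟩
  have hρK : ∀ v, K ≤ ρ v := fun v => (le_max_left _ _).trans (hρ v)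
  have hρ2 : ∀ v, S2 ≤ ρ v := fun v =>
    ((le_max_left _ _).trans (le_max_right _ _)).trans (hρ v)
  have hρ3 : ∀ v, S3 ≤ ρ v := fun v =>
    ((le_max_right _ _).trans (le_max_right _ _)).trans (hρ v)
  have hρ1 : ∀ v, 1 ≤ ρ v := fun v => hK1.trans (hρK v)
  have hρ0 : ∀ v, 0 < ρ v := fun v => by linarith [hρ1 v]
  have hVK : K ≤ vol ρ := le_vol hK1 hρK
  obtain ⟨V, hV⟩ : ∃ V : ℝ, V = vol ρ := ⟨_, rfl⟩
  rw [← hV] at hVK
  have hV1 : 1 ≤ V := hK1.trans hVK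
  have hV0 : 0 < V := by linarith
  set XA := cls (J * pr A ^ 2) a1 (fun v => ρ v ^ 2) with hXA
  set XB := cls (J * pr A ^ 3) b1 (fun v => ρ v ^ 3) with hXB
  have hfA : XA.Finite := cls_fin _ _ _
  have hfB : XB.Finite := cls_fin _ _ _
  have hcA : c * (V ^ 2 / (m * N ^ 2)) ≤ (XA.ncard : ℝ) := by
    have h1 := hS2 a1 (fun v => ρ v ^ 2) (fun v => (hρ2 v).trans
      (le_self_pow₀ (hρ1 v) (by norm_num)))
    rw [CNUM.vol_pow, hn2, ← hV] at h1
    exact h1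
  have hcB : c * (V ^ 3 / (m * N ^ 3)) ≤ (XB.ncard : ℝ) := by
    have h1 := hS3 b1 (fun v => ρ v ^ 3) (fun v => (hρ3 v).trans
      (le_self_pow₀ (hρ1 v) (by norm_num)))
    rw [CNUM.vol_pow, hn3, ← hV] at h1
    exact h1
  have hcA' : (XA.ncard : ℝ) ≤ C2 * V ^ 2 := by
    obtain ⟨h1, h2⟩ := hCN (fun v => ρ v ^ 2) (fun v => pow_pos (hρ0 v) 2)
    rw [CNUM.vol_pow, ← hV, max_eq_right (one_le_pow₀ hV1)] at h2
    refine le_trans ?_ h2
    exact_mod_cast Set.ncard_le_ncard (cls_sub _ _ _) h1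
  set X : Set (𝓞 F × 𝓞 F) := {q ∈ Bx F ρ | q.1 - p.1 ∈ J ∧ q.2 - p.2 ∈ J ∧
    ∃ s : Ideal (𝓞 F), s ≠ ⊥ ∧ (Ideal.absNorm s : ℝ) ≤ B ∧
      (∀ v : Pl F, v ∉ (hfinv (max B m)).toFinset → ¬ v.asIdeal ∣ s) ∧
      Ex (pr A * s) q} with hX
  set X1 : Set (𝓞 F × 𝓞 F) := {q : 𝓞 F × 𝓞 F | q.1 ∈ XA ∧ q.2 ∈ XB ∧
    4 * q.1 ^ 3 + 27 * q.2 ^ 2 = 0} with hX1
  set X2 : Set (𝓞 F × 𝓞 F) := {q ∈ Bx F ρ | ∃ J' : Ideal (𝓞 F), J' ≠ ⊥ ∧
    B ≤ (Ideal.absNorm J' : ℝ) ∧ Dv (pr A * J') q} with hX2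
  have hXf : X.Finite := (Bx_fin ρ).subset fun q hq => hq.1
  have hX1f : X1.Finite := (hfA.prod hfB).subset fun q hq => ⟨hq.1, hq.2.1⟩
  have hX2f : X2.Finite := (Bx_fin ρ).subset fun q hq => hq.1
  have hX1c : (X1.ncard : ℝ) ≤ c ^ 2 / (4 * m ^ 2) * (V ^ 5 / N ^ 5) := by
    have h1 := EQZM.bad_le XA XB hfA hfB
    have h2 : (X1.ncard : ℝ) ≤ 2 * (C2 * V ^ 2) := h1.trans (by linarith)
    refine h2.trans ?_
    have h3 : 8 * C2 * m ^ 2 * N ^ 5 / c ^ 2 ≤ V ^ 3 :=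
      (hK2.trans hVK).trans (le_self_pow₀ hV1 (by norm_num))
    rw [div_le_iff₀ (by positivity)] at h3
    have h4 : c ^ 2 / (4 * m ^ 2) * (V ^ 5 / N ^ 5) = c ^ 2 * V ^ 5 / (4 * m ^ 2 * N ^ 5) := by
      field_simp
    rw [h4, le_div_iff₀ (by positivity)]
    have h5 := mul_le_mul_of_nonneg_right h3 (by positivity : 0 ≤ V ^ 2)
    nlinarith [h5]
  have hX2c : (X2.ncard : ℝ) ≤ c ^ 2 / (4 * m ^ 2) * (V ^ 5 / N ^ 5) := by
    have h1 := hT (pr A) B ρ ht0 hB1 hρ1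
    rw [hNt, ← hN, ← hV] at h1
    refine h1.trans ?_
    have h2 : CT * (V ^ 5 / (N ^ 5 * B ^ 4)) = CT / B ^ 4 * (V ^ 5 / N ^ 5) := by
      field_simp
    rw [h2]
    exact mul_le_mul_of_nonneg_right hB4 (by positivity)
  have hsub : XA ×ˢ XB ⊆ X ∪ (X1 ∪ X2) := by
    rintro ⟨a, b⟩ ⟨ha0, hb0⟩
    have ha : a ∈ cls (J * pr A ^ 2) a1 (fun v => ρ v ^ 2) := ha0
    have hb : b ∈ cls (J * pr A ^ 3) b1 (fun v => ρ v ^ 3) := hb0
    by_cases hd : 4 * a ^ 3 + 27 * b ^ 2 = 0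
    · exact Or.inr (Or.inl ⟨ha, hb, hd⟩)
    by_cases h2 : (a, b) ∈ X2
    · exact Or.inr (Or.inr h2)
    left
    have hBx : (a, b) ∈ Bx F ρ := ⟨hd, fun v => ⟨cls_v ha v, cls_v hb v⟩⟩
    have haJ : a - p.1 ∈ J := add1 (cls_l ha) ha1
    have hbJ : b - p.2 ∈ J := add1 (cls_l hb) hb1
    have hat : a ∈ pr A ^ 2 := add2 (cls_r ha) ha1'
    have hbt : b ∈ pr A ^ 3 := add2 (cls_r hb) hb1'
    have hdsc : dsc a b ≠ 0 := hd
    obtain ⟨I, hI0, hI⟩ := hTWX.ex F (a, b) hdsc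
    obtain ⟨s, hs⟩ := hTWX.div F (a, b) I (pr A) hdsc hI ⟨hat, hbt⟩
    have hs0 : s ≠ ⊥ := by
      rintro rfl
      apply hI0
      rw [hs, Ideal.mul_bot]
    have hsB : (Ideal.absNorm s : ℝ) < B := by
      by_contra h3
      exact h2 ⟨hBx, s, hs0, not_lt.1 h3, by rw [← hs]; exact hI.1⟩
    refine ⟨hBx, haJ, hbJ, s, hs0, hsB.le, fun v hv hd' => ?_, by rw [← hs]; exact hI⟩
    have h3 := hS v hv
    have h4 : (nv v : ℝ) ≤ (Ideal.absNorm s : ℝ) := by exact_mod_cast nv_le hs0 hd'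
    exact absurd (h3.trans_le (h4.trans hsB.le)) (not_lt.2 (le_max_left _ _))
  have hcount : ((XA ×ˢ XB).ncard : ℝ) ≤ X.ncard + (X1.ncard + X2.ncard) := by
    have h1 := Set.ncard_le_ncard hsub (hXf.union (hX1f.union hX2f))
    have h2 := Set.ncard_union_le X (X1 ∪ X2)
    have h3 := Set.ncard_union_le X1 X2
    exact_mod_cast h1.trans (h2.trans (Nat.add_le_add_left h3 _))
  rw [Set.ncard_prod] at hcount
  push_cast at hcount
  have hprod : c ^ 2 / m ^ 2 * (V ^ 5 / N ^ 5) ≤ (XA.ncard : ℝ) * (XB.ncard : ℝ) := by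
    have h1 := mul_le_mul hcA hcB (by positivity) (Nat.cast_nonneg _)
    refine le_trans (le_of_eq ?_) h1
    field_simp
  rw [← hV, ← hN]
  have e1 : c ^ 2 / (2 * m ^ 2) * (V ^ 5 / N ^ 5) =
      c ^ 2 / m ^ 2 * (V ^ 5 / N ^ 5) - c ^ 2 / (4 * m ^ 2) * (V ^ 5 / N ^ 5) -
        c ^ 2 / (4 * m ^ 2) * (V ^ 5 / N ^ 5) := by
    field_simp
    ring
  rw [e1]
  linarith

end Pool.Agent.Lib.MP_8cb858_nt.PV
end
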