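import Pool.Agent.Lib.MP_8cb858_nt.PF.SpecDN
import Pool.Agent.Lib.MP_8cb858_nt.SEL.LO1
import Pool.Agent.Lib.MP_8cb858_nt.PV.SpecV

section
/-!
# Module DNA: upper bound for the number of integers in a class in a translated box
-/
namespace Pool.Agent.Lib.MP_8cb858_nt.PF

open NumberField IsDedekindDomain Pool.Agent.Lib.MP_8cb858_nt.SEL
open scoped Classical

namespace DNAM

variable {F : Type} [Field F] [NumberField F]

/-- The norm of a nonzero element of an ideal. -/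
lemma norm_ge {I : Ideal (𝓞 F)} {a : 𝓞 F} (ha : a ≠ 0) (hI : a ∈ I) :
    (Ideal.absNorm I : ℝ) ≤ ∏ v : InfinitePlace F, v (a : F) ^ v.mult := by
  rw [InfinitePlace.prod_eq_abs_norm]
  rw [← Algebra.coe_norm_int, ← Int.cast_abs, Rat.cast_intCast]
  have h1 : Ideal.absNorm I ∣ (Algebra.norm ℤ a).natAbs := by
    rw [← Ideal.absNorm_span_singleton]
    exact Ideal.absNorm_dvd_absNorm_of_le ((Ideal.span_singleton_le_iff_mem _).2 hI)
  have h2 : (Algebra.norm ℤ a).natAbs ≠ 0 :=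
    Int.natAbs_ne_zero.2 (Algebra.norm_ne_zero_iff.mpr ha)
  have h3 := Nat.le_of_dvd (Nat.pos_of_ne_zero h2) h1
  have h4 : (((Algebra.norm ℤ a).natAbs : ℤ) : ℝ) = (|Algebra.norm ℤ a| : ℤ) := by
    rw [Int.natCast_natAbs]
  rw [← h4, Int.cast_natCast]
  exact_mod_cast h3

end DNAM

open CNUM DNAM in
theorem specDNA : SpecDNA := by
  intro F _ _
  set n := Module.finrank ℚ F with hn
  have hn0 : 0 < n := Module.finrank_pos
  refine ⟨19 ^ n, one_le_pow₀ (by norm_num), fun I x0 c s hI hs => ?_⟩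
  set X : Set (𝓞 F) :=
    {x : 𝓞 F | x - x0 ∈ I ∧ ∀ v : InfinitePlace F, ‖v.embedding (x : F) - c v‖ ≤ s v} with hX
  set N : ℝ := (Ideal.absNorm I : ℝ) with hN
  have hN0 : 0 < N := by
    rw [hN, Nat.cast_pos]
    exact Nat.pos_of_ne_zero fun h => hI (Ideal.absNorm_eq_zero_iff.1 h)
  set T : ℝ := max 1 (vol s / N) with hT
  have hT1 : 1 ≤ T := le_max_left _ _
  rcases Set.eq_empty_or_nonempty X with h0 | ⟨y, hy⟩
  · rw [h0]
    refine ⟨Set.finite_empty, ?_⟩
    rw [Set.ncard_empty, Nat.cast_zero]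
    positivity
  set μ : ℝ := T ^ ((n : ℝ)⁻¹) with hμ
  have hμ1 : 1 ≤ μ := Real.one_le_rpow hT1 (by positivity)
  have hμ0 : 0 < μ := by linarith
  have hμn : μ ^ n = T := Real.rpow_inv_natCast_pow (by linarith) hn0.ne'
  set w : InfinitePlace F → ℝ := fun v => s v / (4 * μ) with hw
  have hw0 : ∀ v, 0 < w v := fun v => div_pos (hs v) (by linarith)
  have hY : ∀ v, (fun v => 2 * s v) v / w v ≤ (fun _ : InfinitePlace F => 8 * μ) v := by
    intro v
    simp only [hw]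
    have h1 : 2 * s v / (s v / (4 * μ)) = 8 * μ := by
      have := (hs v).ne'
      field_simp
      norm_num
    exact h1.le
  have hbox : ∀ x ∈ X, x - y ∈ box F (fun v => 2 * s v) := by
    intro x hx v
    rw [← InfinitePlace.norm_embedding_eq]
    have e : v.embedding ((x - y : 𝓞 F) : F) =
        (v.embedding (x : F) - c v) - (v.embedding (y : F) - c v) := by
      push_cast
      rw [map_sub]
      ring
    rw [e]
    refine (norm_sub_le _ _).trans ?_
    have := hx.2 v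
    have := hy.2 v
    linarith
  have hmem : ∀ x ∈ X, ∀ x' ∈ X, x - x' ∈ I := by
    intro x hx x' hx'
    have : x - x' = (x - x0) - (x' - x0) := by ring
    rw [this]
    exact I.sub_mem hx.1 hx'.1
  have hinj : Set.InjOn (fun x => cell w (x - y)) X := by
    intro x hx x' hx' hxy
    by_contra hne
    have h1 : x - x' ≠ 0 := sub_ne_zero.mpr hne
    have h2 := norm_ge h1 (hmem x hx x' hx')
    have h3 : ∏ v : InfinitePlace F, v ((x - x' : 𝓞 F) : F) ^ v.mult < N := by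
      calc ∏ v : InfinitePlace F, v ((x - x' : 𝓞 F) : F) ^ v.mult
          < ∏ v : InfinitePlace F, (s v / μ) ^ v.mult := by
            obtain ⟨v0⟩ : Nonempty (InfinitePlace F) := inferInstance
            refine Finset.prod_lt_prod_of_nonempty (fun v _ => ?_) (fun v _ => ?_)
              ⟨v0, Finset.mem_univ v0⟩
            · have : 0 < v ((x - x' : 𝓞 F) : F) := by
                rw [InfinitePlace.pos_iff]
                intro h
                exact h1 (by exact_mod_cast h)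
              positivity
            · have h4 := cell_close hw0 hxy v
              have h4' : (x - y) - (x' - y) = x - x' := by ring
              rw [h4'] at h4
              have h5 : 2 * w v ≤ s v / μ := by
                simp only [hw]
                rw [← mul_div_assoc, div_le_div_iff₀ (by positivity) hμ0]
                nlinarith [hs v]
              refine pow_lt_pow_left₀ (lt_of_lt_of_le h4 h5) (apply_nonneg v _) ?_
              exact InfinitePlace.mult_ne_zero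
        _ = vol s / T := by
            have h6 : (∏ v : InfinitePlace F, (s v / μ) ^ v.mult) * μ ^ n = vol s := by
              rw [← vol_const (F := F) μ]
              change vol (fun v => s v / μ) * vol (fun _ : InfinitePlace F => μ) = vol s
              rw [← vol_mul]
              congr 1
              funext v
              field_simp
            rw [hμn] at h6
            rw [eq_div_iff (by positivity), h6]
        _ ≤ N := by
            rw [div_le_iff₀ (by positivity), mul_comm, ← div_le_iff₀ hN0]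
            exact le_max_right _ _
    linarith
  have hmaps : Set.MapsTo (fun x => cell w (x - y)) X
      (Fintype.piFinset (cells (fun _ : InfinitePlace F => 8 * μ)) : Set _) := by
    intro x hx
    rw [Finset.mem_coe, Fintype.mem_piFinset]
    exact fun v => cell_mem hw0 hY (hbox x hx) v
  have hfin : X.Finite := by
    refine Set.Finite.of_finite_image (f := fun x => x - y)
      ((box_finite (F := F) (fun v => 2 * s v)).subset ?_) (fun a _ b _ h => sub_left_injective h)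
    rintro _ ⟨x, hx, rfl⟩
    exact hbox x hx
  refine ⟨hfin, ?_⟩
  have hcard := Set.ncard_le_ncard_of_injOn _ hmaps hinj (Finset.finite_toSet _)
  rw [Set.ncard_coe_finset] at hcard
  have h7 : (X.ncard : ℝ) ≤
      ((Fintype.piFinset (cells (fun _ : InfinitePlace F => 8 * μ))).card : ℝ) := by
    exact_mod_cast hcard
  refine h7.trans ((card_pi_le fun _ => by positivity).trans ?_)
  rw [vol_const, ← hμn, ← mul_pow]
  refine pow_le_pow_left₀ (by positivity) ?_ _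
  linarith

end Pool.Agent.Lib.MP_8cb858_nt.PF
end

section
/-!
# DNB: lower bound for the number of integers of a class in a box of any shape
-/
set_option autoImplicit false

namespace Pool.Agent.Lib.MP_8cb858_nt.PF

open NumberField IsDedekindDomain Pool.Agent.Lib.MP_8cb858_nt.SEL
open scoped Classical

namespace DNBM

section

variable {F : Type} [Field F] [NumberField F]

open mixedEmbedding in
variable (F) in
/-- covering radius -/
lemma cover_radius : ∃ R : ℝ, 0 ≤ R ∧ ∀ c : InfinitePlace F → ℂ, (∀ v, v.IsReal → (c v).im = 0) →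
    ∃ y : 𝓞 F, ∀ v : InfinitePlace F, ‖c v - v.embedding (y : F)‖ ≤ R := by
  set b := latticeBasis F with hb
  refine ⟨∑ i, ‖b i‖, Finset.sum_nonneg fun _ _ => norm_nonneg _, fun c hc => ?_⟩
  set m : mixedSpace F := (fun w => (c w.1).re, fun w => c w.1) with hm
  have h1 := ZSpan.norm_fract_le b m
  have h2 : (ZSpan.floor b m : mixedSpace F) ∈ Submodule.span ℤ (Set.range b) := (ZSpan.floor b m).2
  rw [hb, mem_span_latticeBasis] at h2
  obtain ⟨y, hy⟩ := h2
  refine ⟨y, fun v => ?_⟩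
  have hy' : mixedEmbedding F (y : F) = (ZSpan.floor b m : mixedSpace F) := hy
  rw [ZSpan.fract_apply, ← hy'] at h1
  rcases v.isReal_or_isComplex with hv | hv
  · have h3 : ‖(m - mixedEmbedding F (y : F)).1 ⟨v, hv⟩‖ ≤ ∑ i, ‖b i‖ :=
      ((norm_le_pi_norm _ _).trans (norm_fst_le _)).trans h1
    rw [Prod.fst_sub, Pi.sub_apply, mixedEmbedding_apply_isReal] at h3
    have h4 : c v - v.embedding (y : F) =
        (((c v).re - InfinitePlace.embedding_of_isReal hv (y : F) : ℝ) : ℂ) := by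
      rw [← InfinitePlace.embedding_of_isReal_apply hv]
      apply Complex.ext
      · simp
      · simp [hc v hv]
    rw [h4, Complex.norm_real]
    exact h3
  · have h3 : ‖(m - mixedEmbedding F (y : F)).2 ⟨v, hv⟩‖ ≤ ∑ i, ‖b i‖ :=
      ((norm_le_pi_norm _ _).trans (norm_snd_le _)).trans h1
    rw [Prod.snd_sub, Pi.sub_apply, mixedEmbedding_apply_isComplex] at h3
    exact h3

/-- many elements of the ideal in a box -/
lemma many {c0 : ℝ}
    (hc : ∀ s : InfinitePlace F → ℝ, (∀ v, 1 ≤ s v) → c0 * vol s ≤ ((CNUM.box F s).ncard : ℝ))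
    (I : Ideal (𝓞 F)) (hI : I ≠ ⊥) (s : InfinitePlace F → ℝ) (hs : ∀ v, 1 ≤ s v) :
    c0 * vol s / Ideal.absNorm I ≤
      ({z : 𝓞 F | z ∈ I ∧ ∀ v : InfinitePlace F, v (z : F) ≤ 2 * s v}.ncard : ℝ) := by
  have hN0 : Ideal.absNorm I ≠ 0 := Ideal.absNorm_eq_zero_iff.not.2 hI
  have hN : (0 : ℝ) < Ideal.absNorm I := by exact_mod_cast Nat.pos_of_ne_zero hN0
  have hfq : Finite (𝓞 F ⧸ I) := Ideal.finiteQuotientOfFreeOfNeBot I hI
  have : Fintype (𝓞 F ⧸ I) := Fintype.ofFinite _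
  have hcard : Fintype.card (𝓞 F ⧸ I) = Ideal.absNorm I := by
    rw [Ideal.absNorm_apply, Submodule.cardQuot_apply, Nat.card_eq_fintype_card]
  set S : Finset (𝓞 F) := (CNUM.box_finite (F := F) s).toFinset with hS
  have hSc : (S.card : ℝ) = ((CNUM.box F s).ncard : ℝ) := by
    rw [hS, Set.ncard_eq_toFinset_card _ (CNUM.box_finite (F := F) s)]
  have hSm : ∀ x, x ∈ S ↔ x ∈ CNUM.box F s := fun x => by
    rw [hS, Set.Finite.mem_toFinset]
  obtain ⟨y, -, hy⟩ := Finset.exists_le_card_fiber_of_nsmul_le_card_of_maps_to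
    (s := S) (t := (Finset.univ : Finset (𝓞 F ⧸ I))) (f := Ideal.Quotient.mk I)
    (b := c0 * vol s / Ideal.absNorm I) (fun _ _ => Finset.mem_univ _) ⟨0, Finset.mem_univ _⟩ (by
      rw [Finset.card_univ, hcard, nsmul_eq_mul, mul_div_cancel₀ _ hN.ne', hSc]
      exact hc s hs)
  refine hy.trans ?_
  have hfin : {z : 𝓞 F | z ∈ I ∧ ∀ v : InfinitePlace F, v (z : F) ≤ 2 * s v}.Finite :=
    (CNUM.box_finite (F := F) (fun v => 2 * s v)).subset fun z hz => hz.2
  rcases (S.filter (fun x => Ideal.Quotient.mk I x = y)).eq_empty_or_nonempty with he | ⟨x0, hx0⟩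
  · rw [he, Finset.card_empty, Nat.cast_zero]
    exact Nat.cast_nonneg _
  · rw [Finset.mem_filter, hSm] at hx0
    have h5 : (S.filter (fun x => Ideal.Quotient.mk I x = y)).card ≤
        {z : 𝓞 F | z ∈ I ∧ ∀ v : InfinitePlace F, v (z : F) ≤ 2 * s v}.ncard := by
      rw [← Set.ncard_coe_finset]
      refine Set.ncard_le_ncard_of_injOn (fun x => x - x0) ?_ ?_ hfin
      · intro x hx
        rw [Finset.mem_coe, Finset.mem_filter, hSm] at hx
        refine ⟨?_, fun v => ?_⟩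
        · rw [← Ideal.Quotient.eq, hx.2, hx0.2]
        · have h6 := hx.1 v
          have h7 := hx0.1 v
          rw [← InfinitePlace.norm_embedding_eq] at h6 h7 ⊢
          have e : v.embedding ((x - x0 : 𝓞 F) : F) = v.embedding (x : F) - v.embedding (x0 : F) := by
            push_cast
            rw [map_sub]
          rw [e]
          refine (norm_sub_le _ _).trans ?_
          linarith
      · intro x _ x' _ h
        exact sub_left_injective h
    exact_mod_cast h5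

end

end DNBM

open DNBM in
theorem specDNB : SpecDNB := by
  intro F _ _
  obtain ⟨c0, hc0, hc⟩ := specCNL.{0} F
  set n := Module.finrank ℚ F with hn
  obtain ⟨R, hR0, hR⟩ := cover_radius F
  refine ⟨c0 / 8 ^ n, by positivity, fun I hI => ?_⟩
  have hN0 : Ideal.absNorm I ≠ 0 := Ideal.absNorm_eq_zero_iff.not.2 hI
  have hN : (0 : ℝ) < Ideal.absNorm I := by exact_mod_cast Nat.pos_of_ne_zero hN0
  set N : ℝ := (Ideal.absNorm I : ℝ) with hNdef
  refine ⟨8 + 8 * N * R, fun x0 s hs => ?_⟩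
  have hs8 : ∀ v, 8 ≤ s v := fun v => by
    have := hs v
    have : 0 ≤ 8 * N * R := by positivity
    linarith
  have hsR : ∀ v, N * R ≤ s v / 8 := fun v => by
    have := hs v
    linarith
  -- the elements of the ideal
  have h1 := many hc I hI (fun v => s v / 8) (fun v => by have := hs8 v; linarith)
  have hv8 : vol (fun v : InfinitePlace F => s v / 8) = vol s / 8 ^ n := by
    have h2 := CNUM.vol_mul (F := F) (fun _ => (8 : ℝ)) (fun v => s v / 8)
    rw [CNUM.vol_const, ← hn] at h2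
    have h3 : (fun v : InfinitePlace F => (8 : ℝ) * (s v / 8)) = s := by
      funext v
      ring
    rw [h3] at h2
    rw [h2]
    field_simp
  rw [hv8] at h1
  -- the base point
  obtain ⟨y, hy⟩ := hR (fun v => ((s v / 2 : ℝ) - v.embedding (x0 : F)) / (N : ℂ)) (by
    intro v hv
    rw [Complex.div_ofReal_im, Complex.sub_im, Complex.ofReal_im, CNUM.im_eq_zero hv, sub_zero,
      zero_div])
  set t : 𝓞 F := x0 + (Ideal.absNorm I : 𝓞 F) * y with ht
  have htI : t - x0 ∈ I := by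
    have e : t - x0 = (Ideal.absNorm I : 𝓞 F) * y := by rw [ht]; ring
    rw [e]
    exact I.mul_mem_right _ (Ideal.absNorm_mem I)
  have htd : ∀ v : InfinitePlace F, ‖v.embedding (t : F) - (s v / 2 : ℝ)‖ ≤ s v / 8 := by
    intro v
    have e : v.embedding (t : F) - ((s v / 2 : ℝ) : ℂ) =
        -((N : ℂ) * (((s v / 2 : ℝ) - v.embedding (x0 : F)) / (N : ℂ) - v.embedding (y : F))) := by
      have hNc : (N : ℂ) ≠ 0 := by exact_mod_cast hN.ne'
      rw [mul_sub, mul_div_cancel₀ _ hNc, ht]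
      have e2 : ((x0 + (Ideal.absNorm I : 𝓞 F) * y : 𝓞 F) : F) =
          (x0 : F) + (Ideal.absNorm I : F) * (y : F) := by
        push_cast
        rfl
      rw [e2, map_add, map_mul, map_natCast, hNdef]
      push_cast
      ring
    rw [e, norm_neg, norm_mul, Complex.norm_real, Real.norm_eq_abs, abs_of_pos hN]
    exact (mul_le_mul_of_nonneg_left (hy v) hN.le).trans (hsR v)
  have hfin : {x : 𝓞 F | x - x0 ∈ I ∧ ∀ v : InfinitePlace F, v (x : F) ≤ s v ∧
      (v.IsReal → 0 < (v.embedding (x : F)).re)}.Finite :=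
    (CNUM.box_finite (F := F) s).subset fun z hz v => (hz.2 v).1
  have h2 : {z : 𝓞 F | z ∈ I ∧ ∀ v : InfinitePlace F, v (z : F) ≤ 2 * (s v / 8)}.ncard ≤
      {x : 𝓞 F | x - x0 ∈ I ∧ ∀ v : InfinitePlace F, v (x : F) ≤ s v ∧
        (v.IsReal → 0 < (v.embedding (x : F)).re)}.ncard := by
    refine Set.ncard_le_ncard_of_injOn (fun z => t + z) ?_ ?_ hfin
    · rintro z ⟨hz1, hz2⟩
      refine ⟨?_, fun v => ?_⟩
      · have e : t + z - x0 = (t - x0) + z := by ring
        rw [e]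
        exact I.add_mem htI hz1
      · have h3 := hz2 v
        have h4 := htd v
        rw [← InfinitePlace.norm_embedding_eq] at h3
        have e : v.embedding ((t + z : 𝓞 F) : F) = v.embedding (t : F) + v.embedding (z : F) := by
          push_cast
          rw [map_add]
        have h5 : ‖v.embedding ((t + z : 𝓞 F) : F) - (s v / 2 : ℝ)‖ ≤ 3 * s v / 8 := by
          rw [e, add_sub_right_comm]
          refine (norm_add_le _ _).trans ?_
          linarith
        have hsv := hs8 v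
        constructor
        · rw [← InfinitePlace.norm_embedding_eq]
          have e3 : v.embedding ((t + z : 𝓞 F) : F) =
              (v.embedding ((t + z : 𝓞 F) : F) - (s v / 2 : ℝ)) + (s v / 2 : ℝ) := by ring
          rw [e3]
          refine (norm_add_le _ _).trans ?_
          rw [Complex.norm_real, Real.norm_eq_abs, abs_of_pos (by linarith : 0 < s v / 2)]
          linarith
        · intro _
          have h6 := (Complex.abs_re_le_norm _).trans h5
          rw [Complex.sub_re, Complex.ofReal_re, abs_le] at h6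
          linarith [h6.1]
    · intro z _ z' _ h
      exact add_left_cancel h
  have h3 : (({z : 𝓞 F | z ∈ I ∧ ∀ v : InfinitePlace F, v (z : F) ≤ 2 * (s v / 8)}.ncard : ℕ) : ℝ) ≤
      (({x : 𝓞 F | x - x0 ∈ I ∧ ∀ v : InfinitePlace F, v (x : F) ≤ s v ∧
        (v.IsReal → 0 < (v.embedding (x : F)).re)}.ncard : ℕ) : ℝ) := by exact_mod_cast h2
  refine le_trans (le_of_eq ?_) (h1.trans h3)
  ring

end Pool.Agent.Lib.MP_8cb858_nt.PF
end

section
/-!
# DNF: the box is finite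
-/
namespace Pool.Agent.Lib.MP_8cb858_nt.PF

open NumberField IsDedekindDomain Pool.Agent.Lib.MP_8cb858_nt.SEL
open scoped Classical

namespace DNFM

theorem sub (F : Type) [Field F] [NumberField F] (ρ : InfinitePlace F → ℝ) :
    Bx F ρ ⊆ CNUM.box F (fun v => ρ v ^ 2) ×ˢ CNUM.box F (fun v => ρ v ^ 3) := by
  rintro ⟨a, b⟩ h
  exact ⟨fun v => (h.2 v).1, fun v => (h.2 v).2⟩

end DNFM

theorem specDNF : SpecDNF := by
  refine ⟨fun F _ _ ρ => ?_, fun F _ _ => ?_⟩
  · exact ((CNUM.box_finite _).prod (CNUM.box_finite _)).subset (DNFM.sub F ρ)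
  · obtain ⟨C, hC, h⟩ := specCNU.{0} F
    refine ⟨C ^ 2, by positivity, fun ρ hρ => ?_⟩
    have h0 : ∀ v, 0 < ρ v := fun v => lt_of_lt_of_le one_pos (hρ v)
    obtain ⟨f2, c2⟩ := h (fun v => ρ v ^ 2) (fun v => pow_pos (h0 v) _)
    obtain ⟨f3, c3⟩ := h (fun v => ρ v ^ 3) (fun v => pow_pos (h0 v) _)
    have h1 : 1 ≤ vol ρ := CNUM.one_le_vol hρ
    rw [CNUM.vol_pow, max_eq_right (one_le_pow₀ h1)] at c2 c3
    have h2 : (Bx F ρ).ncard ≤ (CNUM.box F (fun v => ρ v ^ 2)).ncard *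
        (CNUM.box F (fun v => ρ v ^ 3)).ncard := by
      rw [← Set.ncard_prod]
      exact Set.ncard_le_ncard (DNFM.sub F ρ) ((CNUM.box_finite _).prod (CNUM.box_finite _))
    have h3 : ((Bx F ρ).ncard : ℝ) ≤ ((CNUM.box F (fun v => ρ v ^ 2)).ncard : ℝ) *
        ((CNUM.box F (fun v => ρ v ^ 3)).ncard : ℝ) := by exact_mod_cast h2
    have c2' : ((CNUM.box F (fun v => ρ v ^ 2)).ncard : ℝ) ≤ C * vol ρ ^ 2 := c2
    have c3' : ((CNUM.box F (fun v => ρ v ^ 3)).ncard : ℝ) ≤ C * vol ρ ^ 3 := c3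
    refine h3.trans ((mul_le_mul c2' c3' (Nat.cast_nonneg _) (by positivity)).trans_eq ?_)
    ring

end Pool.Agent.Lib.MP_8cb858_nt.PF
end

section
/-!
# DNS: integers of a class in thin shells
-/
set_option autoImplicit false

namespace Pool.Agent.Lib.MP_8cb858_nt.PF

open NumberField IsDedekindDomain Pool.Agent.Lib.MP_8cb858_nt.SEL
open scoped Classical

namespace DNSM

section

variable {F : Type} [Field F] [NumberField F]

/-- the set of DNA -/
def CB (I : Ideal (𝓞 F)) (x0 : 𝓞 F) (c : InfinitePlace F → ℂ) (s : InfinitePlace F → ℝ) :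
    Set (𝓞 F) :=
  {x : 𝓞 F | x - x0 ∈ I ∧ ∀ v : InfinitePlace F, ‖v.embedding (x : F) - c v‖ ≤ s v}

/-- the coefficients of the shape -/
noncomputable def cf' (u : InfinitePlace F) (d : ℝ) (v : InfinitePlace F) : ℝ :=
  if v = u then d else 8

/-- the shape -/
noncomputable def shp (s : InfinitePlace F → ℝ) (u : InfinitePlace F) (d : ℝ)
    (v : InfinitePlace F) : ℝ := cf' u d v * s v

lemma vol_cf (u : InfinitePlace F) (d : ℝ) :
    vol (cf' u d) * 8 ^ u.mult = d ^ u.mult * 8 ^ Module.finrank ℚ F := by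
  rw [← CNUM.vol_const (F := F) 8]
  unfold vol
  rw [← Finset.mul_prod_erase _ _ (Finset.mem_univ u),
    ← Finset.mul_prod_erase Finset.univ (fun v : InfinitePlace F => (8 : ℝ) ^ v.mult)
      (Finset.mem_univ u)]
  have h1 : ∏ x ∈ Finset.univ.erase u, cf' u d x ^ x.mult =
      ∏ x ∈ Finset.univ.erase u, (8 : ℝ) ^ x.mult := by
    refine Finset.prod_congr rfl fun x hx => ?_
    rw [cf', if_neg (Finset.ne_of_mem_erase hx)]
  have h2 : cf' u d u = d := if_pos rfl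
  rw [h1, h2]
  ring

lemma vol_shp (s : InfinitePlace F → ℝ) (u : InfinitePlace F) (d : ℝ) :
    vol (shp s u d) * 8 ^ u.mult = d ^ u.mult * 8 ^ Module.finrank ℚ F * vol s := by
  have h1 : vol (shp s u d) = vol (cf' u d) * vol s := by
    rw [← CNUM.vol_mul]
    rfl
  rw [h1, mul_right_comm, vol_cf]

omit [NumberField F] in
lemma shp_pos {s : InfinitePlace F → ℝ} (hs : ∀ v, 0 < s v) (u : InfinitePlace F) {d : ℝ}
    (hd : 0 < d) (v : InfinitePlace F) : 0 < shp s u d v := by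
  unfold shp cf'
  split_ifs
  · exact mul_pos hd (hs v)
  · exact mul_pos (by norm_num) (hs v)

/-- union bound -/
lemma union_bound {α : Type} (X : Set α) (m : ℕ) (Y : ℕ → Set α) (B : ℝ)
    (hY : ∀ j < m, (Y j).Finite ∧ ((Y j).ncard : ℝ) ≤ B)
    (hX : ∀ x ∈ X, ∃ j < m, x ∈ Y j) : (X.ncard : ℝ) ≤ m * B := by
  have hX' : X ⊆ ⋃ j ∈ Finset.range m, Y j := by
    intro x hx
    obtain ⟨j, hj, hxj⟩ := hX x hx
    exact Set.mem_biUnion (Finset.mem_coe.2 (Finset.mem_range.2 hj)) hxj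
  have hfin : (⋃ j ∈ Finset.range m, Y j).Finite :=
    Set.Finite.biUnion (Finset.finite_toSet _) fun j hj =>
      (hY j (Finset.mem_range.1 (Finset.mem_coe.1 hj))).1
  have h1 := Set.ncard_le_ncard hX' hfin
  have h2 := Finset.set_ncard_biUnion_le (Finset.range m) Y
  have h3 : (X.ncard : ℝ) ≤ ∑ j ∈ Finset.range m, ((Y j).ncard : ℝ) := by
    exact_mod_cast h1.trans h2
  refine h3.trans ?_
  refine (Finset.sum_le_sum fun j hj => (hY j (Finset.mem_range.1 hj)).2).trans ?_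
  rw [Finset.sum_const, Finset.card_range, nsmul_eq_mul]

/-- covering a shell by a family of sets of DNA -/
lemma cover {C1 : ℝ} (hC1 : 1 ≤ C1) {I : Ideal (𝓞 F)} (hI : I ≠ ⊥)
    (hA : ∀ (x0 : 𝓞 F) (c : InfinitePlace F → ℂ) (s : InfinitePlace F → ℝ), (∀ v, 0 < s v) →
      (CB I x0 c s).Finite ∧ ((CB I x0 c s).ncard : ℝ) ≤ C1 * max 1 (vol s / Ideal.absNorm I))
    (x0 : 𝓞 F) (s : InfinitePlace F → ℝ) (hs : ∀ v, 0 < s v) (u : InfinitePlace F)
    (d : ℝ) (hd : 0 < d) (m : ℕ) (c : ℕ → ℂ) (X : Set (𝓞 F))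
    (hX : ∀ x ∈ X, x - x0 ∈ I ∧ (∀ v : InfinitePlace F, v (x : F) ≤ 8 * s v) ∧
      ∃ j < m, ‖u.embedding (x : F) - c j‖ ≤ d * s u) :
    (X.ncard : ℝ) ≤ m * (C1 * (1 + vol (shp s u d) / Ideal.absNorm I)) := by
  have hN : (0 : ℝ) < Ideal.absNorm I := by
    exact_mod_cast Nat.pos_of_ne_zero (Ideal.absNorm_eq_zero_iff.not.2 hI)
  have hV : 0 < vol (shp s u d) := CNUM.vol_pos (shp_pos hs u hd)
  refine union_bound X m (fun j => CB I x0 (fun v => if v = u then c j else 0) (shp s u d)) _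
    (fun j _ => ⟨(hA x0 _ _ (shp_pos hs u hd)).1, (hA x0 _ _ (shp_pos hs u hd)).2.trans ?_⟩) ?_
  · refine mul_le_mul_of_nonneg_left (max_le ?_ ?_) (by linarith)
    · have : 0 < vol (shp s u d) / Ideal.absNorm I := div_pos hV hN
      linarith
    · linarith
  · intro x hx
    obtain ⟨h1, h2, j, hj, h3⟩ := hX x hx
    refine ⟨j, hj, h1, fun v => ?_⟩
    by_cases hv : v = u
    · subst hv
      simp only [if_true, shp, cf']
      exact h3
    · simp only [if_neg hv, shp, cf', sub_zero]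
      rw [InfinitePlace.norm_embedding_eq]
      exact h2 v

lemma exp_close (x y : ℝ) :
    ‖Complex.exp (x * Complex.I) - Complex.exp (y * Complex.I)‖ ≤ |x - y| := by
  have h1 : Complex.exp (x * Complex.I) - Complex.exp (y * Complex.I) =
      Complex.exp (y * Complex.I) * (Complex.exp (Complex.I * ((x - y : ℝ) : ℂ)) - 1) := by
    rw [mul_sub, ← Complex.exp_add, mul_one]
    congr 2
    push_cast
    ring
  rw [h1, norm_mul, Complex.norm_exp_ofReal_mul_I, one_mul]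
  exact Real.norm_exp_I_mul_ofReal_sub_one_le

lemma polar (z : ℂ) (s δ : ℝ) (hs : 0 < s) (hδ : 0 < δ) (m : ℕ) (hm : 0 < m)
    (hmδ : 7 / δ ≤ m) (h1 : s < ‖z‖) (h2 : ‖z‖ ≤ (1 + δ) * s) :
    ∃ j < m + 1, ‖z - s * Complex.exp ((-Real.pi + 2 * Real.pi * (j : ℝ) / m : ℝ) * Complex.I)‖ ≤
      2 * δ * s := by
  have hm' : (0 : ℝ) < m := by exact_mod_cast hm
  have hpi := Real.pi_pos
  have hpi4 := Real.pi_lt_d2
  set θ : ℝ := Complex.arg z with hθ
  have hθ1 : -Real.pi < θ := Complex.neg_pi_lt_arg z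
  have hθ2 : θ ≤ Real.pi := Complex.arg_le_pi z
  set y : ℝ := m * (θ + Real.pi) / (2 * Real.pi) with hy
  have hy0 : 0 ≤ y := by
    rw [hy]
    have : 0 ≤ θ + Real.pi := by linarith
    positivity
  have hym : y ≤ m := by
    rw [hy, div_le_iff₀ (by positivity)]
    nlinarith
  refine ⟨⌊y⌋₊, ?_, ?_⟩
  · have h3 : (⌊y⌋₊ : ℝ) ≤ m := (Nat.floor_le hy0).trans hym
    have h4 : ⌊y⌋₊ ≤ m := by exact_mod_cast h3
    omega
  · set θ' : ℝ := -Real.pi + 2 * Real.pi * (⌊y⌋₊ : ℝ) / m with hθ'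
    have h5 : |θ - θ'| ≤ δ := by
      have e1 : θ = -Real.pi + 2 * Real.pi * y / m := by
        rw [hy]
        field_simp
        ring
      have e2 : θ - θ' = 2 * Real.pi / m * (y - ⌊y⌋₊) := by
        rw [hθ', e1]
        ring
      have e3 : 0 ≤ y - ⌊y⌋₊ := by linarith [Nat.floor_le hy0]
      have e4 : y - ⌊y⌋₊ ≤ 1 := by linarith [Nat.lt_floor_add_one y]
      have e5 : 2 * Real.pi / m ≤ δ := by
        rw [div_le_iff₀ hm']
        rw [div_le_iff₀ hδ] at hmδ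
        nlinarith
      rw [e2, abs_of_nonneg (mul_nonneg (by positivity) e3)]
      calc 2 * Real.pi / m * (y - ⌊y⌋₊) ≤ 2 * Real.pi / m * 1 :=
            mul_le_mul_of_nonneg_left e4 (by positivity)
        _ ≤ δ := by rw [mul_one]; exact e5
    have h6 : z = ‖z‖ * Complex.exp (θ * Complex.I) := (Complex.norm_mul_exp_arg_mul_I z).symm
    have h7 : z - s * Complex.exp (θ' * Complex.I) =
        ((‖z‖ - s : ℝ) : ℂ) * Complex.exp (θ * Complex.I) +
          (s : ℂ) * (Complex.exp (θ * Complex.I) - Complex.exp (θ' * Complex.I)) := by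
      conv_lhs => rw [h6]
      push_cast
      ring
    rw [h7]
    refine (norm_add_le _ _).trans ?_
    rw [norm_mul, norm_mul, Complex.norm_exp_ofReal_mul_I, mul_one, Complex.norm_real,
      Complex.norm_real, Real.norm_eq_abs, Real.norm_eq_abs, abs_of_pos hs,
      abs_of_pos (by linarith : 0 < ‖z‖ - s)]
    have h8 := exp_close θ θ'
    have h9 : s * ‖Complex.exp (θ * Complex.I) - Complex.exp (θ' * Complex.I)‖ ≤ s * δ :=
      mul_le_mul_of_nonneg_left (h8.trans h5) hs.le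
    nlinarith

end

end DNSM

open DNSM in
theorem specDNS (hDNA : SpecDNA) : SpecDNS := by
  intro F _ _
  obtain ⟨C1, hC1, hA⟩ := hDNA F
  set n := Module.finrank ℚ F with hn
  refine ⟨21 * 8 ^ n * C1, by positivity, fun I ε k hI hε hk1 hk8 => ?_⟩
  have hN : (0 : ℝ) < Ideal.absNorm I := by
    exact_mod_cast Nat.pos_of_ne_zero (Ideal.absNorm_eq_zero_iff.not.2 hI)
  rcases hk1.eq_or_lt with rfl | hk
  · refine ⟨1, fun x0 s u hs => ?_⟩
    have hV : 0 < vol s := CNUM.vol_pos fun v => lt_of_lt_of_le one_pos (hs v)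
    have h1 : {x : 𝓞 F | x - x0 ∈ I ∧ (∀ v : InfinitePlace F, v (x : F) ≤ 1 * s v) ∧
          s u < u (x : F)} = ∅ := by
      ext x
      simp only [Set.mem_ofPred_eq, Set.mem_empty_iff_false, iff_false, one_mul]
      rintro ⟨-, h2, h3⟩
      exact absurd (h2 u) (not_le.2 h3)
    rw [h1, Set.ncard_empty, sub_self, mul_zero, zero_add, Nat.cast_zero]
    positivity
  · set δ : ℝ := k - 1 with hδ
    have hδ0 : 0 < δ := by rw [hδ]; linarith
    have hδ7 : δ ≤ 7 := by rw [hδ]; linarith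
    have hkδ : k = 1 + δ := by rw [hδ]; ring
    set m : ℕ := ⌈7 / δ⌉₊ with hm
    have hm1 : 7 / δ ≤ m := Nat.le_ceil _
    have hd1 : 1 ≤ 7 / δ := by rw [le_div_iff₀ hδ0]; linarith
    have hm0 : 0 < m := by
      have : (1 : ℝ) ≤ m := hd1.trans hm1
      have h2 : 1 ≤ m := by exact_mod_cast this
      omega
    have hm2 : ((m + 1 : ℕ) : ℝ) ≤ 21 / δ := by
      have h3 : (m : ℝ) < 7 / δ + 1 := Nat.ceil_lt_add_one (by positivity)
      have h4 : 21 / δ = 7 / δ + 7 / δ + 7 / δ := by ring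
      push_cast
      rw [h4]
      linarith
    set K : ℝ := (m + 1 : ℕ) * C1 with hK
    have hm3 : (2 : ℝ) ≤ ((m + 1 : ℕ) : ℝ) := by
      have : 2 ≤ m + 1 := by omega
      exact_mod_cast this
    have hK0 : 0 < K := by rw [hK]; positivity
    refine ⟨max 1 (K * Ideal.absNorm I / ε), fun x0 s u hs => ?_⟩
    have hs1 : ∀ v, 1 ≤ s v := fun v => (le_max_left _ _).trans (hs v)
    have hs0 : ∀ v, 0 < s v := fun v => lt_of_lt_of_le one_pos (hs1 v)
    have hV : 0 < vol s := CNUM.vol_pos hs0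
    -- the volume is large
    have hVl : K ≤ ε * (vol s / Ideal.absNorm I) := by
      have h5 : s u ≤ vol s := by
        unfold vol
        rw [← Finset.mul_prod_erase _ _ (Finset.mem_univ u)]
        have h6 : (1 : ℝ) ≤ ∏ x ∈ Finset.univ.erase u, s x ^ x.mult := by
          calc (1 : ℝ) = ∏ x ∈ Finset.univ.erase u, (1 : ℝ) := by simp
            _ ≤ _ := Finset.prod_le_prod (fun _ _ => zero_le_one)
              fun x _ => one_le_pow₀ (hs1 x)
        have h7 : s u ≤ s u ^ u.mult := by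
          have : u.mult ≠ 0 := InfinitePlace.mult_ne_zero
          exact le_self_pow₀ (hs1 u) this
        nlinarith [hs0 u]
      have h8 := ((le_max_right _ _).trans (hs u)).trans h5
      rw [div_le_iff₀ hε] at h8
      rw [← mul_div_assoc, le_div_iff₀ hN]
      linarith
    have hvN : 0 < vol s / Ideal.absNorm I := div_pos hV hN
    by_cases hu : u.IsReal
    · -- real place
      have key := cover hC1 hI (fun x0 c s hs => hA I x0 c s hI hs) x0 s hs0 u (δ / 2)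
        (by positivity) 2 (fun j => if j = 0 then ((s u * (1 + k) / 2 : ℝ) : ℂ) else
          ((-(s u * (1 + k) / 2) : ℝ) : ℂ))
        {x : 𝓞 F | x - x0 ∈ I ∧ (∀ v : InfinitePlace F, v (x : F) ≤ k * s v) ∧ s u < u (x : F)} (by
          rintro x ⟨h1, h2, h3⟩
          refine ⟨h1, fun v => (h2 v).trans ?_, ?_⟩
          · exact mul_le_mul_of_nonneg_right hk8 (hs0 v).le
          · have h4 : u.embedding (x : F) = (((u.embedding (x : F)).re : ℝ) : ℂ) := by
              apply Complex.ext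
              · simp
              · rw [CNUM.im_eq_zero hu]
                simp
            set r : ℝ := (u.embedding (x : F)).re with hr
            have h5 : u (x : F) = |r| := by
              rw [← InfinitePlace.norm_embedding_eq, h4, Complex.norm_real, Real.norm_eq_abs]
            have h6 := h2 u
            rw [h5] at h3 h6
            rcases le_total 0 r with h7 | h7
            · refine ⟨0, by norm_num, ?_⟩
              rw [if_pos rfl, h4, ← Complex.ofReal_sub, Complex.norm_real, Real.norm_eq_abs, abs_le]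
              rw [abs_of_nonneg h7] at h3 h6
              constructor <;> rw [hkδ] at * <;> nlinarith
            · refine ⟨1, by norm_num, ?_⟩
              rw [if_neg one_ne_zero, h4, ← Complex.ofReal_sub, Complex.norm_real,
                Real.norm_eq_abs, abs_le]
              rw [abs_of_nonpos h7] at h3 h6
              constructor <;> rw [hkδ] at * <;> nlinarith)
      refine key.trans ?_
      have hvs := vol_shp s u (δ / 2)
      have hmu : u.mult = 1 := InfinitePlace.mult_isReal ⟨u, hu⟩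
      rw [hmu, pow_one, pow_one, ← hn] at hvs
      have hvs' : vol (shp s u (δ / 2)) = δ / 16 * 8 ^ n * vol s := by linarith
      rw [hvs']
      have e1 : ((2 : ℕ) : ℝ) * (C1 * (1 + δ / 16 * 8 ^ n * vol s / Ideal.absNorm I)) =
          2 * C1 + 2 * C1 * (δ / 16 * 8 ^ n * (vol s / Ideal.absNorm I)) := by
        push_cast
        ring
      rw [e1, add_mul]
      have e2 : 2 * C1 ≤ K := by
        rw [hK]
        exact mul_le_mul_of_nonneg_right hm3 (by linarith)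
      have e3 : 0 ≤ C1 * (δ * 8 ^ n * (vol s / Ideal.absNorm I)) := by positivity
      nlinarith
    · -- complex place
      have key := cover hC1 hI (fun x0 c s hs => hA I x0 c s hI hs) x0 s hs0 u (2 * δ)
        (by positivity) (m + 1)
        (fun j => (s u : ℂ) *
          Complex.exp ((-Real.pi + 2 * Real.pi * (j : ℝ) / m : ℝ) * Complex.I))
        {x : 𝓞 F | x - x0 ∈ I ∧ (∀ v : InfinitePlace F, v (x : F) ≤ k * s v) ∧ s u < u (x : F)} (by
          rintro x ⟨h1, h2, h3⟩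
          refine ⟨h1, fun v => (h2 v).trans ?_, ?_⟩
          · exact mul_le_mul_of_nonneg_right hk8 (hs0 v).le
          · have h6 := h2 u
            rw [← InfinitePlace.norm_embedding_eq] at h3 h6
            rw [hkδ] at h6
            exact polar _ (s u) δ (hs0 u) hδ0 m hm0 hm1 h3 h6)
      refine key.trans ?_
      have hvs := vol_shp s u (2 * δ)
      have hmu : u.mult = 2 := by
        unfold InfinitePlace.mult
        rw [if_neg hu]
      rw [hmu, ← hn] at hvs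
      have hvs' : vol (shp s u (2 * δ)) = δ ^ 2 / 16 * 8 ^ n * vol s := by
        have : vol (shp s u (2 * δ)) * 64 = 4 * δ ^ 2 * 8 ^ n * vol s := by
          rw [show (64 : ℝ) = 8 ^ 2 by norm_num, hvs]
          ring
        linarith
      rw [hvs']
      have e1 : ((m + 1 : ℕ) : ℝ) * (C1 * (1 + δ ^ 2 / 16 * 8 ^ n * vol s / Ideal.absNorm I)) =
          K + ((m + 1 : ℕ) : ℝ) * δ * (C1 * (δ / 16 * 8 ^ n * (vol s / Ideal.absNorm I))) := by
        rw [hK]
        ring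
      rw [e1, add_mul]
      have e2 : ((m + 1 : ℕ) : ℝ) * δ ≤ 21 := by
        rw [le_div_iff₀ hδ0] at hm2
        exact hm2
      have e3 : 0 ≤ C1 * (δ / 16 * 8 ^ n * (vol s / Ideal.absNorm I)) := by positivity
      have e4 := mul_le_mul_of_nonneg_right e2 e3
      have e5 : 21 * (C1 * (δ / 16 * 8 ^ n * (vol s / Ideal.absNorm I))) ≤
          21 * 8 ^ n * C1 * δ * (vol s / Ideal.absNorm I) := by
        have : 0 ≤ 21 * 8 ^ n * C1 * δ * (vol s / Ideal.absNorm I) := by positivity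
        have e6 : 21 * (C1 * (δ / 16 * 8 ^ n * (vol s / Ideal.absNorm I))) =
          21 * 8 ^ n * C1 * δ * (vol s / Ideal.absNorm I) / 16 := by ring
        rw [e6]
        linarith
      linarith

end Pool.Agent.Lib.MP_8cb858_nt.PF
end

section
/-!
# DNY: the tail of the squarefree sieve, `a` divisible by `v`
-/
set_option autoImplicit false

namespace Pool.Agent.Lib.MP_8cb858_nt.PF

open NumberField IsDedekindDomain Pool.Agent.Lib.MP_8cb858_nt.SEL
open scoped Classical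

namespace DNYM

variable {F : Type} [Field F] [NumberField F]

/-- the norm of an ideal is at most the volume of a box meeting it -/
theorem absNorm_le {I : Ideal (𝓞 F)} {x : 𝓞 F} (hx : x ∈ I) (h0 : x ≠ 0)
    {s : InfinitePlace F → ℝ} (hs : ∀ v : InfinitePlace F, v (x : F) ≤ s v) :
    (Ideal.absNorm I : ℝ) ≤ vol s := by
  have h1 : Ideal.absNorm I ∣ Ideal.absNorm (Ideal.span {x}) :=
    Ideal.absNorm_dvd_absNorm_of_le ((Ideal.span_singleton_le_iff_mem _).2 hx)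
  rw [Ideal.absNorm_span_singleton] at h1
  have h2 : (Algebra.norm ℤ x).natAbs ≠ 0 := by
    rw [Ne, Int.natAbs_eq_zero]
    exact Algebra.norm_ne_zero_iff.2 h0
  have h3 := Nat.le_of_dvd (Nat.pos_of_ne_zero h2) h1
  have h4 : ((Algebra.norm ℤ x).natAbs : ℝ) = ∏ v : InfinitePlace F, v (x : F) ^ v.mult := by
    rw [InfinitePlace.prod_eq_abs_norm, ← Algebra.coe_norm_int, Nat.cast_natAbs]
    push_cast
    rfl
  calc (Ideal.absNorm I : ℝ) ≤ ((Algebra.norm ℤ x).natAbs : ℝ) := by exact_mod_cast h3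
    _ = _ := h4
    _ ≤ vol s := Finset.prod_le_prod (fun v _ => pow_nonneg (apply_nonneg v _) _)
        fun v _ => pow_le_pow_left₀ (apply_nonneg v _) (hs v) _

/-- DNA for boxes around zero -/
theorem count (hDNA : SpecDNA) (F : Type) [Field F] [NumberField F] : ∃ C : ℝ, 1 ≤ C ∧
    ∀ (I : Ideal (𝓞 F)) (x0 : 𝓞 F) (s : InfinitePlace F → ℝ), I ≠ ⊥ → (∀ v, 0 < s v) →
      {x : 𝓞 F | x - x0 ∈ I ∧ ∀ v : InfinitePlace F, v (x : F) ≤ s v}.Finite ∧
      ({x : 𝓞 F | x - x0 ∈ I ∧ ∀ v : InfinitePlace F, v (x : F) ≤ s v}.ncard : ℝ) ≤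
        C * max 1 (vol s / Ideal.absNorm I) := by
  obtain ⟨C, hC, h⟩ := hDNA F
  refine ⟨C, hC, fun I x0 s hI hs => ?_⟩
  have h1 := h I x0 (fun _ => 0) s hI hs
  simpa only [sub_zero, InfinitePlace.norm_embedding_eq] using h1

/-- all boxes -/
theorem countB (hDNA : SpecDNA) (F : Type) [Field F] [NumberField F] : ∃ C : ℝ, 1 ≤ C ∧
    ∀ (s : InfinitePlace F → ℝ), (∀ v, 1 ≤ s v) →
      {x : 𝓞 F | ∀ v : InfinitePlace F, v (x : F) ≤ s v}.Finite ∧
      ({x : 𝓞 F | ∀ v : InfinitePlace F, v (x : F) ≤ s v}.ncard : ℝ) ≤ C * vol s := by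
  obtain ⟨C, hC, h⟩ := count hDNA F
  refine ⟨C, hC, fun s hs => ?_⟩
  have h1 := h ⊤ 0 s (by simp) (fun v => lt_of_lt_of_le one_pos (hs v))
  simp only [Submodule.mem_top, true_and, Ideal.absNorm_top, Nat.cast_one, div_one] at h1
  rw [max_eq_right (CNUM.one_le_vol hs)] at h1
  exact h1

/-- the volume is large if all components are -/
theorem vol_ge {ρ : InfinitePlace F → ℝ} {R : ℝ} (hR : 1 ≤ R) (h : ∀ v, R ≤ ρ v) : R ≤ vol ρ := by
  have h1 := CNUM.vol_mono (r := fun _ : InfinitePlace F => R) (fun _ => zero_le_one.trans hR) h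
  rw [CNUM.vol_const] at h1
  exact (le_self_pow₀ hR Module.finrank_pos.ne').trans h1

theorem ncard_le {α ι : Type} (T T0 : Set α) (S : Finset ι) (U : ι → Set α) (h0 : T0.Finite)
    (hU : ∀ i ∈ S, (U i).Finite) (h : ∀ x ∈ T, x ∈ T0 ∨ ∃ i ∈ S, x ∈ U i) :
    T.ncard ≤ T0.ncard + ∑ i ∈ S, (U i).ncard := by
  have h1 : T ⊆ T0 ∪ ⋃ i ∈ S, U i := by
    intro x hx
    rcases h x hx with h2 | ⟨i, hi, h2⟩
    · exact Or.inl h2
    · exact Or.inr (Set.mem_biUnion hi h2)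
  have h2 : (⋃ i ∈ S, U i).Finite := Set.Finite.biUnion S.finite_toSet hU
  calc T.ncard ≤ (T0 ∪ ⋃ i ∈ S, U i).ncard := Set.ncard_le_ncard h1 (h0.union h2)
    _ ≤ T0.ncard + (⋃ i ∈ S, U i).ncard := Set.ncard_union_le _ _
    _ ≤ T0.ncard + ∑ i ∈ S, (U i).ncard := Nat.add_le_add_left (S.set_ncard_biUnion_le U) _

end DNYM

open DNYM in
/-- **DNY** -/
theorem specDNY (hDNA : SpecDNA) (hDNV : SpecDNV) (hDNZ : SpecDNZ) : SpecDNY := by
  intro F _ _
  obtain ⟨C1, hC1, hB⟩ := countB hDNA F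
  obtain ⟨C2, hC2, hN⟩ := count hDNA F
  obtain ⟨-, -, hfin, -, hsum, -, -⟩ := hDNV F
  set n := Module.finrank ℚ F with hn
  have hn0 : 0 < n := Module.finrank_pos
  refine ⟨C2 ^ 2 * n, by positivity, fun M ε hM hε => ⟨max 1 (C1 / ε), fun ρ hρ => ?_⟩⟩
  have hρ1 : ∀ v, 1 ≤ ρ v := fun v => (le_max_left _ _).trans (hρ v)
  have hY := vol_ge (le_max_left _ _) hρ
  set Y := vol ρ with hYd
  have hY1 : 1 ≤ Y := (le_max_left _ _).trans hY
  have hYε : C1 / ε ≤ Y := (le_max_right _ _).trans hY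
  have hpos : ∀ (k : ℕ) (v : InfinitePlace F), 0 < ρ v ^ k := fun k v =>
    pow_pos (lt_of_lt_of_le one_pos (hρ1 v)) k
  have hone : ∀ (k : ℕ) (v : InfinitePlace F), 1 ≤ ρ v ^ k := fun k v => one_le_pow₀ (hρ1 v)
  -- the places
  obtain ⟨S, hS⟩ : ∃ S : Finset (HeightOneSpectrum (𝓞 F)), ∀ v, v ∈ S ↔ (M < nv v ∧ (nv v : ℝ) ≤ Y ^ 2) := by
    refine ⟨(hfin (Y ^ 2)).toFinset.filter (fun v => M < nv v), fun v => ?_⟩
    simp [and_comm]
  -- the sets
  set A : HeightOneSpectrum (𝓞 F) → Set (𝓞 F) := fun v =>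
    {x : 𝓞 F | x - 0 ∈ v.asIdeal ∧ ∀ u : InfinitePlace F, u (x : F) ≤ ρ u ^ 2} with hA
  set B : HeightOneSpectrum (𝓞 F) → Set (𝓞 F) := fun v =>
    {x : 𝓞 F | x - 0 ∈ v.asIdeal ∧ ∀ u : InfinitePlace F, u (x : F) ≤ ρ u ^ 3} with hBd
  have hAv : ∀ v : HeightOneSpectrum (𝓞 F), (A v).Finite ∧ ((A v).ncard : ℝ) ≤
      C2 * max 1 (Y ^ 2 / nv v) := by
    intro v
    have h1 := hN v.asIdeal 0 (fun u => ρ u ^ 2) v.ne_bot (hpos 2)
    rw [CNUM.vol_pow] at h1
    exact h1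
  have hBv : ∀ v : HeightOneSpectrum (𝓞 F), (B v).Finite ∧ ((B v).ncard : ℝ) ≤
      C2 * max 1 (Y ^ 3 / nv v) := by
    intro v
    have h1 := hN v.asIdeal 0 (fun u => ρ u ^ 3) v.ne_bot (hpos 3)
    rw [CNUM.vol_pow] at h1
    exact h1
  set B0 : Set (𝓞 F) := {x : 𝓞 F | ∀ u : InfinitePlace F, u (x : F) ≤ ρ u ^ 3} with hB0
  have hB0c : B0.Finite ∧ (B0.ncard : ℝ) ≤ C1 * Y ^ 3 := by
    have h1 := hB (fun u => ρ u ^ 3) (hone 3)
    rw [CNUM.vol_pow] at h1
    exact h1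
  have hT0 : (({(0 : 𝓞 F)} : Set (𝓞 F)) ×ˢ B0).Finite := (Set.finite_singleton _).prod hB0c.1
  have hmain := ncard_le ({q : 𝓞 F × 𝓞 F | q ∈ Bx F ρ ∧ ∃ v : HeightOneSpectrum (𝓞 F),
      (6 : 𝓞 F) ∉ v.asIdeal ∧ M < nv v ∧ q.1 ∈ v.asIdeal ∧ dsc q.1 q.2 ∈ v.asIdeal ^ 2})
      (({(0 : 𝓞 F)} : Set (𝓞 F)) ×ˢ B0) S (fun v => A v ×ˢ B v) hT0
      (fun v _ => (hAv v).1.prod (hBv v).1) (by
        rintro ⟨a, b⟩ ⟨⟨hd, hab⟩, v, h6, hMv, ha, hdv⟩
        have hb := (hDNZ F v h6).1 a b ha hdv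
        by_cases h0 : a = 0
        · left
          exact ⟨h0, fun u => (hab u).2⟩
        · right
          refine ⟨v, (hS v).2 ⟨hMv, ?_⟩, ⟨?_, fun u => (hab u).1⟩, ⟨?_, fun u => (hab u).2⟩⟩
          · have h1 := absNorm_le ha h0 (s := fun u => ρ u ^ 2) (fun u => (hab u).1)
            rw [CNUM.vol_pow] at h1
            exact h1
          · simpa using ha
          · simpa using hb)
  have hterm : ∀ v ∈ S, (((A v ×ˢ B v).ncard : ℕ) : ℝ) ≤ C2 ^ 2 * Y ^ 5 * (1 / (nv v : ℝ) ^ 2) := by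
    intro v hv
    obtain ⟨h1, h2⟩ := (hS v).1 hv
    have h3 : (0 : ℝ) < nv v := by exact_mod_cast (Nat.zero_le M).trans_lt h1
    have h4 : (1 : ℝ) ≤ Y ^ 2 / nv v := by rwa [le_div_iff₀ h3, one_mul]
    have h5 : (1 : ℝ) ≤ Y ^ 3 / nv v := by
      rw [le_div_iff₀ h3, one_mul]
      exact h2.trans (pow_le_pow_right₀ hY1 (by norm_num))
    have h6 := (hAv v).2
    have h7 := (hBv v).2
    rw [max_eq_right h4] at h6
    rw [max_eq_right h5] at h7
    rw [Set.ncard_prod]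
    push_cast
    calc ((A v).ncard : ℝ) * (B v).ncard ≤ (C2 * (Y ^ 2 / nv v)) * (C2 * (Y ^ 3 / nv v)) :=
          mul_le_mul h6 h7 (by positivity) (by positivity)
      _ = C2 ^ 2 * Y ^ 5 * (1 / (nv v : ℝ) ^ 2) := by
          field_simp
  have hMr : (0 : ℝ) < M := by exact_mod_cast hM
  calc (_ : ℝ) ≤ ((({(0 : 𝓞 F)} : Set (𝓞 F)) ×ˢ B0).ncard : ℝ) + ∑ v ∈ S, (((A v ×ˢ B v).ncard : ℕ) : ℝ) := by
        exact_mod_cast hmain
    _ ≤ C1 * Y ^ 3 + ∑ v ∈ S, C2 ^ 2 * Y ^ 5 * (1 / (nv v : ℝ) ^ 2) := by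
        apply add_le_add
        · rw [Set.ncard_prod, Set.ncard_singleton, one_mul]
          exact hB0c.2
        · exact Finset.sum_le_sum hterm
    _ ≤ ε * Y ^ 5 + C2 ^ 2 * Y ^ 5 * (n / M) := by
        apply add_le_add
        · have h1 : C1 ≤ ε * Y ^ 2 := by
            rw [div_le_iff₀ hε] at hYε
            calc C1 ≤ Y * ε := hYε
              _ ≤ Y ^ 2 * ε := by
                apply mul_le_mul_of_nonneg_right _ hε.le
                nlinarith
              _ = ε * Y ^ 2 := mul_comm _ _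
          calc C1 * Y ^ 3 ≤ (ε * Y ^ 2) * Y ^ 3 := mul_le_mul_of_nonneg_right h1 (by positivity)
            _ = ε * Y ^ 5 := by ring
        · rw [← Finset.mul_sum]
          exact mul_le_mul_of_nonneg_left (hsum M S hM fun v hv => ((hS v).1 hv).1) (by positivity)
    _ = (C2 ^ 2 * n / M + ε) * Y ^ 5 := by ring

end Pool.Agent.Lib.MP_8cb858_nt.PF
end

section
/-!
# DNT: the tail of the squarefree sieve, `a` prime to `v`
-/
set_option autoImplicit false

namespace Pool.Agent.Lib.MP_8cb858_nt.PF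

open NumberField IsDedekindDomain Pool.Agent.Lib.MP_8cb858_nt.SEL
open scoped Classical

namespace DNTM

open DNYM

variable {F : Type} [Field F] [NumberField F]

/-- the size of the discriminant -/
theorem dsc_le {ρ : InfinitePlace F → ℝ} (hρ : ∀ v, 0 ≤ ρ v) {a b : 𝓞 F}
    (h : ∀ v : InfinitePlace F, v (a : F) ≤ ρ v ^ 2 ∧ v (b : F) ≤ ρ v ^ 3) (v : InfinitePlace F) :
    v ((dsc a b : 𝓞 F) : F) ≤ 31 * ρ v ^ 6 := by
  have h4 : v (4 : F) = 4 := by
    have := map_ofNat v.embedding 4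
    rw [← InfinitePlace.norm_embedding_eq, this]
    simp
  have h27 : v (27 : F) = 27 := by
    have := map_ofNat v.embedding 27
    rw [← InfinitePlace.norm_embedding_eq, this]
    simp
  have e : ((dsc a b : 𝓞 F) : F) = 4 * (a : F) ^ 3 + 27 * (b : F) ^ 2 := by
    unfold dsc
    push_cast
    rfl
  obtain ⟨ha, hb⟩ := h v
  rw [e]
  calc v (4 * (a : F) ^ 3 + 27 * (b : F) ^ 2) ≤ v (4 * (a : F) ^ 3) + v (27 * (b : F) ^ 2) := by
        have h := norm_add_le (v.embedding (4 * (a : F) ^ 3)) (v.embedding (27 * (b : F) ^ 2))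
        rw [← map_add] at h
        simpa only [InfinitePlace.norm_embedding_eq] using h
    _ = 4 * v (a : F) ^ 3 + 27 * v (b : F) ^ 2 := by
        rw [map_mul, map_mul, map_pow, map_pow, h4, h27]
    _ ≤ 4 * (ρ v ^ 2) ^ 3 + 27 * (ρ v ^ 3) ^ 2 := by
        apply add_le_add
        · exact mul_le_mul_of_nonneg_left (pow_le_pow_left₀ (apply_nonneg v _) ha _) (by norm_num)
        · exact mul_le_mul_of_nonneg_left (pow_le_pow_left₀ (apply_nonneg v _) hb _) (by norm_num)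
    _ = 31 * ρ v ^ 6 := by ring

end DNTM

open DNYM DNTM in
/-- **DNT** -/
theorem specDNT (hDNA : SpecDNA) (hDNV : SpecDNV) (hDNZ : SpecDNZ) : SpecDNT := by
  intro F _ _
  obtain ⟨C1, hC1, hB⟩ := countB hDNA F
  obtain ⟨C2, hC2, hN⟩ := count hDNA F
  obtain ⟨-, -, hfin, hpi, hsum, -, -⟩ := hDNV F
  set n := Module.finrank ℚ F with hn
  have hn0 : 0 < n := Module.finrank_pos
  have hnr : (0 : ℝ) < n := by exact_mod_cast hn0
  refine ⟨2 * C1 * C2 * n, by positivity, fun M ε hM hε => ?_⟩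
  obtain ⟨δ, hδ⟩ : ∃ δ : ℝ, δ = ε / (2 * C1 * C2 * 6 ^ n) := ⟨_, rfl⟩
  have hδ0 : 0 < δ := by rw [hδ]; positivity
  obtain ⟨x0, hx0⟩ := hpi δ hδ0
  refine ⟨max 1 x0, fun ρ hρ => ?_⟩
  have hρ1 : ∀ v, 1 ≤ ρ v := fun v => (le_max_left _ _).trans (hρ v)
  have hY := vol_ge (le_max_left _ _) hρ
  set Y := vol ρ with hYd
  have hY1 : 1 ≤ Y := (le_max_left _ _).trans hY
  have hYx : x0 ≤ Y := (le_max_right _ _).trans hY
  have hY0 : 0 < Y := lt_of_lt_of_le one_pos hY1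
  have hpos : ∀ (k : ℕ) (v : InfinitePlace F), 0 < ρ v ^ k := fun k v =>
    pow_pos (lt_of_lt_of_le one_pos (hρ1 v)) k
  have hone : ∀ (k : ℕ) (v : InfinitePlace F), 1 ≤ ρ v ^ k := fun k v => one_le_pow₀ (hρ1 v)
  set W : ℝ := 6 ^ n * Y ^ 3 with hW
  have hWx : x0 ≤ W := by
    calc x0 ≤ Y := hYx
      _ ≤ Y ^ 3 := le_self_pow₀ hY1 (by norm_num)
      _ ≤ 6 ^ n * Y ^ 3 := le_mul_of_one_le_left (by positivity) (one_le_pow₀ (by norm_num))
  -- the places
  obtain ⟨S, hS, hScard⟩ : ∃ S : Finset (HeightOneSpectrum (𝓞 F)),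
      (∀ v, v ∈ S ↔ (M < nv v ∧ (nv v : ℝ) ≤ W)) ∧ (S.card : ℝ) ≤ δ * W := by
    refine ⟨(hfin W).toFinset.filter (fun v => M < nv v), fun v => by simp [and_comm], ?_⟩
    calc (((hfin W).toFinset.filter (fun v => M < nv v)).card : ℝ) ≤ ((hfin W).toFinset.card : ℝ) := by
          exact_mod_cast Finset.card_filter_le _ _
      _ = ({v : HeightOneSpectrum (𝓞 F) | (nv v : ℝ) ≤ W}.ncard : ℝ) := by
          rw [Set.ncard_eq_toFinset_card _ (hfin W)]
      _ ≤ δ * W := hx0 W hWx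
  -- the integers `a`
  set A : Set (𝓞 F) := {x : 𝓞 F | ∀ u : InfinitePlace F, u (x : F) ≤ ρ u ^ 2} with hA
  have hAc : A.Finite ∧ (A.ncard : ℝ) ≤ C1 * Y ^ 2 := by
    have h1 := hB (fun u => ρ u ^ 2) (hone 2)
    rw [CNUM.vol_pow] at h1
    exact h1
  -- the integers `b`
  have hBv : ∀ (v : HeightOneSpectrum (𝓞 F)) (r : 𝓞 F),
      {x : 𝓞 F | x - r ∈ v.asIdeal ^ 2 ∧ ∀ u : InfinitePlace F, u (x : F) ≤ ρ u ^ 3}.Finite ∧
      ({x : 𝓞 F | x - r ∈ v.asIdeal ^ 2 ∧ ∀ u : InfinitePlace F, u (x : F) ≤ ρ u ^ 3}.ncard : ℝ) ≤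
        C2 * (1 + Y ^ 3 * (1 / (nv v : ℝ) ^ 2)) := by
    intro v r
    have h1 := hN (v.asIdeal ^ 2) r (fun u => ρ u ^ 3) (pow_ne_zero 2 v.ne_bot) (hpos 3)
    rw [CNUM.vol_pow, map_pow] at h1
    refine ⟨h1.1, h1.2.trans (mul_le_mul_of_nonneg_left ?_ (by positivity))⟩
    rw [max_le_iff]
    have h3 : (((Ideal.absNorm v.asIdeal ^ 2 : ℕ)) : ℝ) = (nv v : ℝ) ^ 2 := by
      unfold nv
      push_cast
      rfl
    rw [h3, mul_one_div]
    have h4 : (0 : ℝ) ≤ Y ^ 3 / (nv v : ℝ) ^ 2 := by positivity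
    exact ⟨by linarith, by linarith⟩
  -- the bad `b` for a given `a`
  set U : (𝓞 F) × (HeightOneSpectrum (𝓞 F)) → Set (𝓞 F × 𝓞 F) := fun p =>
    {q : 𝓞 F × 𝓞 F | q.1 = p.1 ∧ (6 : 𝓞 F) ∉ p.2.asIdeal ∧ p.1 ∉ p.2.asIdeal ∧
      dsc p.1 q.2 ∈ p.2.asIdeal ^ 2 ∧ ∀ u : InfinitePlace F, u (q.2 : F) ≤ ρ u ^ 3} with hU
  have hUc : ∀ p, (U p).Finite ∧ ((U p).ncard : ℝ) ≤
      2 * C2 * (1 + Y ^ 3 * (1 / (nv p.2 : ℝ) ^ 2)) := by
    rintro ⟨a, v⟩
    have hnn : (0 : ℝ) ≤ 2 * C2 * (1 + Y ^ 3 * (1 / (nv v : ℝ) ^ 2)) := by positivity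
    by_cases h : (6 : 𝓞 F) ∉ v.asIdeal ∧ a ∉ v.asIdeal
    · obtain ⟨r, s, hrs⟩ := (hDNZ F v h.1).2.1 a h.2
      obtain ⟨f1, c1⟩ := hBv v r
      obtain ⟨f2, c2⟩ := hBv v s
      have hsub : U (a, v) ⊆ (fun b : 𝓞 F => (a, b)) '' ({x : 𝓞 F | x - r ∈ v.asIdeal ^ 2 ∧
          ∀ u : InfinitePlace F, u (x : F) ≤ ρ u ^ 3} ∪ {x : 𝓞 F | x - s ∈ v.asIdeal ^ 2 ∧
          ∀ u : InfinitePlace F, u (x : F) ≤ ρ u ^ 3}) := by
        rintro ⟨a', b⟩ ⟨e, -, -, hd, hb⟩
        have e' : a' = a := e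
        subst e'
        refine ⟨b, ?_, rfl⟩
        rcases hrs b hd with h1 | h1
        · exact Or.inl ⟨h1, hb⟩
        · exact Or.inr ⟨h1, hb⟩
      have hf := (f1.union f2).image (fun b : 𝓞 F => (a, b))
      refine ⟨hf.subset hsub, ?_⟩
      have h1 := (Set.ncard_le_ncard hsub hf).trans
        ((Set.ncard_image_le (f1.union f2)).trans (Set.ncard_union_le _ _))
      have h2 : ((U (a, v)).ncard : ℝ) ≤
          ({x : 𝓞 F | x - r ∈ v.asIdeal ^ 2 ∧ ∀ u : InfinitePlace F, u (x : F) ≤ ρ u ^ 3}.ncard : ℝ) +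
          ({x : 𝓞 F | x - s ∈ v.asIdeal ^ 2 ∧ ∀ u : InfinitePlace F, u (x : F) ≤ ρ u ^ 3}.ncard : ℝ) := by
        exact_mod_cast h1
      show _ ≤ 2 * C2 * (1 + Y ^ 3 * (1 / (nv v : ℝ) ^ 2))
      linarith
    · have hemp : U (a, v) = ∅ := by
        rw [Set.eq_empty_iff_forall_notMem]
        rintro ⟨a', b⟩ ⟨-, h1, h2, -⟩
        exact h ⟨h1, h2⟩
      rw [hemp]
      refine ⟨Set.finite_empty, ?_⟩
      rw [Set.ncard_empty, Nat.cast_zero]
      exact hnn
  obtain ⟨Af, hAf⟩ := hAc.1.exists_finset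
  have hAfc : (Af.card : ℝ) ≤ C1 * Y ^ 2 := by
    have h1 : (Af : Set (𝓞 F)) = A := Set.ext hAf
    rw [← Set.ncard_coe_finset, h1]
    exact hAc.2
  have hmain := ncard_le ({q : 𝓞 F × 𝓞 F | q ∈ Bx F ρ ∧ ∃ v : HeightOneSpectrum (𝓞 F),
      (6 : 𝓞 F) ∉ v.asIdeal ∧ M < nv v ∧ q.1 ∉ v.asIdeal ∧ dsc q.1 q.2 ∈ v.asIdeal ^ 2})
      ∅ (Af ×ˢ S) U Set.finite_empty (fun p _ => (hUc p).1) (by
        rintro ⟨a, b⟩ ⟨⟨hd, hab⟩, v, h6, hMv, ha, hdv⟩
        right
        refine ⟨(a, v), Finset.mem_product.2 ⟨(hAf a).2 fun u => (hab u).1, (hS v).2 ⟨hMv, ?_⟩⟩,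
          rfl, h6, ha, hdv, fun u => (hab u).2⟩
        have h1 := absNorm_le hdv hd (s := fun u => 31 * ρ u ^ 6)
          (dsc_le (fun u => zero_le_one.trans (hρ1 u)) hab)
        have h2 : vol (fun u => 31 * ρ u ^ 6) = 31 ^ n * Y ^ 6 := by
          rw [CNUM.vol_mul (fun _ => (31 : ℝ)) (fun u => ρ u ^ 6), CNUM.vol_const, CNUM.vol_pow]
        rw [h2, map_pow] at h1
        have h3 : (nv v : ℝ) ^ 2 ≤ W ^ 2 := by
          calc (nv v : ℝ) ^ 2 = (((Ideal.absNorm v.asIdeal ^ 2 : ℕ)) : ℝ) := by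
                unfold nv
                push_cast
                rfl
            _ ≤ 31 ^ n * Y ^ 6 := h1
            _ ≤ 36 ^ n * Y ^ 6 := by
                apply mul_le_mul_of_nonneg_right _ (by positivity)
                exact pow_le_pow_left₀ (by norm_num) (by norm_num) n
            _ = W ^ 2 := by
                rw [hW, mul_pow, ← pow_mul, ← pow_mul, mul_comm n 2, pow_mul]
                norm_num
        exact (pow_le_pow_iff_left₀ (by positivity) (by positivity) two_ne_zero).1 h3)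
  rw [Set.ncard_empty, zero_add] at hmain
  have hMr : (0 : ℝ) < M := by exact_mod_cast hM
  calc (_ : ℝ) ≤ ∑ p ∈ Af ×ˢ S, ((U p).ncard : ℝ) := by exact_mod_cast hmain
    _ ≤ ∑ p ∈ Af ×ˢ S, 2 * C2 * (1 + Y ^ 3 * (1 / (nv p.2 : ℝ) ^ 2)) :=
        Finset.sum_le_sum fun p _ => (hUc p).2
    _ = (Af.card : ℝ) * (2 * C2 * ((S.card : ℝ) + Y ^ 3 * ∑ v ∈ S, 1 / (nv v : ℝ) ^ 2)) := by
        rw [Finset.sum_product]
        show ∑ _x ∈ Af, ∑ y ∈ S, 2 * C2 * (1 + Y ^ 3 * (1 / (nv y : ℝ) ^ 2)) = _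
        rw [Finset.sum_const, nsmul_eq_mul, ← Finset.mul_sum,
          Finset.sum_add_distrib, Finset.sum_const, nsmul_eq_mul, mul_one, ← Finset.mul_sum]
    _ ≤ (C1 * Y ^ 2) * (2 * C2 * (δ * W + Y ^ 3 * (n / M))) := by
        apply mul_le_mul hAfc _ (by positivity) (by positivity)
        apply mul_le_mul_of_nonneg_left _ (by positivity)
        apply add_le_add hScard
        exact mul_le_mul_of_nonneg_left (hsum M S hM fun v hv => ((hS v).1 hv).1) (by positivity)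
    _ = (2 * C1 * C2 * n / M + ε) * Y ^ 5 := by
        rw [hδ, hW]
        field_simp
        ring

end Pool.Agent.Lib.MP_8cb858_nt.PF
end

section
/-!
# Module BAL: balanced generators (theorem of Minkowski)
-/
namespace Pool.Agent.Lib.MP_8cb858_nt.PV

open Polynomial NumberField IsDedekindDomain Filter Pool.Agent.Lib.MP_8cb858_nt.SEL
open Pool.Agent.Lib.MP_8cb858_nt.PF Pool.Agent.Lib.MP_8cb858_nt.PU
open scoped Classical WithZero Topology

namespace BALM

open MeasureTheory NumberField.mixedEmbedding ZSpan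
open scoped NNReal ENNReal nonZeroDivisors

variable {F : Type} [Field F] [NumberField F]

theorem norm_pos {I : Ideal (𝓞 F)} (h : I ≠ ⊥) : 0 < Ideal.absNorm I :=
  Nat.pos_of_ne_zero fun h0 => h (Ideal.absNorm_eq_zero_iff.1 h0)

theorem rt_nonneg (I : Ideal (𝓞 F)) : 0 ≤ rt I := by
  unfold rt
  positivity

theorem rt_pow (I : Ideal (𝓞 F)) : rt I ^ Module.finrank ℚ F = (Ideal.absNorm I : ℝ) := by
  unfold rt
  exact Real.rpow_inv_natCast_pow (Nat.cast_nonneg _) Module.finrank_pos.ne'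

variable (F) in
/-- Minkowski -/
theorem mink : ∃ C : ℝ, 1 ≤ C ∧ ∀ I : Ideal (𝓞 F), I ≠ ⊥ →
    ∃ y ∈ I, y ≠ 0 ∧ ∀ v : InfinitePlace F, v (y : F) < C * rt I := by
  set D : ℝ≥0∞ := volume (fundamentalDomain (latticeBasis F)) *
    (2 : ℝ≥0∞) ^ (Module.finrank ℝ (mixedSpace F)) with hD
  have hDt : D < ⊤ := by
    rw [hD]
    exact ENNReal.mul_lt_top (fundamentalDomain_isBounded _).measure_lt_top
      (ENNReal.pow_lt_top ENNReal.ofNat_lt_top)
  set C : ℝ≥0 := D.toNNReal + 1 with hC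
  have hC1 : 1 ≤ C := by
    rw [hC]
    exact le_add_of_nonneg_left zero_le
  refine ⟨(C : ℝ), by exact_mod_cast hC1, fun I hI => ?_⟩
  set J : (FractionalIdeal (𝓞 F)⁰ F)ˣ :=
    FractionalIdeal.mk0 F ⟨I, mem_nonZeroDivisors_of_ne_zero hI⟩ with hJ
  have hN : FractionalIdeal.absNorm J.1 = (Ideal.absNorm I : ℚ) := by
    rw [hJ, FractionalIdeal.coe_mk0, FractionalIdeal.coeIdeal_absNorm]
  set r : ℝ≥0 := ⟨rt I, rt_nonneg I⟩ with hr
  have hrp : r ^ Module.finrank ℚ F = (Ideal.absNorm I : ℝ≥0) := by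
    apply NNReal.coe_injective
    push_cast
    exact rt_pow I
  have hlt : minkowskiBound F J < volume (convexBodyLT F (fun _ => C * r)) := by
    have h1 : minkowskiBound F J = (Ideal.absNorm I : ℝ≥0∞) * D := by
      unfold minkowskiBound
      rw [volume_fundamentalDomain_fractionalIdealLatticeBasis, hN, mul_assoc, hD]
      congr 1
      push_cast
      rw [ENNReal.ofReal_natCast]
    have h2 : (∏ w : InfinitePlace F, ((C * r : ℝ≥0)) ^ w.mult) =
        C ^ Module.finrank ℚ F * (Ideal.absNorm I : ℝ≥0) := by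
      rw [Finset.prod_pow_eq_pow_sum, InfinitePlace.sum_mult_eq, mul_pow, hrp]
    have h3 : volume (convexBodyLT F (fun _ => C * r)) =
        (convexBodyLTFactor F : ℝ≥0∞) * ((C ^ Module.finrank ℚ F * (Ideal.absNorm I : ℝ≥0) : ℝ≥0) :
          ℝ≥0∞) := by
      rw [convexBodyLT_volume, ← h2]
    rw [h1, h3]
    have hN0 : (0 : ℝ≥0) < (Ideal.absNorm I : ℝ≥0) := by exact_mod_cast norm_pos hI
    have h4 : (Ideal.absNorm I : ℝ≥0∞) * D = (((Ideal.absNorm I : ℝ≥0) * D.toNNReal : ℝ≥0) :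
        ℝ≥0∞) := by
      rw [ENNReal.coe_mul, ENNReal.coe_toNNReal hDt.ne, ENNReal.coe_natCast]
    rw [h4, ← ENNReal.coe_mul, ENNReal.coe_lt_coe]
    have h5 : D.toNNReal < C ^ Module.finrank ℚ F := by
      refine lt_of_lt_of_le ?_ (le_self_pow₀ hC1 Module.finrank_pos.ne')
      rw [hC]
      exact lt_add_one _
    have h6 : (1 : ℝ≥0) ≤ convexBodyLTFactor F := one_le_convexBodyLTFactor F
    calc (Ideal.absNorm I : ℝ≥0) * D.toNNReal
        < (Ideal.absNorm I : ℝ≥0) * C ^ Module.finrank ℚ F := mul_lt_mul_of_pos_left h5 hN0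
      _ = 1 * (C ^ Module.finrank ℚ F * (Ideal.absNorm I : ℝ≥0)) := by ring
      _ ≤ convexBodyLTFactor F * (C ^ Module.finrank ℚ F * (Ideal.absNorm I : ℝ≥0)) :=
        mul_le_mul_of_nonneg_right h6 zero_le
  obtain ⟨a, ha, ha0, hav⟩ := exists_ne_zero_mem_ideal_lt F J hlt
  rw [hJ, FractionalIdeal.coe_mk0, FractionalIdeal.mem_coeIdeal] at ha
  obtain ⟨y, hy, rfl⟩ := ha
  refine ⟨y, hy, ?_, fun v => ?_⟩
  · rintro rfl
    exact ha0 (map_zero _)
  · have := hav v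
    push_cast at this
    exact this

theorem vol_ite (v : InfinitePlace F) (x : ℝ) :
    vol (fun w : InfinitePlace F => if w = v then x else 1) = x ^ v.mult := by
  unfold vol
  rw [Finset.prod_eq_single v]
  · simp only [if_true]
  · intro w _ hw
    simp only [if_neg hw, one_pow]
  · intro h
    exact absurd (Finset.mem_univ v) h

/-- the lower bound at a place -/
theorem lower {I : Ideal (𝓞 F)} (hI : I ≠ ⊥) {y : 𝓞 F} (hy : y ∈ I) (hy0 : y ≠ 0) {C : ℝ}
    (hC : 1 ≤ C) (hv : ∀ v : InfinitePlace F, v (y : F) < C * rt I) (v : InfinitePlace F) :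
    rt I ≤ v (y : F) * C ^ Module.finrank ℚ F := by
  have hN : (0 : ℝ) < (Ideal.absNorm I : ℝ) := by exact_mod_cast norm_pos hI
  have h1 := DNYM.absNorm_le hy hy0 (s := fun w : InfinitePlace F =>
    if w = v then v (y : F) else C * rt I) (fun w => by
      by_cases h : w = v
      · rw [if_pos h, h]
      · rw [if_neg h]
        exact (hv w).le)
  set M : ℝ := C * rt I with hM
  have hM0 : 0 ≤ M := mul_nonneg (by linarith) (rt_nonneg I)
  have h2 : vol (fun w : InfinitePlace F => if w = v then v (y : F) else M) * M ^ v.mult =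
      v (y : F) ^ v.mult * (C ^ Module.finrank ℚ F * (Ideal.absNorm I : ℝ)) := by
    rw [← vol_ite v M, ← CNUM.vol_mul, ← rt_pow I, ← mul_pow, ← CNUM.vol_const (F := F), ← hM,
      ← vol_ite v (v (y : F)), ← CNUM.vol_mul]
    congr 1
    funext w
    by_cases h : w = v
    · simp [h]
    · simp [h]
  have h3 := mul_le_mul_of_nonneg_right h1 (pow_nonneg hM0 v.mult)
  rw [h2] at h3
  have h4 : M ^ v.mult ≤ v (y : F) ^ v.mult * C ^ Module.finrank ℚ F := by
    have : (Ideal.absNorm I : ℝ) * M ^ v.mult ≤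
        (Ideal.absNorm I : ℝ) * (v (y : F) ^ v.mult * C ^ Module.finrank ℚ F) := by
      linarith
    exact le_of_mul_le_mul_left this hN
  have hCn : 1 ≤ C ^ Module.finrank ℚ F := one_le_pow₀ hC
  have hvy : 0 ≤ v (y : F) := apply_nonneg v _
  have h5 : M ^ v.mult ≤ (v (y : F) * C ^ Module.finrank ℚ F) ^ v.mult := by
    rw [mul_pow (v (y : F))]
    refine h4.trans (mul_le_mul_of_nonneg_left ?_ (pow_nonneg hvy _))
    exact le_self_pow₀ hCn InfinitePlace.mult_ne_zero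
  have h6 : M ≤ v (y : F) * C ^ Module.finrank ℚ F :=
    le_of_pow_le_pow_left₀ InfinitePlace.mult_ne_zero (by positivity) h5
  refine le_trans ?_ h6
  rw [hM]
  exact le_mul_of_one_le_left (rt_nonneg I) hC

end BALM

open BALM in
theorem specBAL : SpecBAL := by
  intro F _ _
  obtain ⟨C, hC, hmink⟩ := mink F
  set b : ℝ := C ^ Module.finrank ℚ F with hb
  have hb1 : 1 ≤ b := one_le_pow₀ hC
  set g : ℕ := (⌊b⌋₊).factorial with hg
  have hg0 : 0 < g := Nat.factorial_pos _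
  set B0 : ℝ := (Ideal.absNorm (Ideal.span {(g : 𝓞 F)}) : ℝ) with hB0
  have hB00 : 0 ≤ B0 := Nat.cast_nonneg _
  refine ⟨g, C + b + B0, hg0, by linarith, ?_⟩
  intro I hI
  obtain ⟨y, hy, hy0, hyv⟩ := hmink I hI
  -- the cofactor
  obtain ⟨G, hG⟩ := (Ideal.dvd_span_singleton (I := I) (x := y)).2 hy
  have hspy : Ideal.span {y} ≠ ⊥ := by
    rw [Ne, Ideal.span_singleton_eq_bot]
    exact hy0
  have hG0 : G ≠ ⊥ := by
    rintro rfl
    rw [Ideal.mul_bot] at hG
    exact hspy hG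
  have hNI : (0 : ℝ) < (Ideal.absNorm I : ℝ) := by exact_mod_cast norm_pos hI
  have hNG : 0 < Ideal.absNorm G := norm_pos hG0
  have hNG2 : (Ideal.absNorm G : ℝ) ≤ b := by
    have h1 : (Ideal.absNorm (Ideal.span {y}) : ℝ) ≤ b * (Ideal.absNorm I : ℝ) := by
      have h2 := DNYM.absNorm_le (I := Ideal.span {y}) (Ideal.mem_span_singleton_self y) hy0
        (s := fun _ => C * rt I) (fun v => (hyv v).le)
      rw [CNUM.vol_const, mul_pow, rt_pow] at h2
      exact h2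
    rw [hG, map_mul] at h1
    push_cast at h1
    have h3 : (Ideal.absNorm I : ℝ) * (Ideal.absNorm G : ℝ) ≤ (Ideal.absNorm I : ℝ) * b := by
      linarith
    exact le_of_mul_le_mul_left h3 hNI
  have hdvd : Ideal.absNorm G ∣ g := by
    rw [hg]
    exact Nat.dvd_factorial hNG (Nat.le_floor hNG2)
  have hgG : (g : 𝓞 F) ∈ G := by
    obtain ⟨k, hk⟩ := hdvd
    rw [hk, Nat.cast_mul]
    exact Ideal.mul_mem_right _ _ (Ideal.absNorm_mem G)
  obtain ⟨c, hc⟩ := (Ideal.dvd_span_singleton (I := G) (x := (g : 𝓞 F))).2 hgG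
  have hgne : (g : 𝓞 F) ≠ 0 := by exact_mod_cast hg0.ne'
  have hc0 : c ≠ ⊥ := by
    rintro rfl
    rw [Ideal.mul_bot, Ideal.span_singleton_eq_bot] at hc
    exact hgne hc
  refine ⟨y, c, hy0, hc0, ?_, ?_, fun v => ⟨?_, ?_⟩⟩
  · have h1 : (Ideal.absNorm c : ℝ) ≤ B0 := by
      rw [hB0, hc, map_mul]
      have : Ideal.absNorm c ≤ Ideal.absNorm G * Ideal.absNorm c :=
        Nat.le_mul_of_pos_left _ hNG
      exact_mod_cast this
    linarith
  · rw [hG, hc]
    ring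
  · have h1 := lower hI hy hy0 hC hyv v
    rw [inv_mul_le_iff₀ (by linarith)]
    refine h1.trans ?_
    rw [mul_comm]
    exact mul_le_mul_of_nonneg_right (by linarith) (apply_nonneg v _)
  · refine (hyv v).le.trans ?_
    exact mul_le_mul_of_nonneg_right (by linarith) (rt_nonneg I)

end Pool.Agent.Lib.MP_8cb858_nt.PV
end

section
/-!
# LWC: lower bound for the pairs with large twist part
-/
set_option autoImplicit false

namespace Pool.Agent.Lib.MP_8cb858_nt.PV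

open Polynomial NumberField IsDedekindDomain Filter Pool.Agent.Lib.MP_8cb858_nt.SEL
open Pool.Agent.Lib.MP_8cb858_nt.PF Pool.Agent.Lib.MP_8cb858_nt.PU
open scoped Classical WithZero Topology

namespace LWCM

variable {F : Type} [Field F] [NumberField F]

theorem bx_finite (ρ : InfinitePlace F → ℝ) : (Bx F ρ).Finite := by
  refine ((CNUM.box_finite (F := F) (fun v => ρ v ^ 2)).prod
    (CNUM.box_finite (F := F) (fun v => ρ v ^ 3))).subset ?_
  rintro ⟨a, b⟩ ⟨_, h⟩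
  exact ⟨fun v => (h v).1, fun v => (h v).2⟩

/-- `A` is determined by the twist ideal. -/
theorem sub_of_dvd (hIDA : SpecIDA) (S A A' : Finset (Pl F)) (s s' : Ideal (𝓞 F))
    (hA : ∀ v ∈ A, v ∉ S) (hs' : ∀ v : Pl F, v ∉ S → ¬ v.asIdeal ∣ s')
    (h : pr A * s ∣ pr A' * s') : A ⊆ A' := by
  intro v hv
  have h1 : v.asIdeal ∣ pr A := ((hIDA.sqf F A).2.2.2 v).2 hv
  have h2 : v.asIdeal ∣ pr A' * s' := (h1.trans (Dvd.intro _ rfl)).trans h
  have hp : Prime v.asIdeal := v.prime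
  rcases hp.dvd_or_dvd h2 with h3 | h3
  · exact ((hIDA.sqf F A').2.2.2 v).1 h3
  · exact absurd h3 (hs' v (hA v hv))

/-- Sum of the numbers of elements of disjoint sets. -/
theorem sum_le {α β : Type} (T : Finset α) (Ψ : α → Set β) (Φ : Set β) (hΦ : Φ.Finite)
    (hsub : ∀ A ∈ T, Ψ A ⊆ Φ)
    (hdis : ∀ A ∈ T, ∀ A' ∈ T, ∀ q, q ∈ Ψ A → q ∈ Ψ A' → A = A') :
    ∑ A ∈ T, (Ψ A).ncard ≤ Φ.ncard := by
  have hfin : ∀ A ∈ T, (Ψ A).Finite := fun A hA => hΦ.subset (hsub A hA)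
  let G : α → Finset β := fun A => hΦ.toFinset.filter (fun q => q ∈ Ψ A)
  have hG : ∀ A ∈ T, (Ψ A).ncard = (G A).card := by
    intro A hA
    rw [← Set.ncard_coe_finset]
    congr 1
    ext q
    simp only [G, Finset.coe_filter, Set.Finite.mem_toFinset, Set.mem_ofPred_eq]
    exact ⟨fun h => ⟨hsub A hA h, h⟩, fun h => h.2⟩
  rw [Finset.sum_congr rfl hG, Set.ncard_eq_toFinset_card _ hΦ, ← Finset.card_biUnion]
  · refine Finset.card_le_card fun q hq => ?_
    rw [Finset.mem_biUnion] at hq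
    obtain ⟨A, _, hq⟩ := hq
    exact (Finset.mem_filter.1 hq).1
  · intro A hA A' hA' hne
    rw [Function.onFun, Finset.disjoint_left]
    intro q hq hq'
    exact hne (hdis A hA A' hA' q (Finset.mem_filter.1 hq).2 (Finset.mem_filter.1 hq').2)

end LWCM

open LWCM

theorem specLWC (hLWA : SpecLWA) (hTWX : SpecTWX) (hCNF : SpecCNF) (hWSU : SpecWSU)
    (hIDA : SpecIDA) : SpecLWC := by
  intro F _ _ J p hJ
  obtain ⟨S, B, c1, hB, hc1, hA⟩ := hLWA F J p hJ
  obtain ⟨c, Y0, hc, hY0⟩ := hCNF F S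
  obtain ⟨C, hC, hCb⟩ := hWSU.bd F
  set K : ℝ := (C + 1) / c + 1 with hK
  have hK1 : 1 ≤ K := by
    have : 0 ≤ (C + 1) / c := by positivity
    linarith
  have hcK : C + 1 ≤ c * K := by
    have : c * ((C + 1) / c) = C + 1 := by field_simp
    rw [hK, mul_add, this]
    linarith
  refine ⟨c1 / K ^ 5, max Y0 1, by positivity, fun Y hY => ?_⟩
  have hY0' : Y0 ≤ Y := (le_max_left _ _).trans hY
  have hY1 : 1 ≤ Y := (le_max_right _ _).trans hY
  have hKY : Y ≤ K * Y := le_mul_of_one_le_left (by linarith) hK1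
  -- the sets `A`
  have hfW := hWSU.fin F S (K * Y)
  set E : Set (Finset (Pl F)) := WS S (K * Y) \ WS S Y with hE
  have hEf : E.Finite := hfW.subset Set.sdiff_subset
  have hEc : Y ≤ (E.ncard : ℝ) := by
    have h1 := hY0 (K * Y) (hY0'.trans hKY)
    have h2 := (hCb Y (by linarith)).1 S
    have h3 : (WS S (K * Y)).ncard ≤ E.ncard + (WS S Y).ncard := by
      rw [hE]
      exact Set.ncard_le_ncard_sdiff_add_ncard _ _ (hWSU.fin F S Y)
    have h3' : ((WS S (K * Y)).ncard : ℝ) ≤ (E.ncard : ℝ) + (WS S Y).ncard := by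
      exact_mod_cast h3
    nlinarith
  have hEm : ∀ A ∈ E, (∀ v ∈ A, v ∉ S) ∧ (NA A : ℝ) ≤ K * Y ∧ Y < (NA A : ℝ) := by
    intro A hAE
    refine ⟨hAE.1.1, hAE.1.2, ?_⟩
    by_contra h
    exact hAE.2 ⟨hAE.1.1, not_lt.1 h⟩
  choose! R hR using hA
  refine ⟨∑ A ∈ hEf.toFinset, |R A|, fun ρ hρ => ?_⟩
  have hρ0 : ∀ v, 0 ≤ ρ v := fun v =>
    (Finset.sum_nonneg fun A _ => abs_nonneg (R A)).trans (hρ v)
  have hV : 0 ≤ vol ρ := by
    unfold vol
    exact Finset.prod_nonneg fun v _ => pow_nonneg (hρ0 v) _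
  set Φ : Set (𝓞 F × 𝓞 F) := {q ∈ Bx F ρ | q.1 - p.1 ∈ J ∧ q.2 - p.2 ∈ J ∧
        ∃ I : Ideal (𝓞 F), Y ≤ (Ideal.absNorm I : ℝ) ∧ Dv I q} with hΦ
  have hΦf : Φ.Finite := (bx_finite ρ).subset fun q hq => hq.1
  let Ψ : Finset (Pl F) → Set (𝓞 F × 𝓞 F) := fun A =>
    {q ∈ Bx F ρ | q.1 - p.1 ∈ J ∧ q.2 - p.2 ∈ J ∧ ∃ s : Ideal (𝓞 F), s ≠ ⊥ ∧
            (Ideal.absNorm s : ℝ) ≤ B ∧ (∀ v : Pl F, v ∉ S → ¬ v.asIdeal ∣ s) ∧
            Ex (pr A * s) q}
  have hlow : ∀ A ∈ hEf.toFinset, c1 * (vol ρ ^ 5 / (K * Y) ^ 5) ≤ ((Ψ A).ncard : ℝ) := by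
    intro A hAE
    obtain ⟨h1, h2, h3⟩ := hEm A ((Set.Finite.mem_toFinset hEf).1 hAE)
    have h4 : ∀ v, R A ≤ ρ v := fun v =>
      ((le_abs_self _).trans (Finset.single_le_sum (f := fun A => |R A|)
        (fun _ _ => abs_nonneg _) hAE)).trans (hρ v)
    refine le_trans ?_ (hR A h1 ρ h4)
    have h5 : (0 : ℝ) < NA A := by linarith
    refine mul_le_mul_of_nonneg_left ?_ hc1.le
    exact div_le_div_of_nonneg_left (by positivity) (by positivity)
      (pow_le_pow_left₀ h5.le h2 5)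
  have hsum : ∑ A ∈ hEf.toFinset, (Ψ A).ncard ≤ Φ.ncard := by
    refine sum_le hEf.toFinset Ψ Φ hΦf ?_ ?_
    · intro A hAE q hq
      obtain ⟨h1, h2, h3⟩ := hEm A ((Set.Finite.mem_toFinset hEf).1 hAE)
      obtain ⟨hqB, hq1, hq2, s, hs0, _, _, hex⟩ := hq
      refine ⟨hqB, hq1, hq2, pr A * s, ?_, hex.1⟩
      have h4 : Ideal.absNorm (pr A * s) = NA A * Ideal.absNorm s := by
        rw [map_mul]
        congr 1
        exact (hIDA.sqf F A).2.1
      have h5 : 1 ≤ Ideal.absNorm s := Nat.pos_of_ne_zero fun h0 =>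
        hs0 (Ideal.absNorm_eq_zero_iff.1 h0)
      have h6 : NA A ≤ Ideal.absNorm (pr A * s) := by
        rw [h4]
        exact Nat.le_mul_of_pos_right _ h5
      have h7 : (NA A : ℝ) ≤ (Ideal.absNorm (pr A * s) : ℝ) := by exact_mod_cast h6
      linarith
    · intro A hAE A' hAE' q hq hq'
      obtain ⟨h1, _, _⟩ := hEm A ((Set.Finite.mem_toFinset hEf).1 hAE)
      obtain ⟨h1', _, _⟩ := hEm A' ((Set.Finite.mem_toFinset hEf).1 hAE')
      obtain ⟨hqB, _, _, s, _, _, hs, hex⟩ := hq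
      obtain ⟨_, _, _, s', _, _, hs', hex'⟩ := hq'
      have hd : dsc q.1 q.2 ≠ 0 := hqB.1
      have h2 : pr A * s ∣ pr A' * s' := hTWX.div F q _ _ hd hex' hex.1
      have h3 : pr A' * s' ∣ pr A * s := hTWX.div F q _ _ hd hex hex'.1
      exact (sub_of_dvd hIDA S A A' s s' h1 hs' h2).antisymm
        (sub_of_dvd hIDA S A' A s' s h1' hs h3)
  have hcard : (hEf.toFinset.card : ℝ) = (E.ncard : ℝ) := by
    rw [Set.ncard_eq_toFinset_card _ hEf]
  have h1 : (E.ncard : ℝ) * (c1 * (vol ρ ^ 5 / (K * Y) ^ 5)) ≤ (Φ.ncard : ℝ) := by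
    rw [← hcard, ← nsmul_eq_mul, ← Finset.sum_const]
    refine (Finset.sum_le_sum hlow).trans ?_
    exact_mod_cast hsum
  refine le_trans ?_ h1
  have hY0'' : 0 < Y := by linarith
  have hK0 : 0 < K := by linarith
  have h2 : c1 / K ^ 5 * (vol ρ ^ 5 / Y ^ 4) = Y * (c1 * (vol ρ ^ 5 / (K * Y) ^ 5)) := by
    field_simp
  rw [h2]
  exact mul_le_mul_of_nonneg_right hEc (by positivity)

end Pool.Agent.Lib.MP_8cb858_nt.PV
end

section
/-!
# SHB: slightly different boxes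
-/
namespace Pool.Agent.Lib.MP_8cb858_nt.PV

open Polynomial NumberField IsDedekindDomain Filter Pool.Agent.Lib.MP_8cb858_nt.SEL
open Pool.Agent.Lib.MP_8cb858_nt.PF Pool.Agent.Lib.MP_8cb858_nt.PU
open scoped Classical WithZero Topology

namespace SHBM

lemma card_cover {α ι : Type} [Fintype ι] (S : Set α) (T : ι → Set α) (hT : ∀ i, (T i).Finite)
    (h : S ⊆ ⋃ i, T i) : S.ncard ≤ ∑ i, (T i).ncard := by
  have h1 := Set.ncard_le_ncard h (Set.finite_iUnion hT)
  refine h1.trans ?_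
  have h2 : (⋃ i, T i) = (Finset.univ.biUnion (fun i => (hT i).toFinset) : Finset α) := by
    ext x
    simp
  rw [h2, Set.ncard_coe_finset]
  refine Finset.card_biUnion_le.trans (le_of_eq ?_)
  exact Finset.sum_congr rfl fun i _ => (Set.ncard_eq_toFinset_card _ (hT i)).symm

variable {F : Type} [Field F] [NumberField F]

/-- The shell at the place `u`. -/
def Sh (k : ℝ) (s : InfinitePlace F → ℝ) (u : InfinitePlace F) : Set (𝓞 F) :=
  {x : 𝓞 F | x - 0 ∈ (⊤ : Ideal (𝓞 F)) ∧ (∀ v : InfinitePlace F, v (x : F) ≤ k * s v) ∧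
    s u < u (x : F)}

lemma sh_finite (k : ℝ) (s : InfinitePlace F → ℝ) (u : InfinitePlace F) : (Sh k s u).Finite :=
  (CNUM.box_finite (fun v => k * s v)).subset fun _ hx => hx.2.1

lemma cover {η : ℝ} {ρ ρ' : InfinitePlace F → ℝ} (h1 : ∀ v, 1 ≤ ρ' v)
    (h2 : ∀ v, ρ' v ≤ ρ v ∧ ρ v ≤ (1 + η) * ρ' v) :
    Bx F ρ \ Bx F ρ' ⊆ ⋃ v : InfinitePlace F,
      (Sh ((1 + η) ^ 2) (fun w => ρ' w ^ 2) v ×ˢ CNUM.box F (fun w => ρ w ^ 3)) ∪
      (CNUM.box F (fun w => ρ w ^ 2) ×ˢ Sh ((1 + η) ^ 3) (fun w => ρ' w ^ 3) v) := by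
  rintro ⟨a, b⟩ ⟨⟨hd, hb⟩, hn⟩
  have hρ0 : ∀ v, 0 ≤ ρ v := fun v => by linarith [h1 v, (h2 v).1]
  have hup : ∀ (j : ℕ) (v : InfinitePlace F), ρ v ^ j ≤ (1 + η) ^ j * ρ' v ^ j := by
    intro j v
    rw [← mul_pow]
    exact pow_le_pow_left₀ (hρ0 v) (h2 v).2 j
  have hex : ∃ v : InfinitePlace F, ¬ (v (a : F) ≤ ρ' v ^ 2 ∧ v (b : F) ≤ ρ' v ^ 3) := by
    by_contra hcon
    push Not at hcon
    exact hn ⟨hd, hcon⟩
  obtain ⟨v, hv⟩ := hex
  rw [Set.mem_iUnion]
  refine ⟨v, ?_⟩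
  by_cases ha : v (a : F) ≤ ρ' v ^ 2
  · have hb' : ρ' v ^ 3 < v (b : F) := by
      by_contra hcon
      exact hv ⟨ha, not_lt.1 hcon⟩
    right
    exact ⟨fun w => (hb w).1, trivial, fun w => (hb w).2.trans (hup 3 w), hb'⟩
  · left
    exact ⟨⟨trivial, fun w => (hb w).1.trans (hup 2 w), not_le.1 ha⟩, fun w => (hb w).2⟩

end SHBM

open SHBM in
theorem specSHB (hDNS : SpecDNS) (hCNU : SpecCNU.{0}) : SpecSHB := by
  intro F _ _
  obtain ⟨C1, hC1, h1⟩ := hDNS F
  obtain ⟨C2, hC2, h2⟩ := hCNU F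
  refine ⟨(Fintype.card (InfinitePlace F) + 1) * (C2 * (10 * C1 + 2)), by positivity,
    fun η hη hη1 => ?_⟩
  have k2 : (1 : ℝ) ≤ (1 + η) ^ 2 := by nlinarith
  have k3 : (1 : ℝ) ≤ (1 + η) ^ 3 := by nlinarith [pow_pos hη 2, pow_pos hη 3]
  have k2' : (1 + η) ^ 2 ≤ 1 + 3 * η := by nlinarith
  have k3' : (1 + η) ^ 3 ≤ 1 + 7 * η := by
    nlinarith [mul_nonneg hη.le (sub_nonneg.2 hη1), mul_nonneg (pow_nonneg hη.le 2)
      (sub_nonneg.2 hη1)]
  obtain ⟨S2, hS2⟩ := h1 ⊤ η ((1 + η) ^ 2) (by simp) hη k2 (by linarith)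
  obtain ⟨S3, hS3⟩ := h1 ⊤ η ((1 + η) ^ 3) (by simp) hη k3 (by linarith)
  refine ⟨max 1 (max S2 S3), fun ρ ρ' hρ' hρ => ?_⟩
  have hρ1 : ∀ v, 1 ≤ ρ' v := fun v => (le_max_left _ _).trans (hρ' v)
  have hρS2 : ∀ v, S2 ≤ ρ' v := fun v =>
    (le_max_left _ _).trans ((le_max_right _ _).trans (hρ' v))
  have hρS3 : ∀ v, S3 ≤ ρ' v := fun v =>
    (le_max_right _ _).trans ((le_max_right _ _).trans (hρ' v))
  have hρ2 : ∀ v, 1 ≤ ρ v := fun v => (hρ1 v).trans (hρ v).1
  have hV' : vol ρ' ≤ vol ρ :=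
    CNUM.vol_mono (fun v => by linarith [hρ1 v]) (fun v => (hρ v).1)
  have hV'0 : 0 < vol ρ' := CNUM.vol_pos fun v => by linarith [hρ1 v]
  have hV : 1 ≤ vol ρ := CNUM.one_le_vol hρ2
  -- the shells
  have hA : ∀ v : InfinitePlace F, ((Sh ((1 + η) ^ 2) (fun w => ρ' w ^ 2) v).ncard : ℝ) ≤
      (3 * C1 + 1) * η * vol ρ ^ 2 := by
    intro v
    have h3 := hS2 0 (fun w => ρ' w ^ 2) v (fun w => (hρS2 w).trans (by nlinarith [hρ1 w]))
    rw [CNUM.vol_pow, Ideal.absNorm_top, Nat.cast_one, div_one] at h3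
    refine h3.trans ?_
    have h4 : C1 * ((1 + η) ^ 2 - 1) + η ≤ (3 * C1 + 1) * η := by nlinarith
    calc _ ≤ (3 * C1 + 1) * η * vol ρ' ^ 2 := mul_le_mul_of_nonneg_right h4 (by positivity)
      _ ≤ _ := mul_le_mul_of_nonneg_left (pow_le_pow_left₀ hV'0.le hV' 2) (by positivity)
  have hB : ∀ v : InfinitePlace F, ((Sh ((1 + η) ^ 3) (fun w => ρ' w ^ 3) v).ncard : ℝ) ≤
      (7 * C1 + 1) * η * vol ρ ^ 3 := by
    intro v
    have h3 := hS3 0 (fun w => ρ' w ^ 3) v (fun w => (hρS3 w).trans (by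
      nlinarith [hρ1 w, mul_nonneg (sub_nonneg.2 (hρ1 w)) (sub_nonneg.2 (hρ1 w)),
        le_self_pow₀ (hρ1 w) (three_ne_zero)]))
    rw [CNUM.vol_pow, Ideal.absNorm_top, Nat.cast_one, div_one] at h3
    refine h3.trans ?_
    have h4 : C1 * ((1 + η) ^ 3 - 1) + η ≤ (7 * C1 + 1) * η := by nlinarith
    calc _ ≤ (7 * C1 + 1) * η * vol ρ' ^ 3 := mul_le_mul_of_nonneg_right h4 (by positivity)
      _ ≤ _ := mul_le_mul_of_nonneg_left (pow_le_pow_left₀ hV'0.le hV' 3) (by positivity)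
  have hbox : ∀ j : ℕ, ((CNUM.box F (fun w => ρ w ^ j)).ncard : ℝ) ≤ C2 * vol ρ ^ j := by
    intro j
    have h3 := (h2 (fun w => ρ w ^ j) (fun w => pow_pos (by linarith [hρ2 w]) _)).2
    rw [CNUM.vol_pow, max_eq_right (one_le_pow₀ hV)] at h3
    exact h3
  have hcov := card_cover _ _ (fun v => ((sh_finite ((1 + η) ^ 2) (fun w => ρ' w ^ 2) v).prod
    (CNUM.box_finite (fun w => ρ w ^ 3))).union ((CNUM.box_finite (fun w => ρ w ^ 2)).prod
      (sh_finite ((1 + η) ^ 3) (fun w => ρ' w ^ 3) v))) (cover hρ1 hρ)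
  have hsum : ((Bx F ρ \ Bx F ρ').ncard : ℝ) ≤ ∑ v : InfinitePlace F,
      (C2 * (10 * C1 + 2)) * η * vol ρ ^ 5 := by
    refine (Nat.cast_le.2 hcov).trans ?_
    rw [Nat.cast_sum]
    refine Finset.sum_le_sum fun v _ => ?_
    refine (Nat.cast_le.2 (Set.ncard_union_le _ _)).trans ?_
    rw [Nat.cast_add, Set.ncard_prod, Set.ncard_prod, Nat.cast_mul, Nat.cast_mul]
    have e1 := mul_le_mul (hA v) (hbox 3) (Nat.cast_nonneg _) (by positivity)
    have e2 := mul_le_mul (hbox 2) (hB v) (Nat.cast_nonneg _) (by positivity)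
    calc _ ≤ (3 * C1 + 1) * η * vol ρ ^ 2 * (C2 * vol ρ ^ 3) +
          C2 * vol ρ ^ 2 * ((7 * C1 + 1) * η * vol ρ ^ 3) := add_le_add e1 e2
      _ = _ := by ring
  refine hsum.trans ?_
  rw [Finset.sum_const, nsmul_eq_mul, Finset.card_univ]
  have : 0 ≤ (C2 * (10 * C1 + 2)) * η * vol ρ ^ 5 := by positivity
  nlinarith

end Pool.Agent.Lib.MP_8cb858_nt.PV
end

section
/-!
# TRF: transfer between twist ideals
-/
namespace Pool.Agent.Lib.MP_8cb858_nt.PV

open Polynomial NumberField IsDedekindDomain Filter Pool.Agent.Lib.MP_8cb858_nt.SEL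
open Pool.Agent.Lib.MP_8cb858_nt.PF Pool.Agent.Lib.MP_8cb858_nt.PU
open scoped Classical WithZero Topology

namespace TRFM

variable {R : Type} [CommRing R] [IsDomain R]

theorem mem_cancel {x : R} (hx : x ≠ 0) (z : R) (K : Ideal R) :
    x * z ∈ Ideal.span {x} * K ↔ z ∈ K := by
  rw [Ideal.mem_span_singleton_mul]
  constructor
  · rintro ⟨w, hw, e⟩
    rw [← mul_left_cancel₀ hx e]
    exact hw
  · intro h
    exact ⟨z, h, rfl⟩

theorem powk {g y : R} {I c : Ideal R} (h : Ideal.span {y} * c = Ideal.span {g} * I) (k : ℕ)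
    (J : Ideal R) :
    Ideal.span {y ^ k} * (c * J) ^ k = Ideal.span {g ^ k} * (I * J) ^ k := by
  rw [← Ideal.span_singleton_pow, ← Ideal.span_singleton_pow, ← mul_pow, ← mul_pow, ← mul_assoc,
    ← mul_assoc, h]

theorem dnk {g y : R} {I c : Ideal R} (h : Ideal.span {y} * c = Ideal.span {g} * I) (k : ℕ)
    {A : R} (hA : A ∈ I ^ k) : ∃ a : R, g ^ k * A = y ^ k * a := by
  have h1 := powk h k ⊤
  rw [Ideal.mul_top, Ideal.mul_top] at h1
  have h2 : g ^ k * A ∈ Ideal.span {g ^ k} * I ^ k :=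
    Ideal.mul_mem_mul (Ideal.mem_span_singleton_self _) hA
  rw [← h1] at h2
  obtain ⟨z, _, hz⟩ := Ideal.mem_span_singleton_mul.1 h2
  exact ⟨z, hz.symm⟩

theorem eqk {g y : R} {I c : Ideal R} (hg : g ≠ 0) (hy : y ≠ 0)
    (h : Ideal.span {y} * c = Ideal.span {g} * I) (k : ℕ) {A a : R}
    (e : g ^ k * A = y ^ k * a) (J : Ideal R) : A ∈ (I * J) ^ k ↔ a ∈ (c * J) ^ k := by
  rw [← mem_cancel (pow_ne_zero k hg) A, ← mem_cancel (pow_ne_zero k hy) a, e, powk h k J]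

end TRFM

open TRFM in
theorem specTRF : SpecTRF where
  dn := by
    intro F _ _ g y I c hg hy h A B hAB
    obtain ⟨a, ha⟩ := dnk h 2 hAB.1
    obtain ⟨b, hb⟩ := dnk h 3 hAB.2
    exact ⟨a, b, ha, hb⟩
  up := by
    intro F _ _ g y I c hg hy h a b hab
    obtain ⟨A, hA⟩ := dnk h.symm 2 hab.1
    obtain ⟨B, hB⟩ := dnk h.symm 3 hab.2
    exact ⟨A, B, hA.symm, hB.symm⟩
  eq := by
    intro F _ _ g y I c hg hy h A B a b h2 h3 J
    exact and_congr (eqk hg hy h 2 h2 J) (eqk hg hy h 3 h3 J)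

end Pool.Agent.Lib.MP_8cb858_nt.PV
end

section
/-!
# Module UPB: upper bound for the pairs divisible by `I`, uniform in `I`
-/
namespace Pool.Agent.Lib.MP_8cb858_nt.PV

open Polynomial NumberField IsDedekindDomain Filter Pool.Agent.Lib.MP_8cb858_nt.SEL
open Pool.Agent.Lib.MP_8cb858_nt.PF Pool.Agent.Lib.MP_8cb858_nt.PU
open scoped Classical WithZero Topology

namespace UPBM

variable {F : Type} [Field F] [NumberField F]

/-- a pair in the box divisible by `I` bounds the norm of `I` -/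
theorem norm_le {I : Ideal (𝓞 F)} {ρ : InfinitePlace F → ℝ} (hρ : ∀ v, 1 ≤ ρ v)
    {q : 𝓞 F × 𝓞 F} (hq : q ∈ Bx F ρ) (hd : Dv I q) :
    (Ideal.absNorm I : ℝ) ≤ vol ρ := by
  obtain ⟨h1, h2⟩ := hq
  have hV : 1 ≤ vol ρ := CNUM.one_le_vol hρ
  have hV0 : 0 ≤ vol ρ := by linarith
  by_cases ha : q.1 = 0
  · have hb : q.2 ≠ 0 := by
      intro hb
      apply h1
      rw [ha, hb]
      ring
    have h3 := DNYM.absNorm_le hd.2 hb (fun v => (h2 v).2)
    rw [map_pow, CNUM.vol_pow] at h3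
    push_cast at h3
    exact le_of_pow_le_pow_left₀ (by norm_num) hV0 h3
  · have h3 := DNYM.absNorm_le hd.1 ha (fun v => (h2 v).1)
    rw [map_pow, CNUM.vol_pow] at h3
    push_cast at h3
    exact le_of_pow_le_pow_left₀ (by norm_num) hV0 h3

end UPBM

open UPBM in
theorem specUPB (hDNA : SpecDNA) : SpecUPB := by
  intro F _ _
  obtain ⟨C, hC, hN⟩ := DNYM.count hDNA F
  refine ⟨C ^ 2, one_le_pow₀ hC, ?_⟩
  intro I ρ hI hρ
  have hV : 1 ≤ vol ρ := CNUM.one_le_vol hρ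
  have hV0 : 0 < vol ρ := by linarith
  have hN0 : (0 : ℝ) < Ideal.absNorm I := by
    have : Ideal.absNorm I ≠ 0 := fun h0 => hI (Ideal.absNorm_eq_zero_iff.1 h0)
    exact_mod_cast Nat.pos_of_ne_zero this
  by_cases hle : (Ideal.absNorm I : ℝ) ≤ vol ρ
  · refine ⟨Or.inl hle, ?_⟩
    have hpow : ∀ k : ℕ, k ≠ 0 → I ^ k ≠ ⊥ := fun k hk h => hI (pow_eq_zero_iff hk |>.1 h)
    have hk : ∀ k : ℕ, k ≠ 0 → {x : 𝓞 F | x - 0 ∈ I ^ k ∧ ∀ v : InfinitePlace F,
        v (x : F) ≤ ρ v ^ k}.Finite ∧ ({x : 𝓞 F | x - 0 ∈ I ^ k ∧ ∀ v : InfinitePlace F,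
        v (x : F) ≤ ρ v ^ k}.ncard : ℝ) ≤ C * (vol ρ ^ k / (Ideal.absNorm I : ℝ) ^ k) := by
      intro k hk
      have h1 := hN (I ^ k) 0 (fun v => ρ v ^ k) (hpow k hk)
        (fun v => pow_pos (lt_of_lt_of_le one_pos (hρ v)) k)
      refine ⟨h1.1, h1.2.trans (le_of_eq ?_)⟩
      rw [CNUM.vol_pow, map_pow]
      push_cast
      rw [max_eq_right]
      rw [le_div_iff₀ (by positivity), one_mul]
      exact pow_le_pow_left₀ hN0.le hle k
    obtain ⟨hf2, hc2⟩ := hk 2 (by norm_num)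
    obtain ⟨hf3, hc3⟩ := hk 3 (by norm_num)
    have hsub : {q ∈ Bx F ρ | Dv I q} ⊆
        {x : 𝓞 F | x - 0 ∈ I ^ 2 ∧ ∀ v : InfinitePlace F, v (x : F) ≤ ρ v ^ 2} ×ˢ
        {x : 𝓞 F | x - 0 ∈ I ^ 3 ∧ ∀ v : InfinitePlace F, v (x : F) ≤ ρ v ^ 3} := by
      rintro q ⟨hq, hd⟩
      refine ⟨⟨?_, fun v => (hq.2 v).1⟩, ⟨?_, fun v => (hq.2 v).2⟩⟩
      · rw [sub_zero]
        exact hd.1
      · rw [sub_zero]
        exact hd.2
    have hcard := Set.ncard_le_ncard hsub (hf2.prod hf3)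
    rw [Set.ncard_prod] at hcard
    have hcard' : ({q ∈ Bx F ρ | Dv I q}.ncard : ℝ) ≤
        ({x : 𝓞 F | x - 0 ∈ I ^ 2 ∧ ∀ v : InfinitePlace F, v (x : F) ≤ ρ v ^ 2}.ncard : ℝ) *
        ({x : 𝓞 F | x - 0 ∈ I ^ 3 ∧ ∀ v : InfinitePlace F, v (x : F) ≤ ρ v ^ 3}.ncard : ℝ) := by
      exact_mod_cast hcard
    refine hcard'.trans ((mul_le_mul hc2 hc3 (Nat.cast_nonneg _) (by positivity)).trans
      (le_of_eq ?_))
    field_simp
  · have hem : {q ∈ Bx F ρ | Dv I q} = ∅ := by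
      rw [Set.eq_empty_iff_forall_notMem]
      rintro q ⟨hq, hd⟩
      exact hle (norm_le hρ hq hd)
    refine ⟨Or.inr hem, ?_⟩
    rw [hem, Set.ncard_empty]
    push_cast
    positivity

end Pool.Agent.Lib.MP_8cb858_nt.PV
end
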