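import Pool.Agent.Lib.MP_8cb858_nt.PU.SpecN
import Pool.Agent.Lib.MP_8cb858_nt.PU.SpecQ
import Pool.Agent.Lib.MP_8cb858_nt.PU.SpecT
import Pool.Agent.Lib.MP_8cb858_nt.PU.SpecU
import Pool.Agent.Lib.MP_8cb858_nt.PF.SpecG
import Pool.Agent.Lib.MP_8cb858_nt.PV.SpecV

section
/-!
Module AUV: the auxiliary elements of the sequence `ms (Kp p J) p W`.
-/
namespace Pool.Agent.Lib.MP_8cb858_nt.PU

open NumberField IsDedekindDomain Pool.Agent.Lib.MP_8cb858_nt.SEL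
open Pool.Agent.Lib.MP_8cb858_nt.PF
open scoped Classical

theorem specAUV (hVAP : SpecVAP) (hTWV : SpecTWV) : SpecAUV := by
  intro F _ _ S p J W hok hp hJW
  have hsub : S.M0 ⊆ S.Kp p J := Finset.subset_union_left
  have hne := (hVAP.ne S p W hok hp).2.1
  have hcop := hVAP.cop S p J W hok hp hJW
  obtain ⟨hdis, h⟩ := hok.aux (S.Kp p J) (S.pp p W : F) hsub hne hcop
  refine ⟨hdis, fun j => ?_⟩
  obtain ⟨hU, hc, hout, hcl⟩ := h j
  have hu : ∀ w, w ∉ S.G.S → vv w (lc w (S.ms (S.Kp p J) p W j).1) = 1 :=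
    fun w hw => S.G.uun _ hU w hw
  refine ⟨hU, hc, hout, hcl, hTWV.ne S.G _ _ (S.G.une _ hU), fun v hv hvA => ?_⟩
  exact hTWV.un S.G _ _ v hu (fun w hw hwS => (hout w hw).1 (hsub (hok.gs hwS))) hvA
    fun hvS => hv (hok.gs hvS)

end Pool.Agent.Lib.MP_8cb858_nt.PU
end

section
/-!
# BAB: bad types, for fixed `p`, over `F`
-/
namespace Pool.Agent.Lib.MP_8cb858_nt.PU

open Polynomial NumberField IsDedekindDomain Pool.Agent.Lib.MP_8cb858_nt.SEL
open Pool.Agent.Lib.MP_8cb858_nt.PF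
open scoped Classical WithZero

namespace BABM

variable {F : Type} [Field F] [NumberField F]

lemma one (hEQZ : SpecEQZ) (hTYZ : SpecTYZ) (q : Pl F) (h6 : (6 : 𝓞 F) ∉ q.asIdeal) (δ : ℝ)
    (hδ : 0 < δ) : ∃ R0 : ℝ, ∀ ρ : InfinitePlace F → ℝ, (∀ v, R0 ≤ ρ v) →
      ({E ∈ Bx F ρ | dsc E.1 E.2 ∈ q.asIdeal}.ncard : ℝ) ≤
        (1 / nv q + δ) * ((Bx F ρ).ncard : ℝ) := by
  obtain ⟨R0, hR0⟩ := (hEQZ F).2.2 q.asIdeal (C0 q) δ q.ne_bot hδ
  refine ⟨R0, fun ρ hρ => ?_⟩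
  have h := hR0 ρ hρ
  rw [hTYZ.n0 F q h6] at h
  have hs : {E ∈ Bx F ρ | dsc E.1 E.2 ∈ q.asIdeal} = {E ∈ Bx F ρ | rd q.asIdeal E ∈ C0 q} := by
    ext E
    constructor
    · rintro ⟨h1, h2⟩
      exact ⟨h1, (hTYZ.e0 F q E).1 h2⟩
    · rintro ⟨h1, h2⟩
      exact ⟨h1, (hTYZ.e0 F q E).2 h2⟩
  rw [hs]
  have h2 := (abs_le.1 h).2
  have h5 := hTYZ.five F q h6
  have h3 : (nv q : ℝ) / (Ideal.absNorm q.asIdeal : ℝ) ^ 2 = 1 / nv q := by
    have h4 : (nv q : ℝ) ≠ 0 := by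
      have : nv q ≠ 0 := by omega
      exact_mod_cast this
    show (nv q : ℝ) / (nv q : ℝ) ^ 2 = 1 / nv q
    field_simp
  rw [h3] at h2
  linarith

end BABM

open BABM in
/-- **BAB**: bad types. -/
theorem specBAB (hEQZ : SpecEQZ) (hTYZ : SpecTYZ) : SpecBAB := by
  intro F _ _ ε hε
  obtain ⟨r0, hr0⟩ := exists_nat_gt (2 / ε)
  have hr0p : (0 : ℝ) < r0 := lt_trans (by positivity) hr0
  refine ⟨r0, fun S hB => ?_⟩
  have hr : 0 < S.r := hB.ok.rp
  have hrr : (0 : ℝ) < S.r := by exact_mod_cast hr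
  have h6 : ∀ i, ∀ q ∈ S.L i, (6 : 𝓞 F) ∉ q.asIdeal := by
    intro i q hq
    exact (S.G.six q fun h => hB.ok.lpr i q hq (hB.ok.gs h)).1
  have hg : ∀ q : Pl F, ∃ R0 : ℝ, (6 : 𝓞 F) ∉ q.asIdeal → ∀ ρ : InfinitePlace F → ℝ,
      (∀ v, R0 ≤ ρ v) → ({E ∈ Bx F ρ | dsc E.1 E.2 ∈ q.asIdeal}.ncard : ℝ) ≤
        (1 / nv q + ε / (2 * S.r)) * ((Bx F ρ).ncard : ℝ) := by
    intro q
    by_cases hq : (6 : 𝓞 F) ∉ q.asIdeal
    · obtain ⟨R0, h⟩ := one hEQZ hTYZ q hq (ε / (2 * S.r)) (by positivity)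
      exact ⟨R0, fun _ => h⟩
    · exact ⟨0, fun h1 => absurd h1 hq⟩
  choose g hg using hg
  obtain ⟨M, hM⟩ := ((Finset.univ.biUnion S.L).image g).exists_le
  refine ⟨M, fun ρ hρ p hp => ?_⟩
  have hpi : ∀ i, p i ∈ S.L i := fun i => Fintype.mem_piFinset.1 hp i
  have hle : ∀ i, ({E ∈ Bx F ρ | dsc E.1 E.2 ∈ (p i).asIdeal}.ncard : ℝ) ≤
      (1 / (nv (p i) : ℝ) + ε / (2 * S.r)) * ((Bx F ρ).ncard : ℝ) := by
    intro i
    apply hg (p i) (h6 i (p i) (hpi i)) ρ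
    intro v
    exact (hM _ (Finset.mem_image_of_mem g
      (Finset.mem_biUnion.2 ⟨i, Finset.mem_univ i, hpi i⟩))).trans (hρ v)
  have hsub : {E ∈ Bx F ρ | ∃ i, ty (p i) E = 3} ⊆
      ⋃ i ∈ (Finset.univ : Finset (Fin S.r)), {E ∈ Bx F ρ | dsc E.1 E.2 ∈ (p i).asIdeal} := by
    rintro E ⟨hE, i, hi⟩
    simp only [Finset.mem_univ, Set.iUnion_true, Set.mem_iUnion]
    exact ⟨i, hE, hTYZ.t3 F (p i) E hi⟩
  have hfin : ∀ i, {E ∈ Bx F ρ | dsc E.1 E.2 ∈ (p i).asIdeal}.Finite := fun i =>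
    ((hEQZ F).1 ρ).subset fun E hE => hE.1
  have hU : (⋃ i ∈ (Finset.univ : Finset (Fin S.r)),
      {E ∈ Bx F ρ | dsc E.1 E.2 ∈ (p i).asIdeal}).Finite :=
    Set.Finite.biUnion (Finset.finite_toSet _) fun i _ => hfin i
  have h1 : ({E ∈ Bx F ρ | ∃ i, ty (p i) E = 3}.ncard : ℝ) ≤
      ∑ i, ({E ∈ Bx F ρ | dsc E.1 E.2 ∈ (p i).asIdeal}.ncard : ℝ) := by
    have h2 := Set.ncard_le_ncard hsub hU
    have h3 := Finset.set_ncard_biUnion_le (Finset.univ : Finset (Fin S.r))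
      (fun i => {E ∈ Bx F ρ | dsc E.1 E.2 ∈ (p i).asIdeal})
    exact_mod_cast h2.trans h3
  have hp1 : ∀ i, 1 / (nv (p i) : ℝ) ≤ 1 / (r0 * S.r) := by
    intro i
    have h2 := hB.pr i (p i) (hpi i)
    have h3 := Real.add_one_le_exp ((r0 : ℝ) * S.r)
    apply one_div_le_one_div_of_le (by positivity)
    linarith
  have hN : (0 : ℝ) ≤ ((Bx F ρ).ncard : ℝ) := Nat.cast_nonneg _
  calc ({E ∈ Bx F ρ | ∃ i, ty (p i) E = 3}.ncard : ℝ)
      ≤ ∑ i, ({E ∈ Bx F ρ | dsc E.1 E.2 ∈ (p i).asIdeal}.ncard : ℝ) := h1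
    _ ≤ ∑ _i : Fin S.r, (1 / (r0 * S.r) + ε / (2 * S.r)) * ((Bx F ρ).ncard : ℝ) := by
        apply Finset.sum_le_sum
        intro i _
        refine (hle i).trans (mul_le_mul_of_nonneg_right ?_ hN)
        linarith [hp1 i]
    _ = (1 / r0 + ε / 2) * ((Bx F ρ).ncard : ℝ) := by
        rw [Finset.sum_const, Finset.card_univ, Fintype.card_fin, nsmul_eq_mul]
        field_simp
    _ ≤ ε * ((Bx F ρ).ncard : ℝ) := by
        apply mul_le_mul_of_nonneg_right _ hN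
        have h6 : 1 / (r0 : ℝ) ≤ ε / 2 := by
          rw [div_le_div_iff₀ hr0p (by norm_num)]
          rw [div_lt_iff₀ hε] at hr0
          linarith
        linarith

end Pool.Agent.Lib.MP_8cb858_nt.PU
end

section
/-!
# BDM: the measure of the bad event (port of PT/BDM, helper29)
-/
namespace Pool.Agent.Lib.MP_8cb858_nt.PU

open Polynomial NumberField IsDedekindDomain Pool.Agent.Lib.MP_8cb858_nt.SEL
open Pool.Agent.Lib.MP_8cb858_nt.PF
open scoped Classical WithZero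

namespace BDMM

section Counting

variable {α β : Type*}

/-- the number of elements of `s` with `Q`. -/
noncomputable def fc (s : Finset β) (Q : β → Prop) : ℝ :=
  ((@Finset.filter β Q (fun _ => Classical.propDecidable _) s).card : ℝ)

lemma fc_eq (s : Finset β) (Q : β → Prop) [DecidablePred Q] :
    ((s.filter Q).card : ℝ) = fc s Q := by
  have e : s.filter Q = @Finset.filter β Q (fun _ => Classical.propDecidable _) s := by
    ext x
    simp only [Finset.mem_filter]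
  unfold fc
  rw [e]

lemma fc_nil {s : Finset β} {Q : β → Prop} (h : ∀ x ∈ s, ¬ Q x) : fc s Q = 0 := by
  unfold fc
  rw [Nat.cast_eq_zero, Finset.card_eq_zero, Finset.filter_eq_empty_iff]
  intro x hx
  exact h x hx

lemma fc_mono {s : Finset β} {Q Q' : β → Prop} (h : ∀ x ∈ s, Q x → Q' x) : fc s Q ≤ fc s Q' := by
  unfold fc
  have : (@Finset.filter β Q (fun _ => Classical.propDecidable _) s).card ≤
      (@Finset.filter β Q' (fun _ => Classical.propDecidable _) s).card := by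
    refine Finset.card_le_card ?_
    intro p hp
    rw [Finset.mem_filter] at hp ⊢
    exact ⟨hp.1, h p hp.1 hp.2⟩
  exact (Nat.cast_le (α := ℝ)).2 this

lemma fc_sum (s : Finset β) (Q : β → Prop) :
    fc s Q = ∑ p ∈ s, if Q p then (1 : ℝ) else 0 := by
  rw [← Finset.sum_filter, Finset.sum_const, nsmul_eq_mul, mul_one, fc_eq]

lemma fc_or (s : Finset β) (Q Q' : β → Prop) :
    fc s (fun x => Q x ∨ Q' x) ≤ fc s Q + fc s Q' := by
  rw [fc_sum, fc_sum, fc_sum, ← Finset.sum_add_distrib]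
  refine Finset.sum_le_sum (fun x _ => ?_)
  by_cases h1 : Q x
  · by_cases h2 : Q' x
    · simp [h1, h2]
    · simp [h1, h2]
  · by_cases h2 : Q' x
    · simp [h1, h2]
    · simp [h1, h2]

/-- the number of triples with `P`. -/
noncomputable def cnt (H : Finset α) (O : Finset β) (P : α → α → β → Prop) : ℝ :=
  ∑ E ∈ H, ∑ E' ∈ H, fc O (fun p => P E E' p)

variable {H : Finset α} {O : Finset β}

lemma cnt_mono {P Q : α → α → β → Prop} (h : ∀ E ∈ H, ∀ E' ∈ H, ∀ p ∈ O, P E E' p → Q E E' p) :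
    cnt H O P ≤ cnt H O Q := by
  unfold cnt
  exact Finset.sum_le_sum (fun E hE => Finset.sum_le_sum (fun E' hE' =>
    fc_mono (fun p hp => h E hE E' hE' p hp)))

lemma cnt_or (P Q : α → α → β → Prop) :
    cnt H O (fun E E' p => P E E' p ∨ Q E E' p) ≤ cnt H O P + cnt H O Q := by
  unfold cnt
  rw [← Finset.sum_add_distrib]
  refine Finset.sum_le_sum (fun E _ => ?_)
  rw [← Finset.sum_add_distrib]
  exact Finset.sum_le_sum (fun E' _ => fc_or O _ _)

lemma cnt_swap (P : α → α → β → Prop) :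
    cnt H O (fun E E' p => P E' E p) = cnt H O P := by
  unfold cnt
  rw [Finset.sum_comm]

lemma cnt_p {P : α → α → β → Prop} {δ : ℝ}
    (h : ∀ E ∈ H, ∀ E' ∈ H, fc O (fun p => P E E' p) ≤ δ * (O.card : ℝ)) :
    cnt H O P ≤ δ * (H.card : ℝ) ^ 2 * (O.card : ℝ) := by
  unfold cnt
  refine (Finset.sum_le_sum (fun E hE => Finset.sum_le_sum (fun E' hE' => h E hE E' hE'))).trans ?_
  rw [Finset.sum_const, Finset.sum_const, nsmul_eq_mul, nsmul_eq_mul]
  apply le_of_eq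
  ring

lemma cnt_E' {P : α → α → β → Prop} {δ : ℝ}
    (h : ∀ E ∈ H, ∀ p ∈ O, fc H (fun E' => P E E' p) ≤ δ * (H.card : ℝ)) :
    cnt H O P ≤ δ * (H.card : ℝ) ^ 2 * (O.card : ℝ) := by
  have e : cnt H O P = ∑ E ∈ H, ∑ p ∈ O, fc H (fun E' => P E E' p) := by
    unfold cnt
    refine Finset.sum_congr rfl (fun E _ => ?_)
    have e1 : ∀ E' ∈ H, fc O (fun p => P E E' p) =
        ∑ p ∈ O, if P E E' p then (1 : ℝ) else 0 := fun E' _ => fc_sum O _
    have e2 : ∀ p ∈ O, fc H (fun E' => P E E' p) =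
        ∑ E' ∈ H, if P E E' p then (1 : ℝ) else 0 := fun p _ => fc_sum H _
    rw [Finset.sum_congr rfl e1, Finset.sum_congr rfl e2, Finset.sum_comm]
  rw [e]
  refine (Finset.sum_le_sum (fun E hE => Finset.sum_le_sum (fun p hp => h E hE p hp))).trans ?_
  rw [Finset.sum_const, Finset.sum_const, nsmul_eq_mul, nsmul_eq_mul]
  apply le_of_eq
  ring

lemma cnt_E {P : α → α → β → Prop} {δ : ℝ}
    (h : ∀ E' ∈ H, ∀ p ∈ O, fc H (fun E => P E E' p) ≤ δ * (H.card : ℝ)) :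
    cnt H O P ≤ δ * (H.card : ℝ) ^ 2 * (O.card : ℝ) := by
  rw [← cnt_swap]
  exact cnt_E' (P := fun E E' p => P E' E p) h

end Counting

lemma big_mono {F : Type} [Field F] [NumberField F] {S : Dat F} {r0 r1 : ℕ} (h : Big S r1) (h0 : r0 ≤ r1) : Big S r0 where
  ok := h.ok
  r := h0.trans h.r
  d1 := (Nat.mul_le_mul_right _ h0).trans h.d1
  m0 := (Nat.mul_le_mul_right _ h0).trans h.m0
  c0 := (Nat.mul_le_mul_right _ h0).trans h.c0
  pr i q hq := by
    refine (Real.exp_le_exp.2 ?_).trans (h.pr i q hq)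
    exact mul_le_mul_of_nonneg_right (by exact_mod_cast h0) (Nat.cast_nonneg _)
  card i := by
    refine (Real.exp_le_exp.2 ?_).trans (h.card i)
    exact mul_le_mul_of_nonneg_right (by exact_mod_cast h0) (Nat.cast_nonneg _)
  aux M x h1 h2 h3 j v hv := h0.trans (h.aux M x h1 h2 h3 j v hv)

lemma ncard_filter {F : Type} [Field F] [NumberField F] {ρ : InfinitePlace F → ℝ} (hf : (Bx F ρ).Finite)
    (Q : 𝓞 F × 𝓞 F → Prop) : ({E ∈ Bx F ρ | Q E}.ncard) = (hf.toFinset.filter Q).card := by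
  rw [← Set.ncard_coe_finset]
  congr 1
  ext E
  simp

/-- `¬ Gh` for a fixed position. -/
lemma one {F : Type} [Field F] [NumberField F] (S : Dat F) (n : ℕ) (η κ δ : ℝ) (lo : ℕ) (hlo : lo ≤ n)
    (ρ : InfinitePlace F → ℝ) (hf : (Bx F ρ).Finite)
    (r1 : ℕ)
    (h1 : ∀ p ∈ S.Om, ({E ∈ Bx F ρ | ∃ i, ty (p i) E = 3}.ncard : ℝ) ≤ δ * ((Bx F ρ).ncard : ℝ))
    (h2 : ({E ∈ Bx F ρ | ∃ i, ¬ Tok κ (S.L i) E}.ncard : ℝ) ≤ δ * ((Bx F ρ).ncard : ℝ))
    (h3 : ∀ E' : 𝓞 F × 𝓞 F, (∀ i, Tok κ (S.L i) E') →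
      ({E ∈ Bx F ρ | ∃ i, ¬ Tok κ ((S.L i).filter (fun q => ty q E' = 1)) E}.ncard : ℝ) ≤
        δ * ((Bx F ρ).ncard : ℝ))
    (h4 : ∀ E : 𝓞 F × 𝓞 F, (∀ i, Tok κ (S.L i) E) →
      ((S.Om.filter (fun p => ¬ (48 * S.r ≤ 100 * (S.Ux E p).card ∧
        100 * (S.Jx E p).card ≤ 17 * S.r))).card : ℝ) ≤ δ * (S.Om.card : ℝ))
    (h5 : ∀ E E' : 𝓞 F × 𝓞 F, (∀ i, Tok κ (S.L i) E') →
      (∀ i, Tok κ ((S.L i).filter (fun q => ty q E' = 1)) E) →
      ((S.Om.filter (fun p => ¬ ∀ k, lo ≤ k → k < lo + n →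
        ∃ i ∈ S.bk n k, S.al E E' p i)).card : ℝ) ≤ δ * (S.Om.card : ℝ))
    (h6 : ∀ p ∈ S.Om,
      ({E ∈ Bx F ρ | ¬ ((∀ v ∈ (S.m0 p (jx (S.m0 p) E)).2, Y3 v E) ∧
        (sc E (S.D1 * S.G.mx (S.m0 p) E) : ℝ) ≤
          2 ^ ((1 / 20 : ℝ) * S.r))}.ncard : ℝ) ≤ δ * ((Bx F ρ).ncard : ℝ))
    (h7 : ∀ E' : 𝓞 F × 𝓞 F, ((S.Om.filter (fun p => ∃ (i : Fin S.r) (I : Finset (Fin S.r)), i ∉ I ∧
      ((S.Ls E' (S.Kp p I) p i).card : ℝ) < Real.exp (r1 * S.r))).card : ℝ) ≤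
      δ * (S.Om.card : ℝ))
    (h8 : ∀ p ∈ S.Om, ∀ E' : 𝓞 F × 𝓞 F,
      (∀ (i : Fin S.r) (I : Finset (Fin S.r)), i ∉ I →
        Real.exp (r1 * S.r) ≤ ((S.Ls E' (S.Kp p I) p i).card : ℝ)) →
      ({E ∈ Bx F ρ | ¬ S.Nal η κ E E' p}.ncard : ℝ) ≤ δ * ((Bx F ρ).ncard : ℝ)) (hδ : 0 ≤ δ) :
    cnt hf.toFinset S.Om (fun E E' p => ¬ S.Gh n η κ lo E E' p) ≤
      9 * (δ * (hf.toFinset.card : ℝ) ^ 2 * (S.Om.card : ℝ)) := by
  have hN : ((Bx F ρ).ncard : ℝ) = (hf.toFinset.card : ℝ) := by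
    rw [Set.ncard_eq_toFinset_card _ hf]
  rw [hN] at h2
  simp only [hN, ncard_filter hf, fc_eq] at h1 h2 h3 h6 h8
  simp only [fc_eq] at h4 h5 h7
  -- the nine events
  have c1 : cnt hf.toFinset S.Om (fun E _ p => ∃ i, ty (p i) E = 3) ≤
      δ * (hf.toFinset.card : ℝ) ^ 2 * (S.Om.card : ℝ) := by
    apply cnt_E
    intro E' _ p hp
    exact h1 p hp
  have c2 : cnt hf.toFinset S.Om (fun E _ _ => ∃ i, ¬ Tok κ (S.L i) E) ≤
      δ * (hf.toFinset.card : ℝ) ^ 2 * (S.Om.card : ℝ) := by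
    apply cnt_E
    intro E' _ p hp
    exact h2
  have c3 : cnt hf.toFinset S.Om (fun _ E' _ => ∃ i, ¬ Tok κ (S.L i) E') ≤
      δ * (hf.toFinset.card : ℝ) ^ 2 * (S.Om.card : ℝ) := by
    apply cnt_E'
    intro E' _ p hp
    exact h2
  have c4 : cnt hf.toFinset S.Om (fun E E' _ => (∀ i, Tok κ (S.L i) E') ∧
      ∃ i, ¬ Tok κ ((S.L i).filter (fun q => ty q E' = 1)) E) ≤
      δ * (hf.toFinset.card : ℝ) ^ 2 * (S.Om.card : ℝ) := by
    apply cnt_E
    intro E' _ p hp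
    by_cases hT : ∀ i, Tok κ (S.L i) E'
    · exact (fc_mono (fun x _ hh => hh.2)).trans (h3 E' hT)
    · rw [fc_nil (fun x _ hh => hT hh.1)]
      positivity
  have c5 : cnt hf.toFinset S.Om (fun E _ p => (∀ i, Tok κ (S.L i) E) ∧
      ¬ (48 * S.r ≤ 100 * (S.Ux E p).card ∧ 100 * (S.Jx E p).card ≤ 17 * S.r)) ≤
      δ * (hf.toFinset.card : ℝ) ^ 2 * (S.Om.card : ℝ) := by
    apply cnt_p
    intro E _ E' _
    by_cases hT : ∀ i, Tok κ (S.L i) E
    · exact (fc_mono (fun x _ hh => hh.2)).trans (h4 E hT)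
    · rw [fc_nil (fun x _ hh => hT hh.1)]
      positivity
  have c6 : cnt hf.toFinset S.Om (fun E E' p => ((∀ i, Tok κ (S.L i) E') ∧
      (∀ i, Tok κ ((S.L i).filter (fun q => ty q E' = 1)) E)) ∧
      ¬ ∀ k, lo ≤ k → k < lo + n → ∃ i ∈ S.bk n k, S.al E E' p i) ≤
      δ * (hf.toFinset.card : ℝ) ^ 2 * (S.Om.card : ℝ) := by
    apply cnt_p
    intro E _ E' _
    by_cases hT : (∀ i, Tok κ (S.L i) E') ∧
      (∀ i, Tok κ ((S.L i).filter (fun q => ty q E' = 1)) E)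
    · exact (fc_mono (fun x _ hh => hh.2)).trans (h5 E E' hT.1 hT.2)
    · rw [fc_nil (fun x _ hh => hT hh.1)]
      positivity
  have c7 : cnt hf.toFinset S.Om (fun E _ p =>
      ¬ ((∀ v ∈ (S.m0 p (jx (S.m0 p) E)).2, Y3 v E) ∧
        (sc E (S.D1 * S.G.mx (S.m0 p) E) : ℝ) ≤
          2 ^ ((1 / 20 : ℝ) * S.r))) ≤
      δ * (hf.toFinset.card : ℝ) ^ 2 * (S.Om.card : ℝ) := by
    apply cnt_E
    intro E' _ p hp
    exact h6 p hp
  have c8 : cnt hf.toFinset S.Om (fun _ E' p => ∃ (i : Fin S.r) (I : Finset (Fin S.r)), i ∉ I ∧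
      ((S.Ls E' (S.Kp p I) p i).card : ℝ) < Real.exp (r1 * S.r)) ≤
      δ * (hf.toFinset.card : ℝ) ^ 2 * (S.Om.card : ℝ) := by
    apply cnt_p
    intro E _ E' _
    exact h7 E'
  have c9 : cnt hf.toFinset S.Om (fun E E' p => (∀ (i : Fin S.r) (I : Finset (Fin S.r)), i ∉ I →
        Real.exp (r1 * S.r) ≤ ((S.Ls E' (S.Kp p I) p i).card : ℝ)) ∧
      ¬ S.Nal η κ E E' p) ≤
      δ * (hf.toFinset.card : ℝ) ^ 2 * (S.Om.card : ℝ) := by
    apply cnt_E
    intro E' _ p hp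
    by_cases hT : ∀ (i : Fin S.r) (I : Finset (Fin S.r)), i ∉ I →
        Real.exp (r1 * S.r) ≤ ((S.Ls E' (S.Kp p I) p i).card : ℝ)
    · exact (fc_mono (fun x _ hh => hh.2)).trans (h8 p hp E' hT)
    · rw [fc_nil (fun x _ hh => hT hh.1)]
      positivity
  refine (cnt_mono (Q := fun E E' p =>
    (∃ i, ty (p i) E = 3) ∨ (∃ i, ¬ Tok κ (S.L i) E) ∨ (∃ i, ¬ Tok κ (S.L i) E') ∨
    ((∀ i, Tok κ (S.L i) E') ∧ ∃ i, ¬ Tok κ ((S.L i).filter (fun q => ty q E' = 1)) E) ∨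
    ((∀ i, Tok κ (S.L i) E) ∧
      ¬ (48 * S.r ≤ 100 * (S.Ux E p).card ∧ 100 * (S.Jx E p).card ≤ 17 * S.r)) ∨
    (((∀ i, Tok κ (S.L i) E') ∧ (∀ i, Tok κ ((S.L i).filter (fun q => ty q E' = 1)) E)) ∧
      ¬ ∀ k, lo ≤ k → k < lo + n → ∃ i ∈ S.bk n k, S.al E E' p i) ∨
    (¬ ((∀ v ∈ (S.m0 p (jx (S.m0 p) E)).2, Y3 v E) ∧
        (sc E (S.D1 * S.G.mx (S.m0 p) E) : ℝ) ≤
          2 ^ ((1 / 20 : ℝ) * S.r))) ∨
    (∃ (i : Fin S.r) (I : Finset (Fin S.r)), i ∉ I ∧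
      ((S.Ls E' (S.Kp p I) p i).card : ℝ) < Real.exp (r1 * S.r)) ∨
    ((∀ (i : Fin S.r) (I : Finset (Fin S.r)), i ∉ I →
        Real.exp (r1 * S.r) ≤ ((S.Ls E' (S.Kp p I) p i).card : ℝ)) ∧
      ¬ S.Nal η κ E E' p)) ?_).trans ?_
  · intro E _ E' _ p _ hG
    by_contra hcon
    simp only [not_or] at hcon
    obtain ⟨g1, g2, g3, g4, g5, g6, g7, g8, g9⟩ := hcon
    have t1 : ∀ i, Tok κ (S.L i) E := by
      intro i; by_contra h; exact g2 ⟨i, h⟩
    have t2 : ∀ i, Tok κ (S.L i) E' := by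
      intro i; by_contra h; exact g3 ⟨i, h⟩
    have t3 : ∀ i, Tok κ ((S.L i).filter (fun q => ty q E' = 1)) E := by
      intro i; by_contra h; exact g4 ⟨t2, i, h⟩
    have t4 : ∀ (i : Fin S.r) (I : Finset (Fin S.r)), i ∉ I →
        Real.exp (r1 * S.r) ≤ ((S.Ls E' (S.Kp p I) p i).card : ℝ) := by
      intro i I hi; by_contra h; exact g8 ⟨i, I, hi, lt_of_not_ge h⟩
    have t5 := not_not.1 (fun h => g5 ⟨t1, h⟩)
    have t6 := not_not.1 (fun h => g6 ⟨⟨t2, t3⟩, h⟩)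
    have t7 := not_not.1 g7
    have t9 := not_not.1 (fun h => g9 ⟨t4, h⟩)
    exact hG ⟨fun i hi => g1 ⟨i, hi⟩, t5.1, t5.2, t7.1, t7.2, t6, t9⟩
  · refine (cnt_or _ _).trans ?_
    refine (add_le_add c1 ((cnt_or _ _).trans (add_le_add c2 ((cnt_or _ _).trans (add_le_add c3
      ((cnt_or _ _).trans (add_le_add c4 ((cnt_or _ _).trans (add_le_add c5
      ((cnt_or _ _).trans (add_le_add c6 ((cnt_or _ _).trans (add_le_add c7
      ((cnt_or _ _).trans (add_le_add c8 c9))))))))))))))).trans ?_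
    apply le_of_eq
    ring

end BDMM

theorem specBDM (hBAB : SpecBAB) (hTYE : SpecTYE) (hTYP : SpecTYP) (hBLB : SpecBLB)
    (hBSB : SpecBSB) (hSML : SpecSML) (hNDB : SpecNDB) (hEQZ : SpecEQZ) : SpecBDM := by
  intro F _ _ G n η κ ε hn hη hκ hκ1 hε
  have hδ : 0 < ε / 18 := by positivity
  obtain ⟨ra, ha⟩ := hBAB F (ε / 18) hδ
  obtain ⟨rb, hb⟩ := hTYE F κ (ε / 18) hκ hκ1 hδ
  obtain ⟨rc, hc⟩ := hTYP (ε / 18) hδ
  obtain ⟨rd, hd⟩ := hBLB n (ε / 18) hn hδ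
  obtain ⟨re, he⟩ := hBSB F G (ε / 18) hδ
  obtain ⟨r1, rf, hf⟩ := hNDB F G η κ (ε / 18) hη hκ hδ
  obtain ⟨rg, hg⟩ := hSML r1 (ε / 18) hδ
  refine ⟨ra + rb + rc + rd + re + rf + rg, ?_⟩
  intro S hSG hS
  have Ba := BDMM.big_mono hS (show ra ≤ _ by omega)
  have Bb := BDMM.big_mono hS (show rb ≤ _ by omega)
  have Bc := BDMM.big_mono hS (show rc ≤ _ by omega)
  have Bd := BDMM.big_mono hS (show rd ≤ _ by omega)
  have Be := BDMM.big_mono hS (show re ≤ _ by omega)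
  have Bf := BDMM.big_mono hS (show rf ≤ _ by omega)
  have Bg := BDMM.big_mono hS (show rg ≤ _ by omega)
  obtain ⟨Xa, ha⟩ := ha S Ba
  obtain ⟨Xb, hb⟩ := hb S Bb
  obtain ⟨Xe, he⟩ := he S hSG Be
  obtain ⟨Xf, hf⟩ := hf S hSG Bf
  refine ⟨max (max Xa Xb) (max Xe Xf), ?_⟩
  intro ρ hρ
  have hXa : ∀ v, Xa ≤ ρ v := fun v => le_trans (le_trans (le_max_left _ _) (le_max_left _ _)) (hρ v)
  have hXb : ∀ v, Xb ≤ ρ v := fun v => le_trans (le_trans (le_max_right _ _) (le_max_left _ _)) (hρ v)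
  have hXe : ∀ v, Xe ≤ ρ v := fun v => le_trans (le_trans (le_max_left _ _) (le_max_right _ _)) (hρ v)
  have hXf : ∀ v, Xf ≤ ρ v := fun v => le_trans (le_trans (le_max_right _ _) (le_max_right _ _)) (hρ v)
  have hfin := (hEQZ F).1 ρ
  have key : ∀ lo ≤ n, BDMM.cnt hfin.toFinset S.Om (fun E E' p => ¬ S.Gh n η κ lo E E' p) ≤
      9 * (ε / 18 * (hfin.toFinset.card : ℝ) ^ 2 * (S.Om.card : ℝ)) := by
    intro lo hlo
    exact BDMM.one S n η κ (ε / 18) lo hlo ρ hfin r1 (ha ρ hXa) (hb ρ hXb).1 (hb ρ hXb).2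
      (fun E hT => hc F S κ E Bc hκ hκ1 hT)
      (fun E E' hT hT' => hd F S κ E E' lo Bd hκ hκ1 hlo hT hT')
      (he ρ hXe) (fun E' => hg F S E' Bg) (hf ρ hXf) hδ.le
  have k0 := key 0 (Nat.zero_le _)
  have k1 := key n le_rfl
  rw [← BDMM.cnt_swap] at k1
  have hN : ((Bx F ρ).ncard : ℝ) = (hfin.toFinset.card : ℝ) := by
    rw [Set.ncard_eq_toFinset_card _ hfin]
  have hT : (({t : (𝓞 F × 𝓞 F) × (𝓞 F × 𝓞 F) × (Fin S.r → Pl F) | t.1 ∈ Bx F ρ ∧ t.2.1 ∈ Bx F ρ ∧ t.2.2 ∈ S.Om ∧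
        ¬ (S.Gh n η κ 0 t.1 t.2.1 t.2.2 ∧ S.Gh n η κ n t.2.1 t.1 t.2.2)}.ncard : ℕ) : ℝ) =
      BDMM.cnt hfin.toFinset S.Om
        (fun E E' p => ¬ (S.Gh n η κ 0 E E' p ∧ S.Gh n η κ n E' E p)) := by
    have e1 : {t : (𝓞 F × 𝓞 F) × (𝓞 F × 𝓞 F) × (Fin S.r → Pl F) | t.1 ∈ Bx F ρ ∧ t.2.1 ∈ Bx F ρ ∧
        t.2.2 ∈ S.Om ∧ ¬ (S.Gh n η κ 0 t.1 t.2.1 t.2.2 ∧ S.Gh n η κ n t.2.1 t.1 t.2.2)} =
        (((hfin.toFinset ×ˢ (hfin.toFinset ×ˢ S.Om)).filter (fun t =>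
          ¬ (S.Gh n η κ 0 t.1 t.2.1 t.2.2 ∧ S.Gh n η κ n t.2.1 t.1 t.2.2)) :
            Finset ((𝓞 F × 𝓞 F) × (𝓞 F × 𝓞 F) × (Fin S.r → Pl F))) : Set _) := by
      ext t
      simp only [Set.mem_ofPred_eq, Finset.coe_filter, Finset.mem_product,
        Set.Finite.mem_toFinset]
      tauto
    rw [e1, Set.ncard_coe_finset, BDMM.fc_eq, BDMM.fc_sum, Finset.sum_product]
    unfold BDMM.cnt
    refine Finset.sum_congr rfl (fun E _ => ?_)
    rw [Finset.sum_product]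
    refine Finset.sum_congr rfl (fun E' _ => ?_)
    rw [BDMM.fc_sum]
  rw [hT, hN]
  refine (BDMM.cnt_mono (Q := fun E E' p => (¬ S.Gh n η κ 0 E E' p) ∨
    (¬ S.Gh n η κ n E' E p)) ?_).trans ((BDMM.cnt_or _ _).trans ((add_le_add k0 k1).trans ?_))
  · intro E _ E' _ p _ h
    by_contra hcon
    rw [not_or, not_not, not_not] at hcon
    exact h hcon
  · apply le_of_eq
    ring

end Pool.Agent.Lib.MP_8cb858_nt.PU
end

section
/-! Module BLB: blocks without mixing index. -/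
set_option autoImplicit false

namespace Pool.Agent.Lib.MP_8cb858_nt.PU

open Polynomial NumberField IsDedekindDomain Pool.Agent.Lib.MP_8cb858_nt.SEL
open Pool.Agent.Lib.MP_8cb858_nt.PF
open scoped Classical WithZero

namespace BLBM

theorem six_out {F : Type} [Field F] [NumberField F] (S : Dat F) (hS : S.Ok) {i : Fin S.r}
    {q : Pl F} (hq : q ∈ S.L i) : (6 : 𝓞 F) ∉ q.asIdeal :=
  (S.G.six q (fun h => hS.lpr i q hq (hS.gs h))).1

theorem y3_not_y12 (hTYZ : SpecTYZ) {F : Type} [Field F] [NumberField F] {v : Pl F}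
    {E : 𝓞 F × 𝓞 F} (h6 : (6 : 𝓞 F) ∉ v.asIdeal) (h3 : Y3 v E) : ¬ Y12 v E := by
  intro h
  exact (hTYZ.x3 F v h6 _ ((hTYZ.e3 F v E).1 h3)).1 ((hTYZ.e12 F v E).1 h)

theorem card_sub (hTYZ : SpecTYZ) {F : Type} [Field F] [NumberField F] (S : Dat F) (hS : S.Ok)
    (i : Fin S.r) (E' : 𝓞 F × 𝓞 F) {κ : ℝ} (h : Tok κ (S.L i) E') :
    (1 / 3 - κ) * ((S.L i).card : ℝ) ≤
      (((S.L i).filter (fun q => ty q E' = 1)).card : ℝ) := by
  have h1 : (S.L i).filter (fun q => ty q E' = 1) = (S.L i).filter (fun q => Y3 q E') := by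
    apply Finset.filter_congr
    intro q hq
    exact hTYZ.t1 F q E' (six_out S hS hq)
  rw [h1]
  have h2 := (abs_le.1 h.t3).1
  linarith

/-- the proportion of mixing primes -/
theorem prop_mix (hTYZ : SpecTYZ) {F : Type} [Field F] [NumberField F] (S : Dat F) (hS : S.Ok)
    (i : Fin S.r) (E E' : 𝓞 F × 𝓞 F) {κ : ℝ}
    (hκ1 : κ ≤ 1 / 1000) (h : Tok κ (S.L i) E')
    (h2 : Tok κ ((S.L i).filter (fun q => ty q E' = 1)) E) :
    (((S.L i).filter (fun q => ¬ (ty q E ≤ 1 ∧ ty q E' = 1))).card : ℝ) ≤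
      4 / 5 * ((S.L i).card : ℝ) := by
  have h3 := card_sub hTYZ S hS i E' h
  have hn : (0 : ℝ) ≤ ((S.L i).card : ℝ) := Nat.cast_nonneg _
  set W := (S.L i).filter (fun q => ty q E' = 1) with hW
  have hWn : (0 : ℝ) ≤ (W.card : ℝ) := Nat.cast_nonneg _
  have h4 := (abs_le.1 h2.t12).1
  have h5 := (abs_le.1 h2.t3).1
  have hdis : Disjoint (W.filter (fun q => Y12 q E)) (W.filter (fun q => Y3 q E)) := by
    rw [Finset.disjoint_left]
    intro q hq hq'
    have hqL : q ∈ S.L i := Finset.filter_subset _ _ (Finset.mem_filter.1 hq).1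
    exact y3_not_y12 hTYZ (six_out S hS hqL)
      (Finset.mem_filter.1 hq').2 (Finset.mem_filter.1 hq).2
  have hsub : W.filter (fun q => Y12 q E) ∪ W.filter (fun q => Y3 q E) ⊆
      (S.L i).filter (fun q => ty q E ≤ 1 ∧ ty q E' = 1) := by
    intro q hq
    rcases Finset.mem_union.1 hq with hq | hq
    · have hq1 := (Finset.mem_filter.1 hq).1
      have hq2 := Finset.mem_filter.1 hq1
      refine Finset.mem_filter.2 ⟨hq2.1, ?_, hq2.2⟩
      rw [(hTYZ.t0 F q E).2 (Finset.mem_filter.1 hq).2]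
      exact Nat.zero_le _
    · have hq1 := (Finset.mem_filter.1 hq).1
      have hq2 := Finset.mem_filter.1 hq1
      refine Finset.mem_filter.2 ⟨hq2.1, ?_, hq2.2⟩
      rw [(hTYZ.t1 F q E (six_out S hS hq2.1)).2 (Finset.mem_filter.1 hq).2]
  have h6 : ((W.filter (fun q => Y12 q E)).card : ℝ) +
      ((W.filter (fun q => Y3 q E)).card : ℝ) ≤
      (((S.L i).filter (fun q => ty q E ≤ 1 ∧ ty q E' = 1)).card : ℝ) := by
    have h7 := Finset.card_le_card hsub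
    rw [Finset.card_union_of_disjoint hdis] at h7
    exact_mod_cast h7
  have h8 := Finset.card_filter_add_card_filter_not (s := S.L i)
    (fun q => ty q E ≤ 1 ∧ ty q E' = 1)
  have h9 : (((S.L i).filter (fun q => ty q E ≤ 1 ∧ ty q E' = 1)).card : ℝ) +
      (((S.L i).filter (fun q => ¬ (ty q E ≤ 1 ∧ ty q E' = 1))).card : ℝ) =
      ((S.L i).card : ℝ) := by
    exact_mod_cast h8
  have h10 : (1 / 3 - 1 / 1000) * ((S.L i).card : ℝ) ≤ (W.card : ℝ) := by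
    have h11 : (1 / 3 - 1 / 1000) * ((S.L i).card : ℝ) ≤ (1 / 3 - κ) * ((S.L i).card : ℝ) :=
      mul_le_mul_of_nonneg_right (by linarith) hn
    linarith
  have h11 : κ * (W.card : ℝ) ≤ 1 / 1000 * (W.card : ℝ) := mul_le_mul_of_nonneg_right hκ1 hWn
  linarith

theorem exists_large (n : ℕ) (hn : 0 < n) (ε : ℝ) (hε : 0 < ε) : ∃ m : ℕ,
    (n : ℝ) * (4 / 5) ^ m ≤ ε := by
  have hn' : (0 : ℝ) < n := by exact_mod_cast hn
  obtain ⟨m, hm⟩ := exists_pow_lt_of_lt_one (show (0 : ℝ) < ε / n by positivity)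
    (show (4 / 5 : ℝ) < 1 by norm_num)
  refine ⟨m, ?_⟩
  rw [lt_div_iff₀ hn'] at hm
  linarith

end BLBM

/-- **BLB.** -/
theorem specBLB (hBLK : SpecBLK) (hEQR : SpecEQR) (hTYZ : SpecTYZ) : SpecBLB := by
  intro n ε hn hε
  obtain ⟨m, hm⟩ := BLBM.exists_large n hn ε hε
  refine ⟨2 * n * (m + 1), fun F _ _ S κ E E' lo hB hκ hκ1 hlo hE' hE => ?_⟩
  have hS := hB.ok
  have hr := hB.r
  have h2n : 2 * n ≤ S.r := by
    have h1 : 2 * n * 1 ≤ 2 * n * (m + 1) := Nat.mul_le_mul_left _ (by omega)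
    omega
  have hdiv : m ≤ S.r / (2 * n) := by
    rw [Nat.le_div_iff_mul_le (by omega)]
    have h1 : 2 * n * (m + 1) = m * (2 * n) + 2 * n := by ring
    omega
  have hone : ∀ k ∈ Finset.Ico lo (lo + n),
      ((S.Om.filter (fun p => ∀ i ∈ S.bk n k, ¬ S.al E E' p i)).card : ℝ) ≤
        (4 / 5) ^ m * (S.Om.card : ℝ) := by
    intro k hk
    rw [Finset.mem_Ico] at hk
    have h1 := hBLK (Pl F) S.r S.L (fun _ q => ty q E ≤ 1 ∧ ty q E' = 1) (S.bk n k) (4 / 5)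
      (by norm_num) (fun i _ => by
        refine le_trans (le_of_eq ?_) (BLBM.prop_mix hTYZ S hS i E E' hκ1 (hE' i) (hE i))
        refine congrArg (fun s : Finset (Pl F) => (s.card : ℝ)) ?_
        ext q
        simp only [Finset.mem_filter])
    have h2 := hEQR.bkc S n k hn h2n (by omega)
    have h3 : ((4 / 5 : ℝ)) ^ (S.bk n k).card ≤ (4 / 5) ^ m :=
      pow_le_pow_of_le_one (by norm_num) (by norm_num) (le_trans hdiv h2)
    exact le_trans h1 (mul_le_mul_of_nonneg_right h3 (Nat.cast_nonneg _))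
  have hsub : S.Om.filter (fun p => ¬ ∀ k, lo ≤ k → k < lo + n → ∃ i ∈ S.bk n k, S.al E E' p i) ⊆
      (Finset.Ico lo (lo + n)).biUnion
        (fun k => S.Om.filter (fun p => ∀ i ∈ S.bk n k, ¬ S.al E E' p i)) := by
    intro p hp
    rw [Finset.mem_filter] at hp
    obtain ⟨hp1, hp2⟩ := hp
    push Not at hp2
    obtain ⟨k, hk1, hk2, hk3⟩ := hp2
    rw [Finset.mem_biUnion]
    exact ⟨k, Finset.mem_Ico.2 ⟨hk1, hk2⟩, Finset.mem_filter.2 ⟨hp1, hk3⟩⟩
  have h4 := le_trans (Finset.card_le_card hsub) Finset.card_biUnion_le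
  have h5 : ((S.Om.filter
      (fun p => ¬ ∀ k, lo ≤ k → k < lo + n → ∃ i ∈ S.bk n k, S.al E E' p i)).card : ℝ) ≤
      ∑ k ∈ Finset.Ico lo (lo + n),
        ((S.Om.filter (fun p => ∀ i ∈ S.bk n k, ¬ S.al E E' p i)).card : ℝ) := by
    exact_mod_cast h4
  have h6 := Finset.sum_le_sum hone
  rw [Finset.sum_const, Nat.card_Ico, nsmul_eq_mul] at h6
  have h7 : (((lo + n - lo : ℕ)) : ℝ) = n := by
    congr 1
    omega
  rw [h7] at h6
  have h8 : (n : ℝ) * ((4 / 5) ^ m * (S.Om.card : ℝ)) ≤ ε * (S.Om.card : ℝ) := by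
    rw [← mul_assoc]
    exact mul_le_mul_of_nonneg_right hm (Nat.cast_nonneg _)
  linarith

end Pool.Agent.Lib.MP_8cb858_nt.PU
end

section
/-! Module BSB: the base bound fails (fixed `p`), over `F`. -/
set_option autoImplicit false

namespace Pool.Agent.Lib.MP_8cb858_nt.PU

open Polynomial NumberField IsDedekindDomain Pool.Agent.Lib.MP_8cb858_nt.SEL
open Pool.Agent.Lib.MP_8cb858_nt.PF
open scoped Classical WithZero

namespace BSBM

/-- finitely many thresholds -/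
theorem unif {F : Type} [Field F] [NumberField F] {α : Type} (s : Finset α)
    (P : α → (InfinitePlace F → ℝ) → Prop)
    (h : ∀ a ∈ s, ∃ R0 : ℝ, ∀ ρ : InfinitePlace F → ℝ, (∀ v, R0 ≤ ρ v) → P a ρ) :
    ∃ R0 : ℝ, ∀ ρ : InfinitePlace F → ℝ, (∀ v, R0 ≤ ρ v) → ∀ a ∈ s, P a ρ := by
  induction s using Finset.induction_on with
  | empty => exact ⟨0, fun X _ a ha => absurd ha (Finset.notMem_empty a)⟩
  | insert b t hb ih =>
    obtain ⟨X1, h1⟩ := ih fun a ha => h a (Finset.mem_insert_of_mem ha)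
    obtain ⟨X2, h2⟩ := h b (Finset.mem_insert_self b t)
    refine ⟨max X1 X2, fun X hX a ha => ?_⟩
    rcases Finset.mem_insert.1 ha with rfl | ha
    · exact h2 X fun v => le_trans (le_max_right _ _) (hX v)
    · exact h1 X (fun v => le_trans (le_max_left _ _) (hX v)) a ha

end BSBM

/-- **BSB.** -/
theorem specBSB (hBAS : SpecBAS) (hAUV : SpecAUV) (hVAP : SpecVAP) (hEQZ : SpecEQZ) : SpecBSB := by
  intro F _ _ G ε hε
  obtain ⟨r1, h1⟩ := hBAS F G (1 / 20) ε (by norm_num) hε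
  refine ⟨3 * r1, fun S hG hB => ?_⟩
  subst hG
  have hS := hB.ok
  refine BSBM.unif S.Om _ fun p hp => ?_
  have hK : S.Kp p ∅ = S.M0 := by
    unfold Dat.Kp
    rw [Finset.image_empty, Finset.union_empty]
  obtain ⟨hd, ha⟩ := hAUV F S p ∅ Finset.univ hS hp (Finset.disjoint_empty_left _)
  rw [hK] at hd ha
  have hcop := hVAP.cop S p ∅ Finset.univ hS hp (Finset.disjoint_empty_left _)
  rw [hK] at hcop
  have hne := (hVAP.ne S p Finset.univ hS hp).2.1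
  have e1 : r1 * S.A1.card ≤ S.r := by
    have := hB.d1
    nlinarith [Nat.zero_le (r1 * S.A1.card)]
  have e2 : r1 * (S.c0 + 2 * S.M0.card) ≤ S.r := by
    have h2 := hB.c0
    have h3 := hB.m0
    nlinarith [Nat.zero_le (r1 * S.c0), Nat.zero_le (r1 * S.M0.card)]
  have e3 : r1 ≤ S.r := by
    have := hB.r
    omega
  obtain ⟨X0, h2⟩ := h1 S.r (S.c0 + 2 * S.M0.card) S.u1 S.A1 (S.m0 p) e3 hS.u1 e1 e2
    (fun v hv => (hS.a1 v hv).2)
    { dis := hd
      u := fun j => (ha j).1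
      card := fun j => (ha j).2.1
      out := fun j v hv => by
        have h3 := (ha j).2.2.1 v hv
        refine ⟨fun h4 => h3.1 (hS.gs h4), ?_, fun h4 => h3.1 (hS.a1 v h4).1⟩
        have h5 := hB.aux S.M0 (S.pp p Finset.univ : F) subset_rfl hne
          (fun w hw hw' => hcop w hw hw') j v hv
        omega }
  refine ⟨X0, fun X hX => le_trans ?_ (h2 X hX)⟩
  refine Nat.cast_le.2 (Set.ncard_le_ncard ?_ (((hEQZ F).1 X).subset (Set.sep_subset _ _)))
  rintro E ⟨hE, hn⟩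
  refine ⟨hE, fun h => hn ⟨?_, h.2⟩⟩
  exact h.1.2

end Pool.Agent.Lib.MP_8cb858_nt.PU
end

section
/-!
# Module CNF: the number of sets of places outside `S` of norm at most `Y` is at least `c Y`
-/
namespace Pool.Agent.Lib.MP_8cb858_nt.PU

open Polynomial NumberField IsDedekindDomain Filter Pool.Agent.Lib.MP_8cb858_nt.SEL
open Pool.Agent.Lib.MP_8cb858_nt.PF
open scoped Classical WithZero Topology

namespace CNFM

variable {F : Type} [Field F] [NumberField F]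

theorem norm_pos {I : Ideal (𝓞 F)} (h : I ≠ ⊥) : 0 < Ideal.absNorm I :=
  Nat.pos_of_ne_zero fun h0 => h (Ideal.absNorm_eq_zero_iff.1 h0)

/-- (1) every nonzero ideal is a square times a squarefree ideal -/
theorem sq_mul (I : Ideal (𝓞 F)) : I ≠ ⊥ → ∃ (J : Ideal (𝓞 F)) (A : Finset (Pl F)),
    J ≠ ⊥ ∧ I = J ^ 2 * ∏ v ∈ A, v.asIdeal := by
  refine UniqueFactorizationMonoid.induction_on_prime (P := fun I : Ideal (𝓞 F) => I ≠ ⊥ →
    ∃ (J : Ideal (𝓞 F)) (A : Finset (Pl F)), J ≠ ⊥ ∧ I = J ^ 2 * ∏ v ∈ A, v.asIdeal) I ?_ ?_ ?_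
  · intro h
    exact absurd rfl h
  · intro x hx _
    refine ⟨1, ∅, one_ne_zero, ?_⟩
    rw [Finset.prod_empty, mul_one, one_pow]
    exact (Ideal.isUnit_iff.1 hx).trans Ideal.one_eq_top.symm
  · intro a p ha hp ih _
    obtain ⟨J, A, hJ, hA⟩ := ih ha
    have hp0 : p ≠ ⊥ := hp.ne_zero
    let v : Pl F := ⟨p, Ideal.isPrime_of_prime hp, hp0⟩
    by_cases hv : v ∈ A
    · refine ⟨J * p, A.erase v, mul_ne_zero hJ hp0, ?_⟩
      rw [hA, ← Finset.mul_prod_erase A _ hv]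
      change p * (J ^ 2 * (p * _)) = _
      ring
    · refine ⟨J, insert v A, hJ, ?_⟩
      rw [hA, Finset.prod_insert hv]
      change p * (J ^ 2 * _) = J ^ 2 * (p * _)
      ring

theorem norm_sq_mul (hI : SpecIDA) (J : Ideal (𝓞 F)) (A : Finset (Pl F)) :
    Ideal.absNorm (J ^ 2 * ∏ v ∈ A, v.asIdeal) = (Ideal.absNorm J) ^ 2 * NA A := by
  rw [map_mul, map_pow, (hI.sqf F A).2.1]

theorem NA_pos (hI : SpecIDA) (A : Finset (Pl F)) : 1 ≤ NA A := (hI.sqf F A).2.2.1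

/-- (2) all sets against sets outside `S` -/
theorem split_S (hI : SpecIDA) (hW : SpecWSU) (S : Finset (Pl F)) (x : ℝ) :
    (WS (∅ : Finset (Pl F)) x).ncard ≤ 2 ^ S.card * (WS S x).ncard := by
  have hf := hW.fin F S x
  have h1 : (WS (∅ : Finset (Pl F)) x).ncard ≤
      ((S.powerset : Set (Finset (Pl F))) ×ˢ WS S x).ncard := by
    refine Set.ncard_le_ncard_of_injOn (fun A => (A ∩ S, A \ S)) ?_ ?_
      ((Finset.finite_toSet _).prod hf)
    · intro A hA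
      refine ⟨?_, ?_, ?_⟩
      · simp
      · intro v hv
        exact (Finset.mem_sdiff.1 hv).2
      · have h2 : NA (A \ S) ≤ NA A := by
          have h3 : NA (A \ S) * NA (A ∩ S) = NA A := by
            unfold NA
            rw [← Finset.prod_union (by
              rw [Finset.disjoint_left]
              intro v hv hv'
              exact (Finset.mem_sdiff.1 hv).2 (Finset.mem_inter.1 hv').2),
              Finset.sdiff_union_inter]
          have h4 := NA_pos hI (A ∩ S)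
          rw [← h3]
          exact Nat.le_mul_of_pos_right _ h4
        refine le_trans ?_ hA.2
        exact_mod_cast h2
    · intro A _ A' _ h
      simp only [Prod.mk.injEq] at h
      rw [← Finset.sdiff_union_inter A S, ← Finset.sdiff_union_inter A' S, h.1, h.2]
  rw [Set.ncard_prod, Set.ncard_coe_finset, Finset.card_powerset] at h1
  exact h1

theorem WS_mono {S : Finset (Pl F)} {x y : ℝ} (h : x ≤ y) : WS S x ⊆ WS S y :=
  fun _ hA => ⟨hA.1, hA.2.trans h⟩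

/-- (3) the tail of `∑ 1 / (N J)^2` -/
theorem tail (hI : SpecIDA) {C : ℝ} (hC : 1 ≤ C) (hu : ∀ x : ℝ, 0 ≤ x → IC F x ≤ C * x)
    (B : ℕ) (hB : 1 ≤ B) (T : Finset (Ideal (𝓞 F)))
    (hT : ∀ J ∈ T, J ≠ ⊥ ∧ B < Ideal.absNorm J) :
    ∑ J ∈ T, 1 / ((Ideal.absNorm J : ℝ)) ^ 2 ≤ 4 * C / B := by
  have hB' : (0 : ℝ) < B := by exact_mod_cast hB
  let k : Ideal (𝓞 F) → ℕ := fun J => Nat.log 2 (Ideal.absNorm J / B)
  have hk : ∀ J ∈ T, 2 ^ k J * B ≤ Ideal.absNorm J ∧ Ideal.absNorm J < 2 ^ (k J + 1) * B := by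
    intro J hJ
    have h1 := (hT J hJ).2
    have h2 : Ideal.absNorm J / B ≠ 0 := by
      have := Nat.div_pos h1.le (by omega : 0 < B)
      omega
    have h3 := Nat.pow_log_le_self 2 h2
    have h4 := Nat.lt_pow_succ_log_self (b := 2) (by norm_num) (Ideal.absNorm J / B)
    refine ⟨?_, ?_⟩
    · exact (Nat.le_div_iff_mul_le (by omega)).1 h3
    · exact (Nat.div_lt_iff_lt_mul (by omega)).1 h4
  have hcard : ∀ j : ℕ, ((T.filter fun J => k J = j).card : ℝ) ≤ C * (2 ^ (j + 1) * B) := by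
    intro j
    refine le_trans ?_ (hu (2 ^ (j + 1) * B) (by positivity))
    unfold IC
    rw [← Set.ncard_coe_finset]
    have := Set.ncard_le_ncard (s := ((T.filter fun J => k J = j : Finset (Ideal (𝓞 F))) :
      Set (Ideal (𝓞 F)))) (t := {I : Ideal (𝓞 F) | I ≠ ⊥ ∧
        (Ideal.absNorm I : ℝ) ≤ (2 ^ (j + 1) * B : ℝ)}) (by
      intro J hJ
      simp only [Finset.coe_filter, Set.mem_ofPred_eq] at hJ
      refine ⟨(hT J hJ.1).1, ?_⟩
      have h1 := (hk J hJ.1).2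
      rw [hJ.2] at h1
      exact_mod_cast h1.le) (hI.fin F _)
    exact_mod_cast this
  have hsum : ∑ J ∈ T, 1 / ((Ideal.absNorm J : ℝ)) ^ 2 =
      ∑ j ∈ T.image k, ∑ J ∈ T.filter (fun J => k J = j), 1 / ((Ideal.absNorm J : ℝ)) ^ 2 :=
    (Finset.sum_fiberwise_of_maps_to (fun J hJ => Finset.mem_image_of_mem k hJ) _).symm
  rw [hsum]
  have hin : ∀ j ∈ T.image k, ∑ J ∈ T.filter (fun J => k J = j),
      1 / ((Ideal.absNorm J : ℝ)) ^ 2 ≤ 2 * C / B * (1 / 2) ^ j := by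
    intro j _
    have h1 : ∀ J ∈ T.filter (fun J => k J = j),
        1 / ((Ideal.absNorm J : ℝ)) ^ 2 ≤ 1 / ((2 : ℝ) ^ j * B) ^ 2 := by
      intro J hJ
      rw [Finset.mem_filter] at hJ
      have h2 := (hk J hJ.1).1
      rw [hJ.2] at h2
      have h3 : (2 : ℝ) ^ j * B ≤ Ideal.absNorm J := by exact_mod_cast h2
      have h4 : (0 : ℝ) < 2 ^ j * B := by positivity
      exact one_div_le_one_div_of_le (by positivity) (pow_le_pow_left₀ h4.le h3 2)
    refine (Finset.sum_le_card_nsmul _ _ _ h1).trans ?_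
    rw [nsmul_eq_mul]
    refine (mul_le_mul_of_nonneg_right (hcard j) (by positivity)).trans (le_of_eq ?_)
    have h5 : (2 : ℝ) ^ j ≠ 0 := by positivity
    rw [one_div_pow]
    field_simp
    ring
  refine (Finset.sum_le_sum hin).trans ?_
  rw [← Finset.mul_sum]
  have hgeo : ∑ j ∈ T.image k, (1 / 2 : ℝ) ^ j ≤ 2 := by
    have h6 := summable_geometric_two.sum_le_tsum (T.image k) (fun j _ => by positivity)
    rwa [tsum_geometric_two] at h6
  calc 2 * C / B * ∑ j ∈ T.image k, (1 / 2 : ℝ) ^ j ≤ 2 * C / B * 2 :=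
        mul_le_mul_of_nonneg_left hgeo (by positivity)
    _ = 4 * C / B := by ring

/-- all ideals from the squares and the squarefree ideals -/
theorem count (hI : SpecIDA) (hW : SpecWSU) (Y : ℝ) (T : Finset (Ideal (𝓞 F)))
    (hT : ∀ J : Ideal (𝓞 F), J ≠ ⊥ → ((Ideal.absNorm J : ℝ)) ^ 2 ≤ Y → J ∈ T) :
    IC F Y ≤ ∑ J ∈ T, ((WS (∅ : Finset (Pl F)) (Y / ((Ideal.absNorm J : ℝ)) ^ 2)).ncard : ℝ) := by
  have hf := fun x => hW.fin F (∅ : Finset (Pl F)) x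
  let U : Finset (Ideal (𝓞 F)) := T.biUnion fun J =>
    ((hf (Y / ((Ideal.absNorm J : ℝ)) ^ 2)).toFinset).image
      fun A => J ^ 2 * ∏ v ∈ A, v.asIdeal
  have hsub : {I : Ideal (𝓞 F) | I ≠ ⊥ ∧ (Ideal.absNorm I : ℝ) ≤ Y} ⊆ (U : Set (Ideal (𝓞 F))) := by
    rintro I ⟨hI0, hIY⟩
    obtain ⟨J, A, hJ, rfl⟩ := sq_mul I hI0
    have hJ1 : (1 : ℝ) ≤ ((Ideal.absNorm J : ℝ)) := by exact_mod_cast norm_pos hJ
    have hN := norm_sq_mul hI J A
    rw [hN] at hIY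
    push_cast at hIY
    have hA1 : (1 : ℝ) ≤ NA A := by exact_mod_cast NA_pos hI A
    have hJ2 : (0 : ℝ) < ((Ideal.absNorm J : ℝ)) ^ 2 := by positivity
    have h1 : ((Ideal.absNorm J : ℝ)) ^ 2 ≤ Y := by
      refine le_trans ?_ hIY
      exact le_mul_of_one_le_right hJ2.le hA1
    simp only [U, Finset.coe_biUnion, Set.mem_iUnion, Finset.coe_image, Set.Finite.coe_toFinset]
    refine ⟨J, hT J hJ h1, A, ⟨fun v _ => Finset.notMem_empty v, ?_⟩, rfl⟩
    rw [le_div_iff₀ hJ2, mul_comm]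
    exact hIY
  have h2 : {I : Ideal (𝓞 F) | I ≠ ⊥ ∧ (Ideal.absNorm I : ℝ) ≤ Y}.ncard ≤ U.card := by
    rw [← Set.ncard_coe_finset]
    exact Set.ncard_le_ncard hsub (Finset.finite_toSet _)
  have h3 : U.card ≤ ∑ J ∈ T, (WS (∅ : Finset (Pl F)) (Y / ((Ideal.absNorm J : ℝ)) ^ 2)).ncard := by
    refine Finset.card_biUnion_le.trans (Finset.sum_le_sum fun J _ => ?_)
    refine Finset.card_image_le.trans (le_of_eq ?_)
    rw [Set.ncard_eq_toFinset_card _ (hf _)]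
  unfold IC
  exact_mod_cast h2.trans h3

end CNFM

open CNFM in
theorem specCNF (hI : SpecIDA) (hW : SpecWSU) : SpecCNF := by
  intro F _ _ S
  obtain ⟨κ, hκ, hasy⟩ := hI.asy F
  obtain ⟨C, hC, hu⟩ := hI.upp F
  obtain ⟨C', hC', hbd⟩ := hW.bd F
  -- the constants
  set q : ℝ := (2 : ℝ) ^ S.card with hq
  have hq0 : 0 < q := by positivity
  obtain ⟨B, hB⟩ := exists_nat_gt (16 * q * C' * C / κ + 1)
  have hB1 : 1 ≤ B := by
    have : (0 : ℝ) < 16 * q * C' * C / κ + 1 := by positivity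
    have h2 : (0 : ℝ) < B := this.trans hB
    exact_mod_cast h2
  have hB0 : (0 : ℝ) < B := by exact_mod_cast hB1
  set K : ℝ := IC F B + 1 with hK
  have hK0 : 0 < K := by
    rw [hK]
    unfold IC
    positivity
  obtain ⟨Y0, hY0⟩ := Filter.eventually_atTop.1
    (hasy.eventually (lt_mem_nhds (show κ / 2 < κ by linarith)))
  refine ⟨κ / (4 * q * K), max Y0 1, by positivity, fun Y hY => ?_⟩
  have hY1 : 1 ≤ Y := (le_max_right _ _).trans hY
  have hYpos : 0 < Y := by linarith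
  have h1 := hY0 Y ((le_max_left _ _).trans hY)
  rw [lt_div_iff₀ hYpos] at h1
  -- the ideals `J`
  have hfin := hI.fin F Y
  set T : Finset (Ideal (𝓞 F)) := hfin.toFinset with hT
  have hTm : ∀ J, J ∈ T ↔ J ≠ ⊥ ∧ (Ideal.absNorm J : ℝ) ≤ Y := by
    intro J
    rw [hT, Set.Finite.mem_toFinset]
    rfl
  have h2 := count hI hW Y T (fun J hJ hJY => by
    rw [hTm]
    refine ⟨hJ, le_trans ?_ hJY⟩
    have hJ1 : (1 : ℝ) ≤ ((Ideal.absNorm J : ℝ)) := by exact_mod_cast norm_pos hJ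
    nlinarith)
  have h3 : ∑ J ∈ T, ((WS (∅ : Finset (Pl F)) (Y / ((Ideal.absNorm J : ℝ)) ^ 2)).ncard : ℝ) ≤
      q * ∑ J ∈ T, ((WS S (Y / ((Ideal.absNorm J : ℝ)) ^ 2)).ncard : ℝ) := by
    rw [Finset.mul_sum]
    refine Finset.sum_le_sum fun J _ => ?_
    have := split_S hI hW S (Y / ((Ideal.absNorm J : ℝ)) ^ 2)
    rw [hq]
    exact_mod_cast this
  -- split at `B`
  have h3' := Finset.sum_filter_add_sum_filter_not T (fun J => Ideal.absNorm J ≤ B)
    (fun J => ((WS S (Y / ((Ideal.absNorm J : ℝ)) ^ 2)).ncard : ℝ))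
  rw [← h3'] at h3
  have h4 : ∑ J ∈ T.filter (fun J => Ideal.absNorm J ≤ B),
      ((WS S (Y / ((Ideal.absNorm J : ℝ)) ^ 2)).ncard : ℝ) ≤ K * ((WS S Y).ncard : ℝ) := by
    have h5 : ∀ J ∈ T.filter (fun J => Ideal.absNorm J ≤ B),
        ((WS S (Y / ((Ideal.absNorm J : ℝ)) ^ 2)).ncard : ℝ) ≤ ((WS S Y).ncard : ℝ) := by
      intro J hJ
      have hJ' := (hTm J).1 (Finset.mem_filter.1 hJ).1
      have hJ1 : (1 : ℝ) ≤ ((Ideal.absNorm J : ℝ)) := by exact_mod_cast norm_pos hJ'.1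
      have h6 : Y / ((Ideal.absNorm J : ℝ)) ^ 2 ≤ Y :=
        div_le_self hYpos.le (one_le_pow₀ hJ1)
      exact_mod_cast Set.ncard_le_ncard (WS_mono h6) (hW.fin F S Y)
    refine (Finset.sum_le_card_nsmul _ _ _ h5).trans ?_
    rw [nsmul_eq_mul]
    refine mul_le_mul_of_nonneg_right ?_ (Nat.cast_nonneg _)
    have h7 : ((T.filter (fun J => Ideal.absNorm J ≤ B)).card : ℝ) ≤ IC F B := by
      unfold IC
      rw [← Set.ncard_coe_finset]
      have := Set.ncard_le_ncard (s := ((T.filter fun J => Ideal.absNorm J ≤ B :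
        Finset (Ideal (𝓞 F))) : Set (Ideal (𝓞 F)))) (t := {I : Ideal (𝓞 F) | I ≠ ⊥ ∧
          (Ideal.absNorm I : ℝ) ≤ (B : ℝ)}) (by
        intro J hJ
        simp only [Finset.coe_filter, Set.mem_ofPred_eq] at hJ
        refine ⟨((hTm J).1 hJ.1).1, ?_⟩
        exact_mod_cast hJ.2) (hI.fin F _)
      exact_mod_cast this
    rw [hK]
    linarith
  have h8 : ∑ J ∈ T.filter (fun J => ¬Ideal.absNorm J ≤ B),
      ((WS S (Y / ((Ideal.absNorm J : ℝ)) ^ 2)).ncard : ℝ) ≤ C' * Y * (4 * C / B) := by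
    have h9 := tail hI hC hu B hB1 (T.filter (fun J => ¬Ideal.absNorm J ≤ B)) (fun J hJ => by
      have hJ' := Finset.mem_filter.1 hJ
      exact ⟨((hTm J).1 hJ'.1).1, not_le.1 hJ'.2⟩)
    refine le_trans ?_ (mul_le_mul_of_nonneg_left h9 (by positivity))
    rw [Finset.mul_sum]
    refine Finset.sum_le_sum fun J _ => ?_
    have h10 := (hbd (Y / ((Ideal.absNorm J : ℝ)) ^ 2) (by positivity)).1 S
    refine h10.trans (le_of_eq ?_)
    ring
  have h11 : κ / 2 * Y ≤ q * (K * ((WS S Y).ncard : ℝ) + C' * Y * (4 * C / B)) := by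
    refine h1.le.trans (h2.trans (h3.trans ?_))
    exact mul_le_mul_of_nonneg_left (add_le_add h4 h8) hq0.le
  have h12 : q * (C' * Y * (4 * C / B)) ≤ κ / 4 * Y := by
    have h13 : 16 * q * C' * C / κ ≤ B := by linarith
    rw [div_le_iff₀ hκ] at h13
    have h14 : q * (C' * Y * (4 * C / B)) = (16 * q * C' * C) * Y / (4 * B) := by
      field_simp
      ring
    rw [h14, div_le_iff₀ (by positivity)]
    nlinarith
  have h15 : κ / 4 * Y ≤ q * K * ((WS S Y).ncard : ℝ) := by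
    rw [mul_add] at h11
    linarith [mul_assoc q K ((WS S Y).ncard : ℝ)]
  rw [div_mul_eq_mul_div, div_le_iff₀ (by positivity)]
  linarith

end Pool.Agent.Lib.MP_8cb858_nt.PU
end

section
/-!
# CNT: counting the places where all classes are trivial, over `F`
-/
namespace Pool.Agent.Lib.MP_8cb858_nt.PU

open Polynomial NumberField IsDedekindDomain Pool.Agent.Lib.MP_8cb858_nt.SEL
open Pool.Agent.Lib.MP_8cb858_nt.PF
open scoped Classical WithZero

namespace CNTM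

variable {G : Type*} [AddCommGroup G]

/-- the sign character of `P q`. -/
noncomputable def chi (P : G → Prop) (z : G) : ℝ := if P z then 1 else -1

lemma chi_add {P : G → Prop} (h : ∀ z w, P (z + w) ↔ (P z ↔ P w)) (z w : G) :
    chi P (z + w) = chi P z * chi P w := by
  unfold chi
  have := h z w
  by_cases h1 : P z
  · by_cases h2 : P w
    · rw [if_pos (this.2 (by simp [h1, h2])), if_pos h1, if_pos h2]; norm_num
    · rw [if_neg (fun hh => h2 ((this.1 hh).1 h1)), if_pos h1, if_neg h2]; norm_num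
  · by_cases h2 : P w
    · rw [if_neg (fun hh => h1 ((this.1 hh).2 h2)), if_neg h1, if_pos h2]; norm_num
    · rw [if_pos (this.2 (by simp [h1, h2])), if_neg h1, if_neg h2]; norm_num

lemma sum_chi [Fintype G] {P : G → Prop} (h : ∀ z w, P (z + w) ↔ (P z ↔ P w)) :
    ∑ z : G, chi P z = if ∀ z, P z then (Fintype.card G : ℝ) else 0 := by
  by_cases hall : ∀ z, P z
  · rw [if_pos hall]
    have : ∀ z ∈ (Finset.univ : Finset G), chi P z = 1 := by
      intro z _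
      unfold chi
      rw [if_pos (hall z)]
    rw [Finset.sum_congr rfl this]
    simp
  · rw [if_neg hall]
    rw [not_forall] at hall
    obtain ⟨w, hw⟩ := hall
    have e1 : ∑ z : G, chi P z = ∑ z : G, chi P (z + w) :=
      (Equiv.sum_comp (Equiv.addRight w) (fun z => chi P z)).symm
    have e2 : ∑ z : G, chi P (z + w) = - ∑ z : G, chi P z := by
      rw [← Finset.sum_neg_distrib]
      refine Finset.sum_congr rfl (fun z _ => ?_)
      rw [chi_add h, show chi P w = -1 from if_neg hw]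
      ring
    linarith

lemma count [Fintype G] {ι : Type*} (T : Finset ι) (P : ι → G → Prop)
    (hP : ∀ q ∈ T, ∀ z w, P q (z + w) ↔ (P q z ↔ P q w)) (η : ℝ) (hη : 0 ≤ η)
    (huni : ∀ z : G, z ≠ 0 →
      |((T.filter (fun q => P q z)).card : ℝ) - (T.card : ℝ) / 2| ≤ η * T.card) :
    |((T.filter (fun q => ∀ z, P q z)).card : ℝ) - (T.card : ℝ) / Fintype.card G| ≤
      2 * η * T.card := by
  have hG : (1 : ℝ) ≤ Fintype.card G := by
    exact_mod_cast Fintype.card_pos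
  have hG0 : (0 : ℝ) < Fintype.card G := by linarith
  have e1 : ∑ q ∈ T, ∑ z : G, chi (P q) z =
      (Fintype.card G : ℝ) * ((T.filter (fun q => ∀ z, P q z)).card : ℝ) := by
    rw [Finset.sum_congr rfl (fun q hq => sum_chi (hP q hq)), ← Finset.sum_filter,
      Finset.sum_const, nsmul_eq_mul]
    ring
  have e2 : ∑ q ∈ T, ∑ z : G, chi (P q) z =
      ∑ z : G, (2 * ((T.filter (fun q => P q z)).card : ℝ) - T.card) := by
    rw [Finset.sum_comm]
    refine Finset.sum_congr rfl (fun z _ => ?_)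
    have : ∀ q ∈ T, chi (P q) z = 2 * (if P q z then (1 : ℝ) else 0) - 1 := by
      intro q _
      unfold chi
      by_cases h : P q z
      · rw [if_pos h, if_pos h]; norm_num
      · rw [if_neg h, if_neg h]; norm_num
    rw [Finset.sum_congr rfl this, Finset.sum_sub_distrib, ← Finset.mul_sum, ← Finset.sum_filter]
    simp
  have e3 : ∑ z : G, (2 * ((T.filter (fun q => P q z)).card : ℝ) - T.card) =
      (T.card : ℝ) + ∑ z ∈ Finset.univ.erase (0 : G),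
        (2 * ((T.filter (fun q => P q z)).card : ℝ) - T.card) := by
    rw [← Finset.add_sum_erase Finset.univ _ (Finset.mem_univ (0 : G))]
    congr 1
    have h0 : T.filter (fun q => P q 0) = T := by
      refine Finset.filter_true_of_mem (fun q hq => ?_)
      have := hP q hq 0 0
      rw [add_zero] at this
      exact this.2 Iff.rfl
    rw [h0]
    ring
  have e4 : |∑ z ∈ Finset.univ.erase (0 : G),
      (2 * ((T.filter (fun q => P q z)).card : ℝ) - T.card)| ≤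
      (Fintype.card G : ℝ) * (2 * η * T.card) := by
    refine (Finset.abs_sum_le_sum_abs _ _).trans ?_
    have h1 : ∀ z ∈ Finset.univ.erase (0 : G),
        |2 * ((T.filter (fun q => P q z)).card : ℝ) - T.card| ≤ 2 * η * T.card := by
      intro z hz
      have h2 := huni z (Finset.ne_of_mem_erase hz)
      have h3 : 2 * ((T.filter (fun q => P q z)).card : ℝ) - T.card =
        2 * (((T.filter (fun q => P q z)).card : ℝ) - (T.card : ℝ) / 2) := by ring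
      rw [h3, abs_mul, abs_two]
      linarith
    refine (Finset.sum_le_sum h1).trans ?_
    rw [Finset.sum_const, nsmul_eq_mul]
    refine mul_le_mul_of_nonneg_right ?_ (by positivity)
    exact_mod_cast (Finset.card_le_card (Finset.erase_subset _ _)).trans (by simp)
  have e5 : ((T.filter (fun q => ∀ z, P q z)).card : ℝ) - (T.card : ℝ) / Fintype.card G =
      (∑ z ∈ Finset.univ.erase (0 : G),
        (2 * ((T.filter (fun q => P q z)).card : ℝ) - T.card)) / Fintype.card G := by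
    rw [e2, e3] at e1
    field_simp
    linarith
  rw [e5, abs_div, abs_of_pos hG0, div_le_iff₀ hG0]
  linarith

end CNTM

theorem specCNT (hTRL : SpecTRL) (hGEN : SpecGEN) : SpecCNT := by
  intro F _ _ G η κ R D0 mm L E s hη hN hdz hD hL hs
  obtain ⟨hfin, -, -⟩ := hGEN.fin F E (D0 * G.mx mm E) hdz hD
  have := Fintype.ofFinite (Sel 2 (cO E.1 E.2 (D0 * G.mx mm E)))
  have h := CNTM.count (G := Sel 2 (cO E.1 E.2 (D0 * G.mx mm E)))
    (L.filter (fun q => Y12 q E)) (fun q z => TrO (D0 * G.mx mm E) q z) ?_ η hη ?_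
  · rw [Finset.filter_filter] at h
    have e : (((L.filter (fun q => Y12 q E)).card : ℝ)) /
        Fintype.card (Sel 2 (cO E.1 E.2 (D0 * G.mx mm E))) =
        (1 / 2) ^ s * (((L.filter (fun q => Y12 q E)).card : ℝ)) := by
      have : Fintype.card (Sel 2 (cO E.1 E.2 (D0 * G.mx mm E))) = 2 ^ s := by
        rw [← hs]
        unfold sc
        rw [Nat.card_eq_fintype_card]
      rw [this]
      push_cast
      rw [one_div, inv_pow]
      ring
    rw [e] at h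
    convert h
  · intro q hq z w
    rw [Finset.mem_filter] at hq
    obtain ⟨h1, h2⟩ := hL q hq.1
    exact hTRL F E.1 E.2 (D0 * G.mx mm E) q hD h1 h2 hq.2 z w
  · intro z hz
    rw [Finset.filter_filter]
    exact hN.uni z hz

end Pool.Agent.Lib.MP_8cb858_nt.PU
end

section
/-!
# CTW: the number of classes of twists
-/
namespace Pool.Agent.Lib.MP_8cb858_nt.PU

open Polynomial NumberField IsDedekindDomain Filter Pool.Agent.Lib.MP_8cb858_nt.SEL
open Pool.Agent.Lib.MP_8cb858_nt.PF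
open scoped Classical WithZero Topology

namespace CTWM

variable {F : Type} [Field F] [NumberField F]

omit [NumberField F] in
theorem mk_eq_iff {D D' : Fˣ} : (QuotientGroup.mk D : SqC F) = QuotientGroup.mk D' ↔
    ∃ y : F, y ≠ 0 ∧ (D : F) = (D' : F) * y ^ 2 := by
  rw [QuotientGroup.eq, MonoidHom.mem_range]
  constructor
  · rintro ⟨t, ht⟩
    refine ⟨((t⁻¹ : Fˣ) : F), (t⁻¹ : Fˣ).ne_zero, ?_⟩
    rw [powMonoidHom_apply] at ht
    have h1 : D = D' * (t⁻¹) ^ 2 := by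
      have : D' = D * t ^ 2 := by rw [ht]; group
      rw [this, inv_pow, mul_assoc, mul_inv_cancel, mul_one]
    conv_lhs => rw [h1]
    push_cast
    rfl
  · rintro ⟨y, hy, h⟩
    refine ⟨(Units.mk0 y hy)⁻¹, ?_⟩
    rw [powMonoidHom_apply]
    have h1 : D = D' * (Units.mk0 y hy) ^ 2 := by
      ext
      push_cast
      rw [h]
      rfl
    rw [h1, mul_inv, inv_pow]
    rw [mul_comm D'⁻¹, mul_assoc, inv_mul_cancel, mul_one]

/-- The class of `x`. -/
noncomputable def kl (x : F) : SqC F := if h : x ≠ 0 then QuotientGroup.mk (Units.mk0 x h) else 1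

omit [NumberField F] in
theorem kl_of {x : F} (h : x ≠ 0) : kl x = QuotientGroup.mk (Units.mk0 x h) := dif_pos h

/-- every class of twist norm `≤ Y` is the class of `tw u A` -/
theorem class_rep (hTNX : SpecTNX) (G : Gs F) (D : Fˣ) :
    ∃ u ∈ G.U, ∃ A : Finset (Pl F), (∀ v ∈ A, v ∉ G.S) ∧ NA A ≤ tn (D : F) ∧
      (G.tw u A : F) ≠ 0 ∧ (QuotientGroup.mk D : SqC F) = kl (G.tw u A : F) := by
  obtain ⟨u, hu, A, hA, hN, y, hy, hx⟩ := hTNX.rep G (D : F) D.ne_zero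
  have h0 : (G.tw u A : F) ≠ 0 := by
    intro h
    rw [h, zero_mul] at hx
    exact D.ne_zero hx
  refine ⟨u, hu, A, hA, hN, h0, ?_⟩
  rw [kl_of h0, mk_eq_iff]
  exact ⟨y, hy, hx⟩

theorem tw_finite (hTNX : SpecTNX) (hWSU : SpecWSU) (G : Gs F) (Y : ℝ) : (Tw F Y).Finite := by
  refine (((G.U.finite_toSet).prod (hWSU.fin F G.S Y)).image
    (fun q : 𝓞 F × Finset (Pl F) => kl (G.tw q.1 q.2 : F))).subset ?_
  rintro c ⟨D, rfl, hD⟩
  obtain ⟨u, hu, A, hA, hN, _, h⟩ := class_rep hTNX G D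
  refine ⟨(u, A), ⟨hu, hA, ?_⟩, h.symm⟩
  exact le_trans (by exact_mod_cast hN) hD

end CTWM

open CTWM

theorem specCTW (hTNX : SpecTNX) (hCNF : SpecCNF) (hWSU : SpecWSU) (hGNX : SpecGNX)
    (hIDA : SpecIDA) : SpecCTW := by
  intro F _ _
  obtain ⟨G⟩ := hGNX F
  refine ⟨fun Y => tw_finite hTNX hWSU G Y, ?_⟩
  obtain ⟨c, Y0, hc, h⟩ := hCNF F G.S
  have hN : (1 : ℝ) ≤ (NA G.S : ℝ) := by exact_mod_cast (hIDA.sqf F G.S).2.2.1
  have hNp : (0 : ℝ) < (NA G.S : ℝ) := by linarith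
  refine ⟨c / NA G.S, Y0 * NA G.S, by positivity, fun Y hY => ?_⟩
  have h1 := h (Y / NA G.S) (by rw [le_div_iff₀ hNp]; exact hY)
  have h2 : c / (NA G.S : ℝ) * Y = c * (Y / NA G.S) := by ring
  rw [h2]
  refine h1.trans (Nat.cast_le.2 ?_)
  refine Set.ncard_le_ncard_of_injOn (fun A => kl (G.tw 1 A : F)) ?_ ?_
    (tw_finite hTNX hWSU G Y)
  · rintro A ⟨hA, hAN⟩
    obtain ⟨hne, hnrm⟩ := hTNX.nrm G A hA
    have h0 : (G.tw 1 A : F) ≠ 0 := by
      intro h0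
      exact hne (by exact_mod_cast h0)
    refine ⟨Units.mk0 _ h0, (kl_of h0).symm, ?_⟩
    have h3 : ((tn (G.tw 1 A : F) : ℕ) : ℝ) ≤ (NA A : ℝ) * (NA G.S : ℝ) := by
      exact_mod_cast hnrm
    refine le_trans h3 ?_
    rw [le_div_iff₀ hNp] at hAN
    exact hAN
  · intro A hA A' hA' he
    obtain ⟨hne, _⟩ := hTNX.nrm G A hA.1
    obtain ⟨hne', _⟩ := hTNX.nrm G A' hA'.1
    have h0 : (G.tw 1 A : F) ≠ 0 := fun h0 => hne (by exact_mod_cast h0)
    have h0' : (G.tw 1 A' : F) ≠ 0 := fun h0 => hne' (by exact_mod_cast h0)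
    have he' : kl (G.tw 1 A : F) = kl (G.tw 1 A' : F) := he
    rw [kl_of h0, kl_of h0', mk_eq_iff] at he'
    obtain ⟨y, hy, hy'⟩ := he'
    exact hTNX.inj G A A' y hA.1 hA'.1 hy hy'

end Pool.Agent.Lib.MP_8cb858_nt.PU
end

section
/-!
# Module EQR: combinatorics of blocks and relations
-/
namespace Pool.Agent.Lib.MP_8cb858_nt.PU

open Polynomial NumberField IsDedekindDomain Pool.Agent.Lib.MP_8cb858_nt.SEL
open Pool.Agent.Lib.MP_8cb858_nt.PF
open scoped Classical WithZero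

namespace EQRM

variable {F : Type} [Field F] [NumberField F] (S : Dat F)

theorem mem_bk {n k : ℕ} {i : Fin S.r} : i ∈ S.bk n k ↔ i.val / (S.r / (2 * n)) = k := by
  simp [Dat.bk]

theorem mem_fs {n : ℕ} {E E' : 𝓞 F × 𝓞 F} {p : Fin S.r → Pl F} {k : ℕ} {i : Fin S.r} :
    i ∈ S.fs n E E' p k ↔ i ∈ S.bk n k ∧ S.al E E' p i ∧
      ∀ j ∈ S.bk n k, j < i → ¬ S.al E E' p j := by
  simp [Dat.fs]

theorem mem_As {n : ℕ} {E E' : 𝓞 F × 𝓞 F} {p : Fin S.r → Pl F} {lo hi : ℕ} {i : Fin S.r} :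
    i ∈ S.As n E E' p lo hi ↔ ∃ k, lo ≤ k ∧ k < hi ∧ i ∈ S.fs n E E' p k := by
  simp [Dat.As, and_assoc]

theorem mem_Ux {E : 𝓞 F × 𝓞 F} {p : Fin S.r → Pl F} {i : Fin S.r} :
    i ∈ S.Ux E p ↔ ty (p i) E = 0 := by
  simp [Dat.Ux]

theorem mem_Jx {E : 𝓞 F × 𝓞 F} {p : Fin S.r → Pl F} {i : Fin S.r} :
    i ∈ S.Jx E p ↔ ty (p i) E = 2 := by
  simp [Dat.Jx]

theorem mem_Uk {n : ℕ} {E E' : 𝓞 F × 𝓞 F} {p : Fin S.r → Pl F} {lo lo' k : ℕ} {i : Fin S.r} :
    i ∈ S.Uk n E E' p lo lo' k ↔ ty (p i) E = 0 ∧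
      (i ∉ S.Ax n E E' p lo lo' ∨ i ∈ S.As n E E' p lo (lo + k)) := by
  simp only [Dat.Uk, Finset.mem_filter, mem_Ux]

theorem fs_uniq {n : ℕ} {E E' : 𝓞 F × 𝓞 F} {p : Fin S.r → Pl F} {k : ℕ} {i j : Fin S.r}
    (hi : i ∈ S.fs n E E' p k) (hj : j ∈ S.fs n E E' p k) : i = j := by
  rw [mem_fs] at hi hj
  rcases lt_trichotomy i j with h | h | h
  · exact absurd hi.2.1 (hj.2.2 i hi.1 h)
  · exact h
  · exact absurd hj.2.1 (hi.2.2 j hj.1 h)

theorem fs_blk {n : ℕ} {E E' A A' : 𝓞 F × 𝓞 F} {p q : Fin S.r → Pl F} {k k' : ℕ} {i : Fin S.r}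
    (hi : i ∈ S.fs n E E' p k) (hj : i ∈ S.fs n A A' q k') : k = k' := by
  rw [mem_fs, mem_bk] at hi hj
  rw [← hi.1, ← hj.1]

/-- `fs` depends only on `al` on the block -/
theorem fs_congr {n : ℕ} {E E' : 𝓞 F × 𝓞 F} {p p' : Fin S.r → Pl F} {k : ℕ}
    (h : ∀ i ∈ S.bk n k, S.al E E' p i ↔ S.al E E' p' i) :
    S.fs n E E' p k = S.fs n E E' p' k := by
  ext i
  rw [mem_fs, mem_fs]
  constructor
  · rintro ⟨h1, h2, h3⟩
    exact ⟨h1, (h i h1).1 h2, fun j hj hji hal => h3 j hj hji ((h j hj).2 hal)⟩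
  · rintro ⟨h1, h2, h3⟩
    exact ⟨h1, (h i h1).2 h2, fun j hj hji hal => h3 j hj hji ((h j hj).1 hal)⟩

theorem As_congr {n : ℕ} {E E' : 𝓞 F × 𝓞 F} {p p' : Fin S.r → Pl F} {lo hi : ℕ}
    (h : ∀ k, lo ≤ k → k < hi → S.fs n E E' p k = S.fs n E E' p' k) :
    S.As n E E' p lo hi = S.As n E E' p' lo hi := by
  ext i
  rw [mem_As, mem_As]
  constructor
  · rintro ⟨k, h1, h2, h3⟩
    exact ⟨k, h1, h2, by rw [← h k h1 h2]; exact h3⟩
  · rintro ⟨k, h1, h2, h3⟩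
    exact ⟨k, h1, h2, by rw [h k h1 h2]; exact h3⟩

/-- what depends only on the types -/
theorem of_types {E E' : 𝓞 F × 𝓞 F} {p p' : Fin S.r → Pl F}
    (h : ∀ j, ty (p j) E = ty (p' j) E ∧ ty (p j) E' = ty (p' j) E') :
    S.Jx E p = S.Jx E p' ∧ S.Ux E p = S.Ux E p' ∧
    ∀ (n lo lo' : ℕ), S.Ax n E E' p lo lo' = S.Ax n E E' p' lo lo' := by
  refine ⟨?_, ?_, ?_⟩
  · ext i; rw [mem_Jx, mem_Jx, (h i).1]
  · ext i; rw [mem_Ux, mem_Ux, (h i).1]
  · intro n lo lo'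
    rw [Dat.Ax, Dat.Ax]
    congr 1
    · apply As_congr
      intro k _ _
      apply fs_congr
      intro i _
      rw [Dat.al, Dat.al, (h i).1, (h i).2]
    · apply As_congr
      intro k _ _
      apply fs_congr
      intro i _
      rw [Dat.al, Dat.al, (h i).1, (h i).2]

theorem rt_types {E E' : 𝓞 F × 𝓞 F} {i : ℕ} {p p' : Fin S.r → Pl F} (h : S.Rt E E' i p p') :
    ∀ j, ty (p j) E = ty (p' j) E ∧ ty (p j) E' = ty (p' j) E' := by
  rcases h with rfl | ⟨hi, h1, h2, h3, _, _⟩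
  · intro j; exact ⟨rfl, rfl⟩
  · intro j
    by_cases hj : j = ⟨i, hi⟩
    · rw [hj]; exact ⟨h2, h3⟩
    · rw [h1 j hj]; exact ⟨rfl, rfl⟩

theorem rt_Kx {E E' : 𝓞 F × 𝓞 F} {i : ℕ} {p p' : Fin S.r → Pl F} (h : S.Rt E E' i p p') :
    S.Kx E p = S.Kx E p' := by
  have hJ := (of_types S (rt_types S h)).1
  rcases h with rfl | ⟨hi, h1, h2, h3, h4, _⟩
  · rfl
  · rw [Dat.Kx, Dat.Kx, hJ, Dat.Kp, Dat.Kp]
    congr 1
    apply Finset.image_congr
    intro j hj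
    rw [Finset.mem_coe] at hj
    apply h1
    rintro rfl
    rw [← hJ, mem_Jx] at hj
    exact h4 hj

theorem rm_data {n : ℕ} {E E' : 𝓞 F × 𝓞 F} {k : ℕ} {p p' : Fin S.r → Pl F} {a : Fin S.r}
    (ha : a ∈ S.fs n E E' p k) (ha' : a ∈ S.fs n E E' p' k) (h : ∀ j, j ≠ a → p j = p' j) :
    S.Jx E p = S.Jx E p' ∧ S.Jx E' p = S.Jx E' p' ∧ S.Ux E' p = S.Ux E' p' ∧
    S.K2 E E' p = S.K2 E E' p' := by
  have h1 := ((mem_fs S).1 ha).2.1
  have h2 := ((mem_fs S).1 ha').2.1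
  rw [Dat.al] at h1 h2
  have hJ : S.Jx E p = S.Jx E p' := by
    ext j
    rw [mem_Jx, mem_Jx]
    by_cases hj : j = a
    · rw [hj]; omega
    · rw [h j hj]
  have hJ' : S.Jx E' p = S.Jx E' p' := by
    ext j
    rw [mem_Jx, mem_Jx]
    by_cases hj : j = a
    · rw [hj]; omega
    · rw [h j hj]
  have hU' : S.Ux E' p = S.Ux E' p' := by
    ext j
    rw [mem_Ux, mem_Ux]
    by_cases hj : j = a
    · rw [hj]; omega
    · rw [h j hj]
  refine ⟨hJ, hJ', hU', ?_⟩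
  rw [Dat.K2, Dat.K2, hJ, hJ', Dat.Kp, Dat.Kp]
  congr 1
  apply Finset.image_congr
  intro j hj
  rw [Finset.mem_coe] at hj
  apply h
  rintro rfl
  rw [← hJ, ← hJ', Finset.mem_union, mem_Jx, mem_Jx] at hj
  omega

theorem notin {n : ℕ} {E E' : 𝓞 F × 𝓞 F} {p : Fin S.r → Pl F} {lo lo' k : ℕ} {a : Fin S.r}
    (hlo : lo ≤ k) (hk : k < lo + n) (ha : a ∈ S.fs n E E' p k) :
    a ∉ S.Uk n E E' p lo lo' (k - lo) := by
  rw [mem_Uk]
  rintro ⟨_, h | h⟩
  · apply h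
    rw [Dat.Ax, Finset.mem_union]
    left
    rw [mem_As]
    exact ⟨k, hlo, hk, ha⟩
  · rw [mem_As] at h
    obtain ⟨k', h1, h2, h3⟩ := h
    have := fs_blk S ha h3
    omega

theorem rm_fs {n : ℕ} {E E' : 𝓞 F × 𝓞 F} {k : ℕ} {p p' : Fin S.r → Pl F} {a : Fin S.r}
    (ha : a ∈ S.fs n E E' p k) (ha' : a ∈ S.fs n E E' p' k) (h : ∀ j, j ≠ a → p j = p' j)
    (k' : ℕ) : S.fs n E E' p k' = S.fs n E E' p' k' := by
  by_cases hk : k' = k
  · rw [hk]
    ext i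
    constructor
    · intro hi; rw [fs_uniq S hi ha]; exact ha'
    · intro hi; rw [fs_uniq S hi ha']; exact ha
  · apply fs_congr
    intro i hi
    have hia : i ≠ a := by
      rintro rfl
      apply hk
      rw [mem_fs, mem_bk] at ha
      rw [mem_bk] at hi
      rw [← hi, ← ha.1]
    rw [Dat.al, Dat.al, h i hia]

theorem rm_fs' {n : ℕ} {E E' : 𝓞 F × 𝓞 F} {k : ℕ} {p p' : Fin S.r → Pl F} {a : Fin S.r}
    (ha : a ∈ S.fs n E E' p k) (h : ∀ j, j ≠ a → p j = p' j)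
    (k' : ℕ) (hk : k' ≠ k) : S.fs n E' E p k' = S.fs n E' E p' k' := by
  apply fs_congr
  intro i hi
  have hia : i ≠ a := by
    rintro rfl
    apply hk
    rw [mem_fs, mem_bk] at ha
    rw [mem_bk] at hi
    rw [← hi, ← ha.1]
  rw [Dat.al, Dat.al, h i hia]

end EQRM

open EQRM in
theorem specEQR : SpecEQR where
  rt := by
    intro F _ _ S E E' i
    refine ⟨fun p => Or.inl rfl, ?_, ?_⟩
    · intro p p' h
      have hK := rt_Kx S h
      rcases h with rfl | ⟨hi, h1, h2, h3, h4, h5⟩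
      · exact Or.inl rfl
      · refine Or.inr ⟨hi, fun j hj => (h1 j hj).symm, h2.symm, h3.symm, by rw [← h2]; exact h4, ?_⟩
        rw [← hK]
        exact h5.symm
    · intro p p' p'' h h'
      have hK := rt_Kx S h
      rcases h with rfl | ⟨hi, h1, h2, h3, h4, h5⟩
      · exact h'
      rcases h' with rfl | ⟨hi', g1, g2, g3, g4, g5⟩
      · exact Or.inr ⟨hi, h1, h2, h3, h4, h5⟩
      refine Or.inr ⟨hi, fun j hj => (h1 j hj).trans (g1 j hj), h2.trans g2, h3.trans g3, h4, ?_⟩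
      rw [← hK] at g5
      exact h5.trans g5
  rm := by
    intro F _ _ S n E E' k
    refine ⟨fun p => Or.inl rfl, ?_, ?_⟩
    · intro p p' h
      rcases h with rfl | ⟨a, h1, h2, h3, h4⟩
      · exact Or.inl rfl
      · have hK := (rm_data S h1 h2 h3).2.2.2
        refine Or.inr ⟨a, h2, h1, fun j hj => (h3 j hj).symm, ?_⟩
        rw [← hK]
        exact h4.symm
    · intro p p' p'' h h'
      rcases h with rfl | ⟨a, h1, h2, h3, h4⟩
      · exact h'
      rcases h' with rfl | ⟨b, g1, g2, g3, g4⟩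
      · exact Or.inr ⟨a, h1, h2, h3, h4⟩
      have hab : b = a := fs_uniq S g1 h2
      subst hab
      have hK := (rm_data S h1 h2 h3).2.2.2
      refine Or.inr ⟨b, h1, g2, fun j hj => (h3 j hj).trans (g3 j hj), ?_⟩
      rw [← hK] at g4
      exact h4.trans g4
  rtv := by
    intro F _ _ S E E' i p p' h
    have ht := rt_types S h
    obtain ⟨hJ, hU, hA⟩ := of_types S ht
    exact ⟨ht, hJ, hU, rt_Kx S h, hA⟩
  rmv := by
    intro F _ _ S n E E' k p p' h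
    rcases h with rfl | ⟨a, h1, h2, h3, h4⟩
    · exact ⟨rfl, rfl, rfl, rfl, fun lo lo' _ hlo hk =>
        ⟨rfl, rfl, fun hne => absurd rfl hne⟩⟩
    · obtain ⟨hJ, hJ', hU', hK⟩ := rm_data S h1 h2 h3
      refine ⟨hJ, hJ', hU', hK, ?_⟩
      intro lo lo' hll hlo hk
      have hA : S.Ax n E E' p lo lo' = S.Ax n E E' p' lo lo' := by
        rw [Dat.Ax, Dat.Ax]
        congr 1
        · exact As_congr S fun k' _ _ => rm_fs S h1 h2 h3 k'
        · apply As_congr S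
          intro k' hk1 hk2
          apply rm_fs' S h1 h3 k'
          omega
      have hAs : S.As n E E' p lo (lo + (k - lo)) = S.As n E E' p' lo (lo + (k - lo)) :=
        As_congr S fun k' _ _ => rm_fs S h1 h2 h3 k'
      have n1 : a ∉ S.Uk n E E' p lo lo' (k - lo) := notin S hlo hk h1
      have n2 : a ∉ S.Uk n E E' p' lo lo' (k - lo) := notin S hlo hk h2
      refine ⟨hA, ?_, ?_⟩
      · ext i
        by_cases hi : i = a
        · rw [hi]
          exact ⟨fun h => absurd h n1, fun h => absurd h n2⟩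
        · rw [mem_Uk, mem_Uk, hA, hAs, h3 i hi]
      · intro _ b hb
        exact notin S hlo hk hb
  fs1 := by
    intro F _ _ S n E E' k p
    have h1 : (S.fs n E E' p k).card ≤ 1 :=
      Finset.card_le_one.2 fun i hi j hj => fs_uniq S hi hj
    refine ⟨h1, ?_⟩
    rintro ⟨i, hi, hal⟩
    have hne : ((S.bk n k).filter (fun i => S.al E E' p i)).Nonempty :=
      ⟨i, Finset.mem_filter.2 ⟨hi, hal⟩⟩
    obtain ⟨m, hm, hmin⟩ := Finset.exists_min_image _ (fun i => i) hne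
    rw [Finset.mem_filter] at hm
    have hmem : m ∈ S.fs n E E' p k := by
      rw [mem_fs]
      refine ⟨hm.1, hm.2, ?_⟩
      intro j hj hjm halj
      exact absurd (hmin j (Finset.mem_filter.2 ⟨hj, halj⟩)) (not_le.2 hjm)
    have : 0 < (S.fs n E E' p k).card := Finset.card_pos.2 ⟨m, hmem⟩
    omega
  cardA := by
    intro F _ _ S n E E' p lo lo'
    have key : ∀ (A A' : 𝓞 F × 𝓞 F) (l : ℕ), (S.As n A A' p l (l + n)).card ≤ n := by
      intro A A' l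
      rw [Dat.As]
      have h := Finset.card_biUnion_le_card_mul (Finset.Ico l (l + n)) (S.fs n A A' p) 1
        (fun k _ => Finset.card_le_one.2 fun i hi j hj => fs_uniq S hi hj)
      simpa using h
    rw [Dat.Ax]
    have h := Finset.card_union_le (S.As n E E' p lo (lo + n)) (S.As n E' E p lo' (lo' + n))
    have h1 := key E E' lo
    have h2 := key E' E lo'
    omega
  uk := by
    intro F _ _ S n E E' p lo lo'
    ext i
    rw [mem_Uk, mem_Ux]
    constructor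
    · exact fun h => h.1
    · intro h
      refine ⟨h, ?_⟩
      by_cases hA : i ∈ S.Ax n E E' p lo lo'
      · right
        rw [Dat.Ax, Finset.mem_union] at hA
        rcases hA with hA | hA
        · exact hA
        · rw [mem_As] at hA
          obtain ⟨k, _, _, hk⟩ := hA
          have := ((mem_fs S).1 hk).2.1.2
          omega
      · left; exact hA
  uks := by
    intro F _ _ S n E E' p lo lo' k hll hk
    have hnot : ∀ a ∈ S.fs n E E' p (lo + k), a ∉ S.Uk n E E' p lo lo' k := by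
      intro a ha
      have h := notin S (lo' := lo') (by omega : lo ≤ lo + k) (by omega : lo + k < lo + n) ha
      rwa [Nat.add_sub_cancel_left] at h
    refine ⟨?_, hnot⟩
    ext i
    rw [Finset.mem_union, Finset.mem_filter, mem_Uk, mem_Uk]
    constructor
    · rintro ⟨h0, h | h⟩
      · exact Or.inl ⟨h0, Or.inl h⟩
      · rw [mem_As] at h
        obtain ⟨k', h1, h2, h3⟩ := h
        by_cases hk' : k' = lo + k
        · right
          rw [← hk']
          exact ⟨h3, h0⟩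
        · left
          refine ⟨h0, Or.inr ?_⟩
          rw [mem_As]
          exact ⟨k', h1, by omega, h3⟩
    · rintro (⟨h0, h | h⟩ | ⟨h, h0⟩)
      · exact ⟨h0, Or.inl h⟩
      · refine ⟨h0, Or.inr ?_⟩
        rw [mem_As] at h ⊢
        obtain ⟨k', h1, h2, h3⟩ := h
        exact ⟨k', h1, by omega, h3⟩
      · refine ⟨h0, Or.inr ?_⟩
        rw [mem_As]
        exact ⟨lo + k, by omega, by omega, h⟩
  bkc := by
    intro F _ _ S n k hn hr hk
    set b := S.r / (2 * n) with hb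
    have hb0 : 0 < b := Nat.div_pos hr (by omega)
    have hbr : 2 * n * b ≤ S.r := Nat.mul_div_le S.r (2 * n)
    have hkb : (k + 1) * b ≤ S.r := le_trans (Nat.mul_le_mul_right b (by omega)) hbr
    have hlt : ∀ t, t < b → k * b + t < S.r := by
      intro t ht
      have : k * b + b ≤ S.r := by rw [Nat.add_mul, one_mul] at hkb; exact hkb
      omega
    have h := Finset.card_le_card_of_injOn (s := (Finset.univ : Finset (Fin b))) (t := S.bk n k)
      (fun t : Fin b => (⟨k * b + t.val, hlt t.val t.isLt⟩ : Fin S.r)) ?_ ?_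
    · simpa using h
    · intro t _
      rw [Finset.mem_coe, mem_bk]
      simp only []
      rw [← hb, Nat.add_comm, Nat.add_mul_div_right _ _ hb0, Nat.div_eq_of_lt t.isLt, Nat.zero_add]
    · intro t _ t' _ htt
      simp only [Fin.mk.injEq] at htt
      ext
      omega

end Pool.Agent.Lib.MP_8cb858_nt.PU
end

section
/-!
# FIN: the final theorem over number fields
-/
namespace Pool.Agent.Lib.MP_8cb858_nt.PU

open Polynomial NumberField IsDedekindDomain Filter Pool.Agent.Lib.MP_8cb858_nt.SEL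
open Pool.Agent.Lib.MP_8cb858_nt.PF
open scoped Classical WithZero Topology

namespace FINM

open CTWM

variable {F : Type} [Field F] [NumberField F]

/-- The bad pairs `(u, A)`. -/
def Bp (G : Gs F) (Y ε : ℝ) (ρ : InfinitePlace F → ℝ) (n : ℕ) (r : Fin n → ℕ)
    (A1 : Fin n → Finset (Pl F)) (L : ∀ i, Fin (r i) → Finset (Pl F)) (u : 𝓞 F) :
    Set (Finset (Pl F)) :=
  {A ∈ WS G.S Y | ∀ i, ∀ p ∈ Fintype.piFinset (L i), A ≠ A1 i ∪ Finset.univ.image p} ∪
    ⋃ i, (fun p : Fin (r i) → Pl F => A1 i ∪ Finset.univ.image p) ''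
      (((Fintype.piFinset (L i)).filter (fun p => ∃ d : ℕ,
        ε < |prop ρ (G.tw u (A1 i ∪ Finset.univ.image p)) d - PR.law d|) :
          Finset (Fin (r i) → Pl F)) : Set (Fin (r i) → Pl F))

theorem bp_card (hWSU : SpecWSU) (G : Gs F) {Y ε : ℝ} {ρ : InfinitePlace F → ℝ} {n : ℕ}
    {r : Fin n → ℕ} {A1 : Fin n → Finset (Pl F)} {L : ∀ i, Fin (r i) → Finset (Pl F)} {u : 𝓞 F}
    {C : ℝ} (hε : 0 ≤ ε)
    (h1 : ({A ∈ WS G.S Y | ∀ i, ∀ p ∈ Fintype.piFinset (L i),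
      A ≠ A1 i ∪ Finset.univ.image p}.ncard : ℝ) ≤ ε * Y)
    (h2 : ∑ i, ∏ j, ((L i j).card : ℝ) ≤ C * Y)
    (h3 : ∀ i, (((Fintype.piFinset (L i)).filter (fun p => ∃ d : ℕ,
        ε < |prop ρ (G.tw u (A1 i ∪ Finset.univ.image p)) d - PR.law d|)).card : ℝ) ≤
      ε * ∏ j, ((L i j).card : ℝ)) :
    (Bp G Y ε ρ n r A1 L u).Finite ∧ ((Bp G Y ε ρ n r A1 L u).ncard : ℝ) ≤ ε * (1 + C) * Y := by
  have f1 : {A ∈ WS G.S Y | ∀ i, ∀ p ∈ Fintype.piFinset (L i),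
      A ≠ A1 i ∪ Finset.univ.image p}.Finite := (hWSU.fin F G.S Y).subset (Set.sep_subset _ _)
  have f2 : ∀ i, ((fun p : Fin (r i) → Pl F => A1 i ∪ Finset.univ.image p) ''
      (((Fintype.piFinset (L i)).filter (fun p => ∃ d : ℕ,
        ε < |prop ρ (G.tw u (A1 i ∪ Finset.univ.image p)) d - PR.law d|) :
          Finset (Fin (r i) → Pl F)) : Set (Fin (r i) → Pl F))).Finite :=
    fun i => (Finset.finite_toSet _).image _
  refine ⟨f1.union (Set.finite_iUnion f2), ?_⟩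
  have h4 : ((⋃ i, (fun p : Fin (r i) → Pl F => A1 i ∪ Finset.univ.image p) ''
      (((Fintype.piFinset (L i)).filter (fun p => ∃ d : ℕ,
        ε < |prop ρ (G.tw u (A1 i ∪ Finset.univ.image p)) d - PR.law d|) :
          Finset (Fin (r i) → Pl F)) : Set (Fin (r i) → Pl F))).ncard : ℝ) ≤
      ∑ i, ε * ∏ j, ((L i j).card : ℝ) := by
    have h5 := Set.ncard_iUnion_le_of_fintype (fun i =>
      (fun p : Fin (r i) → Pl F => A1 i ∪ Finset.univ.image p) ''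
      (((Fintype.piFinset (L i)).filter (fun p => ∃ d : ℕ,
        ε < |prop ρ (G.tw u (A1 i ∪ Finset.univ.image p)) d - PR.law d|) :
          Finset (Fin (r i) → Pl F)) : Set (Fin (r i) → Pl F)))
    refine le_trans (Nat.cast_le.2 h5) ?_
    rw [Nat.cast_sum]
    refine Finset.sum_le_sum fun i _ => ?_
    refine le_trans ?_ (h3 i)
    refine Nat.cast_le.2 ?_
    refine (Set.ncard_image_le (Finset.finite_toSet _)).trans ?_
    rw [Set.ncard_coe_finset]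
  have h6 : ((Bp G Y ε ρ n r A1 L u).ncard : ℝ) ≤ ε * Y + ∑ i, ε * ∏ j, ((L i j).card : ℝ) := by
    refine le_trans ?_ (add_le_add h1 h4)
    rw [← Nat.cast_add]
    exact Nat.cast_le.2 (Set.ncard_union_le _ _)
  rw [← Finset.mul_sum] at h6
  have h7 := mul_le_mul_of_nonneg_left h2 hε
  nlinarith

end FINM

open FINM CTWM

theorem specFIN (hSTA : SpecSTA) (hTDF : SpecTDF) (hCTW : SpecCTW) (hTNX : SpecTNX)
    (hPRX : SpecPRX) (hWSU : SpecWSU) (hGNX : SpecGNX) : SpecFIN := by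
  intro F _ _ ε hε
  obtain ⟨G⟩ := hGNX F
  obtain ⟨C, hC, hTD⟩ := hTDF F G.S
  obtain ⟨hfin, c, Yc, hc, hlow⟩ := hCTW F
  obtain ⟨ε1, hε1, h11, h12⟩ : ∃ ε1 : ℝ, 0 < ε1 ∧ ε1 ≤ ε ∧
      (G.U.card : ℝ) * (ε1 * (1 + C)) ≤ ε * c := by
    have hu : (0 : ℝ) ≤ (G.U.card : ℝ) := Nat.cast_nonneg _
    refine ⟨min ε (ε * c / (((G.U.card : ℝ) + 1) * (1 + C))), by positivity, min_le_left _ _, ?_⟩
    have h1 : min ε (ε * c / (((G.U.card : ℝ) + 1) * (1 + C))) * (1 + C) ≤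
        ε * c / ((G.U.card : ℝ) + 1) := by
      calc min ε (ε * c / (((G.U.card : ℝ) + 1) * (1 + C))) * (1 + C)
          ≤ (ε * c / (((G.U.card : ℝ) + 1) * (1 + C))) * (1 + C) :=
            mul_le_mul_of_nonneg_right (min_le_right _ _) (by linarith)
        _ = ε * c / ((G.U.card : ℝ) + 1) := by field_simp
    calc (G.U.card : ℝ) * (min ε (ε * c / (((G.U.card : ℝ) + 1) * (1 + C))) * (1 + C))
        ≤ (G.U.card : ℝ) * (ε * c / ((G.U.card : ℝ) + 1)) := mul_le_mul_of_nonneg_left h1 hu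
      _ = ((G.U.card : ℝ) / ((G.U.card : ℝ) + 1)) * (ε * c) := by ring
      _ ≤ 1 * (ε * c) := by
          refine mul_le_mul_of_nonneg_right ?_ (by positivity)
          rw [div_le_one (by linarith)]; linarith
      _ = ε * c := one_mul _
  obtain ⟨r0, hr0⟩ := hSTA F G ε1 hε1
  obtain ⟨Y0, hY0⟩ := hTD ε1 r0 hε1
  refine ⟨max (max Y0 Yc) 0, fun Y hY => ?_⟩
  have hY1 : Y0 ≤ Y := (le_max_left _ _).trans ((le_max_left _ _).trans hY)
  have hY2 : Yc ≤ Y := (le_max_right _ _).trans ((le_max_left _ _).trans hY)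
  have hY3 : 0 ≤ Y := (le_max_right _ _).trans hY
  obtain ⟨n, r, A1, L, hCw, hsum, hunc⟩ := hY0 Y hY1
  have hst : ∀ (i : Fin n) (u : G.U), ∃ R0 : ℝ, ∀ ρ : InfinitePlace F → ℝ, (∀ v, R0 ≤ ρ v) →
      (((Fintype.piFinset (L i)).filter (fun p => ∃ d : ℕ,
        ε1 < |prop ρ (G.tw u.1 (A1 i ∪ Finset.univ.image p)) d - PR.law d|)).card : ℝ) ≤
      ε1 * ∏ j, ((L i j).card : ℝ) := by
    intro i u
    obtain ⟨R0, hR0⟩ := hr0 (r i) u.1 (A1 i) (L i) (hCw.len i) u.2 (hCw.out i) (hCw.few i)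
      (hCw.big i) (hCw.card i) (hCw.dis i)
    exact ⟨R0, fun ρ hρ => hR0 ρ hρ⟩
  choose R0 hR0 using hst
  obtain ⟨R1, hR1⟩ : ∃ R1 : ℝ, ∀ i u, R0 i u ≤ R1 := by
    refine ⟨∑ i, ∑ u, |R0 i u|, fun i u => (le_abs_self _).trans ?_⟩
    calc |R0 i u| ≤ ∑ u, |R0 i u| :=
          Finset.single_le_sum (f := fun u => |R0 i u|) (fun _ _ => abs_nonneg _)
            (Finset.mem_univ u)
      _ ≤ ∑ i, ∑ u, |R0 i u| :=
          Finset.single_le_sum (f := fun i => ∑ u, |R0 i u|)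
            (fun _ _ => Finset.sum_nonneg fun _ _ => abs_nonneg _) (Finset.mem_univ i)
  obtain ⟨X0, hX0⟩ := hPRX F R1
  refine ⟨X0, fun X hX => ?_⟩
  obtain ⟨ρ, hρ, hprop⟩ := hX0 X hX
  have hbp : ∀ u : G.U, (Bp G Y ε1 ρ n r A1 L u.1).Finite ∧
      ((Bp G Y ε1 ρ n r A1 L u.1).ncard : ℝ) ≤ ε1 * (1 + C) * Y := fun u =>
    bp_card hWSU G hε1.le hunc hsum fun i => hR0 i u ρ fun v => (hR1 i u).trans (hρ v)
  have hsub : {c ∈ Tw F Y | ∃ D : Fˣ, (QuotientGroup.mk D : SqC F) = c ∧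
      ∃ d : ℕ, ε < |propX X (D : F) d - PR.law d|} ⊆
      ⋃ u : G.U, (fun A => kl (G.tw u.1 A : F)) '' (Bp G Y ε1 ρ n r A1 L u.1) := by
    rintro c ⟨⟨D', hD', hN'⟩, D, hD, d, hd⟩
    obtain ⟨u, hu, A, hA, hN, h0, hk⟩ := class_rep hTNX G D'
    have hne : G.tw u A ≠ 0 := by
      intro h
      rw [h] at h0
      exact h0 (by simp)
    rw [Set.mem_iUnion]
    refine ⟨⟨u, hu⟩, A, ?_, by rw [← hD', hk]⟩
    -- the bad proportion
    have hp : propX X (D : F) d = prop ρ (G.tw u A) d := by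
      have h1 : (QuotientGroup.mk D : SqC F) = QuotientGroup.mk (Units.mk0 _ h0) := by
        rw [hD, ← hD', hk, kl_of h0]
      obtain ⟨y, hy, hxy⟩ := mk_eq_iff.1 h1
      exact hprop (G.tw u A) (D : F) y d hne hy hxy
    have hWS : A ∈ WS G.S Y := ⟨hA, le_trans (by exact_mod_cast hN) hN'⟩
    by_cases hcv : ∀ i, ∀ p ∈ Fintype.piFinset (L i), A ≠ A1 i ∪ Finset.univ.image p
    · exact Or.inl ⟨hWS, hcv⟩
    · push Not at hcv
      obtain ⟨i, p, hp', hAp⟩ := hcv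
      refine Or.inr (Set.mem_iUnion.2 ⟨i, p, ?_, hAp.symm⟩)
      rw [Finset.mem_coe, Finset.mem_filter]
      refine ⟨hp', d, ?_⟩
      rw [← hAp, ← hp]
      linarith
  have hcard : ({c ∈ Tw F Y | ∃ D : Fˣ, (QuotientGroup.mk D : SqC F) = c ∧
      ∃ d : ℕ, ε < |propX X (D : F) d - PR.law d|}.ncard : ℝ) ≤
      ∑ u : G.U, ε1 * (1 + C) * Y := by
    have f : (⋃ u : G.U, (fun A => kl (G.tw u.1 A : F)) '' (Bp G Y ε1 ρ n r A1 L u.1)).Finite :=
      Set.finite_iUnion fun u => (hbp u).1.image _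
    refine le_trans (Nat.cast_le.2 (Set.ncard_le_ncard hsub f)) ?_
    have h5 := Set.ncard_iUnion_le_of_fintype (fun u : G.U =>
      (fun A => kl (G.tw u.1 A : F)) '' (Bp G Y ε1 ρ n r A1 L u.1))
    refine le_trans (Nat.cast_le.2 h5) ?_
    rw [Nat.cast_sum]
    refine Finset.sum_le_sum fun u _ => ?_
    refine le_trans ?_ (hbp u).2
    exact Nat.cast_le.2 (Set.ncard_image_le (hbp u).1)
  refine hcard.trans ?_
  rw [Finset.sum_const, nsmul_eq_mul, Finset.card_univ, Fintype.card_coe]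
  calc (G.U.card : ℝ) * (ε1 * (1 + C) * Y) = (G.U.card : ℝ) * (ε1 * (1 + C)) * Y := by ring
    _ ≤ ε * c * Y := mul_le_mul_of_nonneg_right h12 hY3
    _ = ε * (c * Y) := by ring
    _ ≤ ε * ((Tw F Y).ncard : ℝ) := mul_le_mul_of_nonneg_left (hlow Y hY2) hε.le

end Pool.Agent.Lib.MP_8cb858_nt.PU
end

section
/-!
# FN2: the final theorem over number fields, for dense families of curves
-/
namespace Pool.Agent.Lib.MP_8cb858_nt.PU

open Polynomial NumberField IsDedekindDomain Filter Pool.Agent.Lib.MP_8cb858_nt.SEL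
open Pool.Agent.Lib.MP_8cb858_nt.PF
open scoped Classical WithZero Topology

namespace FN2M

open CTWM

variable {F : Type} [Field F] [NumberField F]

/-- The bad pairs `(u, A)`. -/
def Bp (G : Gs F) (Y ε : ℝ) (ρ : Set (𝓞 F × 𝓞 F)) (n : ℕ) (r : Fin n → ℕ)
    (A1 : Fin n → Finset (Pl F)) (L : ∀ i, Fin (r i) → Finset (Pl F)) (u : 𝓞 F) :
    Set (Finset (Pl F)) :=
  {A ∈ WS G.S Y | ∀ i, ∀ p ∈ Fintype.piFinset (L i), A ≠ A1 i ∪ Finset.univ.image p} ∪
    ⋃ i, (fun p : Fin (r i) → Pl F => A1 i ∪ Finset.univ.image p) ''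
      (((Fintype.piFinset (L i)).filter (fun p => ∃ d : ℕ,
        ε < |propS ρ (G.tw u (A1 i ∪ Finset.univ.image p) : F) d - PR.law d|) :
          Finset (Fin (r i) → Pl F)) : Set (Fin (r i) → Pl F))

theorem bp_card (hWSU : SpecWSU) (G : Gs F) {Y ε : ℝ} {ρ : Set (𝓞 F × 𝓞 F)} {n : ℕ}
    {r : Fin n → ℕ} {A1 : Fin n → Finset (Pl F)} {L : ∀ i, Fin (r i) → Finset (Pl F)} {u : 𝓞 F}
    {C : ℝ} (hε : 0 ≤ ε)
    (h1 : ({A ∈ WS G.S Y | ∀ i, ∀ p ∈ Fintype.piFinset (L i),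
      A ≠ A1 i ∪ Finset.univ.image p}.ncard : ℝ) ≤ ε * Y)
    (h2 : ∑ i, ∏ j, ((L i j).card : ℝ) ≤ C * Y)
    (h3 : ∀ i, (((Fintype.piFinset (L i)).filter (fun p => ∃ d : ℕ,
        ε < |propS ρ (G.tw u (A1 i ∪ Finset.univ.image p) : F) d - PR.law d|)).card : ℝ) ≤
      ε * ∏ j, ((L i j).card : ℝ)) :
    (Bp G Y ε ρ n r A1 L u).Finite ∧ ((Bp G Y ε ρ n r A1 L u).ncard : ℝ) ≤ ε * (1 + C) * Y := by
  have f1 : {A ∈ WS G.S Y | ∀ i, ∀ p ∈ Fintype.piFinset (L i),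
      A ≠ A1 i ∪ Finset.univ.image p}.Finite := (hWSU.fin F G.S Y).subset (Set.sep_subset _ _)
  have f2 : ∀ i, ((fun p : Fin (r i) → Pl F => A1 i ∪ Finset.univ.image p) ''
      (((Fintype.piFinset (L i)).filter (fun p => ∃ d : ℕ,
        ε < |propS ρ (G.tw u (A1 i ∪ Finset.univ.image p) : F) d - PR.law d|) :
          Finset (Fin (r i) → Pl F)) : Set (Fin (r i) → Pl F))).Finite :=
    fun i => (Finset.finite_toSet _).image _
  refine ⟨f1.union (Set.finite_iUnion f2), ?_⟩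
  have h4 : ((⋃ i, (fun p : Fin (r i) → Pl F => A1 i ∪ Finset.univ.image p) ''
      (((Fintype.piFinset (L i)).filter (fun p => ∃ d : ℕ,
        ε < |propS ρ (G.tw u (A1 i ∪ Finset.univ.image p) : F) d - PR.law d|) :
          Finset (Fin (r i) → Pl F)) : Set (Fin (r i) → Pl F))).ncard : ℝ) ≤
      ∑ i, ε * ∏ j, ((L i j).card : ℝ) := by
    have h5 := Set.ncard_iUnion_le_of_fintype (fun i =>
      (fun p : Fin (r i) → Pl F => A1 i ∪ Finset.univ.image p) ''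
      (((Fintype.piFinset (L i)).filter (fun p => ∃ d : ℕ,
        ε < |propS ρ (G.tw u (A1 i ∪ Finset.univ.image p) : F) d - PR.law d|) :
          Finset (Fin (r i) → Pl F)) : Set (Fin (r i) → Pl F)))
    refine le_trans (Nat.cast_le.2 h5) ?_
    rw [Nat.cast_sum]
    refine Finset.sum_le_sum fun i _ => ?_
    refine le_trans ?_ (h3 i)
    refine Nat.cast_le.2 ?_
    refine (Set.ncard_image_le (Finset.finite_toSet _)).trans ?_
    rw [Set.ncard_coe_finset]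
  have h6 : ((Bp G Y ε ρ n r A1 L u).ncard : ℝ) ≤ ε * Y + ∑ i, ε * ∏ j, ((L i j).card : ℝ) := by
    refine le_trans ?_ (add_le_add h1 h4)
    rw [← Nat.cast_add]
    exact Nat.cast_le.2 (Set.ncard_union_le _ _)
  rw [← Finset.mul_sum] at h6
  have h7 := mul_le_mul_of_nonneg_left h2 hε
  nlinarith

/-- the boxes -/
theorem box_ev (hBOX : PF.SpecBOX) (F : Type) [Field F] [NumberField F] (R0 : ℝ) :
    ∃ X0 : ℝ, ∀ X : InfinitePlace F → ℝ, (∀ v, X0 ≤ X v) → ∃ ρ : InfinitePlace F → ℝ,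
      (∀ v, R0 ≤ ρ v) ∧ Box F X = Bx F ρ := by
  obtain ⟨hbox, _, _, _⟩ := hBOX F
  have hex : ∃ X0 : ℝ, ∀ x : ℝ, X0 ≤ x → 0 ≤ x ∧ ∀ v : InfinitePlace F,
      R0 ≤ x ^ (1 / (6 * (v.mult : ℝ))) := by
    have hev : ∀ᶠ x : ℝ in atTop, ∀ v ∈ (Finset.univ : Finset (InfinitePlace F)),
        R0 ≤ x ^ (1 / (6 * (v.mult : ℝ))) := by
      rw [Filter.eventually_all_finset]
      intro v _
      have hm : (0 : ℝ) < 1 / (6 * (v.mult : ℝ)) := by
        have : (0 : ℝ) < v.mult := by exact_mod_cast v.mult_pos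
        positivity
      exact (tendsto_rpow_atTop hm).eventually_ge_atTop R0
    obtain ⟨X0, hX0⟩ := eventually_atTop.1 (hev.and (eventually_ge_atTop (0 : ℝ)))
    exact ⟨X0, fun x hx => ⟨(hX0 x hx).2, fun v => (hX0 x hx).1 v (Finset.mem_univ v)⟩⟩
  obtain ⟨X0, hX0⟩ := hex
  exact ⟨X0, fun X hX => ⟨fun v => X v ^ (1 / (6 * (v.mult : ℝ))),
    fun v => (hX0 _ (hX v)).2 v, hbox X fun v => (hX0 _ (hX v)).1⟩⟩

/-- the proportion only depends on the class of the twist -/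
theorem propS_sq (hGEN : SpecGEN) {Φ : Set (𝓞 F × 𝓞 F)} (hΦ : ∀ q ∈ Φ, dsc q.1 q.2 ≠ 0)
    (D : 𝓞 F) (x t : F) (d : ℕ) (hD : D ≠ 0) (ht : t ≠ 0) (hx : x = (D : F) * t ^ 2) :
    propS Φ x d = propS Φ (D : F) d := by
  unfold propS
  congr 3
  ext q
  simp only [Set.mem_ofPred_eq]
  refine and_congr_right fun hq => ?_
  have h1 := hGEN.sqt F q D x t (hΦ q hq) hD ht hx
  have h2 : Nat.card (Sel 2 (curve ((q.1 : F) * x ^ 2) ((q.2 : F) * x ^ 3))) =
      Nat.card (Sel 2 (curve ((q.1 : F) * (D : F) ^ 2) ((q.2 : F) * (D : F) ^ 3))) := h1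
  rw [h2]

end FN2M

open FN2M CTWM

theorem specFN2 (hSTD : SpecSTD) (hTDF : SpecTDF) (hCTW : SpecCTW) (hTNX : SpecTNX)
    (hGEN : SpecGEN) (hBOX : PF.SpecBOX) (hWSU : SpecWSU) (hGNX : SpecGNX) : SpecFN2 := by
  intro F _ _ ε θ hε hθ
  obtain ⟨G⟩ := hGNX F
  obtain ⟨C, hC, hTD⟩ := hTDF F G.S
  obtain ⟨hfin, c, Yc, hc, hlow⟩ := hCTW F
  obtain ⟨ε1, hε1, h11, h12⟩ : ∃ ε1 : ℝ, 0 < ε1 ∧ ε1 ≤ ε ∧
      (G.U.card : ℝ) * (ε1 * (1 + C)) ≤ ε * c := by
    have hu : (0 : ℝ) ≤ (G.U.card : ℝ) := Nat.cast_nonneg _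
    refine ⟨min ε (ε * c / (((G.U.card : ℝ) + 1) * (1 + C))), by positivity, min_le_left _ _, ?_⟩
    have h1 : min ε (ε * c / (((G.U.card : ℝ) + 1) * (1 + C))) * (1 + C) ≤
        ε * c / ((G.U.card : ℝ) + 1) := by
      calc min ε (ε * c / (((G.U.card : ℝ) + 1) * (1 + C))) * (1 + C)
          ≤ (ε * c / (((G.U.card : ℝ) + 1) * (1 + C))) * (1 + C) :=
            mul_le_mul_of_nonneg_right (min_le_right _ _) (by linarith)
        _ = ε * c / ((G.U.card : ℝ) + 1) := by field_simp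
    calc (G.U.card : ℝ) * (min ε (ε * c / (((G.U.card : ℝ) + 1) * (1 + C))) * (1 + C))
        ≤ (G.U.card : ℝ) * (ε * c / ((G.U.card : ℝ) + 1)) := mul_le_mul_of_nonneg_left h1 hu
      _ = ((G.U.card : ℝ) / ((G.U.card : ℝ) + 1)) * (ε * c) := by ring
      _ ≤ 1 * (ε * c) := by
          refine mul_le_mul_of_nonneg_right ?_ (by positivity)
          rw [div_le_one (by linarith)]; linarith
      _ = ε * c := one_mul _
  obtain ⟨r0, hr0⟩ := hSTD F G ε1 θ hε1 hθ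
  obtain ⟨Y0, hY0⟩ := hTD ε1 r0 hε1
  refine ⟨max (max Y0 Yc) 0, fun Y hY => ?_⟩
  have hY1 : Y0 ≤ Y := (le_max_left _ _).trans ((le_max_left _ _).trans hY)
  have hY2 : Yc ≤ Y := (le_max_right _ _).trans ((le_max_left _ _).trans hY)
  have hY3 : 0 ≤ Y := (le_max_right _ _).trans hY
  obtain ⟨n, r, A1, L, hCw, hsum, hunc⟩ := hY0 Y hY1
  have hst : ∀ (i : Fin n) (u : G.U), ∃ R0 : ℝ, ∀ ρ : InfinitePlace F → ℝ, (∀ v, R0 ≤ ρ v) →
      ∀ Φ : Set (𝓞 F × 𝓞 F), Φ ⊆ Bx F ρ → θ * ((Bx F ρ).ncard : ℝ) ≤ (Φ.ncard : ℝ) →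
      (((Fintype.piFinset (L i)).filter (fun p => ∃ d : ℕ,
        ε1 < |propS Φ (G.tw u.1 (A1 i ∪ Finset.univ.image p) : F) d - PR.law d|)).card : ℝ) ≤
      ε1 * ∏ j, ((L i j).card : ℝ) := by
    intro i u
    obtain ⟨R0, hR0⟩ := hr0 (r i) u.1 (A1 i) (L i) (hCw.len i) u.2 (hCw.out i) (hCw.few i)
      (hCw.big i) (hCw.card i) (hCw.dis i)
    exact ⟨R0, fun ρ hρ Φ h1 h2 => hR0 ρ hρ Φ h1 h2⟩
  choose R0 hR0 using hst
  obtain ⟨R1, hR1⟩ : ∃ R1 : ℝ, ∀ i u, R0 i u ≤ R1 := by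
    refine ⟨∑ i, ∑ u, |R0 i u|, fun i u => (le_abs_self _).trans ?_⟩
    calc |R0 i u| ≤ ∑ u, |R0 i u| :=
          Finset.single_le_sum (f := fun u => |R0 i u|) (fun _ _ => abs_nonneg _)
            (Finset.mem_univ u)
      _ ≤ ∑ i, ∑ u, |R0 i u| :=
          Finset.single_le_sum (f := fun i => ∑ u, |R0 i u|)
            (fun _ _ => Finset.sum_nonneg fun _ _ => abs_nonneg _) (Finset.mem_univ i)
  obtain ⟨X0, hX0⟩ := box_ev hBOX F R1
  refine ⟨X0, fun X hX Φ hΦ hΦθ => ?_⟩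
  obtain ⟨ρ, hρ, hbx⟩ := hX0 X hX
  rw [hbx] at hΦ hΦθ
  have hbp : ∀ u : G.U, (Bp G Y ε1 Φ n r A1 L u.1).Finite ∧
      ((Bp G Y ε1 Φ n r A1 L u.1).ncard : ℝ) ≤ ε1 * (1 + C) * Y := fun u =>
    bp_card hWSU G hε1.le hunc hsum fun i =>
      hR0 i u ρ (fun v => (hR1 i u).trans (hρ v)) Φ hΦ hΦθ
  have hsub : {c ∈ Tw F Y | ∃ D : Fˣ, (QuotientGroup.mk D : SqC F) = c ∧
      ∃ d : ℕ, ε < |propS Φ (D : F) d - PR.law d|} ⊆
      ⋃ u : G.U, (fun A => kl (G.tw u.1 A : F)) '' (Bp G Y ε1 Φ n r A1 L u.1) := by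
    rintro c ⟨⟨D', hD', hN'⟩, D, hD, d, hd⟩
    obtain ⟨u, hu, A, hA, hN, h0, hk⟩ := class_rep hTNX G D'
    have hne : G.tw u A ≠ 0 := by
      intro h
      rw [h] at h0
      exact h0 (by simp)
    rw [Set.mem_iUnion]
    refine ⟨⟨u, hu⟩, A, ?_, by rw [← hD', hk]⟩
    -- the bad proportion
    have hp : propS Φ (D : F) d = propS Φ (G.tw u A : F) d := by
      have h1 : (QuotientGroup.mk D : SqC F) = QuotientGroup.mk (Units.mk0 _ h0) := by
        rw [hD, ← hD', hk, kl_of h0]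
      obtain ⟨y, hy, hxy⟩ := mk_eq_iff.1 h1
      exact propS_sq hGEN (fun q hq => (hΦ hq).1) (G.tw u A) (D : F) y d hne hy hxy
    have hWS : A ∈ WS G.S Y := ⟨hA, le_trans (by exact_mod_cast hN) hN'⟩
    by_cases hcv : ∀ i, ∀ p ∈ Fintype.piFinset (L i), A ≠ A1 i ∪ Finset.univ.image p
    · exact Or.inl ⟨hWS, hcv⟩
    · push Not at hcv
      obtain ⟨i, p, hp', hAp⟩ := hcv
      refine Or.inr (Set.mem_iUnion.2 ⟨i, p, ?_, hAp.symm⟩)
      rw [Finset.mem_coe, Finset.mem_filter]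
      refine ⟨hp', d, ?_⟩
      rw [← hAp, ← hp]
      linarith
  have hcard : ({c ∈ Tw F Y | ∃ D : Fˣ, (QuotientGroup.mk D : SqC F) = c ∧
      ∃ d : ℕ, ε < |propS Φ (D : F) d - PR.law d|}.ncard : ℝ) ≤
      ∑ u : G.U, ε1 * (1 + C) * Y := by
    have f : (⋃ u : G.U, (fun A => kl (G.tw u.1 A : F)) '' (Bp G Y ε1 Φ n r A1 L u.1)).Finite :=
      Set.finite_iUnion fun u => (hbp u).1.image _
    refine le_trans (Nat.cast_le.2 (Set.ncard_le_ncard hsub f)) ?_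
    have h5 := Set.ncard_iUnion_le_of_fintype (fun u : G.U =>
      (fun A => kl (G.tw u.1 A : F)) '' (Bp G Y ε1 Φ n r A1 L u.1))
    refine le_trans (Nat.cast_le.2 h5) ?_
    rw [Nat.cast_sum]
    refine Finset.sum_le_sum fun u _ => ?_
    refine le_trans ?_ (hbp u).2
    exact Nat.cast_le.2 (Set.ncard_image_le (hbp u).1)
  refine hcard.trans ?_
  rw [Finset.sum_const, nsmul_eq_mul, Finset.card_univ, Fintype.card_coe]
  calc (G.U.card : ℝ) * (ε1 * (1 + C) * Y) = (G.U.card : ℝ) * (ε1 * (1 + C)) * Y := by ring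
    _ ≤ ε * c * Y := mul_le_mul_of_nonneg_right h12 hY3
    _ = ε * (c * Y) := by ring
    _ ≤ ε * ((Tw F Y).ncard : ℝ) := mul_le_mul_of_nonneg_left (hlow Y hY2) hε.le

end Pool.Agent.Lib.MP_8cb858_nt.PU
end

section
/-!
# Module BDI: few ideals have their class in a small set of classes
-/
namespace Pool.Agent.Lib.MP_8cb858_nt.PV

open Polynomial NumberField IsDedekindDomain Filter Pool.Agent.Lib.MP_8cb858_nt.SEL
open Pool.Agent.Lib.MP_8cb858_nt.PF Pool.Agent.Lib.MP_8cb858_nt.PU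
open scoped Classical WithZero Topology

namespace BDIM

variable {F : Type} [Field F] [NumberField F]

theorem count_pr (A : Finset (Pl F)) (w : Pl F) :
    (UniqueFactorizationMonoid.normalizedFactors (∏ v ∈ A, v.asIdeal)).count w.asIdeal =
      if w ∈ A then 1 else 0 := by
  induction A using Finset.induction_on with
  | empty =>
    rw [Finset.prod_empty, UniqueFactorizationMonoid.normalizedFactors_one]
    simp
  | insert a s ha ih =>
    have hne : ∏ v ∈ s, v.asIdeal ≠ 0 := Finset.prod_ne_zero_iff.2 fun v _ => v.ne_bot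
    rw [Finset.prod_insert ha, UniqueFactorizationMonoid.normalizedFactors_mul a.ne_bot hne,
      Multiset.count_add, ih,
      UniqueFactorizationMonoid.normalizedFactors_irreducible a.irreducible, normalize_eq,
      Multiset.count_singleton]
    by_cases h1 : w = a
    · subst h1
      simp [ha]
    · have h2 : w.asIdeal ≠ a.asIdeal := fun h => h1 (HeightOneSpectrum.ext h)
      simp [h1, h2]

theorem same_set {A A' : Finset (Pl F)} {s t : Ideal (𝓞 F)} (hs : s ≠ ⊥) (ht : t ≠ ⊥)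
    (h : (∏ v ∈ A, v.asIdeal) * t ^ 2 = (∏ v ∈ A', v.asIdeal) * s ^ 2) : A = A' := by
  have hne : ∀ B : Finset (Pl F), ∏ v ∈ B, v.asIdeal ≠ 0 := fun B =>
    Finset.prod_ne_zero_iff.2 fun v _ => v.ne_bot
  ext w
  have h1 := congrArg (fun X => (UniqueFactorizationMonoid.normalizedFactors X).count w.asIdeal) h
  beta_reduce at h1
  rw [UniqueFactorizationMonoid.normalizedFactors_mul (hne A) (pow_ne_zero 2 ht),
    UniqueFactorizationMonoid.normalizedFactors_mul (hne A') (pow_ne_zero 2 hs),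
    Multiset.count_add, Multiset.count_add, count_pr, count_pr,
    UniqueFactorizationMonoid.normalizedFactors_pow, UniqueFactorizationMonoid.normalizedFactors_pow,
    Multiset.count_nsmul, Multiset.count_nsmul] at h1
  by_cases h2 : w ∈ A <;> by_cases h3 : w ∈ A' <;> simp only [h2, h3, if_true, if_false] at h1 ⊢
  · omega
  · omega

theorem pr_inj {A A' : Finset (Pl F)} (h : ∏ v ∈ A, v.asIdeal = ∏ v ∈ A', v.asIdeal) : A = A' :=
  same_set (s := ⊤) (t := ⊤) top_ne_bot top_ne_bot (by rw [h])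

/-- (1) the numbers `c I`, the class and `E I` determine `I` -/
theorem inj_key {I I' E c : Ideal (𝓞 F)} {A A' : Finset (Pl F)} {g y y' : 𝓞 F} (hg : g ≠ 0)
    (hy : y ≠ 0) (hy' : y' ≠ 0) (hE : E ≠ ⊥) (hI : I = E ^ 2 * ∏ v ∈ A, v.asIdeal)
    (hI' : I' = E ^ 2 * ∏ v ∈ A', v.asIdeal) (h1 : Ideal.span {y} * c = Ideal.span {g} * I)
    (h2 : Ideal.span {y'} * c = Ideal.span {g} * I') (D D' : Fˣ) (hD : (D : F) = (y : F) / (g : F))
    (hD' : (D' : F) = (y' : F) / (g : F))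
    (hm : (QuotientGroup.mk D : SqC F) = QuotientGroup.mk D') : I = I' := by
  rw [QuotientGroup.eq] at hm
  obtain ⟨z, hz⟩ := hm
  have hz' : z ^ 2 = D⁻¹ * D' := hz
  have hDD : D' = D * z ^ 2 := by
    rw [hz']
    group
  obtain ⟨s, t, ht, hst⟩ := IsFractionRing.div_surjective (A := 𝓞 F) (z : F)
  have ht0 : t ≠ 0 := nonZeroDivisors.ne_zero ht
  have htF : (algebraMap (𝓞 F) F t) ≠ 0 := by
    intro h0
    exact ht0 ((FaithfulSMul.algebraMap_injective (𝓞 F) F) (by rw [h0, map_zero]))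
  have hs0 : s ≠ 0 := by
    rintro rfl
    rw [map_zero, zero_div] at hst
    exact z.ne_zero hst.symm
  have hgF : (g : F) ≠ 0 := by
    intro h0
    exact hg (RingOfIntegers.coe_eq_zero_iff.1 h0)
  have hF : (y' : F) * (t : F) ^ 2 = (y : F) * (s : F) ^ 2 := by
    have h3 : (D' : F) = (D : F) * (z : F) ^ 2 := by
      rw [hDD]
      push_cast
      ring
    rw [hD, hD', ← hst] at h3
    change (y' : F) / g = (y : F) / g * ((s : F) / (t : F)) ^ 2 at h3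
    have htF' : (t : F) ≠ 0 := htF
    field_simp at h3
    linear_combination h3
  have hO : y' * t ^ 2 = y * s ^ 2 := by
    apply RingOfIntegers.ext
    push_cast
    exact hF
  have hsp : Ideal.span {y'} * Ideal.span {t} ^ 2 = Ideal.span {y} * Ideal.span {s} ^ 2 := by
    rw [Ideal.span_singleton_pow, Ideal.span_singleton_pow, Ideal.span_singleton_mul_span_singleton,
      Ideal.span_singleton_mul_span_singleton, hO]
  have hgI : (Ideal.span {g} : Ideal (𝓞 F)) ≠ 0 := by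
    rw [Ideal.zero_eq_bot, Ne, Ideal.span_singleton_eq_bot]
    exact hg
  have hyI : (Ideal.span {y} : Ideal (𝓞 F)) ≠ 0 := by
    rw [Ideal.zero_eq_bot, Ne, Ideal.span_singleton_eq_bot]
    exact hy
  have hy'I : (Ideal.span {y'} : Ideal (𝓞 F)) ≠ 0 := by
    rw [Ideal.zero_eq_bot, Ne, Ideal.span_singleton_eq_bot]
    exact hy'
  have h4 : I * Ideal.span {y'} = I' * Ideal.span {y} := by
    apply mul_left_cancel₀ hgI
    calc Ideal.span {g} * (I * Ideal.span {y'}) = (Ideal.span {g} * I) * Ideal.span {y'} := by ring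
      _ = Ideal.span {y} * (Ideal.span {y'} * c) := by rw [← h1]; ring
      _ = Ideal.span {g} * (I' * Ideal.span {y}) := by rw [h2]; ring
  have h5 : I * Ideal.span {s} ^ 2 = I' * Ideal.span {t} ^ 2 := by
    apply mul_left_cancel₀ hyI
    calc Ideal.span {y} * (I * Ideal.span {s} ^ 2)
        = I * (Ideal.span {y} * Ideal.span {s} ^ 2) := by ring
      _ = (I * Ideal.span {y'}) * Ideal.span {t} ^ 2 := by rw [← hsp]; ring
      _ = Ideal.span {y} * (I' * Ideal.span {t} ^ 2) := by rw [h4]; ring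
  have h6 : (∏ v ∈ A, v.asIdeal) * Ideal.span {s} ^ 2 =
      (∏ v ∈ A', v.asIdeal) * Ideal.span {t} ^ 2 := by
    apply mul_left_cancel₀ (pow_ne_zero 2 hE)
    rw [← mul_assoc, ← mul_assoc, ← hI, ← hI', h5]
  have h7 : A = A' := same_set (s := Ideal.span {t}) (t := Ideal.span {s})
    (by rw [Ne, Ideal.span_singleton_eq_bot]; exact ht0)
    (by rw [Ne, Ideal.span_singleton_eq_bot]; exact hs0) h6
  rw [hI, hI', h7]

end BDIM

open BDIM in
theorem specBDI (hI : SpecIDA) (hW : SpecWSU) : SpecBDI := by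
  intro F _ _ B ε hB hε
  obtain ⟨C1, hC1, hu⟩ := hI.upp F
  obtain ⟨C2, hC2, hw⟩ := hW.bd F
  set C : ℝ := max C1 C2 with hC
  have hC0 : 1 ≤ C := hC1.trans (le_max_left _ _)
  obtain ⟨B', hB'⟩ := exists_nat_gt (max 1 (8 * C ^ 2 / ε))
  have hB1 : (1 : ℝ) < B' := (le_max_left _ _).trans_lt hB'
  have hB1' : 1 ≤ B' := by exact_mod_cast hB1.le
  have hB2 : 4 * C ^ 2 / B' ≤ ε / 2 := by
    have h1 : 8 * C ^ 2 / ε < B' := (le_max_right _ _).trans_lt hB'
    rw [div_lt_iff₀ hε] at h1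
    rw [div_le_iff₀ (by linarith)]
    linarith
  have hIC : ∀ x : ℝ, 0 ≤ IC F x := fun x => Nat.cast_nonneg _
  set δ : ℝ := ε / (2 * (IC F B * IC F B') + 1) with hδ
  have hIC2 : 0 ≤ IC F B * IC F B' := mul_nonneg (hIC _) (hIC _)
  refine ⟨δ, by positivity, ?_⟩
  intro Y Bad hY hBf hBc T g y c hg hT
  have hkey : IC F B * (δ * Y) * IC F B' ≤ ε / 2 * Y := by
    have h1 : δ * (IC F B * IC F B') ≤ ε / 2 := by
      rw [hδ, div_mul_eq_mul_div, div_le_iff₀ (by positivity)]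
      nlinarith
    calc IC F B * (δ * Y) * IC F B' = δ * (IC F B * IC F B') * Y := by ring
      _ ≤ ε / 2 * Y := mul_le_mul_of_nonneg_right h1 (by linarith)
  -- decomposition
  have hdec : ∀ I : Ideal (𝓞 F), ∃ p : Ideal (𝓞 F) × Finset (Pl F), I ≠ ⊥ →
      p.1 ≠ ⊥ ∧ I = p.1 ^ 2 * ∏ v ∈ p.2, v.asIdeal := by
    intro I
    by_cases h0 : I = ⊥
    · exact ⟨(⊤, ∅), fun h => absurd h0 h⟩
    · obtain ⟨J, A, hJ, hA⟩ := CNFM.sq_mul I h0
      exact ⟨(J, A), fun _ => ⟨hJ, hA⟩⟩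
  choose dc hdc using hdec
  have hcl : ∀ I : Ideal (𝓞 F), ∃ d : SqC F, I ∈ T → d ∈ Bad ∧
      ∃ D : Fˣ, (D : F) = (y I : F) / (g : F) ∧ (QuotientGroup.mk D : SqC F) = d := by
    intro I
    by_cases h0 : I ∈ T
    · obtain ⟨D, h1, h2⟩ := (hT I h0).2.2.2.2.2.2
      exact ⟨_, fun _ => ⟨h2, D, h1, rfl⟩⟩
    · exact ⟨1, fun h => absurd h h0⟩
  choose cl hcl using hcl
  have hinj : ∀ I ∈ T, ∀ I' ∈ T, c I = c I' → cl I = cl I' → (dc I).1 = (dc I').1 → I = I' := by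
    intro I h1 I' h1' e1 e2 e3
    obtain ⟨D, hD, hDc⟩ := (hcl I h1).2
    obtain ⟨D', hD', hDc'⟩ := (hcl I' h1').2
    have a1 := hT I h1
    have a2 := hT I' h1'
    have b1 := hdc I a1.1
    have b2 := hdc I' a2.1
    rw [← e3] at b2
    refine inj_key hg a1.2.2.1 a2.2.2.1 b1.1 b1.2 b2.2 a1.2.2.2.2.2.1 ?_ D D' hD hD' ?_
    · rw [e1]
      exact a2.2.2.2.2.2.1
    · rw [hDc, hDc', e2]
  set T1 := T.filter (fun I => Ideal.absNorm (dc I).1 ≤ B') with hT1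
  set T2 := T.filter (fun I => ¬ Ideal.absNorm (dc I).1 ≤ B') with hT2
  have hcard : (T.card : ℝ) = T1.card + T2.card := by
    rw [hT1, hT2]
    exact_mod_cast (Finset.card_filter_add_card_filter_not (s := T) _).symm
  -- first part
  have hp1 : (T1.card : ℝ) ≤ ε / 2 * Y := by
    have hf1 := hI.fin F B
    have hf2 := hI.fin F (B' : ℝ)
    have h1 : (T1 : Set (Ideal (𝓞 F))).ncard ≤
        ({I : Ideal (𝓞 F) | I ≠ ⊥ ∧ (Ideal.absNorm I : ℝ) ≤ B} ×ˢ (Bad ×ˢ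
          {I : Ideal (𝓞 F) | I ≠ ⊥ ∧ (Ideal.absNorm I : ℝ) ≤ B'})).ncard := by
      refine Set.ncard_le_ncard_of_injOn (fun I => (c I, cl I, (dc I).1)) ?_ ?_
        (hf1.prod (hBf.prod hf2))
      · intro I h2
        rw [Finset.mem_coe, hT1, Finset.mem_filter] at h2
        have h3 := hT I h2.1
        refine ⟨⟨h3.2.2.2.1, h3.2.2.2.2.1⟩, (hcl I h2.1).1, (hdc I h3.1).1, ?_⟩
        exact_mod_cast h2.2
      · intro I h2 I' h2' h3
        rw [Finset.mem_coe, hT1, Finset.mem_filter] at h2 h2'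
        simp only [Prod.mk.injEq] at h3
        exact hinj I h2.1 I' h2'.1 h3.1 h3.2.1 h3.2.2
    rw [Set.ncard_coe_finset, Set.ncard_prod, Set.ncard_prod] at h1
    have h2 : (T1.card : ℝ) ≤ IC F B * (Bad.ncard * IC F B') := by
      unfold IC
      exact_mod_cast h1
    refine h2.trans ?_
    refine le_trans ?_ hkey
    have h3 := hIC B
    have h4 := hIC (B' : ℝ)
    calc IC F B * (Bad.ncard * IC F B') ≤ IC F B * ((δ * Y) * IC F B') :=
          mul_le_mul_of_nonneg_left (mul_le_mul_of_nonneg_right hBc h4) h3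
      _ = IC F B * (δ * Y) * IC F B' := by ring
  -- second part
  have hp2 : (T2.card : ℝ) ≤ ε / 2 * Y := by
    have h1 : (T2.card : ℝ) = ∑ E ∈ T2.image (fun I => (dc I).1),
        ((T2.filter (fun I => (dc I).1 = E)).card : ℝ) := by
      have := Finset.card_eq_sum_card_image (fun I => (dc I).1) T2
      exact_mod_cast this
    have hE : ∀ E ∈ T2.image (fun I => (dc I).1), E ≠ ⊥ ∧ B' < Ideal.absNorm E := by
      intro E h2
      obtain ⟨I, h3, rfl⟩ := Finset.mem_image.1 h2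
      rw [hT2, Finset.mem_filter] at h3
      exact ⟨(hdc I (hT I h3.1).1).1, not_le.1 h3.2⟩
    have h2 : ∀ E ∈ T2.image (fun I => (dc I).1),
        ((T2.filter (fun I => (dc I).1 = E)).card : ℝ) ≤
          C * Y * (1 / (Ideal.absNorm E : ℝ) ^ 2) := by
      intro E h3
      have h4 := hE E h3
      have hN0 : (0 : ℝ) < (Ideal.absNorm E : ℝ) := by
        have := CNFM.norm_pos h4.1
        exact_mod_cast this
      have hY2 : 0 ≤ Y / (Ideal.absNorm E : ℝ) ^ 2 := by positivity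
      have h5 := (hw _ hY2).1 ∅
      have h6 : ((T2.filter (fun I => (dc I).1 = E) : Finset (Ideal (𝓞 F))) :
          Set (Ideal (𝓞 F))).ncard ≤
          (WS (∅ : Finset (Pl F)) (Y / (Ideal.absNorm E : ℝ) ^ 2)).ncard := by
        refine Set.ncard_le_ncard_of_injOn (fun I => (dc I).2) ?_ ?_ (hW.fin F ∅ _)
        · intro I h7
          rw [Finset.mem_coe, Finset.mem_filter, hT2, Finset.mem_filter] at h7
          have h8 := hT I h7.1.1
          have h9 := hdc I h8.1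
          refine ⟨fun v _ => Finset.notMem_empty v, ?_⟩
          rw [le_div_iff₀ (by positivity)]
          have h10 := CNFM.norm_sq_mul hI (dc I).1 (dc I).2
          rw [← h9.2, h7.2] at h10
          have h11 : (Ideal.absNorm I : ℝ) = (Ideal.absNorm E : ℝ) ^ 2 * (NA (dc I).2 : ℝ) := by
            exact_mod_cast h10
          have h12 := h8.2.1
          rw [h11] at h12
          linarith
        · intro I h7 I' h7' h8
          rw [Finset.mem_coe, Finset.mem_filter, hT2, Finset.mem_filter] at h7 h7'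
          have h9 := hdc I (hT I h7.1.1).1
          have h9' := hdc I' (hT I' h7'.1.1).1
          simp only at h8
          rw [h9.2, h9'.2, h7.2, h7'.2, h8]
      rw [Set.ncard_coe_finset] at h6
      have h7 : ((T2.filter (fun I => (dc I).1 = E)).card : ℝ) ≤
          C2 * (Y / (Ideal.absNorm E : ℝ) ^ 2) := le_trans (by exact_mod_cast h6) h5
      refine h7.trans ?_
      calc C2 * (Y / (Ideal.absNorm E : ℝ) ^ 2) ≤ C * (Y / (Ideal.absNorm E : ℝ) ^ 2) :=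
            mul_le_mul_of_nonneg_right (le_max_right _ _) hY2
        _ = C * Y * (1 / (Ideal.absNorm E : ℝ) ^ 2) := by ring
    have h3 := CNFM.tail hI hC0 (fun x hx => (hu x hx).trans
      (mul_le_mul_of_nonneg_right (le_max_left _ _) hx)) B' hB1' _ hE
    rw [h1]
    refine (Finset.sum_le_sum h2).trans ?_
    rw [← Finset.mul_sum]
    have hCY : 0 ≤ C * Y := by positivity
    calc C * Y * ∑ E ∈ T2.image (fun I => (dc I).1), 1 / (Ideal.absNorm E : ℝ) ^ 2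
        ≤ C * Y * (4 * C / B') := mul_le_mul_of_nonneg_left h3 hCY
      _ = (4 * C ^ 2 / B') * Y := by ring
      _ ≤ ε / 2 * Y := mul_le_mul_of_nonneg_right hB2 (by linarith)
  rw [hcard]
  linarith

end Pool.Agent.Lib.MP_8cb858_nt.PV
end

section
/-!
# Module SUI: sums over ideals
-/
namespace Pool.Agent.Lib.MP_8cb858_nt.PV

open Polynomial NumberField IsDedekindDomain Filter Pool.Agent.Lib.MP_8cb858_nt.SEL
open Pool.Agent.Lib.MP_8cb858_nt.PF Pool.Agent.Lib.MP_8cb858_nt.PU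
open scoped Classical WithZero Topology

namespace SUIM

variable {F : Type} [Field F] [NumberField F]

/-- the sum of the inverse squares -/
theorem sum2 (hI : SpecIDA) {C : ℝ} (hC : 1 ≤ C) (hu : ∀ x : ℝ, 0 ≤ x → IC F x ≤ C * x)
    (T : ℝ) (J : Finset (Ideal (𝓞 F))) (hT : 1 ≤ T)
    (hJ : ∀ I ∈ J, I ≠ ⊥ ∧ T ≤ (Ideal.absNorm I : ℝ)) :
    ∑ I ∈ J, 1 / (Ideal.absNorm I : ℝ) ^ 2 ≤ 10 * C / T := by
  have hT0 : 0 < T := by linarith
  by_cases h2 : 2 ≤ T
  · obtain ⟨B, hB⟩ : ∃ B : ℕ, ⌈T⌉₊ = B + 1 := by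
      have : ⌈T⌉₊ ≠ 0 := by
        intro h
        rw [Nat.ceil_eq_zero] at h
        linarith
      exact ⟨⌈T⌉₊ - 1, by omega⟩
    have h3 : T ≤ (B : ℝ) + 1 := by
      have := Nat.le_ceil T
      rw [hB] at this
      push_cast at this
      exact this
    have h4 : (B : ℝ) < T := by
      have := Nat.ceil_lt_add_one hT0.le
      rw [hB] at this
      push_cast at this
      linarith
    have h5 : (1 : ℝ) ≤ B := by linarith
    have hB1 : 1 ≤ B := by exact_mod_cast h5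
    have h6 := CNFM.tail hI hC hu B hB1 J (fun I hI' => by
      refine ⟨(hJ I hI').1, ?_⟩
      have := (hJ I hI').2
      have h7 : (B : ℝ) < Ideal.absNorm I := by linarith
      exact_mod_cast h7)
    refine h6.trans ?_
    rw [div_le_div_iff₀ (by linarith) hT0]
    nlinarith
  · push Not at h2
    rw [← Finset.sum_filter_add_sum_filter_not J (fun I => Ideal.absNorm I ≤ 1)]
    have h3 : ∑ I ∈ J.filter (fun I => Ideal.absNorm I ≤ 1),
        1 / (Ideal.absNorm I : ℝ) ^ 2 ≤ 1 := by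
      have h4 : J.filter (fun I => Ideal.absNorm I ≤ 1) ⊆ {⊤} := by
        intro I hI'
        rw [Finset.mem_filter] at hI'
        rw [Finset.mem_singleton, ← Ideal.absNorm_eq_one_iff]
        have := CNFM.norm_pos (hJ I hI'.1).1
        omega
      refine (Finset.sum_le_sum_of_subset_of_nonneg h4 (fun _ _ _ => by positivity)).trans ?_
      rw [Finset.sum_singleton, Ideal.absNorm_top]
      norm_num
    have h5 := CNFM.tail hI hC hu 1 le_rfl (J.filter (fun I => ¬ Ideal.absNorm I ≤ 1))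
      (fun I hI' => by
        rw [Finset.mem_filter] at hI'
        exact ⟨(hJ I hI'.1).1, not_le.1 hI'.2⟩)
    refine (add_le_add h3 h5).trans ?_
    rw [le_div_iff₀ hT0]
    push_cast
    nlinarith

end SUIM

open SUIM in
theorem specSUI (hI : SpecIDA) : SpecSUI := by
  intro F _ _
  obtain ⟨C, hC, hu⟩ := hI.upp F
  refine ⟨10 * C, by linarith, ?_⟩
  intro T J hT hJ
  have hT0 : 0 < T := by linarith
  have h1 := sum2 hI hC hu T J hT hJ
  refine ⟨h1, ?_⟩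
  have h2 : ∀ I ∈ J, 1 / (Ideal.absNorm I : ℝ) ^ 5 ≤
      1 / T ^ 3 * (1 / (Ideal.absNorm I : ℝ) ^ 2) := by
    intro I hI'
    have h3 := (hJ I hI').2
    have h4 : (0 : ℝ) < Ideal.absNorm I := by linarith
    rw [one_div_mul_one_div]
    apply one_div_le_one_div_of_le (by positivity)
    have h5 : T ^ 3 ≤ (Ideal.absNorm I : ℝ) ^ 3 := by gcongr
    calc T ^ 3 * (Ideal.absNorm I : ℝ) ^ 2 ≤
        (Ideal.absNorm I : ℝ) ^ 3 * (Ideal.absNorm I : ℝ) ^ 2 := by gcongr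
      _ = (Ideal.absNorm I : ℝ) ^ 5 := by ring
  refine (Finset.sum_le_sum h2).trans ?_
  rw [← Finset.mul_sum]
  refine (mul_le_mul_of_nonneg_left h1 (by positivity)).trans (le_of_eq ?_)
  field_simp

end Pool.Agent.Lib.MP_8cb858_nt.PV
end

section
/-!
# TWU: upper bound for the number of classes of twists
-/
namespace Pool.Agent.Lib.MP_8cb858_nt.PV

open Polynomial NumberField IsDedekindDomain Filter Pool.Agent.Lib.MP_8cb858_nt.SEL
open Pool.Agent.Lib.MP_8cb858_nt.PF Pool.Agent.Lib.MP_8cb858_nt.PU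
open scoped Classical WithZero Topology

theorem specTWU (hTNX : SpecTNX) (hWSU : SpecWSU) (hGNX : SpecGNX) : SpecTWU := by
  intro F _ _
  obtain ⟨G⟩ := hGNX F
  obtain ⟨C, hC1, hC⟩ := hWSU.bd F
  have hC0 : (0 : ℝ) ≤ C := by linarith
  refine ⟨((G.U.card : ℝ) + 1) * C, ?_, fun Y hY => ?_⟩
  · have h1 : (0 : ℝ) ≤ (G.U.card : ℝ) * C := mul_nonneg (Nat.cast_nonneg _) hC0
    linarith [add_mul (G.U.card : ℝ) 1 C]
  have hfin : ((G.U : Set (𝓞 F)) ×ˢ WS G.S Y).Finite :=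
    (G.U.finite_toSet).prod (hWSU.fin F G.S Y)
  have hsub : Tw F Y ⊆ (fun q : 𝓞 F × Finset (Pl F) => CTWM.kl (G.tw q.1 q.2 : F)) ''
      ((G.U : Set (𝓞 F)) ×ˢ WS G.S Y) := by
    rintro c ⟨D, rfl, hD⟩
    obtain ⟨u, hu, A, hA, hN, _, h⟩ := CTWM.class_rep hTNX G D
    refine ⟨(u, A), ⟨hu, hA, ?_⟩, h.symm⟩
    exact le_trans (by exact_mod_cast hN) hD
  have h1 : (Tw F Y).ncard ≤ G.U.card * (WS G.S Y).ncard := by
    refine (Set.ncard_le_ncard hsub (hfin.image _)).trans ?_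
    refine (Set.ncard_image_le hfin).trans ?_
    rw [Set.ncard_prod, Set.ncard_coe_finset]
  have h2 : ((Tw F Y).ncard : ℝ) ≤ (G.U.card : ℝ) * ((WS G.S Y).ncard : ℝ) := by
    exact_mod_cast h1
  have h3 : ((WS G.S Y).ncard : ℝ) ≤ C * Y := (hC Y hY).1 G.S
  have h4 : (G.U.card : ℝ) * ((WS G.S Y).ncard : ℝ) ≤ (G.U.card : ℝ) * (C * Y) :=
    mul_le_mul_of_nonneg_left h3 (Nat.cast_nonneg _)
  have h5 : (0 : ℝ) ≤ C * Y := mul_nonneg hC0 hY
  calc ((Tw F Y).ncard : ℝ) ≤ (G.U.card : ℝ) * (C * Y) := h2.trans h4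
    _ ≤ ((G.U.card : ℝ) + 1) * C * Y := by nlinarith

end Pool.Agent.Lib.MP_8cb858_nt.PV
end
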