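import Pool.Agent.Lib.MP_8cb858_nt.PV.SpecV
import Pool.Agent.Lib.MP_8cb858_nt.PV.TWU
import Pool.Agent.Lib.MP_8cb858_nt.PT.FIN
import Pool.Agent.Lib.MP_8cb858_nt.PF.SpecG
import Pool.Agent.Lib.MP_8cb858_nt.SEL.LO1

section
/-!
# MLM: the main lemma of block V
-/
namespace Pool.Agent.Lib.MP_8cb858_nt.PV

open Polynomial NumberField IsDedekindDomain Filter Pool.Agent.Lib.MP_8cb858_nt.SEL
open Pool.Agent.Lib.MP_8cb858_nt.PF Pool.Agent.Lib.MP_8cb858_nt.PU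
open scoped Classical WithZero Topology

namespace MLMM

theorem dev_le {α : Type*} {Φ Ψ : Set α} (hΦ : Φ.Finite) (h : Ψ ⊆ Φ) (P : α → Prop) {w : ℝ}
    (hw0 : 0 ≤ w) (hw1 : w ≤ 1) :
    |({q ∈ Ψ | P q}.ncard : ℝ) - w * (Ψ.ncard : ℝ)| ≤
      |({q ∈ Φ | P q}.ncard : ℝ) - w * (Φ.ncard : ℝ)| + ((Φ \ Ψ).ncard : ℝ) := by
  have h1 : ((Φ \ Ψ).ncard : ℝ) + (Ψ.ncard : ℝ) = (Φ.ncard : ℝ) := by
    exact_mod_cast Set.ncard_sdiff_add_ncard_of_subset h hΦ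
  have h2 : {q ∈ Ψ | P q} ⊆ {q ∈ Φ | P q} := fun q hq => ⟨h hq.1, hq.2⟩
  have h3 : (({q ∈ Φ | P q} \ {q ∈ Ψ | P q}).ncard : ℝ) + ({q ∈ Ψ | P q}.ncard : ℝ) =
      ({q ∈ Φ | P q}.ncard : ℝ) := by
    exact_mod_cast Set.ncard_sdiff_add_ncard_of_subset h2 (hΦ.subset (Set.sep_subset _ _))
  have h4 : (({q ∈ Φ | P q} \ {q ∈ Ψ | P q}).ncard : ℝ) ≤ ((Φ \ Ψ).ncard : ℝ) := by
    refine Nat.cast_le.2 (Set.ncard_le_ncard ?_ (hΦ.subset Set.sdiff_subset))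
    rintro q ⟨⟨hq1, hq2⟩, hq3⟩
    exact ⟨hq1, fun hq4 => hq3 ⟨hq4, hq2⟩⟩
  have h5 : (0 : ℝ) ≤ (({q ∈ Φ | P q} \ {q ∈ Ψ | P q}).ncard : ℝ) := Nat.cast_nonneg _
  have h6 : (0 : ℝ) ≤ ((Φ \ Ψ).ncard : ℝ) := Nat.cast_nonneg _
  have h7 : w * ((Φ \ Ψ).ncard : ℝ) ≤ ((Φ \ Ψ).ncard : ℝ) := mul_le_of_le_one_left h6 hw1
  have h8 : 0 ≤ w * ((Φ \ Ψ).ncard : ℝ) := mul_nonneg hw0 h6
  rw [← h1, ← h3]
  have e : ({q ∈ Ψ | P q}.ncard : ℝ) - w * (Ψ.ncard : ℝ) =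
      ((({q ∈ Φ | P q} \ {q ∈ Ψ | P q}).ncard : ℝ) + ({q ∈ Ψ | P q}.ncard : ℝ) -
        w * (((Φ \ Ψ).ncard : ℝ) + (Ψ.ncard : ℝ))) +
      (w * ((Φ \ Ψ).ncard : ℝ) - (({q ∈ Φ | P q} \ {q ∈ Ψ | P q}).ncard : ℝ)) := by ring
  rw [e]
  refine (abs_add_le _ _).trans (add_le_add_right ?_ _)
  rw [abs_le]
  constructor <;> linarith

theorem dev_triv {α : Type*} {Φ : Set α} (hΦ : Φ.Finite) (P : α → Prop) {w : ℝ}
    (hw0 : 0 ≤ w) (hw1 : w ≤ 1) :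
    |({q ∈ Φ | P q}.ncard : ℝ) - w * (Φ.ncard : ℝ)| ≤ (Φ.ncard : ℝ) := by
  have h := dev_le hΦ (Set.empty_subset Φ) (fun _ => True) hw0 hw1
  have h1 : ({q ∈ Φ | P q}.ncard : ℝ) ≤ (Φ.ncard : ℝ) :=
    Nat.cast_le.2 (Set.ncard_le_ncard (Set.sep_subset _ _) hΦ)
  have h2 : (0 : ℝ) ≤ ({q ∈ Φ | P q}.ncard : ℝ) := Nat.cast_nonneg _
  have h3 : (0 : ℝ) ≤ (Φ.ncard : ℝ) := Nat.cast_nonneg _
  have h4 := mul_le_of_le_one_left h3 hw1
  have h5 := mul_nonneg hw0 h3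
  rw [abs_le]
  constructor <;> linarith

theorem dev_prop {α : Type*} {Φ : Set α} (hΦ : Φ.Finite) (P : α → Prop) {w e : ℝ}
    (h : |({q ∈ Φ | P q}.ncard : ℝ) / (Φ.ncard : ℝ) - w| ≤ e) :
    |({q ∈ Φ | P q}.ncard : ℝ) - w * (Φ.ncard : ℝ)| ≤ e * (Φ.ncard : ℝ) := by
  have h3 : (0 : ℝ) ≤ (Φ.ncard : ℝ) := Nat.cast_nonneg _
  rcases h3.eq_or_lt with h0 | h0
  · have h1 : ({q ∈ Φ | P q}.ncard : ℝ) ≤ (Φ.ncard : ℝ) :=
      Nat.cast_le.2 (Set.ncard_le_ncard (Set.sep_subset _ _) hΦ)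
    have h2 : (0 : ℝ) ≤ ({q ∈ Φ | P q}.ncard : ℝ) := Nat.cast_nonneg _
    have h4 : ({q ∈ Φ | P q}.ncard : ℝ) = 0 := le_antisymm (by linarith) h2
    rw [← h0, h4]
    simp
  · have h1 : ({q ∈ Φ | P q}.ncard : ℝ) - w * (Φ.ncard : ℝ) =
        (({q ∈ Φ | P q}.ncard : ℝ) / (Φ.ncard : ℝ) - w) * (Φ.ncard : ℝ) := by
      field_simp
    rw [h1, abs_mul, abs_of_pos h0]
    exact mul_le_mul_of_nonneg_right h h0.le

/-- the grid -/
theorem cell {η Λ : ℝ} (hη : 0 < η) (hΛ : 1 ≤ Λ) : ∃ N0 : ℕ, ∀ μ : ℝ, Λ⁻¹ ≤ μ → μ ≤ Λ →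
    ∃ j : ℤ, j ∈ Finset.Icc (-(N0 : ℤ)) N0 ∧ μ ≤ (1 + η) ^ j ∧ (1 + η) ^ j ≤ (1 + η) * μ := by
  have h1 : (1 : ℝ) < 1 + η := by linarith
  obtain ⟨N0, hN0⟩ := pow_unbounded_of_one_lt Λ h1
  refine ⟨N0, fun μ h2 h3 => ?_⟩
  have hΛ0 : (0 : ℝ) < Λ := by linarith
  have hμ : 0 < μ := lt_of_lt_of_le (by positivity) h2
  obtain ⟨n, hn1, hn2⟩ := exists_mem_Ioc_zpow hμ h1
  refine ⟨n + 1, ?_, hn2, ?_⟩
  · rw [Finset.mem_Icc]
    constructor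
    · by_contra hc
      push Not at hc
      have h4 : (1 + η) ^ (n + 1) ≤ (1 + η) ^ (-(N0 : ℤ)) := zpow_le_zpow_right₀ h1.le (by omega)
      have h5 : (1 + η) ^ (-(N0 : ℤ)) < Λ⁻¹ := by
        rw [zpow_neg, zpow_natCast]
        exact inv_strictAnti₀ hΛ0 hN0
      linarith
    · by_contra hc
      push Not at hc
      have h4 : (1 + η) ^ (N0 : ℤ) ≤ (1 + η) ^ n := zpow_le_zpow_right₀ h1.le (by omega)
      rw [zpow_natCast] at h4
      linarith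
  · rw [zpow_add₀ (by linarith), zpow_one, mul_comm]
    exact mul_le_mul_of_nonneg_left hn1.le (by linarith)

section

variable {F : Type} [Field F] [NumberField F]

theorem vol_mul (r ρ : InfinitePlace F → ℝ) : vol (fun v => r v * ρ v) = vol r * vol ρ := by
  unfold vol
  rw [← Finset.prod_mul_distrib]
  exact Finset.prod_congr rfl fun v _ => mul_pow _ _ _

theorem vol_le {r : InfinitePlace F → ℝ} {K : ℝ} (h : ∀ v, 0 ≤ r v ∧ r v ≤ K) :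
    vol r ≤ K ^ Module.finrank ℚ F := by
  unfold vol
  calc ∏ v, r v ^ v.mult ≤ ∏ v : InfinitePlace F, K ^ v.mult :=
        Finset.prod_le_prod (fun v _ => pow_nonneg (h v).1 _)
          fun v _ => pow_le_pow_left₀ (h v).1 (h v).2 _
    _ = K ^ Module.finrank ℚ F := by
        rw [Finset.prod_pow_eq_pow_sum, InfinitePlace.sum_mult_eq]

theorem vol_nonneg {r : InfinitePlace F → ℝ} (h : ∀ v, 0 ≤ r v) : 0 ≤ vol r :=
  Finset.prod_nonneg fun v _ => pow_nonneg (h v) _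

/-- periodicity -/
theorem jf_sub {J : Ideal (𝓞 F)} {p : 𝓞 F × 𝓞 F} {g y y' : 𝓞 F} {c : Ideal (𝓞 F)}
    (h : y' - y ∈ Ideal.span {g ^ 3} * J) : Jf J p g y c ⊆ Jf J p g y' c := by
  rintro q ⟨h1, h2, h3⟩
  have h4 : Ideal.span {g ^ 3} * J ≤ Ideal.span {g ^ 2} * J := by
    refine Ideal.mul_mono_left ?_
    rw [Ideal.span_singleton_le_span_singleton]
    exact pow_dvd_pow g (by norm_num)
  refine ⟨h1, ?_, ?_⟩
  · have e : y' ^ 2 * q.1 - g ^ 2 * p.1 = (y ^ 2 * q.1 - g ^ 2 * p.1) +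
        ((y' + y) * q.1) * (y' - y) := by ring
    rw [e]
    exact Ideal.add_mem _ h2 (h4 (Ideal.mul_mem_left _ _ h))
  · have e : y' ^ 3 * q.2 - g ^ 3 * p.2 = (y ^ 3 * q.2 - g ^ 3 * p.2) +
        ((y' ^ 2 + y' * y + y ^ 2) * q.2) * (y' - y) := by ring
    rw [e]
    exact Ideal.add_mem _ h3 (Ideal.mul_mem_left _ _ h)

theorem jf_eq {J : Ideal (𝓞 F)} {p : 𝓞 F × 𝓞 F} {g y y' : 𝓞 F} {c : Ideal (𝓞 F)}
    (h : y' - y ∈ Ideal.span {g ^ 3} * J) : Jf J p g y c = Jf J p g y' c := by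
  refine Set.Subset.antisymm (jf_sub h) (jf_sub ?_)
  have e : y - y' = -(y' - y) := by ring
  rw [e]
  exact neg_mem h

theorem reps (I : Ideal (𝓞 F)) (hI : I ≠ ⊥) :
    ∃ R : Finset (𝓞 F), ∀ x : 𝓞 F, ∃ t ∈ R, x - t ∈ I := by
  have hfin : Finite (𝓞 F ⧸ I) := Ideal.finiteQuotientOfFreeOfNeBot I hI
  refine ⟨(Set.finite_range (fun p : 𝓞 F ⧸ I => (Quotient.out p : 𝓞 F))).toFinset, fun x =>
    ⟨Quotient.out (Ideal.Quotient.mk I x), ?_, ?_⟩⟩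
  · rw [Set.Finite.mem_toFinset]
    exact ⟨_, rfl⟩
  · rw [← Ideal.Quotient.eq]
    exact (Ideal.Quotient.mk_out (Ideal.Quotient.mk I x)).symm

omit [NumberField F] in
theorem map_nat (v : InfinitePlace F) (n : ℕ) : v (((n : 𝓞 F)) : F) = n := by
  have h : (((n : 𝓞 F)) : F) = (n : F) := by simp
  rw [h, ← InfinitePlace.norm_embedding_eq, map_natCast, Complex.norm_natCast]

end

/-- FN2 in terms of `Bx` -/
theorem fn2 (hFN2 : PU.SpecFN2) (hBOX : PF.SpecBOX) (F : Type) [Field F] [NumberField F]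
    (ε θ : ℝ) (hε : 0 < ε) (hθ : 0 < θ) : ∃ Y0 : ℝ, ∀ Y : ℝ, Y0 ≤ Y → ∃ R0 : ℝ,
      ∀ ρ : InfinitePlace F → ℝ, (∀ v, R0 ≤ ρ v) → ∀ Φ : Set (𝓞 F × 𝓞 F),
      Φ ⊆ Bx F ρ → θ * ((Bx F ρ).ncard : ℝ) ≤ (Φ.ncard : ℝ) →
      ({c ∈ Tw F Y | ∃ D : Fˣ, (QuotientGroup.mk D : SqC F) = c ∧
        ∃ d : ℕ, ε < |propS Φ (D : F) d - PR.law d|}.ncard : ℝ) ≤ ε * ((Tw F Y).ncard : ℝ) := by
  obtain ⟨Y0, hY0⟩ := hFN2 F ε θ hε hθ
  refine ⟨Y0, fun Y hY => ?_⟩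
  obtain ⟨X0, hX0⟩ := hY0 Y hY
  obtain ⟨hbox, _, _, _⟩ := hBOX F
  refine ⟨max X0 1, fun ρ hρ => ?_⟩
  have hρ1 : ∀ v, 1 ≤ ρ v := fun v => (le_max_right _ _).trans (hρ v)
  have hX : ∀ v : InfinitePlace F, X0 ≤ ρ v ^ (6 * v.mult) := fun v => by
    refine (le_max_left _ _).trans ((hρ v).trans ?_)
    exact le_self_pow₀ (hρ1 v) (by have := v.mult_pos; omega)
  have h1 := hX0 (fun v => ρ v ^ (6 * v.mult)) hX
  have h2 : Box F (fun v => ρ v ^ (6 * v.mult)) = Bx F ρ := by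
    rw [hbox _ (fun v => pow_nonneg (zero_le_one.trans (hρ1 v)) _)]
    congr 1
    funext v
    rw [one_div]
    have h3 : (6 * (v.mult : ℝ)) = ((6 * v.mult : ℕ) : ℝ) := by push_cast; ring
    rw [h3]
    exact Real.pow_rpow_inv_natCast (zero_le_one.trans (hρ1 v)) (by have := v.mult_pos; omega)
  rw [h2] at h1
  exact h1

end MLMM

open MLMM

theorem specMLM (hPER : SpecPER) (hBAL : SpecBAL) (hUPB : SpecUPB) (hSHB : SpecSHB)
    (hTWU : SpecTWU) (hTNB : SpecTNB) (hBDI : SpecBDI) (hFN2 : PU.SpecFN2) (hBOX : PF.SpecBOX)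
    (hEQZ : PU.SpecEQZ) (hIDA : SpecIDA) (hCTW : SpecCTW) : SpecMLM := by
  intro F _ _ J p ε Λ hJ hε hΛ
  obtain ⟨g, B, hg, hB, hbal⟩ := hBAL F
  obtain ⟨CU, hCU, hU⟩ := hUPB F
  obtain ⟨CS, hCS, hS⟩ := hSHB F
  obtain ⟨CT, hCT, hTw⟩ := hTWU F
  obtain ⟨CI, hCI, hI⟩ := hIDA.upp F
  have hgR : (1 : ℝ) ≤ g := by exact_mod_cast hg
  have hg0 : ((g : ℕ) : 𝓞 F) ≠ 0 := by exact_mod_cast hg.ne'
  obtain ⟨Λ2, hΛ2⟩ : ∃ Λ2 : ℝ, Λ2 = Λ * B * g := ⟨_, rfl⟩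
  have hΛ0 : (0 : ℝ) < Λ := by linarith
  have hB0 : (0 : ℝ) < B := by linarith
  have hg0' : (0 : ℝ) < g := by linarith
  have hΛ21 : 1 ≤ Λ2 := by
    rw [hΛ2]
    have h1 : 1 ≤ Λ * B := by nlinarith
    nlinarith
  have hΛ20 : (0 : ℝ) < Λ2 := by linarith
  obtain ⟨M3, hM3⟩ : ∃ M3 : ℝ, M3 = ((2 * Λ2) ^ Module.finrank ℚ F) ^ 5 := ⟨_, rfl⟩
  have hM31 : 1 ≤ M3 := by
    rw [hM3]
    exact one_le_pow₀ (one_le_pow₀ (by linarith))
  have hM30 : (0 : ℝ) < M3 := by linarith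
  have hCI0 : (0 : ℝ) < CI := by linarith
  have hCU0 : (0 : ℝ) < CU := by linarith
  have hCT0 : (0 : ℝ) < CT := by linarith
  -- constants
  obtain ⟨η, hη0, hη1, hη2⟩ : ∃ η : ℝ, 0 < η ∧ η ≤ 1 ∧ CI * (CS * η) * M3 ≤ ε / 4 := by
    refine ⟨min 1 (ε / (4 * M3 * CI * CS)), by positivity, min_le_left _ _, ?_⟩
    calc CI * (CS * min 1 (ε / (4 * M3 * CI * CS))) * M3
        ≤ CI * (CS * (ε / (4 * M3 * CI * CS))) * M3 := by
          refine mul_le_mul_of_nonneg_right (mul_le_mul_of_nonneg_left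
            (mul_le_mul_of_nonneg_left (min_le_right _ _) hCS.le) hCI0.le) hM30.le
      _ = ε / 4 := by field_simp
  obtain ⟨θ, hθ0, hθ⟩ : ∃ θ : ℝ, 0 < θ ∧ CI * (θ * CU) * M3 ≤ ε / 4 := by
    refine ⟨ε / (4 * M3 * CI * CU), by positivity, le_of_eq ?_⟩
    field_simp
  obtain ⟨ε2, hε20, hε2⟩ : ∃ ε2 : ℝ, 0 < ε2 ∧ CU * M3 * ε2 ≤ ε / 4 := by
    refine ⟨ε / (4 * M3 * CU), by positivity, le_of_eq ?_⟩
    field_simp
  obtain ⟨δ, hδ, hbd⟩ := hBDI F B ε2 hB hε20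
  obtain ⟨N0, hcell⟩ := cell (η := η) (Λ := Λ2) hη0 hΛ21
  -- keys
  have hJg : Ideal.span {((g : ℕ) : 𝓞 F) ^ 3} * J ≠ ⊥ := by
    refine mul_ne_zero ?_ hJ
    rw [Ne, Ideal.zero_eq_bot, Ideal.span_singleton_eq_bot]
    exact pow_ne_zero 3 hg0
  obtain ⟨R, hR⟩ := reps (Ideal.span {((g : ℕ) : 𝓞 F) ^ 3} * J) hJg
  obtain ⟨KS, hKS⟩ : ∃ KS : Finset (Ideal (𝓞 F) × 𝓞 F × (InfinitePlace F → ℤ)),
      KS = (hIDA.fin F B).toFinset ×ˢ (R ×ˢ
        (Fintype.piFinset fun _ : InfinitePlace F => Finset.Icc (-(N0 : ℤ)) N0)) := ⟨_, rfl⟩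
  have hKc : (0 : ℝ) ≤ (KS.card : ℝ) := Nat.cast_nonneg _
  obtain ⟨ε1, hε10, hε1θ, hε1⟩ : ∃ ε1 : ℝ, 0 < ε1 ∧ ε1 ≤ θ ∧
      (KS.card : ℝ) * (ε1 * (CT * B)) ≤ δ := by
    refine ⟨min θ (δ / (((KS.card : ℝ) + 1) * (CT * B))), by positivity, min_le_left _ _, ?_⟩
    have h1 : min θ (δ / (((KS.card : ℝ) + 1) * (CT * B))) * (CT * B) ≤
        δ / ((KS.card : ℝ) + 1) := by
      calc min θ (δ / (((KS.card : ℝ) + 1) * (CT * B))) * (CT * B)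
          ≤ (δ / (((KS.card : ℝ) + 1) * (CT * B))) * (CT * B) :=
            mul_le_mul_of_nonneg_right (min_le_right _ _) (by positivity)
        _ = δ / ((KS.card : ℝ) + 1) := by field_simp
    calc (KS.card : ℝ) * (min θ (δ / (((KS.card : ℝ) + 1) * (CT * B))) * (CT * B))
        ≤ (KS.card : ℝ) * (δ / ((KS.card : ℝ) + 1)) := mul_le_mul_of_nonneg_left h1 hKc
      _ = ((KS.card : ℝ) / ((KS.card : ℝ) + 1)) * δ := by ring
      _ ≤ 1 * δ := by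
          refine mul_le_mul_of_nonneg_right ?_ hδ.le
          rw [div_le_one (by linarith)]; linarith
      _ = δ := one_mul _
  obtain ⟨YF, hYF⟩ := fn2 hFN2 hBOX F ε1 θ hε10 hθ0
  refine ⟨max YF 1, fun Y hY => ?_⟩
  have hY1 : 1 ≤ Y := (le_max_right _ _).trans hY
  have hY0 : 0 < Y := by linarith
  have hYB : YF ≤ B * Y := by
    have h1 : YF ≤ Y := (le_max_left _ _).trans hY
    nlinarith
  obtain ⟨R1, hR1⟩ := hYF (B * Y) hYB
  obtain ⟨R2, hR2⟩ := hS η hη0 hη1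
  have hpN : (1 : ℝ) ≤ (1 + η) ^ N0 := one_le_pow₀ (by linarith)
  refine ⟨max (max R1 R2) 1 * ((1 + η) ^ N0 * Λ2), fun ρ hρ T l hT hl d => ?_⟩
  have hm1 : (1 : ℝ) ≤ max (max R1 R2) 1 := le_max_right _ _
  have hρ1 : ∀ v, max (max R1 R2) 1 ≤ Λ2⁻¹ * ρ v := fun v => by
    rw [le_inv_mul_iff₀ hΛ20]
    refine le_trans ?_ (hρ v)
    have h1 : Λ2 ≤ (1 + η) ^ N0 * Λ2 := le_mul_of_one_le_left hΛ20.le hpN
    have h2 := mul_le_mul_of_nonneg_left h1 (zero_le_one.trans hm1)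
    linarith
  have hρ2 : ∀ (v : InfinitePlace F) (j : ℤ), -(N0 : ℤ) ≤ j →
      max (max R1 R2) 1 ≤ (1 + η) ^ j * ρ v := fun v j hj => by
    have h1 : (1 + η) ^ (-(N0 : ℤ)) ≤ (1 + η) ^ j := zpow_le_zpow_right₀ (by linarith) hj
    rw [zpow_neg, zpow_natCast] at h1
    have h2 : max (max R1 R2) 1 ≤ ((1 + η) ^ N0)⁻¹ * ρ v := by
      rw [le_inv_mul_iff₀ (by positivity)]
      refine le_trans ?_ (hρ v)
      have h3 : (1 + η) ^ N0 ≤ (1 + η) ^ N0 * Λ2 := le_mul_of_one_le_right (by positivity) hΛ21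
      have h4 := mul_le_mul_of_nonneg_left h3 (zero_le_one.trans hm1)
      linarith
    have hρp : 0 ≤ ρ v := by
      have h5 := hρ1 v
      by_contra hc
      push Not at hc
      have : Λ2⁻¹ * ρ v < 0 := mul_neg_of_pos_of_neg (by positivity) hc
      linarith
    exact h2.trans (mul_le_mul_of_nonneg_right h1 hρp)
  have hρ0 : ∀ v, 0 ≤ ρ v := fun v => by
    have h5 := hρ1 v
    by_contra hc
    push Not at hc
    have : Λ2⁻¹ * ρ v < 0 := mul_neg_of_pos_of_neg (by positivity) hc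
    linarith
  have hV0 : 0 ≤ vol ρ := MLMM.vol_nonneg hρ0
  -- the families
  obtain ⟨Fm, hFm⟩ : ∃ Fm : Ideal (𝓞 F) × 𝓞 F × (InfinitePlace F → ℤ) → Set (𝓞 F × 𝓞 F),
      Fm = fun κ => Jf J p ((g : ℕ) : 𝓞 F) κ.2.1 κ.1 ∩
        Bx F (fun v => (1 + η) ^ (κ.2.2 v) * ρ v) := ⟨_, rfl⟩
  obtain ⟨Bad, hBad⟩ : ∃ Bad : Ideal (𝓞 F) × 𝓞 F × (InfinitePlace F → ℤ) → Set (SqC F),
      Bad = fun κ => if θ * ((Bx F (fun v => (1 + η) ^ (κ.2.2 v) * ρ v)).ncard : ℝ) ≤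
        ((Fm κ).ncard : ℝ) then {c ∈ Tw F (B * Y) | ∃ D : Fˣ, (QuotientGroup.mk D : SqC F) = c ∧
          ∃ d : ℕ, ε1 < |propS (Fm κ) (D : F) d - PR.law d|} else ∅ := ⟨_, rfl⟩
  have hTwf : (Tw F (B * Y)).Finite := (hCTW F).1 _
  have hBadf : ∀ κ, (Bad κ).Finite := fun κ => by
    rw [hBad]
    dsimp only
    split_ifs
    · exact hTwf.subset (Set.sep_subset _ _)
    · exact Set.finite_empty
  have hBadc : ∀ κ ∈ KS, ((Bad κ).ncard : ℝ) ≤ ε1 * (CT * B) * Y := by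
    intro κ hκ
    have h0 : 0 ≤ ε1 * (CT * B) * Y := by positivity
    rw [hBad]
    dsimp only
    split_ifs with hd
    · have h1 := hR1 (fun v => (1 + η) ^ (κ.2.2 v) * ρ v) (fun v => by
        refine ((le_max_left _ _).trans (le_max_left _ _)).trans (hρ2 v _ ?_)
        rw [hKS, Finset.mem_product, Finset.mem_product] at hκ
        exact (Finset.mem_Icc.1 (Fintype.mem_piFinset.1 hκ.2.2 v)).1) (Fm κ)
        (by rw [hFm]; exact Set.inter_subset_right) hd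
      refine h1.trans ?_
      have h2 := hTw (B * Y) (by positivity)
      calc ε1 * ((Tw F (B * Y)).ncard : ℝ) ≤ ε1 * (CT * (B * Y)) :=
            mul_le_mul_of_nonneg_left h2 hε10.le
        _ = ε1 * (CT * B) * Y := by ring
    · rw [Set.ncard_empty]
      simpa using h0
  obtain ⟨BA, hBA⟩ : ∃ BA : Set (SqC F), BA = ⋃ κ ∈ KS, Bad κ := ⟨_, rfl⟩
  have hBAf : BA.Finite := by
    rw [hBA]
    exact Set.Finite.biUnion (Finset.finite_toSet KS) fun κ _ => hBadf κ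
  have hBAc : (BA.ncard : ℝ) ≤ δ * Y := by
    have h1 : (BA.ncard : ℝ) ≤ ∑ κ ∈ KS, ((Bad κ).ncard : ℝ) := by
      rw [hBA]
      exact_mod_cast Finset.set_ncard_biUnion_le KS Bad
    refine h1.trans ((Finset.sum_le_sum hBadc).trans ?_)
    rw [Finset.sum_const, nsmul_eq_mul]
    calc (KS.card : ℝ) * (ε1 * (CT * B) * Y) = (KS.card : ℝ) * (ε1 * (CT * B)) * Y := by ring
      _ ≤ δ * Y := mul_le_mul_of_nonneg_right hε1 hY0.le
  -- generators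
  choose! y c hyc using hbal
  have hw0 : 0 ≤ PR.law d := PT.FINM.law_nonneg d
  have hw1 : PR.law d ≤ 1 := PT.FINM.law_le_one d
  -- one ideal
  have hone : ∀ I ∈ T,
      |({q ∈ Fam J p I (fun v => l I v * (rt I * ρ v)) |
          Nat.card (Sel 2 (curve (q.1 : F) (q.2 : F))) = 2 ^ d}.ncard : ℝ) -
        PR.law d * ((Fam J p I (fun v => l I v * (rt I * ρ v))).ncard : ℝ)| ≤
      (CS * η + θ * CU + θ * CU) * (M3 * vol ρ ^ 5) +
        (if ∃ D : Fˣ, (D : F) = (y I : F) / (((g : ℕ) : 𝓞 F) : F) ∧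
          (QuotientGroup.mk D : SqC F) ∈ BA then CU * (M3 * vol ρ ^ 5) else 0) := by
    intro I hIT
    obtain ⟨hI0, hIY⟩ := hT I hIT
    obtain ⟨hy0, hc0, hcB, hrel, hyb⟩ := hyc I hI0
    have hrt : 0 < rt I := by
      unfold rt
      refine Real.rpow_pos_of_pos ?_ _
      exact_mod_cast Nat.pos_of_ne_zero fun h0 => hI0 (Ideal.absNorm_eq_zero_iff.1 h0)
    obtain ⟨μ, hμ⟩ : ∃ μ : InfinitePlace F → ℝ, μ = fun v =>
        l I v * rt I * ((g : ℝ) / v (y I : F)) := ⟨_, rfl⟩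
    have hvy : ∀ v : InfinitePlace F, 0 < v (y I : F) := fun v =>
      lt_of_lt_of_le (by positivity) (hyb v).1
    have hμb : ∀ v, Λ2⁻¹ ≤ μ v ∧ μ v ≤ Λ2 := by
      intro v
      obtain ⟨hl1, hl2⟩ := hl I hIT v
      obtain ⟨hy1, hy2⟩ := hyb v
      have hl0 : 0 < l I v := lt_of_lt_of_le (by positivity) hl1
      rw [hμ, hΛ2]
      dsimp only
      constructor
      · rw [mul_div_assoc', le_div_iff₀ (hvy v)]
        have h1 : (Λ * B * g)⁻¹ * v (y I : F) ≤ (Λ * B * g)⁻¹ * (B * rt I) :=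
          mul_le_mul_of_nonneg_left hy2 (by positivity)
        have h2 : (Λ * B * g)⁻¹ * (B * rt I) = Λ⁻¹ * rt I * (g : ℝ)⁻¹ := by
          field_simp
        have h3 : (g : ℝ)⁻¹ ≤ g := (inv_le_one_of_one_le₀ hgR).trans hgR
        have h4 : Λ⁻¹ * rt I * (g : ℝ)⁻¹ ≤ l I v * rt I * g :=
          mul_le_mul (mul_le_mul_of_nonneg_right hl1 hrt.le) h3 (by positivity) (by positivity)
        linarith
      · rw [mul_div_assoc', div_le_iff₀ (hvy v)]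
        have h1 : Λ * B * g * (B⁻¹ * rt I) ≤ Λ * B * g * v (y I : F) :=
          mul_le_mul_of_nonneg_left hy1 (by positivity)
        have h2 : Λ * B * g * (B⁻¹ * rt I) = Λ * rt I * g := by
          field_simp
        have h3 : l I v * rt I * g ≤ Λ * rt I * g := by gcongr
        linarith
    have hex : ∀ v, ∃ j : ℤ, j ∈ Finset.Icc (-(N0 : ℤ)) N0 ∧ μ v ≤ (1 + η) ^ j ∧
        (1 + η) ^ j ≤ (1 + η) * μ v := fun v => hcell (μ v) (hμb v).1 (hμb v).2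
    choose j hj1 hj2 hj3 using hex
    obtain ⟨t, htR, ht⟩ := hR (y I)
    have hκ : (c I, t, j) ∈ KS := by
      rw [hKS, Finset.mem_product, Finset.mem_product]
      refine ⟨?_, htR, Fintype.mem_piFinset.2 hj1⟩
      rw [Set.Finite.mem_toFinset]
      exact ⟨hc0, hcB⟩
    have hpos : ∀ v, 0 ≤ μ v := fun v => (inv_nonneg.2 hΛ20.le).trans (hμb v).1
    -- the sets
    obtain ⟨Ψ, hΨ⟩ : ∃ Ψ : Set (𝓞 F × 𝓞 F), Ψ = Jf J p ((g : ℕ) : 𝓞 F) (y I) (c I) ∩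
        Bx F (fun v => μ v * ρ v) := ⟨_, rfl⟩
    have hΨbox : Jf J p ((g : ℕ) : 𝓞 F) (y I) (c I) ∩
        Bx F (fun v => l I v * (rt I * ρ v) * (v ((((g : ℕ) : 𝓞 F)) : F) / v (y I : F))) = Ψ := by
      rw [hΨ, hμ]
      congr 2
      funext v
      rw [map_nat]
      ring
    have hper := hPER F J p ((g : ℕ) : 𝓞 F) (y I) I (c I) hg0 hy0 hrel
      (fun v => l I v * (rt I * ρ v))
    rw [hΨbox] at hper
    have e1 := hper {2 ^ d}
    have e2 := hper Set.univ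
    simp only [Set.mem_singleton_iff] at e1
    simp only [Set.mem_univ, and_true, Set.ofPred_mem_eq] at e2
    rw [e1, e2]
    have hBxf : (Bx F (fun v => (1 + η) ^ (j v) * ρ v)).Finite := (hEQZ F).1 _
    have hFmf : (Fm (c I, t, j)).Finite := by
      rw [hFm]
      exact hBxf.subset Set.inter_subset_right
    have hsub : Ψ ⊆ Fm (c I, t, j) := by
      rw [hΨ, hFm]
      rintro q ⟨hq1, hq2, hq3⟩
      refine ⟨?_, hq2, fun v => ?_⟩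
      · rw [jf_eq (y := t) (y' := y I) ht]
        exact hq1
      · have h1 : μ v * ρ v ≤ (1 + η) ^ (j v) * ρ v := mul_le_mul_of_nonneg_right (hj2 v) (hρ0 v)
        have h0 : 0 ≤ μ v * ρ v := mul_nonneg (hpos v) (hρ0 v)
        exact ⟨(hq3 v).1.trans (pow_le_pow_left₀ h0 h1 2),
          (hq3 v).2.trans (pow_le_pow_left₀ h0 h1 3)⟩
    have hdiff : Fm (c I, t, j) \ Ψ ⊆ Bx F (fun v => (1 + η) ^ (j v) * ρ v) \
        Bx F (fun v => μ v * ρ v) := by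
      rw [hΨ, hFm]
      rintro q ⟨⟨hq1, hq2⟩, hq3⟩
      refine ⟨hq2, fun hq4 => hq3 ⟨?_, hq4⟩⟩
      rw [← jf_eq (y := t) (y' := y I) ht]
      exact hq1
    have hvol : vol (fun v => (1 + η) ^ (j v) * ρ v) ^ 5 ≤ M3 * vol ρ ^ 5 := by
      have h1 : vol (fun v : InfinitePlace F => (1 + η) ^ (j v)) ≤
          (2 * Λ2) ^ Module.finrank ℚ F := by
        refine MLMM.vol_le fun v => ⟨by positivity, (hj3 v).trans ?_⟩
        exact mul_le_mul (by linarith) (hμb v).2 (hpos v) (by norm_num)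
      have h2 : 0 ≤ vol (fun v : InfinitePlace F => (1 + η) ^ (j v)) :=
        MLMM.vol_nonneg fun v => by positivity
      rw [MLMM.vol_mul, mul_pow, hM3]
      exact mul_le_mul_of_nonneg_right (pow_le_pow_left₀ h2 h1 5) (by positivity)
    have hd1 : ((Fm (c I, t, j) \ Ψ).ncard : ℝ) ≤ CS * η * (M3 * vol ρ ^ 5) := by
      refine (Nat.cast_le.2 (Set.ncard_le_ncard hdiff (hBxf.subset Set.sdiff_subset))).trans ?_
      refine (hR2 (fun v => (1 + η) ^ (j v) * ρ v) (fun v => μ v * ρ v) (fun v => ?_)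
        (fun v => ⟨?_, ?_⟩)).trans ?_
      · refine ((le_max_right _ _).trans (le_max_left _ _)).trans ((hρ1 v).trans ?_)
        exact mul_le_mul_of_nonneg_right (hμb v).1 (hρ0 v)
      · exact mul_le_mul_of_nonneg_right (hj2 v) (hρ0 v)
      · have := mul_le_mul_of_nonneg_right (hj3 v) (hρ0 v)
        linarith
      · exact mul_le_mul_of_nonneg_left hvol (by positivity)
    have hBxc : ((Bx F (fun v => (1 + η) ^ (j v) * ρ v)).ncard : ℝ) ≤ CU * (M3 * vol ρ ^ 5) := by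
      have h1 := (hU ⊤ (fun v => (1 + η) ^ (j v) * ρ v) (by simp) (fun v =>
        (le_max_right _ _).trans (hρ2 v _ (Finset.mem_Icc.1 (hj1 v)).1))).2
      have h2 : {q ∈ Bx F (fun v => (1 + η) ^ (j v) * ρ v) | Dv ⊤ q} =
          Bx F (fun v => (1 + η) ^ (j v) * ρ v) := by
        refine Set.Subset.antisymm (Set.sep_subset _ _) fun q hq => ⟨hq, ?_⟩
        unfold Dv
        rw [← Ideal.one_eq_top, one_pow, one_pow, Ideal.one_eq_top]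
        exact ⟨Submodule.mem_top, Submodule.mem_top⟩
      rw [h2] at h1
      refine h1.trans (mul_le_mul_of_nonneg_left ?_ hCU0.le)
      rw [Ideal.absNorm_top]
      simpa using hvol
    have hFmc : ((Fm (c I, t, j)).ncard : ℝ) ≤
        ((Bx F (fun v => (1 + η) ^ (j v) * ρ v)).ncard : ℝ) := by
      refine Nat.cast_le.2 (Set.ncard_le_ncard ?_ hBxf)
      rw [hFm]
      exact Set.inter_subset_right
    have hVM : 0 ≤ M3 * vol ρ ^ 5 := by positivity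
    refine (dev_le hFmf hsub _ hw0 hw1).trans ?_
    have hfin : |({q ∈ Fm (c I, t, j) | Nat.card (Sel 2 (curve ((q.1 : F) *
        ((y I : F) / (((g : ℕ) : 𝓞 F) : F)) ^ 2) ((q.2 : F) *
        ((y I : F) / (((g : ℕ) : 𝓞 F) : F)) ^ 3))) = 2 ^ d}.ncard : ℝ) -
        PR.law d * ((Fm (c I, t, j)).ncard : ℝ)| ≤ (θ * CU + θ * CU) * (M3 * vol ρ ^ 5) +
        (if ∃ D : Fˣ, (D : F) = (y I : F) / (((g : ℕ) : 𝓞 F) : F) ∧
          (QuotientGroup.mk D : SqC F) ∈ BA then CU * (M3 * vol ρ ^ 5) else 0) := by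
      have htr := dev_triv hFmf (fun q => Nat.card (Sel 2 (curve ((q.1 : F) *
        ((y I : F) / (((g : ℕ) : 𝓞 F) : F)) ^ 2) ((q.2 : F) *
        ((y I : F) / (((g : ℕ) : 𝓞 F) : F)) ^ 3))) = 2 ^ d) hw0 hw1
      have hθc : 0 ≤ θ * CU * (M3 * vol ρ ^ 5) := by positivity
      by_cases hD : ∃ D : Fˣ, (D : F) = (y I : F) / (((g : ℕ) : 𝓞 F) : F) ∧
          (QuotientGroup.mk D : SqC F) ∈ BA
      · rw [if_pos hD]
        refine htr.trans (hFmc.trans (hBxc.trans ?_))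
        linarith
      · rw [if_neg hD, add_zero]
        by_cases hdn : θ * ((Bx F (fun v => (1 + η) ^ (j v) * ρ v)).ncard : ℝ) ≤
            ((Fm (c I, t, j)).ncard : ℝ)
        · have hxne : (y I : F) / (((g : ℕ) : 𝓞 F) : F) ≠ 0 := by
            refine div_ne_zero ?_ ?_
            · simpa using hy0
            · simpa using hg.ne'
          have hDnot : (QuotientGroup.mk (Units.mk0 _ hxne) : SqC F) ∉ BA := fun h =>
            hD ⟨Units.mk0 _ hxne, rfl, h⟩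
          have hmem : (QuotientGroup.mk (Units.mk0 _ hxne) : SqC F) ∈ Tw F (B * Y) := by
            refine ⟨Units.mk0 _ hxne, rfl, ?_⟩
            have h1 := hTNB F ((g : ℕ) : 𝓞 F) (y I) I (c I) hg0 hy0 hI0 hc0 hrel
            have h2 : ((tn ((y I : F) / (((g : ℕ) : 𝓞 F) : F)) : ℕ) : ℝ) ≤
                (Ideal.absNorm I : ℝ) * (Ideal.absNorm (c I) : ℝ) := by exact_mod_cast h1
            refine h2.trans ?_
            rw [mul_comm B Y]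
            exact mul_le_mul hIY hcB (Nat.cast_nonneg _) hY0.le
          have hnb : (QuotientGroup.mk (Units.mk0 _ hxne) : SqC F) ∉ Bad (c I, t, j) := by
            intro h
            apply hDnot
            rw [hBA]
            exact Set.mem_biUnion hκ h
          rw [hBad] at hnb
          dsimp only at hnb
          rw [if_pos hdn] at hnb
          have hall : ¬ ∃ d : ℕ, ε1 < |propS (Fm (c I, t, j))
              ((Units.mk0 _ hxne : Fˣ) : F) d - PR.law d| := fun h =>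
            hnb ⟨hmem, Units.mk0 _ hxne, rfl, h⟩
          push Not at hall
          have h1 := dev_prop hFmf _ (hall d)
          refine h1.trans ?_
          have h2 : ε1 * ((Fm (c I, t, j)).ncard : ℝ) ≤ θ * (CU * (M3 * vol ρ ^ 5)) :=
            mul_le_mul hε1θ (hFmc.trans hBxc) (Nat.cast_nonneg _) hθ0.le
          linarith
        · push Not at hdn
          refine htr.trans (hdn.le.trans ?_)
          have h2 : θ * ((Bx F (fun v => (1 + η) ^ (j v) * ρ v)).ncard : ℝ) ≤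
              θ * (CU * (M3 * vol ρ ^ 5)) := mul_le_mul_of_nonneg_left hBxc hθ0.le
          linarith
    linarith
  refine (Finset.sum_le_sum hone).trans ?_
  rw [Finset.sum_add_distrib, Finset.sum_const, nsmul_eq_mul, ← Finset.sum_filter,
    Finset.sum_const, nsmul_eq_mul]
  have hTc : (T.card : ℝ) ≤ CI * Y := by
    refine le_trans ?_ (hI Y hY0.le)
    unfold IC
    rw [← Set.ncard_coe_finset]
    exact Nat.cast_le.2 (Set.ncard_le_ncard (fun I hI => hT I hI) (hIDA.fin F Y))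
  have hbdT := hbd Y BA hY1 hBAf hBAc (T.filter fun I => ∃ D : Fˣ,
    (D : F) = (y I : F) / (((g : ℕ) : 𝓞 F) : F) ∧ (QuotientGroup.mk D : SqC F) ∈ BA)
    ((g : ℕ) : 𝓞 F) y c hg0 (by
      intro I hI
      rw [Finset.mem_filter] at hI
      obtain ⟨hI0, hIY⟩ := hT I hI.1
      obtain ⟨hy0, hc0, hcB, hrel, _⟩ := hyc I hI0
      exact ⟨hI0, hIY, hy0, hc0, hcB, hrel, hI.2⟩)
  have hVM : 0 ≤ M3 * vol ρ ^ 5 := by positivity
  have hs1 : (T.card : ℝ) * ((CS * η + θ * CU + θ * CU) * (M3 * vol ρ ^ 5)) ≤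
      CI * Y * ((CS * η + θ * CU + θ * CU) * (M3 * vol ρ ^ 5)) :=
    mul_le_mul_of_nonneg_right hTc (by positivity)
  have hs2 := mul_le_mul_of_nonneg_right hbdT
    (by positivity : 0 ≤ CU * (M3 * vol ρ ^ 5))
  refine (add_le_add hs1 hs2).trans ?_
  have e : CI * Y * ((CS * η + θ * CU + θ * CU) * (M3 * vol ρ ^ 5)) +
      ε2 * Y * (CU * (M3 * vol ρ ^ 5)) = (CI * (CS * η) * M3 + CI * (θ * CU) * M3 +
        CI * (θ * CU) * M3 + CU * M3 * ε2) * (Y * vol ρ ^ 5) := by ring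
  rw [e]
  have h5 : 0 ≤ Y * vol ρ ^ 5 := by positivity
  calc (CI * (CS * η) * M3 + CI * (θ * CU) * M3 + CI * (θ * CU) * M3 + CU * M3 * ε2) *
      (Y * vol ρ ^ 5) ≤ ε * (Y * vol ρ ^ 5) := mul_le_mul_of_nonneg_right (by linarith) h5
    _ = ε * Y * vol ρ ^ 5 := by ring

end Pool.Agent.Lib.MP_8cb858_nt.PV
end

section
/-!
# FNC: the law for the curves with large twist part
-/
namespace Pool.Agent.Lib.MP_8cb858_nt.PV

open Polynomial NumberField IsDedekindDomain Filter Pool.Agent.Lib.MP_8cb858_nt.SEL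
open Pool.Agent.Lib.MP_8cb858_nt.PF Pool.Agent.Lib.MP_8cb858_nt.PU
open scoped Classical WithZero Topology

namespace FNCM

section

variable {F : Type} [Field F] [NumberField F]

theorem ex_uniq (hTWX : SpecTWX) {q : 𝓞 F × 𝓞 F} {I I' : Ideal (𝓞 F)} (hd : dsc q.1 q.2 ≠ 0)
    (h : Ex I q) (h' : Ex I' q) : I = I' :=
  dvd_antisymm (hTWX.div F q I' I hd h' h.1) (hTWX.div F q I I' hd h h'.1)

theorem norm_le (hTWX : SpecTWX) {q : 𝓞 F × 𝓞 F} {I I' : Ideal (𝓞 F)} (hd : dsc q.1 q.2 ≠ 0)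
    (h : Ex I q) (h' : Dv I' q) : Ideal.absNorm I' ≤ Ideal.absNorm I := by
  have h1 := hTWX.div F q I I' hd h h'
  have h2 := map_dvd (Ideal.absNorm (S := 𝓞 F)) h1
  refine Nat.le_of_dvd ?_ h2
  exact Nat.pos_of_ne_zero fun h0 => hTWX.neb F q I hd h.1 (Ideal.absNorm_eq_zero_iff.1 h0)

omit [NumberField F] in
theorem bx_dsc {ρ : InfinitePlace F → ℝ} {q : 𝓞 F × 𝓞 F} (h : q ∈ Bx F ρ) : dsc q.1 q.2 ≠ 0 := h.1

/-- a set which is the disjoint union of the families and of a tail -/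
theorem union_dev (hTWX : SpecTWX) {J : Ideal (𝓞 F)} {p : 𝓞 F × 𝓞 F} {ρ : InfinitePlace F → ℝ}
    (hf : (Bx F ρ).Finite) (T : Finset (Ideal (𝓞 F))) {Φ : Set (𝓞 F × 𝓞 F)} (hΦ : Φ ⊆ Bx F ρ)
    (h1 : ∀ I ∈ T, Fam J p I ρ ⊆ Φ) (P : 𝓞 F × 𝓞 F → Prop) {w e t : ℝ} (hw0 : 0 ≤ w)
    (hw1 : w ≤ 1)
    (h2 : ({q ∈ Φ | ∀ I ∈ T, q ∉ Fam J p I ρ}.ncard : ℝ) ≤ t)
    (h3 : ∑ I ∈ T, |({q ∈ Fam J p I ρ | P q}.ncard : ℝ) - w * ((Fam J p I ρ).ncard : ℝ)| ≤ e) :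
    |({q ∈ Φ | P q}.ncard : ℝ) - w * (Φ.ncard : ℝ)| ≤ e + t := by
  have hfF : ∀ I, (Fam J p I ρ).Finite := fun I => hf.subset (Set.sep_subset _ _)
  have hfΦ : Φ.Finite := hf.subset hΦ
  -- counting the union
  have hcount : ∀ Q : 𝓞 F × 𝓞 F → Prop, ((⋃ I ∈ T, {q ∈ Fam J p I ρ | Q q}).ncard : ℝ) =
      ∑ I ∈ T, ({q ∈ Fam J p I ρ | Q q}.ncard : ℝ) := by
    intro Q
    have hdis : (T : Set (Ideal (𝓞 F))).PairwiseDisjoint (fun I => {q ∈ Fam J p I ρ | Q q}) := by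
      intro I _ I' _ hne
      rw [Function.onFun, Set.disjoint_left]
      rintro q ⟨hq, _⟩ ⟨hq', _⟩
      exact hne (ex_uniq hTWX (bx_dsc hq.1) hq.2.2.2 hq'.2.2.2)
    have h4 : (⋃ I ∈ T, {q ∈ Fam J p I ρ | Q q}).ncard =
        ∑ I ∈ T, {q ∈ Fam J p I ρ | Q q}.ncard := by
      have h5 := Set.ncard_eq_toFinset_card (⋃ I ∈ T, {q ∈ Fam J p I ρ | Q q})
        (Set.Finite.biUnion (Finset.finite_toSet T) fun I _ => (hfF I).subset (Set.sep_subset _ _))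
      have hfQ : ∀ I, {q ∈ Fam J p I ρ | Q q}.Finite := fun I => (hfF I).subset (Set.sep_subset _ _)
      have h6 : (Set.Finite.biUnion (Finset.finite_toSet T)
          fun I _ => (hfF I).subset (Set.sep_subset _ _) :
            (⋃ I ∈ T, {q ∈ Fam J p I ρ | Q q}).Finite).toFinset =
          T.biUnion fun I => (hfQ I).toFinset := by
        ext q
        simp only [Set.Finite.mem_toFinset, Set.mem_iUnion, Finset.mem_biUnion, exists_prop,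
          Finset.mem_coe]
      rw [h5, h6, Finset.card_biUnion]
      · exact Finset.sum_congr rfl fun I _ => (Set.ncard_eq_toFinset_card _ (hfQ I)).symm
      · intro I hI I' hI' hne
        rw [Function.onFun, Finset.disjoint_left]
        intro q hq hq'
        rw [Set.Finite.mem_toFinset] at hq hq'
        exact (Set.disjoint_left.1 (hdis hI hI' hne)) hq hq'
    exact_mod_cast h4
  have hU : (⋃ I ∈ T, {q ∈ Fam J p I ρ | True}) ⊆ Φ := by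
    intro q hq
    simp only [Set.mem_iUnion] at hq
    obtain ⟨I, hI, hq1, _⟩ := hq
    exact h1 I hI hq1
  -- deviation for the union
  have hrev : |({q ∈ Φ | P q}.ncard : ℝ) - w * (Φ.ncard : ℝ)| ≤
      |({q ∈ (⋃ I ∈ T, {q ∈ Fam J p I ρ | True}) | P q}.ncard : ℝ) -
        w * ((⋃ I ∈ T, {q ∈ Fam J p I ρ | True}).ncard : ℝ)| +
      ((Φ \ (⋃ I ∈ T, {q ∈ Fam J p I ρ | True})).ncard : ℝ) := by
    set U := (⋃ I ∈ T, {q ∈ Fam J p I ρ | True}) with hUdef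
    have a1 : ((Φ \ U).ncard : ℝ) + (U.ncard : ℝ) = (Φ.ncard : ℝ) := by
      exact_mod_cast Set.ncard_sdiff_add_ncard_of_subset hU hfΦ
    have a2 : {q ∈ U | P q} ⊆ {q ∈ Φ | P q} := fun q hq => ⟨hU hq.1, hq.2⟩
    have a3 : (({q ∈ Φ | P q} \ {q ∈ U | P q}).ncard : ℝ) + ({q ∈ U | P q}.ncard : ℝ) =
        ({q ∈ Φ | P q}.ncard : ℝ) := by
      exact_mod_cast Set.ncard_sdiff_add_ncard_of_subset a2 (hfΦ.subset (Set.sep_subset _ _))
    have a4 : (({q ∈ Φ | P q} \ {q ∈ U | P q}).ncard : ℝ) ≤ ((Φ \ U).ncard : ℝ) := by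
      refine Nat.cast_le.2 (Set.ncard_le_ncard ?_ (hfΦ.subset Set.sdiff_subset))
      rintro q ⟨⟨hq1, hq2⟩, hq3⟩
      exact ⟨hq1, fun hq4 => hq3 ⟨hq4, hq2⟩⟩
    have a5 : (0 : ℝ) ≤ (({q ∈ Φ | P q} \ {q ∈ U | P q}).ncard : ℝ) := Nat.cast_nonneg _
    have a6 : (0 : ℝ) ≤ ((Φ \ U).ncard : ℝ) := Nat.cast_nonneg _
    have a7 : w * ((Φ \ U).ncard : ℝ) ≤ ((Φ \ U).ncard : ℝ) := mul_le_of_le_one_left a6 hw1
    have a8 : 0 ≤ w * ((Φ \ U).ncard : ℝ) := mul_nonneg hw0 a6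
    have e1 : ({q ∈ Φ | P q}.ncard : ℝ) - w * (Φ.ncard : ℝ) =
        (({q ∈ U | P q}.ncard : ℝ) - w * (U.ncard : ℝ)) +
        ((({q ∈ Φ | P q} \ {q ∈ U | P q}).ncard : ℝ) - w * ((Φ \ U).ncard : ℝ)) := by
      rw [← a1, ← a3]; ring
    rw [e1]
    refine (abs_add_le _ _).trans (add_le_add_right ?_ _)
    rw [abs_le]
    constructor <;> linarith
  refine hrev.trans (add_le_add ?_ ?_)
  · have e1 : {q ∈ (⋃ I ∈ T, {q ∈ Fam J p I ρ | True}) | P q} =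
        ⋃ I ∈ T, {q ∈ Fam J p I ρ | P q} := by
      ext q
      simp only [Set.mem_ofPred_eq, Set.mem_iUnion, exists_prop, and_true]
      constructor
      · rintro ⟨⟨I, hI, hq⟩, hP⟩
        exact ⟨I, hI, hq, hP⟩
      · rintro ⟨I, hI, hq, hP⟩
        exact ⟨⟨I, hI, hq⟩, hP⟩
    rw [e1, hcount P, hcount (fun _ => True), Finset.mul_sum, ← Finset.sum_sub_distrib]
    refine (Finset.abs_sum_le_sum_abs _ _).trans ((le_of_eq ?_).trans h3)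
    refine Finset.sum_congr rfl fun I _ => ?_
    have e3 : {q ∈ Fam J p I ρ | True} = Fam J p I ρ := by
      ext q
      simp
    rw [e3]
  · refine le_trans (Nat.cast_le.2 (Set.ncard_le_ncard ?_ (hfΦ.subset (Set.sep_subset _ _)))) h2
    rintro q ⟨hq1, hq2⟩
    refine ⟨hq1, fun I hI hq3 => hq2 ?_⟩
    simp only [Set.mem_iUnion]
    exact ⟨I, hI, hq3, trivial⟩

end

end FNCM

open FNCM

/-- The theorem with the size of the family. -/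
theorem mainC (hMLM : SpecMLM) (hTWX : SpecTWX) (hLWC : SpecLWC) (hTAL : SpecTAL)
    (hUPB : SpecUPB) (hBOX : PF.SpecBOX) (hEQZ : PU.SpecEQZ) (hIDA : SpecIDA)
    (F : Type) [Field F] [NumberField F] (J : Ideal (𝓞 F)) (p : 𝓞 F × 𝓞 F) (hJ : J ≠ ⊥) :
    ∃ c : ℝ, 0 < c ∧ ∀ ε : ℝ, 0 < ε → ∃ Y0 : ℝ, 1 ≤ Y0 ∧ ∀ Y : ℝ, Y0 ≤ Y → ∃ X0 : ℝ,
    ∀ X : InfinitePlace F → ℝ, (∀ v, X0 ≤ X v) → ∀ Φ : Set (𝓞 F × 𝓞 F),
    Φ = {q ∈ Box F X | q.1 - p.1 ∈ J ∧ q.2 - p.2 ∈ J ∧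
      ∃ I : Ideal (𝓞 F), Y ≤ (Ideal.absNorm I : ℝ) ∧ Dv I q} →
    0 < (Box F X).ncard ∧ c / Y ^ 4 * ((Box F X).ncard : ℝ) ≤ (Φ.ncard : ℝ) ∧ ∀ d : ℕ,
      |({q ∈ Φ | Nat.card (Sel 2 (curve (q.1 : F) (q.2 : F))) = 2 ^ d}.ncard : ℝ) -
        PR.law d * (Φ.ncard : ℝ)| ≤ ε * (Φ.ncard : ℝ) := by
  obtain ⟨c0, Y1, hc0, hlow⟩ := hLWC F J p hJ
  obtain ⟨C, hC, htal⟩ := hTAL F
  obtain ⟨CU, hCU, hU⟩ := hUPB F
  refine ⟨c0 / CU, by positivity, fun ε hε => ?_⟩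
  have hn : 0 < Module.finrank ℚ F := Module.finrank_pos
  have hC0 : (0 : ℝ) < C := by linarith
  obtain ⟨K, hK1, hK⟩ : ∃ K : ℝ, 1 ≤ K ∧ C / K ^ 4 ≤ ε * c0 / 4 := by
    refine ⟨max 1 (4 * C / (ε * c0)), le_max_left _ _, ?_⟩
    set K := max 1 (4 * C / (ε * c0)) with hKdef
    have h1 : 1 ≤ K := le_max_left _ _
    have h2 : 4 * C / (ε * c0) ≤ K := le_max_right _ _
    rw [div_le_iff₀ (by positivity)] at h2
    rw [div_le_iff₀ (by positivity)]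
    have h3 : K ≤ K ^ 4 := le_self_pow₀ h1 (by norm_num)
    nlinarith [mul_le_mul_of_nonneg_left h3 (by positivity : 0 ≤ ε * c0)]
  have hK0 : (0 : ℝ) < K := by linarith
  obtain ⟨Y0, hY0⟩ := hMLM F J p (ε * c0 / 2) K hJ (by positivity) hK1
  refine ⟨max (max Y0 Y1) 1, le_max_right _ _, fun Y hY => ?_⟩
  have hYY1 : Y1 ≤ Y := (le_max_right _ _).trans ((le_max_left _ _).trans hY)
  have hYY0 : Y0 ≤ Y := (le_max_left _ _).trans ((le_max_left _ _).trans hY)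
  have hY1 : 1 ≤ Y := (le_max_right _ _).trans hY
  have hYp : 0 < Y := by linarith
  have hKY : Y0 ≤ K * Y := by nlinarith
  have hKY1 : 1 ≤ K * Y := by nlinarith
  have hKYp : 0 < K * Y := by positivity
  obtain ⟨R1, hR1⟩ := hlow Y hYY1
  obtain ⟨R2, hR2⟩ := hY0 (K * Y) hKY
  obtain ⟨r, hr⟩ : ∃ r : ℝ, r = (K * Y) ^ ((Module.finrank ℚ F : ℝ)⁻¹) := ⟨_, rfl⟩
  have hr1 : 1 ≤ r := by
    rw [hr]
    exact Real.one_le_rpow hKY1 (by positivity)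
  have hr0 : 0 < r := by linarith
  have hrn : r ^ Module.finrank ℚ F = K * Y := by
    rw [hr]
    exact Real.rpow_inv_natCast_pow hKYp.le hn.ne'
  obtain ⟨X0, hX0⟩ := FN2M.box_ev hBOX F (max (max R1 (|R2| * r)) 1)
  refine ⟨X0, fun X hX Φ hΦ => ?_⟩
  obtain ⟨ρ, hρ, hbx⟩ := hX0 X hX
  rw [hbx] at hΦ
  have hρR1 : ∀ v, R1 ≤ ρ v := fun v =>
    (le_max_left _ _).trans ((le_max_left _ _).trans (hρ v))
  have hρR2 : ∀ v, R2 ≤ r⁻¹ * ρ v := fun v => by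
    rw [le_inv_mul_iff₀ hr0]
    have h1 := ((le_max_right _ _).trans (le_max_left _ _)).trans (hρ v)
    have h2 := mul_le_mul_of_nonneg_right (le_abs_self R2) hr0.le
    linarith
  have hρ1 : ∀ v, 1 ≤ ρ v := fun v => (le_max_right _ _).trans (hρ v)
  have hV : 0 ≤ vol ρ := MLMM.vol_nonneg fun v => zero_le_one.trans (hρ1 v)
  have hlow' := hR1 ρ hρR1
  rw [← hΦ] at hlow'
  have hBf := (hEQZ F).1 ρ
  have hbxc : ((Bx F ρ).ncard : ℝ) ≤ CU * vol ρ ^ 5 := by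
    have h1 := (hU ⊤ ρ (by simp) hρ1).2
    have h2 : {q ∈ Bx F ρ | Dv ⊤ q} = Bx F ρ := by
      refine Set.Subset.antisymm (Set.sep_subset _ _) fun q hq => ⟨hq, ?_⟩
      unfold Dv
      rw [← Ideal.one_eq_top, one_pow, one_pow, Ideal.one_eq_top]
      exact ⟨Submodule.mem_top, Submodule.mem_top⟩
    rw [h2, Ideal.absNorm_top] at h1
    simpa using h1
  refine ⟨by rw [hbx]; exact (hEQZ F).2.1 ρ hρ1, ?_, fun d => ?_⟩
  · rw [hbx]
    refine le_trans ?_ hlow'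
    have h1 := mul_le_mul_of_nonneg_left hbxc (by positivity : 0 ≤ c0 / CU / Y ^ 4)
    refine h1.trans (le_of_eq ?_)
    field_simp
  -- the deviation
  obtain ⟨T, hT⟩ : ∃ T : Finset (Ideal (𝓞 F)), T = (hIDA.fin F (K * Y)).toFinset.filter
      fun I => Y ≤ (Ideal.absNorm I : ℝ) := ⟨_, rfl⟩
  have hTm : ∀ I, I ∈ T ↔ (I ≠ ⊥ ∧ (Ideal.absNorm I : ℝ) ≤ K * Y) ∧
      Y ≤ (Ideal.absNorm I : ℝ) := by
    intro I
    rw [hT, Finset.mem_filter, Set.Finite.mem_toFinset]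
    rfl
  have hrt : ∀ I ∈ T, 0 < rt I := by
    intro I hI
    unfold rt
    exact Real.rpow_pos_of_pos (lt_of_lt_of_le hYp ((hTm I).1 hI).2) _
  have hsum := hR2 (fun v => r⁻¹ * ρ v) hρR2 T (fun I _ => r / rt I)
    (fun I hI => ((hTm I).1 hI).1) (fun I hI _ => by
      have hpos := hrt I hI
      obtain ⟨⟨_, h1⟩, h2⟩ := (hTm I).1 hI
      have hN0 : (0 : ℝ) ≤ (Ideal.absNorm I : ℝ) := Nat.cast_nonneg _
      have hrl : rt I ≤ r := by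
        rw [hr]
        unfold rt
        exact Real.rpow_le_rpow hN0 h1 (by positivity)
      constructor
      · have h3 : K⁻¹ ≤ 1 := inv_le_one_of_one_le₀ hK1
        refine h3.trans ?_
        rw [le_div_iff₀ hpos, one_mul]
        exact hrl
      · rw [div_le_iff₀ hpos]
        have h4 : r ≤ K ^ ((Module.finrank ℚ F : ℝ)⁻¹) * rt I := by
          rw [hr]
          unfold rt
          rw [← Real.mul_rpow hK0.le hN0]
          exact Real.rpow_le_rpow hKYp.le (mul_le_mul_of_nonneg_left h2 hK0.le) (by positivity)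
        have h5 : K ^ ((Module.finrank ℚ F : ℝ)⁻¹) ≤ K := by
          have h6 : ((Module.finrank ℚ F : ℝ)⁻¹) ≤ 1 :=
            inv_le_one_of_one_le₀ (by exact_mod_cast hn)
          calc K ^ ((Module.finrank ℚ F : ℝ)⁻¹) ≤ K ^ (1 : ℝ) :=
                Real.rpow_le_rpow_of_exponent_le hK1 h6
            _ = K := Real.rpow_one K
        exact h4.trans (mul_le_mul_of_nonneg_right h5 hpos.le)) d
  have hbox : ∀ I ∈ T, (fun v : InfinitePlace F => r / rt I * (rt I * (r⁻¹ * ρ v))) = ρ := by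
    intro I hI
    have hpos := hrt I hI
    funext v
    field_simp
  have hsum' : ∑ I ∈ T, |({q ∈ Fam J p I ρ |
          Nat.card (Sel 2 (curve (q.1 : F) (q.2 : F))) = 2 ^ d}.ncard : ℝ) -
        PR.law d * ((Fam J p I ρ).ncard : ℝ)| ≤ ε * c0 / 2 * (vol ρ ^ 5 / Y ^ 4) := by
    have h1 : ∑ I ∈ T, |({q ∈ Fam J p I ρ |
          Nat.card (Sel 2 (curve (q.1 : F) (q.2 : F))) = 2 ^ d}.ncard : ℝ) -
        PR.law d * ((Fam J p I ρ).ncard : ℝ)| =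
        ∑ I ∈ T, |({q ∈ Fam J p I (fun v => r / rt I * (rt I * (r⁻¹ * ρ v))) |
          Nat.card (Sel 2 (curve (q.1 : F) (q.2 : F))) = 2 ^ d}.ncard : ℝ) -
        PR.law d * ((Fam J p I (fun v => r / rt I * (rt I * (r⁻¹ * ρ v)))).ncard : ℝ)| :=
      Finset.sum_congr rfl fun I hI => by rw [hbox I hI]
    rw [h1]
    refine hsum.trans ?_
    have h2 : vol (fun v => r⁻¹ * ρ v) = (K * Y)⁻¹ * vol ρ := by
      have h3 : vol (fun _ : InfinitePlace F => r⁻¹) = (K * Y)⁻¹ := by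
        unfold vol
        rw [Finset.prod_pow_eq_pow_sum, InfinitePlace.sum_mult_eq, inv_pow, hrn]
      rw [MLMM.vol_mul, h3]
    rw [h2]
    have h4 : ε * c0 / 2 * (K * Y) * ((K * Y)⁻¹ * vol ρ) ^ 5 =
        ε * c0 / 2 * (vol ρ ^ 5 / (K * Y) ^ 4) := by
      field_simp
    rw [h4]
    refine mul_le_mul_of_nonneg_left ?_ (by positivity)
    refine div_le_div_of_nonneg_left (by positivity) (by positivity) ?_
    refine pow_le_pow_left₀ hYp.le ?_ 4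
    nlinarith
  have hw0 : 0 ≤ PR.law d := PT.FINM.law_nonneg d
  have hw1 : PR.law d ≤ 1 := PT.FINM.law_le_one d
  have hsubΦ : Φ ⊆ Bx F ρ := by
    rw [hΦ]
    exact Set.sep_subset _ _
  have hFΦ : ∀ I ∈ T, Fam J p I ρ ⊆ Φ := by
    rintro I hI q ⟨h1, h2, h3, h4⟩
    rw [hΦ]
    exact ⟨h1, h2, h3, I, ((hTm I).1 hI).2, h4.1⟩
  have htail : ({q ∈ Φ | ∀ I ∈ T, q ∉ Fam J p I ρ}.ncard : ℝ) ≤
      ε * c0 / 4 * (vol ρ ^ 5 / Y ^ 4) := by
    have h1 := htal ⊤ (K * Y) ρ (by simp) hKY1 hρ1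
    rw [Ideal.absNorm_top] at h1
    have h2 : {q ∈ Φ | ∀ I ∈ T, q ∉ Fam J p I ρ} ⊆ {q ∈ Bx F ρ | ∃ J' : Ideal (𝓞 F), J' ≠ ⊥ ∧
        K * Y ≤ (Ideal.absNorm J' : ℝ) ∧ Dv (⊤ * J') q} := by
      rintro q ⟨hq, hq2⟩
      have hqB := hsubΦ hq
      have hd := bx_dsc hqB
      obtain ⟨I, hI0, hI⟩ := hTWX.ex F q hd
      rw [hΦ] at hq
      obtain ⟨_, hp1, hp2, I', hI', hD'⟩ := hq
      have hN : Y ≤ (Ideal.absNorm I : ℝ) :=
        hI'.trans (by exact_mod_cast norm_le hTWX hd hI hD')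
      refine ⟨hqB, I, hI0, ?_, by rw [Ideal.top_mul]; exact hI.1⟩
      by_contra hc
      push Not at hc
      exact hq2 I ((hTm I).2 ⟨⟨hI0, hc.le⟩, hN⟩) ⟨hqB, hp1, hp2, hI⟩
    have h3 : ({q ∈ Φ | ∀ I ∈ T, q ∉ Fam J p I ρ}.ncard : ℝ) ≤
        C * (vol ρ ^ 5 / ((1 : ℝ) ^ 5 * (K * Y) ^ 4)) := by
      refine le_trans (Nat.cast_le.2 (Set.ncard_le_ncard h2 (hBf.subset (Set.sep_subset _ _)))) ?_
      exact_mod_cast h1
    refine h3.trans ?_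
    have h4 : C * (vol ρ ^ 5 / ((1 : ℝ) ^ 5 * (K * Y) ^ 4)) =
        C / K ^ 4 * (vol ρ ^ 5 / Y ^ 4) := by
      rw [one_pow, one_mul, mul_pow]
      field_simp
    rw [h4]
    exact mul_le_mul_of_nonneg_right hK (by positivity)
  have hfinal := union_dev hTWX hBf T hsubΦ hFΦ
    (fun q => Nat.card (Sel 2 (curve (q.1 : F) (q.2 : F))) = 2 ^ d) hw0 hw1 htail hsum'
  refine hfinal.trans ?_
  have h5 : ε * (c0 * (vol ρ ^ 5 / Y ^ 4)) ≤ ε * (Φ.ncard : ℝ) :=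
    mul_le_mul_of_nonneg_left hlow' hε.le
  have h6 : 0 ≤ ε * c0 * (vol ρ ^ 5 / Y ^ 4) := by positivity
  linarith

theorem specFNC (hMLM : SpecMLM) (hTWX : SpecTWX) (hLWC : SpecLWC) (hTAL : SpecTAL)
    (hUPB : SpecUPB) (hBOX : PF.SpecBOX) (hEQZ : PU.SpecEQZ) (hIDA : SpecIDA) : SpecFNC := by
  intro F _ _ J p ε hJ hε
  obtain ⟨c, hc, h⟩ := mainC hMLM hTWX hLWC hTAL hUPB hBOX hEQZ hIDA F J p hJ
  obtain ⟨Y0, hY0, h1⟩ := h ε hε
  refine ⟨Y0, fun Y hY => ?_⟩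
  obtain ⟨X0, h2⟩ := h1 Y hY
  have hY1 : 0 < Y := by linarith
  exact ⟨c / Y ^ 4, X0, by positivity, fun X hX Φ hΦ => (h2 X hX Φ hΦ).2⟩

end Pool.Agent.Lib.MP_8cb858_nt.PV
end
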