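import Pool.Agent.Lib.MP_8cb858_nt.PU.SpecA
import Pool.Agent.Lib.MP_8cb858_nt.PU.REC
import Pool.Agent.Lib.MP_8cb858_nt.PT.All
import Pool.Agent.Lib.MP_8cb858_nt.PF.RF.All
import Pool.Agent.Lib.MP_8cb858_nt.PT.TLZ
import Pool.Agent.Lib.MP_8cb858_nt.PR.DNP
import Pool.Agent.Lib.MP_8cb858_nt.PT.TLA
import Pool.Agent.Lib.MP_8cb858_nt.PU.TYZ
import Pool.Agent.Lib.MP_8cb858_nt.PF.SQL
import Pool.Agent.Lib.MP_8cb858_nt.PU.REF
import Pool.Agent.Lib.MP_8cb858_nt.PV.TWU
import Pool.Agent.Lib.MP_8cb858_nt.PV.TNB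
import Pool.Agent.Lib.MP_8cb858_nt.PU.UBI
import Pool.Agent.Lib.MP_8cb858_nt.PU.BAS
import Pool.Agent.Lib.MP_8cb858_nt.PU.WGH
import Pool.Agent.Lib.MP_8cb858_nt.PV.LWA
import Pool.Agent.Lib.MP_8cb858_nt.PV.TWX
import Pool.Agent.Lib.MP_8cb858_nt.PU.FL2
import Pool.Agent.Lib.MP_8cb858_nt.PU.MZ2
import Pool.Agent.Lib.MP_8cb858_nt.PU.TLZ
import Pool.Agent.Lib.MP_8cb858_nt.PU.TGS
import Pool.Agent.Lib.MP_8cb858_nt.PU.KRH
import Pool.Agent.Lib.MP_8cb858_nt.PU.WIN
import Pool.Agent.Lib.MP_8cb858_nt.PU.MMA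
import Pool.Agent.Lib.MP_8cb858_nt.PU.SQW
import Pool.Agent.Lib.MP_8cb858_nt.PU.TEX
import Pool.Agent.Lib.MP_8cb858_nt.PU.TGP
import Pool.Agent.Lib.MP_8cb858_nt.PU.WCH
import Pool.Agent.Lib.MP_8cb858_nt.PU.WAP
import Pool.Agent.Lib.MP_8cb858_nt.PU.WSU
import Pool.Agent.Lib.MP_8cb858_nt.PV.UPB
import Pool.Agent.Lib.MP_8cb858_nt.PV.FNC

section
/-!
# Module BLK: no success in a block
-/
set_option autoImplicit false

namespace Pool.Agent.Lib.MP_8cb858_nt.PU

open Finset
open scoped Classical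

theorem specBLK : SpecBLK := by
  intro α r L T I θ hθ h
  have h1 : (Fintype.piFinset L).filter (fun p => ∀ i ∈ I, ¬ T i (p i)) =
      Fintype.piFinset (fun i => if i ∈ I then (L i).filter (fun q => ¬ T i q) else L i) := by
    ext p
    rw [mem_filter, Fintype.mem_piFinset, Fintype.mem_piFinset]
    constructor
    · rintro ⟨h2, h3⟩ i
      by_cases hi : i ∈ I
      · rw [if_pos hi, mem_filter]
        exact ⟨h2 i, h3 i hi⟩
      · rw [if_neg hi]
        exact h2 i
    · intro h2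
      refine ⟨fun i => ?_, fun i hi => ?_⟩
      · have h3 := h2 i
        by_cases hi : i ∈ I
        · rw [if_pos hi, mem_filter] at h3
          exact h3.1
        · rwa [if_neg hi] at h3
      · have h3 := h2 i
        rw [if_pos hi, mem_filter] at h3
        exact h3.2
  rw [h1, Fintype.card_piFinset, Fintype.card_piFinset]
  push_cast
  have h2 : ∏ i : Fin r, (((if i ∈ I then (L i).filter (fun q => ¬ T i q) else L i).card : ℕ) : ℝ) ≤
      ∏ i : Fin r, ((if i ∈ I then θ else 1) * ((L i).card : ℝ)) := by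
    apply prod_le_prod
    · intro i _
      positivity
    · intro i _
      by_cases hi : i ∈ I
      · rw [if_pos hi, if_pos hi]
        exact h i hi
      · rw [if_neg hi, if_neg hi, one_mul]
  refine h2.trans (le_of_eq ?_)
  rw [prod_mul_distrib, prod_ite_mem]
  simp

end Pool.Agent.Lib.MP_8cb858_nt.PU
end

section
/-!
# Module CHB: Chebyshev's inequality for independent indicators
-/
set_option autoImplicit false

namespace Pool.Agent.Lib.MP_8cb858_nt.PU.CHBM

open Finset
open scoped Classical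

/-- Resampling one coordinate. -/
lemma resample {α : Type} {r : ℕ} (L : Fin r → Finset α) (i : Fin r) (F : (Fin r → α) → ℝ) :
    ∑ p ∈ Fintype.piFinset L, ∑ q ∈ L i, F (Function.update p i q) =
      ((L i).card : ℝ) * ∑ p ∈ Fintype.piFinset L, F p := by
  rw [← sum_product' (Fintype.piFinset L) (L i) (fun p q => F (Function.update p i q))]
  have h1 : ∑ x ∈ Fintype.piFinset L ×ˢ L i, F (Function.update x.1 i x.2) =
      ∑ x ∈ Fintype.piFinset L ×ˢ L i, F x.1 := by
    have hmem : ∀ x ∈ Fintype.piFinset L ×ˢ L i,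
        ((Function.update x.1 i x.2, x.1 i) : (Fin r → α) × α) ∈ Fintype.piFinset L ×ˢ L i := by
      intro x hx
      rw [mem_product, Fintype.mem_piFinset] at hx ⊢
      refine ⟨fun j => ?_, hx.1 i⟩
      by_cases hj : j = i
      · subst hj
        simpa using hx.2
      · simpa [Function.update_of_ne hj] using hx.1 j
    have hinv : ∀ x : (Fin r → α) × α,
        ((Function.update (Function.update x.1 i x.2) i (x.1 i),
          (Function.update x.1 i x.2) i) : (Fin r → α) × α) = x := by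
      intro x
      simp
    refine sum_bij' (fun x _ => (Function.update x.1 i x.2, x.1 i))
      (fun x _ => (Function.update x.1 i x.2, x.1 i)) hmem hmem (fun x _ => hinv x)
      (fun x _ => hinv x) (fun x _ => rfl)
  rw [h1, sum_product]
  simp only [sum_const, nsmul_eq_mul]
  rw [← mul_sum]

/-- the mean -/
noncomputable def mu {α : Type} {r : ℕ} (L : Fin r → Finset α) (T : Fin r → α → Prop) (i : Fin r) : ℝ :=
  (((L i).filter (T i)).card : ℝ) / ((L i).card : ℝ)

/-- the centred indicator -/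
noncomputable def YY {α : Type} {r : ℕ} (L : Fin r → Finset α) (T : Fin r → α → Prop) (i : Fin r) (q : α) :
    ℝ := (if T i q then 1 else 0) - mu L T i

lemma empty_of {α : Type} {r : ℕ} (L : Fin r → Finset α) (i : Fin r) (h0 : (L i).card = 0) :
    Fintype.piFinset L = ∅ := by
  rw [Finset.card_eq_zero] at h0
  apply eq_empty_of_forall_notMem
  intro p hp
  rw [Fintype.mem_piFinset] at hp
  have := hp i
  rw [h0] at this
  exact notMem_empty _ this

lemma sum_YY {α : Type} {r : ℕ} (L : Fin r → Finset α) (T : Fin r → α → Prop) (i : Fin r) :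
    ∑ q ∈ L i, YY L T i q = 0 := by
  unfold YY
  rw [sum_sub_distrib, sum_const, nsmul_eq_mul]
  have h1 : ∑ q ∈ L i, (if T i q then (1 : ℝ) else 0) = (((L i).filter (T i)).card : ℝ) := by
    rw [card_filter]
    push_cast
    rfl
  rw [h1, mu]
  rcases Nat.eq_zero_or_pos (L i).card with h0 | h0
  · have h2 : ((L i).filter (T i)).card = 0 := Nat.le_zero.1 (h0 ▸ card_filter_le _ _)
    rw [h0, h2]
    simp
  · have h0' : ((L i).card : ℝ) ≠ 0 := by exact_mod_cast h0.ne'
    field_simp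
    ring

lemma sum_YY_sq {α : Type} {r : ℕ} (L : Fin r → Finset α) (T : Fin r → α → Prop) (i : Fin r) :
    ∑ q ∈ L i, YY L T i q ^ 2 ≤ ((L i).card : ℝ) / 4 := by
  rcases Nat.eq_zero_or_pos (L i).card with h0 | h0
  · rw [Finset.card_eq_zero] at h0
    rw [h0]
    simp
  · have h0' : (0 : ℝ) < (L i).card := by exact_mod_cast h0
    have h1 : ∀ q ∈ L i, YY L T i q ^ 2 =
        (1 - 2 * mu L T i) * (if T i q then (1 : ℝ) else 0) + mu L T i ^ 2 := by
      intro q _
      unfold YY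
      split_ifs <;> ring
    rw [sum_congr rfl h1, sum_add_distrib, ← mul_sum, sum_const, nsmul_eq_mul]
    have h2 : ∑ q ∈ L i, (if T i q then (1 : ℝ) else 0) = mu L T i * (L i).card := by
      have h3 : ∑ q ∈ L i, (if T i q then (1 : ℝ) else 0) = (((L i).filter (T i)).card : ℝ) := by
        rw [card_filter]
        push_cast
        rfl
      rw [h3, mu]
      field_simp
    rw [h2]
    nlinarith [sq_nonneg (2 * mu L T i - 1), mul_nonneg h0'.le (sq_nonneg (2 * mu L T i - 1))]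

lemma cross {α : Type} {r : ℕ} (L : Fin r → Finset α) (T : Fin r → α → Prop) (i j : Fin r) (hij : i ≠ j) :
    ∑ p ∈ Fintype.piFinset L, YY L T i (p i) * YY L T j (p j) = 0 := by
  have h1 := resample L i (fun p => YY L T i (p i) * YY L T j (p j))
  have h2 : ∑ p ∈ Fintype.piFinset L, ∑ q ∈ L i,
      YY L T i ((Function.update p i q) i) * YY L T j ((Function.update p i q) j) = 0 := by
    apply sum_eq_zero
    intro p _
    simp only [Function.update_self, Function.update_of_ne hij.symm]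
    rw [← sum_mul, sum_YY, zero_mul]
  rw [h2] at h1
  rcases Nat.eq_zero_or_pos (L i).card with h0 | h0
  · rw [empty_of L i h0]
    simp
  · have h0' : ((L i).card : ℝ) ≠ 0 := by exact_mod_cast h0.ne'
    exact (mul_eq_zero.1 h1.symm).resolve_left h0'

lemma diag {α : Type} {r : ℕ} (L : Fin r → Finset α) (T : Fin r → α → Prop) (i : Fin r) :
    ∑ p ∈ Fintype.piFinset L, YY L T i (p i) * YY L T i (p i) ≤
      1 / 4 * ((Fintype.piFinset L).card : ℝ) := by
  have h1 := resample L i (fun p => YY L T i (p i) * YY L T i (p i))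
  have h2 : ∑ p ∈ Fintype.piFinset L, ∑ q ∈ L i,
      YY L T i ((Function.update p i q) i) * YY L T i ((Function.update p i q) i) ≤
      ∑ _p ∈ Fintype.piFinset L, ((L i).card : ℝ) / 4 := by
    apply sum_le_sum
    intro p _
    simp only [Function.update_self]
    have h3 := sum_YY_sq L T i
    simpa only [sq] using h3
  rw [h1, sum_const, nsmul_eq_mul] at h2
  rcases Nat.eq_zero_or_pos (L i).card with h0 | h0
  · rw [empty_of L i h0]
    simp
  · have h0' : (0 : ℝ) < (L i).card := by exact_mod_cast h0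
    nlinarith [h2, h0']

end Pool.Agent.Lib.MP_8cb858_nt.PU.CHBM

namespace Pool.Agent.Lib.MP_8cb858_nt.PU

open Finset CHBM
open scoped Classical

theorem specCHB : SpecCHB := by
  intro α r L T t ht
  have h1 : ∀ p : Fin r → α, ((univ.filter (fun i => T i (p i))).card : ℝ) -
      ∑ i, (((L i).filter (T i)).card : ℝ) / ((L i).card : ℝ) = ∑ i, YY L T i (p i) := by
    intro p
    unfold YY mu
    rw [sum_sub_distrib, card_filter]
    push_cast
    rfl
  have h2 : ∑ p ∈ Fintype.piFinset L, (∑ i, YY L T i (p i)) ^ 2 ≤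
      r / 4 * ((Fintype.piFinset L).card : ℝ) := by
    have h3 : ∀ p ∈ Fintype.piFinset L, (∑ i, YY L T i (p i)) ^ 2 =
        ∑ i, ∑ j, YY L T i (p i) * YY L T j (p j) := by
      intro p _
      rw [sq, sum_mul_sum]
    rw [sum_congr rfl h3, sum_comm]
    have h4 : ∀ i : Fin r, ∑ p ∈ Fintype.piFinset L, ∑ j, YY L T i (p i) * YY L T j (p j) ≤
        1 / 4 * ((Fintype.piFinset L).card : ℝ) := by
      intro i
      rw [sum_comm, ← add_sum_erase _ _ (mem_univ i)]
      have h5 : ∑ j ∈ univ.erase i, ∑ p ∈ Fintype.piFinset L, YY L T i (p i) * YY L T j (p j) = 0 := by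
        apply sum_eq_zero
        intro j hj
        exact cross L T i j (ne_of_mem_erase hj).symm
      rw [h5, add_zero]
      exact diag L T i
    refine (sum_le_sum fun i _ => h4 i).trans (le_of_eq ?_)
    rw [sum_const, nsmul_eq_mul, card_univ, Fintype.card_fin]
    ring
  refine le_trans ?_ h2
  rw [← nsmul_eq_mul, ← sum_const]
  have h6 : ∑ _p ∈ (Fintype.piFinset L).filter (fun p =>
      t ≤ |((univ.filter (fun i => T i (p i))).card : ℝ) -
        ∑ i, (((L i).filter (T i)).card : ℝ) / ((L i).card : ℝ)|), t ^ 2 ≤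
      ∑ p ∈ (Fintype.piFinset L).filter (fun p =>
      t ≤ |((univ.filter (fun i => T i (p i))).card : ℝ) -
        ∑ i, (((L i).filter (T i)).card : ℝ) / ((L i).card : ℝ)|),
        (∑ i, YY L T i (p i)) ^ 2 := by
    apply sum_le_sum
    intro p hp
    rw [mem_filter, h1] at hp
    rw [← sq_abs (∑ i, YY L T i (p i))]
    exact pow_le_pow_left₀ ht.le hp.2 2
  refine h6.trans ?_
  exact sum_le_sum_of_subset_of_nonneg (filter_subset _ _) (fun p _ _ => sq_nonneg _)

end Pool.Agent.Lib.MP_8cb858_nt.PU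
end

section
/-!
# Module ONE: a condition on one coordinate given the others
-/
set_option autoImplicit false

namespace Pool.Agent.Lib.MP_8cb858_nt.PU.ONEM

open Finset
open scoped Classical

/-- Resampling one coordinate. -/
lemma resample {α : Type} {r : ℕ} (L : Fin r → Finset α) (i : Fin r) (F : (Fin r → α) → ℝ) :
    ∑ p ∈ Fintype.piFinset L, ∑ q ∈ L i, F (Function.update p i q) =
      ((L i).card : ℝ) * ∑ p ∈ Fintype.piFinset L, F p := by
  rw [← sum_product' (Fintype.piFinset L) (L i) (fun p q => F (Function.update p i q))]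
  have h1 : ∑ x ∈ Fintype.piFinset L ×ˢ L i, F (Function.update x.1 i x.2) =
      ∑ x ∈ Fintype.piFinset L ×ˢ L i, F x.1 := by
    have hmem : ∀ x ∈ Fintype.piFinset L ×ˢ L i,
        ((Function.update x.1 i x.2, x.1 i) : (Fin r → α) × α) ∈ Fintype.piFinset L ×ˢ L i := by
      intro x hx
      rw [mem_product, Fintype.mem_piFinset] at hx ⊢
      refine ⟨fun j => ?_, hx.1 i⟩
      by_cases hj : j = i
      · subst hj
        simpa using hx.2
      · simpa [Function.update_of_ne hj] using hx.1 j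
    have hinv : ∀ x : (Fin r → α) × α,
        ((Function.update (Function.update x.1 i x.2) i (x.1 i),
          (Function.update x.1 i x.2) i) : (Fin r → α) × α) = x := by
      intro x
      simp
    refine sum_bij' (fun x _ => (Function.update x.1 i x.2, x.1 i))
      (fun x _ => (Function.update x.1 i x.2, x.1 i)) hmem hmem (fun x _ => hinv x)
      (fun x _ => hinv x) (fun x _ => rfl)
  rw [h1, sum_product]
  simp only [sum_const, nsmul_eq_mul]
  rw [← mul_sum]

end Pool.Agent.Lib.MP_8cb858_nt.PU.ONEM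

namespace Pool.Agent.Lib.MP_8cb858_nt.PU

open Finset ONEM
open scoped Classical

theorem specONE : SpecONE := by
  intro α r L i B c hc h
  have h1 := resample L i (fun p => if B p then (1 : ℝ) else 0)
  have h2 : ∑ p ∈ Fintype.piFinset L, ∑ q ∈ L i, (if B (Function.update p i q) then (1 : ℝ) else 0)
      ≤ ∑ _p ∈ Fintype.piFinset L, c * ((L i).card : ℝ) := by
    apply sum_le_sum
    intro p hp
    have h3 := h p hp
    rw [card_filter] at h3
    push_cast at h3
    exact h3
  rw [h1, sum_const, nsmul_eq_mul] at h2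
  have h3 : ∑ p ∈ Fintype.piFinset L, (if B p then (1 : ℝ) else 0) =
      (((Fintype.piFinset L).filter B).card : ℝ) := by
    rw [card_filter]
    push_cast
    rfl
  rw [h3] at h2
  rcases Nat.eq_zero_or_pos (L i).card with h0 | h0
  · have h4 : Fintype.piFinset L = ∅ := by
      rw [Finset.card_eq_zero] at h0
      apply eq_empty_of_forall_notMem
      intro p hp
      rw [Fintype.mem_piFinset] at hp
      have := hp i
      rw [h0] at this
      exact notMem_empty _ this
    rw [h4]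
    simp
  · have h0' : (0 : ℝ) < (L i).card := by exact_mod_cast h0
    nlinarith [h2, h0']

end Pool.Agent.Lib.MP_8cb858_nt.PU
end

section
/-!
# MP_8cb858_nt, phase 4 (Theorem B over number fields): all Specs of PU without hypotheses

Generated from the signatures of the modules `specXXX`.
-/
namespace Pool.Agent.Lib.MP_8cb858_nt.PU.All

theorem hANJ : SpecANJ := specANJ

theorem hTWV : SpecTWV := specTWV

theorem hVAP : SpecVAP := specVAP hTWV

theorem hAUV : SpecAUV := specAUV hVAP hTWV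

theorem hCLM : SpecCLM := specCLM

theorem hWAP : SpecWAP := specWAP PF.RF.All.hDNF

theorem hAUY : SpecAUY := specAUY hCLM hWAP

theorem hAUX : SpecAUX := specAUX hAUY PF.All.hDNV

theorem hESH : SpecESH := specESH PF.All.hDNS

theorem hEQO : SpecEQO := specEQO hESH SEL.hCNL

theorem hEQZ : SpecEQZ := specEQZ hEQO SEL.hLOW SEL.hCNU

theorem hPRG : SpecPRG := specPRG hEQZ PF.All.hDNC

theorem hTYZ : SpecTYZ := specTYZ PF.All.hDNQ PF.All.hDNP PF.All.hDNV PF.All.hSTF

theorem hAXP : SpecAXP := specAXP hPRG PF.All.hDNC hTYZ hEQZ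

theorem hBAB : SpecBAB := specBAB hEQZ hTYZ

theorem hFZ1 : SpecFZ1 := specFZ1 SEL.hINJ

theorem hFL2 : SpecFL2 := specFL2 PF.All.hNFF PF.All.hFRD PF.All.hFATT PF.All.hFATI PF.All.hFL1 PF.All.hFSQ PF.All.hFEI PF.All.hFRT PF.All.hDFI

theorem hFPT : SpecFPT := specFPT hFL2

theorem hMZ2 : SpecMZ2 := specMZ2 SEL.hCLS hFPT PF.All.hFAD PF.All.hFATT

theorem hMMA : SpecMMA := specMMA SEL.hCNL SEL.hBX2 hFZ1 hMZ2 PT.All.hMP1 PT.All.hMP2

theorem hFMZ : SpecFMZ := specFMZ hMMA SEL.hLOW PF.All.hNFF hTWV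

theorem hSFN : SpecSFN := specSFN SEL.hMAIN

theorem hDAF : SpecDAF := specDAF PF.All.hAFI

theorem hGEN : SpecGEN := specGEN hSFN hDAF PF.All.hDFI PF.All.hINV

theorem hBAS : SpecBAS := specBAS hFMZ hAXP hGEN hEQZ hTWV

theorem hPRD : SpecPRD := specPRD hPRG

theorem hTYV : SpecTYV := specTYV hPRD hTYZ hEQZ PF.All.hDNV

theorem hTYE : SpecTYE := specTYE hTYV hTYZ

theorem hCHB : SpecCHB := specCHB

theorem hTYP : SpecTYP := specTYP hCHB hTYZ

theorem hBLK : SpecBLK := specBLK

theorem hEQR : SpecEQR := specEQR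

theorem hBLB : SpecBLB := specBLB hBLK hEQR hTYZ

theorem hBSB : SpecBSB := specBSB hBAS hAUV hVAP hEQZ

theorem hONE : SpecONE := specONE

theorem hSML : SpecSML := specSML hONE

theorem hBNH : SpecBNH := specBNH

theorem hSWR : SpecSWR := specSWR

theorem hUBI : SpecUBI := specUBI hFMZ hBNH hSWR PT.All.hCHR

theorem hNOD : SpecNOD := specNOD hAXP hTYV hUBI hEQZ hTWV

theorem hNDB : SpecNDB := specNDB hEQZ hNOD hAUV hVAP

theorem hBDM : SpecBDM := specBDM hBAB hTYE hTYP hBLB hBSB hSML hNDB hEQZ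

theorem hIDA : SpecIDA := specIDA

theorem hWSU : SpecWSU := specWSU hIDA

theorem hCNF : SpecCNF := specCNF hIDA hWSU

theorem hTVL : SpecTVL := specTVL PF.All.hDFI PF.All.hLGF PF.All.hEVA PF.All.hINV PF.All.hLRF PF.All.hNFF

theorem hTRL : SpecTRL := specTRL hTVL PF.All.hDFI PF.All.hLSF PF.All.hINV PF.All.hNFF

theorem hCNT : SpecCNT := specCNT hTRL hGEN

theorem hSLH : SpecSLH := specSLH PF.All.hINV hDAF PF.All.hLGF PF.All.hLTF PF.All.hLVF PF.All.hLZF PF.All.hEVF PF.All.hNFF PT.All.hHAQ PT.All.hFAH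

theorem hLIT : SpecLIT := specLIT PT.All.hLIT PF.All.hTWD

theorem hELH : SpecELH := specELH PF.All.hINV PF.All.hEVF PF.All.hLZF PF.All.hNFF PT.All.hKMD hLIT PT.All.hFAH

theorem hRPH : SpecRPH := specRPH PF.All.hDFI PF.All.hLZF PF.All.hINV PF.All.hNFF hLIT

theorem hKRH : SpecKRH := specKRH PF.All.hDFI hSLH hTVL PT.All.hHAQ hRPH PT.All.hFAH PF.All.hNFF

theorem hCRH : SpecCRH := specCRH PF.All.hDFI hSLH hELH PT.All.hHAQ hKRH hRPH hSFN PT.All.hFAH

theorem hTNX : SpecTNX := specTNX hTWV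

theorem hUNR : SpecUNR := specUNR

theorem hGNA : SpecGNA := specGNA hUNR PF.All.hNFF

theorem hGNB : SpecGNB := specGNB PF.All.hSUI

theorem hGNX : SpecGNX := specGNX hGNA hGNB

theorem hCTW : SpecCTW := specCTW hTNX hCNF hWSU hGNX hIDA

theorem hEUL : SpecEUL := specEUL

theorem hRCH : SpecRCH := specRCH PF.All.hLGF PF.All.hLVF PF.All.hAFI PF.All.hINV PF.All.hADJ PT.All.hHAQ PT.All.hFAH PF.All.hNFF

theorem hWCH : SpecWCH := specWCH PT.All.hFAH PT.All.hSUH PF.All.hNFF PT.All.hKMD hLIT PF.All.hLSF PF.All.hEVF PF.All.hINV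

theorem hWGH : SpecWGH := specWGH hELH PT.All.hHAQ hRCH hWCH hKRH

theorem hSTH : SpecSTH := specSTH hWGH PR.specLAL hCRH hTVL PT.All.hHAQ PF.All.hDFI hSLH PT.All.hFAH PF.All.hNFF

theorem hSQW : SpecSQW := specSQW PF.All.hNFF

theorem hNRN : SpecNRN := specNRN

theorem hREF : SpecREF := specREF PF.RF.All.hHBP PF.RF.All.hHB2 PF.RF.All.hHBR PF.RF.All.hGLP PF.RF.All.hPRJ PF.RF.All.hLOC PF.RF.All.hISO PF.RF.All.hNRM hSQW hANJ hNRN

theorem hREC : SpecREC := specREC hREF PF.All.hCOO PF.All.hNRM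

theorem hSTP : SpecSTP := specSTP hSTH hREC

theorem hNST : SpecNST := specNST hSTP hCLM hVAP hAUV hTYZ

theorem hIVT : SpecIVT := specIVT hCLM

theorem hTGS : SpecTGS := specTGS hIVT hNST hCNT hGEN hTYZ hVAP hAUV

theorem hJNH : SpecJNH := specJNH PT.All.hLJR PT.All.hNR3 PF.All.hINV PT.All.hKMD PT.All.hFAH hDAF hLIT PF.All.hLZF PF.All.hLVF PF.All.hLGF PF.All.hEVF PF.All.hDFI hSFN PF.All.hNFF

theorem hJNK : SpecJNK := specJNK hJNH

theorem hJST : SpecJST := specJST hJNK hCLM hVAP hAUV hTYZ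

theorem hTGP : SpecTGP := specTGP PT.All.hTGT hTGS hJST hIVT hEQR

theorem hMXS : SpecMXS := specMXS hEQR hIVT hNST hCNT hGEN hCLM hTYZ hVAP hAUV

theorem hMXP : SpecMXP := specMXP PT.All.hMIX hMXS hEQR hIVT hCLM

theorem hGIV : SpecGIV := specGIV hEQR hIVT hCLM

theorem hPAI : SpecPAI := specPAI PT.All.hKPM hNST hTGP hMXP hGIV

theorem hTLZ : SpecTLZ := specTLZ PF.All.hDNT PF.All.hDNY SEL.hLOW

theorem hLSC : SpecLSC := specLSC PF.All.hVAL PF.All.hHNS PF.All.hRES PF.All.hLFB PF.All.hHNA PF.All.hNFF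

theorem hNUM : SpecNUM := specNUM hLSC hCLM

theorem hSTA : SpecSTA := specSTA hPAI hBDM PT.All.hSMM hTLZ hEQZ hGEN hAUX hNUM PT.All.hKPM hVAP PF.All.hDNV

theorem hTUR : SpecTUR := specTUR hIDA

theorem hMEU : SpecMEU := specMEU

theorem hHSL : SpecHSL := specHSL hIDA

theorem hMEL : SpecMEL := specMEL hEUL hHSL PF.All.hDNV

theorem hWIN : SpecWIN := specWIN PF.All.hDNV

theorem hTAS : SpecTAS := specTAS

theorem hTEX : SpecTEX := specTEX hWSU hTUR hMEU hMEL hWIN hTAS PF.All.hDNV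

theorem hTCL : SpecTCL := specTCL hWSU hWIN

theorem hTDF : SpecTDF := specTDF hTEX hTCL hWSU

theorem hPRX : SpecPRX := specPRX hGEN PF.All.hBOX

theorem hFIN : SpecFIN := specFIN hSTA hTDF hCTW hTNX hPRX hWSU hGNX

theorem hSTD : SpecSTD := specSTD hPAI hBDM PT.All.hSMM hTLZ hEQZ hGEN hAUX hNUM PT.All.hKPM hVAP PF.All.hDNV

theorem hFN2 : SpecFN2 := specFN2 hSTD hTDF hCTW hTNX hGEN PF.All.hBOX hWSU hGNX

theorem hSEQ : SpecSEQ := specSEQ PF.All.hDFI PF.All.hINV

end Pool.Agent.Lib.MP_8cb858_nt.PU.All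
end

section
/-!
# MP_8cb858_nt, block V: all Specs of PV without hypotheses

Generated from the signatures of the modules `specXXX`.
-/
namespace Pool.Agent.Lib.MP_8cb858_nt.PV.All

theorem hBAL : SpecBAL := specBAL

theorem hBDI : SpecBDI := specBDI PU.All.hIDA PU.All.hWSU

theorem hTRF : SpecTRF := specTRF

theorem hPER : SpecPER := specPER hTRF

theorem hUPB : SpecUPB := specUPB PF.All.hDNA

theorem hSHB : SpecSHB := specSHB PF.All.hDNS SEL.hCNU

theorem hTWU : SpecTWU := specTWU PU.All.hTNX PU.All.hWSU PU.All.hGNX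

theorem hTNB : SpecTNB := specTNB

theorem hMLM : SpecMLM := specMLM hPER hBAL hUPB hSHB hTWU hTNB hBDI PU.All.hFN2 PF.All.hBOX PU.All.hEQZ PU.All.hIDA PU.All.hCTW

theorem hTWX : SpecTWX := specTWX

theorem hSUI : SpecSUI := specSUI PU.All.hIDA

theorem hTAL : SpecTAL := specTAL hUPB hSUI PU.All.hIDA

theorem hLWA : SpecLWA := specLWA hTWX hTAL PF.All.hDNB SEL.hCNU PF.All.hDNV

theorem hLWC : SpecLWC := specLWC hLWA hTWX PU.All.hCNF PU.All.hWSU PU.All.hIDA

theorem hFNC : SpecFNC := specFNC hMLM hTWX hLWC hTAL hUPB PF.All.hBOX PU.All.hEQZ PU.All.hIDA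

theorem hLWO : SpecLWO := specLWO hLWA PU.All.hCNF PU.All.hWSU

end Pool.Agent.Lib.MP_8cb858_nt.PV.All
end
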