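import Pool.Agent.Lib.MP_8cb858_nt.PV.FNC

/-!
# FNO: the law for all pairs, ordered by the height of the base and the norm of the twist ideal
-/

namespace Pool.Agent.Lib.MP_8cb858_nt.PV

open Polynomial NumberField IsDedekindDomain Filter Pool.Agent.Lib.MP_8cb858_nt.SEL
open Pool.Agent.Lib.MP_8cb858_nt.PF Pool.Agent.Lib.MP_8cb858_nt.PU
open scoped Classical WithZero Topology

namespace FNOM

open FNCM

section

variable {F : Type} [Field F] [NumberField F]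

/-- The largest norm of an ideal `I` with `I^2 ∣ a`, `I^3 ∣ b`. -/
noncomputable def tm (q : 𝓞 F × 𝓞 F) : ℕ :=
  sSup {m : ℕ | ∃ I : Ideal (𝓞 F), Ideal.absNorm I = m ∧ q.1 ∈ I ^ 2 ∧ q.2 ∈ I ^ 3}

/-- The height of the base. -/
noncomputable def bh (q : 𝓞 F × 𝓞 F) : ℝ :=
  ⨆ v : InfinitePlace F, (max (v (q.1 : F) ^ 3) (v (q.2 : F) ^ 2) /
    (tm q : ℝ) ^ (6 / (Module.finrank ℚ F : ℝ))) ^ v.mult

/-- The ordering. -/
noncomputable def th (Φ : ℕ → ℝ) (q : 𝓞 F × 𝓞 F) : ℝ := max (bh q) (Φ (tm q))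

theorem tm_eq (hTWX : SpecTWX) {q : 𝓞 F × 𝓞 F} {I : Ideal (𝓞 F)} (hd : dsc q.1 q.2 ≠ 0)
    (h : Ex I q) : tm q = Ideal.absNorm I := by
  unfold tm
  refine le_antisymm (csSup_le ⟨_, I, rfl, h.1⟩ ?_) (le_csSup ⟨Ideal.absNorm I, ?_⟩ ⟨I, rfl, h.1⟩)
  · rintro m ⟨I', rfl, h'⟩
    exact norm_le hTWX hd h h'
  · rintro m ⟨I', rfl, h'⟩
    exact norm_le hTWX hd h h'

/-- The scaling `X^(1/(6 mult))`. -/
noncomputable def rx (X : ℝ) (v : InfinitePlace F) : ℝ := X ^ ((6 * v.mult : ℕ) : ℝ)⁻¹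

omit [NumberField F] in
theorem rx_nonneg {X : ℝ} (hX : 0 ≤ X) (v : InfinitePlace F) : 0 ≤ rx X v :=
  Real.rpow_nonneg hX _

omit [NumberField F] in
theorem rx_pow {X : ℝ} (hX : 0 ≤ X) (v : InfinitePlace F) : (rx X v ^ 6) ^ v.mult = X := by
  unfold rx
  rw [← pow_mul]
  exact Real.rpow_inv_natCast_pow hX (by have := v.mult_pos; omega)

theorem rt_pos {I : Ideal (𝓞 F)} (hI : I ≠ ⊥) : 0 < rt I := by
  unfold rt
  refine Real.rpow_pos_of_pos ?_ _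
  exact_mod_cast Nat.pos_of_ne_zero fun h0 => hI (Ideal.absNorm_eq_zero_iff.1 h0)

theorem rt_six (I : Ideal (𝓞 F)) :
    (Ideal.absNorm I : ℝ) ^ (6 / (Module.finrank ℚ F : ℝ)) = rt I ^ 6 := by
  unfold rt
  rw [← Real.rpow_natCast, ← Real.rpow_mul (Nat.cast_nonneg _)]
  congr 1
  push_cast
  ring

theorem bh_iff (hTWX : SpecTWX) {q : 𝓞 F × 𝓞 F} {I : Ideal (𝓞 F)} (hd : dsc q.1 q.2 ≠ 0)
    (h : Ex I q) {X : ℝ} (hX : 0 ≤ X) :
    bh q ≤ X ↔ q ∈ Bx F (fun v => rt I * rx X v) := by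
  have hI0 : I ≠ ⊥ := hTWX.neb F q I hd h.1
  have hr := rt_pos hI0
  unfold bh
  rw [tm_eq hTWX hd h, rt_six, ciSup_le_iff (Set.finite_range _).bddAbove]
  have hone : ∀ v : InfinitePlace F, ((max (v (q.1 : F) ^ 3) (v (q.2 : F) ^ 2) / rt I ^ 6) ^ v.mult
      ≤ X ↔ v (q.1 : F) ≤ (rt I * rx X v) ^ 2 ∧ v (q.2 : F) ≤ (rt I * rx X v) ^ 3) := by
    intro v
    have h0 : 0 ≤ rx X v := rx_nonneg hX v
    have h1 : 0 ≤ v (q.1 : F) := apply_nonneg v _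
    have h2 : 0 ≤ v (q.2 : F) := apply_nonneg v _
    have hs : 0 ≤ rt I * rx X v := mul_nonneg hr.le h0
    conv_lhs => rw [← rx_pow hX v]
    rw [pow_le_pow_iff_left₀ (by positivity) (by positivity) (by have := v.mult_pos; omega),
      div_le_iff₀ (by positivity), max_le_iff]
    have e1 : rx X v ^ 6 * rt I ^ 6 = ((rt I * rx X v) ^ 2) ^ 3 := by ring
    have e2 : rx X v ^ 6 * rt I ^ 6 = ((rt I * rx X v) ^ 3) ^ 2 := by ring
    refine and_congr ?_ ?_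
    · rw [e1, pow_le_pow_iff_left₀ h1 (by positivity) (by norm_num)]
    · rw [e2, pow_le_pow_iff_left₀ h2 (by positivity) (by norm_num)]
  constructor
  · intro h3
    exact ⟨hd, fun v => (hone v).1 (h3 v)⟩
  · rintro ⟨_, h3⟩ v
    exact (hone v).2 (h3 v)

/-- the family as a union -/
theorem mem_iff (hTWX : SpecTWX) {Φ : ℕ → ℝ} {X : ℝ} (hX : 0 ≤ X) {Y : ℕ}
    (hY : ∀ D : ℕ, Φ D ≤ X ↔ D ≤ Y) {T : Finset (Ideal (𝓞 F))}
    (hT : ∀ I, I ∈ T ↔ I ≠ ⊥ ∧ (Ideal.absNorm I : ℝ) ≤ Y) (J : Ideal (𝓞 F)) (p q : 𝓞 F × 𝓞 F) :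
    (4 * q.1 ^ 3 + 27 * q.2 ^ 2 ≠ 0 ∧ q.1 - p.1 ∈ J ∧ q.2 - p.2 ∈ J ∧ th Φ q ≤ X) ↔
      ∃ I ∈ T, q ∈ Fam J p I (fun v => rt I * rx X v) := by
  constructor
  · rintro ⟨hd, h1, h2, h3⟩
    have hd' : dsc q.1 q.2 ≠ 0 := hd
    obtain ⟨I, hI0, hI⟩ := hTWX.ex F q hd'
    unfold th at h3
    rw [max_le_iff, tm_eq hTWX hd' hI, hY, bh_iff hTWX hd' hI hX] at h3
    exact ⟨I, (hT I).2 ⟨hI0, by exact_mod_cast h3.2⟩, h3.1, h1, h2, hI⟩
  · rintro ⟨I, hIT, h1, h2, h3, h4⟩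
    have hd' : dsc q.1 q.2 ≠ 0 := h1.1
    refine ⟨hd', h2, h3, ?_⟩
    unfold th
    rw [max_le_iff, tm_eq hTWX hd' h4, hY, bh_iff hTWX hd' h4 hX]
    exact ⟨h1, by exact_mod_cast ((hT I).1 hIT).2⟩

/-- counting the union -/
theorem count (hTWX : SpecTWX) (hEQZ : PU.SpecEQZ) (T : Finset (Ideal (𝓞 F))) (J : Ideal (𝓞 F))
    (p : 𝓞 F × 𝓞 F) (X : ℝ) (Q : 𝓞 F × 𝓞 F → Prop) :
    {q | ∃ I ∈ T, q ∈ Fam J p I (fun v => rt I * rx X v) ∧ Q q}.Finite ∧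
    ({q | ∃ I ∈ T, q ∈ Fam J p I (fun v => rt I * rx X v) ∧ Q q}.ncard : ℝ) =
      ∑ I ∈ T, ({q ∈ Fam J p I (fun v => rt I * rx X v) | Q q}.ncard : ℝ) := by
  have hfQ : ∀ I, {q ∈ Fam J p I (fun v => rt I * rx X v) | Q q}.Finite := fun I =>
    ((hEQZ F).1 _).subset fun q hq => hq.1.1
  have e : {q | ∃ I ∈ T, q ∈ Fam J p I (fun v => rt I * rx X v) ∧ Q q} =
      ((T.biUnion fun I => (hfQ I).toFinset : Finset (𝓞 F × 𝓞 F)) : Set (𝓞 F × 𝓞 F)) := by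
    ext q
    simp only [Finset.coe_biUnion, Set.mem_iUnion, Set.Finite.coe_toFinset, exists_prop,
      Set.mem_ofPred_eq, Finset.mem_coe]
  refine ⟨by rw [e]; exact Finset.finite_toSet _, ?_⟩
  rw [e, Set.ncard_coe_finset, Finset.card_biUnion]
  · push_cast
    exact Finset.sum_congr rfl fun I _ => by rw [Set.ncard_eq_toFinset_card _ (hfQ I)]
  · intro I hI I' hI' hne
    rw [Function.onFun, Finset.disjoint_left]
    intro q hq hq'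
    rw [Set.Finite.mem_toFinset] at hq hq'
    exact hne (ex_uniq hTWX hq.1.1.1 hq.1.2.2.2 hq'.1.2.2.2)

theorem countable_int : Countable (𝓞 F) := by
  obtain ⟨n, f, hf⟩ := Module.Finite.exists_fin' ℤ (𝓞 F)
  exact hf.countable

theorem countable_ideal : Countable (Ideal (𝓞 F)) := by
  have hcF : Countable (𝓞 F) := countable_int
  have hs : Function.Surjective (fun s : Finset (𝓞 F) => Ideal.span (s : Set (𝓞 F))) := by
    intro I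
    obtain ⟨s, hs⟩ := (inferInstance : IsNoetherian (𝓞 F) (𝓞 F)).noetherian I
    exact ⟨s, hs⟩
  exact hs.countable

/-- one step -/
theorem step (hMLM : SpecMLM) (hLWO : SpecLWO) (J : Ideal (𝓞 F)) (p : 𝓞 F × 𝓞 F) (hJ : J ≠ ⊥) :
    ∃ c0 : ℝ, 0 < c0 ∧ ∀ ε : ℝ, 0 < ε → ∃ Y1 : ℕ, ∀ Y : ℕ, Y1 ≤ Y → ∃ X1 : ℝ, 1 ≤ X1 ∧
      ∀ X : ℝ, X1 ≤ X → ∀ T : Finset (Ideal (𝓞 F)),
      (∀ I, I ∈ T ↔ I ≠ ⊥ ∧ (Ideal.absNorm I : ℝ) ≤ Y) →
      0 < ∑ I ∈ T, ((Fam J p I (fun v => rt I * rx X v)).ncard : ℝ) ∧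
      ∀ d : ℕ, ∑ I ∈ T, |({q ∈ Fam J p I (fun v => rt I * rx X v) |
          Nat.card (Sel 2 (curve (q.1 : F) (q.2 : F))) = 2 ^ d}.ncard : ℝ) -
        PR.law d * ((Fam J p I (fun v => rt I * rx X v)).ncard : ℝ)| ≤
        ε / c0 * ∑ I ∈ T, ((Fam J p I (fun v => rt I * rx X v)).ncard : ℝ) := by
  obtain ⟨c0, Y1, hc0, hlow⟩ := hLWO F J p hJ
  refine ⟨c0, hc0, fun ε hε => ?_⟩
  obtain ⟨Y0, hY0⟩ := hMLM F J p ε 1 hJ hε le_rfl
  refine ⟨⌈max (max Y0 Y1) 1⌉₊, fun Y hY => ?_⟩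
  have hYR : max (max Y0 Y1) 1 ≤ (Y : ℝ) := (Nat.le_ceil _).trans (by exact_mod_cast hY)
  have hYY0 : Y0 ≤ (Y : ℝ) := (le_max_left _ _).trans ((le_max_left _ _).trans hYR)
  have hYY1 : Y1 ≤ (Y : ℝ) := (le_max_right _ _).trans ((le_max_left _ _).trans hYR)
  have hY1 : (1 : ℝ) ≤ Y := (le_max_right _ _).trans hYR
  obtain ⟨R1, hR1⟩ := hY0 Y hYY0
  obtain ⟨R2, hR2⟩ := hlow Y hYY1
  set M := max (max R1 R2) 1 with hM
  have hM1 : 1 ≤ M := le_max_right _ _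
  refine ⟨M ^ 12, one_le_pow₀ hM1, fun X hX T hT => ?_⟩
  have hX0 : 0 ≤ X := le_trans (by positivity) hX
  have hrx : ∀ v : InfinitePlace F, M ≤ rx X v := by
    intro v
    have h1 : M ^ (6 * v.mult) ≤ (rx X v) ^ (6 * v.mult) := by
      rw [pow_mul (rx X v), rx_pow hX0 v]
      refine le_trans (pow_le_pow_right₀ hM1 ?_) hX
      have := v.mult_pos
      unfold InfinitePlace.mult
      split_ifs <;> norm_num
    exact (pow_le_pow_iff_left₀ (by linarith) (rx_nonneg hX0 v)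
      (by have := v.mult_pos; omega)).1 h1
  have hV : 0 < vol (fun v : InfinitePlace F => rx X v) := by
    unfold vol
    exact Finset.prod_pos fun v _ => pow_pos (by linarith [hrx v]) _
  have h1 := hR2 (fun v => rx X v)
    (fun v => ((le_max_right _ _).trans (le_max_left _ _)).trans (hrx v)) T
    (fun I hI0 hI => (hT I).2 ⟨hI0, hI⟩)
  have h2 : 0 < c0 * (Y : ℝ) * vol (fun v : InfinitePlace F => rx X v) ^ 5 := by positivity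
  refine ⟨lt_of_lt_of_le h2 h1, fun d => ?_⟩
  have h3 := hR1 (fun v => rx X v)
    (fun v => ((le_max_left _ _).trans (le_max_left _ _)).trans (hrx v)) T (fun _ _ => 1)
    (fun I hI => (hT I).1 hI) (fun _ _ _ => by simp) d
  simp only [one_mul] at h3
  refine h3.trans ?_
  have h4 := mul_le_mul_of_nonneg_left h1 (by positivity : 0 ≤ ε / c0)
  refine le_trans (le_of_eq ?_) h4
  field_simp

end

end FNOM

open FNOM FNCM

theorem mainO (hMLM : SpecMLM) (hLWO : SpecLWO) (hTWX : SpecTWX) (hEQZ : PU.SpecEQZ)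
    (hIDA : SpecIDA) (F : Type) [Field F] [NumberField F] :
    ∃ Φ₀ : ℕ → ℝ, ∀ Φ : ℕ → ℝ, Monotone Φ → (∀ n, Φ₀ n ≤ Φ n) →
      (∀ X : ℝ, {q : 𝓞 F × 𝓞 F | 4 * q.1 ^ 3 + 27 * q.2 ^ 2 ≠ 0 ∧ th Φ q ≤ X}.Finite) ∧
      ∀ (J : Ideal (𝓞 F)) (p : 𝓞 F × 𝓞 F), J ≠ ⊥ → ∀ d : ℕ, Tendsto (fun X : ℝ =>
        ({q : 𝓞 F × 𝓞 F | 4 * q.1 ^ 3 + 27 * q.2 ^ 2 ≠ 0 ∧ q.1 - p.1 ∈ J ∧
          q.2 - p.2 ∈ J ∧ th Φ q ≤ X ∧
          Nat.card (Sel 2 (curve (q.1 : F) (q.2 : F))) = 2 ^ d}.ncard : ℝ) /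
        ({q : 𝓞 F × 𝓞 F | 4 * q.1 ^ 3 + 27 * q.2 ^ 2 ≠ 0 ∧ q.1 - p.1 ∈ J ∧
          q.2 - p.2 ∈ J ∧ th Φ q ≤ X}.ncard : ℝ)) atTop
        (𝓝 (PR.law d)) := by
  have hcF : Countable (𝓞 F) := countable_int
  have hcI : Countable (Ideal (𝓞 F)) := countable_ideal
  -- enumeration of the residue classes
  obtain ⟨en, hen⟩ := exists_surjective_nat (Ideal (𝓞 F) × (𝓞 F × 𝓞 F))
  obtain ⟨Jk, hJk0, hJk⟩ : ∃ Jk : ℕ → Ideal (𝓞 F), (∀ k, Jk k ≠ ⊥) ∧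
      ∀ k, (en k).1 ≠ ⊥ → Jk k = (en k).1 := by
    refine ⟨fun k => if (en k).1 = ⊥ then ⊤ else (en k).1, fun k => ?_, fun k hk => if_neg hk⟩
    dsimp only
    split_ifs with h
    · simp
    · exact h
  have hstep := fun k : ℕ => step hMLM hLWO (Jk k) (en k).2 (hJk0 k)
  choose c0 hc0 hst using hstep
  have hst' := fun k m : ℕ => hst k (c0 k * (1 / ((m : ℝ) + 1)))
    (mul_pos (hc0 k) (by positivity))
  choose Y1 hY1 using hst'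
  have hX : ∀ k m n : ℕ, ∃ X1 : ℝ, 1 ≤ X1 ∧ (Y1 k m ≤ n → ∀ X : ℝ, X1 ≤ X →
      ∀ T : Finset (Ideal (𝓞 F)), (∀ I, I ∈ T ↔ I ≠ ⊥ ∧ (Ideal.absNorm I : ℝ) ≤ n) →
      0 < ∑ I ∈ T, ((Fam (Jk k) (en k).2 I
        (fun v => rt I * rx X v)).ncard : ℝ) ∧
      ∀ d : ℕ, ∑ I ∈ T, |({q ∈ Fam (Jk k) (en k).2 I
          (fun v => rt I * rx X v) |
          Nat.card (Sel 2 (curve (q.1 : F) (q.2 : F))) = 2 ^ d}.ncard : ℝ) -
        PR.law d * ((Fam (Jk k) (en k).2 I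
          (fun v => rt I * rx X v)).ncard : ℝ)| ≤
        c0 k * (1 / ((m : ℝ) + 1)) / c0 k *
          ∑ I ∈ T, ((Fam (Jk k) (en k).2 I
            (fun v => rt I * rx X v)).ncard : ℝ)) := by
    intro k m n
    by_cases h : Y1 k m ≤ n
    · obtain ⟨X1, h1, h2⟩ := hY1 k m n h
      exact ⟨X1, h1, fun _ => h2⟩
    · exact ⟨1, le_rfl, fun h' => absurd h' h⟩
  choose X1 hX1 hX2 using hX
  refine ⟨fun n => (n : ℝ) + 1 + ∑ k ∈ Finset.range (n + 1), ∑ m ∈ Finset.range (n + 1),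
    X1 k m n, fun Φ hmono hΦ => ?_⟩
  have hnn : ∀ n : ℕ, 0 ≤ ∑ k ∈ Finset.range (n + 1), ∑ m ∈ Finset.range (n + 1), X1 k m n :=
    fun n => Finset.sum_nonneg fun k _ => Finset.sum_nonneg fun m _ =>
      zero_le_one.trans (hX1 k m n)
  have hΦn : ∀ n : ℕ, (n : ℝ) + 1 ≤ Φ n := fun n => by
    refine le_trans ?_ (hΦ n)
    linarith [hnn n]
  have hΦX : ∀ n k m : ℕ, k ≤ n → m ≤ n → X1 k m n ≤ Φ n := fun n k m hkn hmn => by
    refine le_trans ?_ (hΦ n)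
    have h1 : (0 : ℝ) ≤ n := Nat.cast_nonneg _
    have h2 : X1 k m n ≤ ∑ m ∈ Finset.range (n + 1), X1 k m n :=
      Finset.single_le_sum (f := fun m => X1 k m n)
        (fun m _ => zero_le_one.trans (hX1 k m n)) (Finset.mem_range.2 (by omega))
    have h3 : ∑ m ∈ Finset.range (n + 1), X1 k m n ≤
        ∑ k ∈ Finset.range (n + 1), ∑ m ∈ Finset.range (n + 1), X1 k m n :=
      Finset.single_le_sum (f := fun k => ∑ m ∈ Finset.range (n + 1), X1 k m n)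
        (fun k _ => Finset.sum_nonneg fun m _ => zero_le_one.trans (hX1 k m n))
        (Finset.mem_range.2 (by omega))
    linarith
  -- the largest `Y` with `Φ Y ≤ X`
  have hyex : ∀ X : ℝ, Φ 1 ≤ X → ∃ Y : ℕ, 1 ≤ Y ∧ ∀ D : ℕ, Φ D ≤ X ↔ D ≤ Y := by
    intro X hX
    have hbdd : BddAbove {n : ℕ | Φ n ≤ X} := by
      refine ⟨⌈X⌉₊, fun n hn => ?_⟩
      have h1 : (n : ℝ) ≤ X := by
        have h2 := hΦn n
        have h3 : Φ n ≤ X := hn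
        linarith
      exact_mod_cast h1.trans (Nat.le_ceil X)
    have hne : {n : ℕ | Φ n ≤ X}.Nonempty := ⟨1, hX⟩
    have hm := Nat.sSup_mem hne hbdd
    refine ⟨sSup {n : ℕ | Φ n ≤ X}, le_csSup hbdd hX, fun D => ⟨fun h => le_csSup hbdd h,
      fun h => (hmono h).trans hm⟩⟩
  have hTex : ∀ Y : ℕ, ∃ T : Finset (Ideal (𝓞 F)),
      ∀ I, I ∈ T ↔ I ≠ ⊥ ∧ (Ideal.absNorm I : ℝ) ≤ Y := by
    intro Y
    refine ⟨(hIDA.fin F (Y : ℝ)).toFinset, fun I => ?_⟩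
    rw [Set.Finite.mem_toFinset]
    rfl
  have h0Φ : ∀ {X : ℝ}, Φ 1 ≤ X → 0 ≤ X := fun {X} h => by
    have h1 := hΦn 1
    push_cast at h1
    linarith
  refine ⟨fun X => ?_, fun J p hJ d => ?_⟩
  · obtain ⟨Y, _, hY⟩ := hyex (max X (Φ 1)) (le_max_right _ _)
    obtain ⟨T, hT⟩ := hTex Y
    have hfin := (count hTWX hEQZ T ⊤ 0 (max X (Φ 1)) (fun _ => True)).1
    refine hfin.subset ?_
    rintro q ⟨hq1, hq2⟩
    obtain ⟨I, hI, hq⟩ := (mem_iff hTWX (h0Φ (le_max_right X (Φ 1))) hY hT ⊤ 0 q).1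
      ⟨hq1, Submodule.mem_top, Submodule.mem_top, hq2.trans (le_max_left _ _)⟩
    exact ⟨I, hI, hq, trivial⟩
  · obtain ⟨k, hk⟩ := hen (J, p)
    have hkN : Jk k = J := by
      rw [hJk k (by rw [hk]; exact hJ), hk]
    have hkp : (en k).2 = p := by rw [hk]
    rw [Metric.tendsto_atTop]
    intro ε hε
    obtain ⟨m, hm⟩ := exists_nat_gt (1 / ε)
    have hme : 1 / ((m : ℝ) + 1) < ε := by
      rw [div_lt_iff₀ hε] at hm
      rw [div_lt_iff₀ (by positivity)]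
      nlinarith
    refine ⟨Φ (max (max (Y1 k m) (max k m)) 1), fun X hXX => ?_⟩
    have hXΦ1 : Φ 1 ≤ X := (hmono (le_max_right _ _)).trans hXX
    obtain ⟨Y, hY1', hY⟩ := hyex X hXΦ1
    have hYk : max (max (Y1 k m) (max k m)) 1 ≤ Y := (hY _).1 hXX
    have ha : Y1 k m ≤ Y := by omega
    have hb : k ≤ Y := by omega
    have hc : m ≤ Y := by omega
    have hΦY : Φ Y ≤ X := (hY Y).2 le_rfl
    obtain ⟨T, hT⟩ := hTex Y
    obtain ⟨hpos, hdev⟩ := hX2 k m Y ha X ((hΦX Y k m hb hc).trans hΦY) T hT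
    have hdev := hdev d
    rw [hkN, hkp] at hdev hpos
    have hcc : c0 k * (1 / ((m : ℝ) + 1)) / c0 k = 1 / ((m : ℝ) + 1) := by
      have := (hc0 k).ne'
      field_simp
    rw [hcc] at hdev
    have hX0 := h0Φ hXΦ1
    have e1 : {q : 𝓞 F × 𝓞 F | 4 * q.1 ^ 3 + 27 * q.2 ^ 2 ≠ 0 ∧
        q.1 - p.1 ∈ J ∧ q.2 - p.2 ∈ J ∧
        th Φ q ≤ X ∧ Nat.card (Sel 2 (curve (q.1 : F) (q.2 : F))) = 2 ^ d} =
        {q | ∃ I ∈ T, q ∈ Fam (J) p I (fun v => rt I * rx X v) ∧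
          Nat.card (Sel 2 (curve (q.1 : F) (q.2 : F))) = 2 ^ d} := by
      ext q
      have h1 := mem_iff hTWX hX0 hY hT (J) p q
      constructor
      · rintro ⟨a1, a2, a3, a4, a5⟩
        obtain ⟨I, hI, hq⟩ := h1.1 ⟨a1, a2, a3, a4⟩
        exact ⟨I, hI, hq, a5⟩
      · rintro ⟨I, hI, hq, a5⟩
        obtain ⟨a1, a2, a3, a4⟩ := h1.2 ⟨I, hI, hq⟩
        exact ⟨a1, a2, a3, a4, a5⟩
    have e2 : {q : 𝓞 F × 𝓞 F | 4 * q.1 ^ 3 + 27 * q.2 ^ 2 ≠ 0 ∧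
        q.1 - p.1 ∈ J ∧ q.2 - p.2 ∈ J ∧
        th Φ q ≤ X} =
        {q | ∃ I ∈ T, q ∈ Fam (J) p I (fun v => rt I * rx X v) ∧
          True} := by
      ext q
      have h1 := mem_iff hTWX hX0 hY hT (J) p q
      constructor
      · intro h2
        obtain ⟨I, hI, hq⟩ := h1.1 h2
        exact ⟨I, hI, hq, trivial⟩
      · rintro ⟨I, hI, hq, _⟩
        exact h1.2 ⟨I, hI, hq⟩
    rw [e1, e2, (count hTWX hEQZ T _ p X _).2, (count hTWX hEQZ T _ p X _).2, Real.dist_eq]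
    have e3 : ∀ I, {q ∈ Fam (J) p I (fun v => rt I * rx X v) | True} =
        Fam (J) p I (fun v => rt I * rx X v) := by
      intro I
      ext q
      simp
    simp only [e3]
    set S := ∑ I ∈ T, ((Fam (J) p I (fun v => rt I * rx X v)).ncard : ℝ)
      with hS
    refine lt_of_le_of_lt ?_ hme
    rw [← mul_div_cancel_right₀ (PR.law d) hpos.ne', ← sub_div, abs_div, abs_of_pos hpos,
      div_le_iff₀ hpos]
    refine le_trans ?_ hdev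
    rw [hS, Finset.mul_sum, ← Finset.sum_sub_distrib]
    exact Finset.abs_sum_le_sum_abs _ _

end Pool.Agent.Lib.MP_8cb858_nt.PV
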