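import Pool.Agent.Lib.MP_8cb858_nt.PU.SpecG
import Pool.Agent.Lib.MP_8cb858_nt.PF.SpecA
import Pool.Agent.Lib.MP_8cb858_nt.PU.SpecT
import Pool.Agent.Lib.MP_8cb858_nt.PU.SpecQ
import Pool.Agent.Lib.MP_8cb858_nt.PU.SpecN
import Pool.Agent.Lib.MP_8cb858_nt.PV.SpecV
import Pool.Agent.Lib.MP_8cb858_nt.SEL.LO1
import Pool.Agent.Lib.MP_8cb858_nt.PV.TWX

section
/-! # PU, block G, module AUX (helper93): the auxiliary sets of places
(the file is not called `AUX.lean`: this is a reserved file name on some systems) -/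
namespace Pool.Agent.Lib.MP_8cb858_nt.PU

open Polynomial NumberField IsDedekindDomain Pool.Agent.Lib.MP_8cb858_nt.SEL
open Pool.Agent.Lib.MP_8cb858_nt.PF
open scoped Classical WithZero

namespace AUXM

/-- the union of `B` and of the sets chosen before step `j` -/
noncomputable def acc {α : Type} (f : Finset α → Finset α) (B : Finset α) : ℕ → Finset α
  | 0 => B
  | n + 1 => acc f B n ∪ f (acc f B n)

lemma acc_mono {α : Type} (f : Finset α → Finset α) (B : Finset α) {i j : ℕ} (h : i ≤ j) :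
    acc f B i ⊆ acc f B j := by
  induction j, h using Nat.le_induction with
  | base => exact Finset.Subset.refl _
  | succ j hj ih => exact ih.trans Finset.subset_union_left

lemma acc_sub {α : Type} (f : Finset α → Finset α) (B : Finset α) {i j : ℕ} (h : i < j) :
    f (acc f B i) ⊆ acc f B j :=
  (Finset.subset_union_right : f (acc f B i) ⊆ acc f B i ∪ f (acc f B i)).trans (acc_mono f B h)

end AUXM

open AUXM in
/-- **AUX** -/
theorem specAUX (hAUY : SpecAUY) (hDNV : SpecDNV) : SpecAUX := by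
  intro F _ _ G c0 hc B0 bad
  have hfin : {v : Pl F | (nv v : ℝ) ≤ (B0 : ℝ)}.Finite := (hDNV F).2.2.1 B0
  have hnext : ∀ (M : Finset (Pl F)) (c : Set F) (B : Finset (Pl F)),
      ∃ p : 𝓞 F × Finset (Pl F), ∀ x : F, G.S ⊆ M → x ≠ 0 →
        (∀ v ∈ M, v ∉ G.S → vv v (algebraMap F (v.adicCompletion F) x) = 1) → cl M x = c →
        p.1 ∈ G.U ∧ p.2.card ≤ c0 + 2 * M.card ∧ (∀ v ∈ p.2, v ∉ M ∧ v ∉ B) ∧
          cl M (G.tw p.1 p.2 : F) = c := by
    intro M c B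
    by_cases h : ∃ x : F, G.S ⊆ M ∧ x ≠ 0 ∧
        (∀ v ∈ M, v ∉ G.S → vv v (algebraMap F (v.adicCompletion F) x) = 1) ∧ cl M x = c
    · obtain ⟨x, h1, h2, h3, h4⟩ := h
      obtain ⟨u, hu, A, hA1, hA2, hA3⟩ := hAUY F G c0 M B x (hc M) h1 h2 h3
      exact ⟨(u, A), fun _ _ _ _ _ => ⟨hu, hA1, hA2, by rw [← h4]; exact hA3⟩⟩
    · exact ⟨(0, ∅), fun x h1 h2 h3 h4 => absurd ⟨x, h1, h2, h3, h4⟩ h⟩
  choose nx hnx using hnext
  refine ⟨fun M c j => nx M c (acc (fun B => (nx M c B).2) (bad ∪ hfin.toFinset) j), ?_⟩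
  intro M x h1 h2 h3
  have key := fun j => hnx M (cl M x) (acc (fun B => (nx M (cl M x) B).2) (bad ∪ hfin.toFinset) j)
    x h1 h2 h3 rfl
  have hdis : ∀ i j, i < j →
      Disjoint (nx M (cl M x) (acc (fun B => (nx M (cl M x) B).2) (bad ∪ hfin.toFinset) i)).2
        (nx M (cl M x) (acc (fun B => (nx M (cl M x) B).2) (bad ∪ hfin.toFinset) j)).2 := by
    intro i j hij
    rw [Finset.disjoint_left]
    intro v hv hv'
    exact ((key j).2.2.1 v hv').2
      (acc_sub (fun B => (nx M (cl M x) B).2) (bad ∪ hfin.toFinset) hij hv)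
  refine ⟨?_, ?_⟩
  · intro i j hij
    rcases lt_or_gt_of_ne hij with h | h
    · exact hdis i j h
    · exact (hdis j i h).symm
  · intro j
    obtain ⟨k1, k2, k3, k4⟩ := key j
    refine ⟨k1, k2, ?_, k4⟩
    intro v hv
    obtain ⟨k5, k6⟩ := k3 v hv
    have k7 : v ∉ bad ∪ hfin.toFinset := fun h =>
      k6 (acc_mono (fun B => (nx M (cl M x) B).2) (bad ∪ hfin.toFinset) (Nat.zero_le j) h)
    rw [Finset.mem_union, not_or] at k7
    refine ⟨k5, k7.1, ?_⟩
    by_contra h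
    push Not at h
    apply k7.2
    rw [Set.Finite.mem_toFinset]
    show (nv v : ℝ) ≤ (B0 : ℝ)
    exact_mod_cast h.le

end Pool.Agent.Lib.MP_8cb858_nt.PU
end

section
/-! # PU, block G, module AUY (helper29): one auxiliary set of places -/
namespace Pool.Agent.Lib.MP_8cb858_nt.PU

open Polynomial NumberField IsDedekindDomain Pool.Agent.Lib.MP_8cb858_nt.SEL
open Pool.Agent.Lib.MP_8cb858_nt.PF
open scoped Classical WithZero

namespace AUYM

section
variable {F : Type} [Field F] [NumberField F]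

/-- the exponent of `x` at `v` -/
noncomputable def ord (v : Pl F) (x : F) : ℤ := (vv v (algebraMap F (v.adicCompletion F) x)).log

lemma vv_ne (v : Pl F) {x : F} (hx : x ≠ 0) : vv v (algebraMap F (v.adicCompletion F) x) ≠ 0 :=
  (Valuation.ne_zero_iff _).2 (by simpa using hx)

lemma vv_ord (v : Pl F) {x : F} (hx : x ≠ 0) :
    vv v (algebraMap F (v.adicCompletion F) x) = WithZero.exp (ord v x) :=
  (WithZero.exp_log (vv_ne v hx)).symm

lemma ord_mul (v : Pl F) {x y : F} (hx : x ≠ 0) (hy : y ≠ 0) : ord v (x * y) = ord v x + ord v y := by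
  apply WithZero.exp_injective
  rw [WithZero.exp_add, ← vv_ord v hx, ← vv_ord v hy, ← vv_ord v (mul_ne_zero hx hy), map_mul, map_mul]

lemma ord_of (v : Pl F) {x : F} (hx : x ≠ 0) {n : ℤ}
    (h : vv v (algebraMap F (v.adicCompletion F) x) = WithZero.exp n) : ord v x = n := by
  apply WithZero.exp_injective
  rw [← vv_ord v hx, h]

lemma ord_prod (v : Pl F) {ι : Type} (s : Finset ι) (f : ι → F) (h : ∀ i ∈ s, f i ≠ 0) :
    ord v (∏ i ∈ s, f i) = ∑ i ∈ s, ord v (f i) := by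
  induction s using Finset.induction_on with
  | empty =>
    rw [Finset.prod_empty, Finset.sum_empty]
    exact ord_of v one_ne_zero (by rw [map_one, map_one, WithZero.exp_zero])
  | insert a s ha ih =>
    have hs : ∀ i ∈ s, f i ≠ 0 := fun i hi => h i (Finset.mem_insert_of_mem hi)
    rw [Finset.prod_insert ha, Finset.sum_insert ha,
      ord_mul v (h a (Finset.mem_insert_self _ _)) (Finset.prod_ne_zero_iff.2 hs), ih hs]

lemma ord_fin (x : F) (hx : x ≠ 0) : {v : Pl F | ord v x ≠ 0}.Finite := by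
  refine ((HeightOneSpectrum.Support.finite (𝓞 F) x).union
    (HeightOneSpectrum.Support.finite (𝓞 F) x⁻¹)).subset fun v hv => ?_
  have e : ∀ y : F, vv v (algebraMap F (v.adicCompletion F) y) = v.valuation F y := fun y =>
    HeightOneSpectrum.valuedAdicCompletion_eq_valuation' (R := 𝓞 F) v y
  by_contra hcon
  rw [Set.mem_union, not_or] at hcon
  have h1 : v.valuation F x ≤ 1 := not_lt.1 hcon.1
  have h2 : v.valuation F x⁻¹ ≤ 1 := not_lt.1 hcon.2
  have hv0 : v.valuation F x ≠ 0 := (Valuation.ne_zero_iff _).2 hx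
  have h3 : v.valuation F x = 1 := by
    apply le_antisymm h1
    rw [map_inv₀] at h2
    exact (inv_le_one₀ (zero_lt_iff.2 hv0)).1 h2
  apply hv
  exact ord_of v hx (by rw [e, h3, WithZero.exp_zero])

lemma even_exp {z : ℤᵐ⁰} {n : ℤ} (h : z = WithZero.exp n) (he : Even n) : ∃ m : ℤ, z = WithZero.exp (2 * m) := by
  obtain ⟨m, hm⟩ := he
  exact ⟨m, by rw [h, hm, two_mul]⟩

end

end AUYM

open AUYM in
theorem specAUY (hCLM : SpecCLM) (hWAP : SpecWAP) : SpecAUY := by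
  intro F _ _ G c0 M B x hcnt hSM hx hxM
  obtain ⟨m, hm0, hmx, hmB⟩ := hWAP F M (B \ M) x (fun v hv => (Finset.mem_sdiff.1 hv).2) hx
  -- the places of odd valuation
  have hfin : {v : Pl F | v ∉ G.S ∧ ¬ Even (ord v m)}.Finite := by
    refine (ord_fin m hm0).subset fun v hv h0 => hv.2 ?_
    rw [h0]; exact Even.zero
  set A' : Finset (Pl F) := hfin.toFinset with hA'
  have hA'mem : ∀ v, v ∈ A' ↔ v ∉ G.S ∧ ¬ Even (ord v m) := fun v => by simp [hA']
  -- the generators in `F`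
  let q : Finset (Pl F) → F := fun J => ∏ v ∈ J, ((G.pi v : 𝓞 F) : F)
  have hpi0 : ∀ v, ((G.pi v : 𝓞 F) : F) ≠ 0 := fun v => by
    have := G.ne v
    simpa using this
  have hq0 : ∀ J, q J ≠ 0 := fun J => Finset.prod_ne_zero_iff.2 fun v _ => hpi0 v
  have htw : ∀ (u : 𝓞 F) (J : Finset (Pl F)), ((G.tw u J : 𝓞 F) : F) = (u : F) * q J := by
    intro u J
    simp [Gs.tw, q, map_prod]
  -- disjointness from `M`
  have hA'M : ∀ v ∈ A', v ∉ M := by
    intro v hv hvM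
    obtain ⟨hvS, hodd⟩ := (hA'mem v).1 hv
    obtain ⟨n, hn⟩ := hCLM.val M (m * x) (mul_ne_zero hm0 hx) hmx v hvM
    rw [map_mul, map_mul, hxM v hvM hvS, mul_one] at hn
    exact hodd (by rw [ord_of v hm0 hn]; exact even_two_mul n)
  have hA'B : ∀ v ∈ A', v ∉ B := by
    intro v hv hvB
    have hvM := hA'M v hv
    obtain ⟨hvS, hodd⟩ := (hA'mem v).1 hv
    have := hmB v (Finset.mem_sdiff.2 ⟨hvB, hvM⟩)
    exact hodd (by rw [ord_of v hm0 (n := 0) (by rw [this, WithZero.exp_zero])]; exact Even.zero)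
  -- the representative
  have hrep : ∀ w : Pl F, w ∉ G.S → ∃ n : ℤ, vv w (algebraMap F (w.adicCompletion F) (m * q A')) =
      WithZero.exp (2 * n) := by
    intro w hw
    refine even_exp (vv_ord w (mul_ne_zero hm0 (hq0 A'))) ?_
    rw [ord_mul w hm0 (hq0 A'), ord_prod w A' _ (fun v _ => hpi0 v)]
    have hterm : ∀ v ∈ A', ord w ((G.pi v : 𝓞 F) : F) = if v = w then -1 else 0 := by
      intro v hv
      have hvS := ((hA'mem v).1 hv).1
      split_ifs with h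
      · subst h
        exact ord_of v (hpi0 v) (G.ex v hvS)
      · exact ord_of w (hpi0 v) (by
          rw [WithZero.exp_zero]; exact G.un v w hvS hw (fun h' => h h'.symm))
    rw [Finset.sum_congr rfl hterm, Finset.sum_ite_eq' A' w (fun _ => (-1 : ℤ))]
    by_cases hwA : w ∈ A'
    · rw [if_pos hwA]
      have h1 := ((hA'mem w).1 hwA).2
      rw [Int.not_even_iff_odd] at h1
      obtain ⟨k, hk⟩ := h1
      exact ⟨k, by rw [hk]; ring⟩
    · rw [if_neg hwA, add_zero]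
      by_contra h
      exact hwA ((hA'mem w).2 ⟨hw, h⟩)
  obtain ⟨u, huU, y, hy, hu⟩ := G.rep (m * q A') (mul_ne_zero hm0 (hq0 A')) hrep
  have hu0 : (u : F) ≠ 0 := by
    have := G.une u huU
    simpa using this
  have hcl0 : cl M (G.tw u A' : F) = cl M x := by
    have h1 : cl M (G.tw u A' : F) = cl M m := by
      rw [hCLM.eq M _ _ (by rw [htw]; exact mul_ne_zero hu0 (hq0 _)) hm0, htw]
      have : (u : F) * q A' * m = ((u : F) * y) ^ 2 := by
        calc (u : F) * q A' * m = (u : F) * (m * q A') := by ring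
          _ = _ := by rw [hu]; ring
      rw [this]
      exact hCLM.one M _
    rw [h1, hCLM.eq M _ _ hm0 hx]
    exact hmx
  -- a minimal subset
  obtain ⟨A, hA, hmin⟩ := Finset.exists_min_image
    (A'.powerset.filter fun A => cl M (G.tw u A : F) = cl M x) Finset.card
    ⟨A', Finset.mem_filter.2 ⟨Finset.mem_powerset_self A', hcl0⟩⟩
  rw [Finset.mem_filter, Finset.mem_powerset] at hA
  obtain ⟨hAA', hAcl⟩ := hA
  refine ⟨u, huU, A, ?_, fun v hv => ⟨hA'M v (hAA' hv), hA'B v (hAA' hv)⟩, hAcl⟩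
  by_contra hcard
  rw [not_le] at hcard
  have hT := hcnt (A.powerset.image q) (fun z hz => by
    obtain ⟨J, -, rfl⟩ := Finset.mem_image.1 hz
    exact hq0 J)
  rw [Finset.image_image] at hT
  have hlt : (A.powerset.image (cl M ∘ q)).card < A.powerset.card := by
    rw [Finset.card_powerset]
    exact lt_of_le_of_lt hT (Nat.pow_lt_pow_right (by norm_num) hcard)
  obtain ⟨J, hJ, J', hJ', hne, hJJ⟩ := Finset.exists_ne_map_eq_of_card_lt_of_maps_to hlt
    (f := cl M ∘ q) (fun J hJ => Finset.mem_image_of_mem _ hJ)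
  rw [Finset.mem_powerset] at hJ hJ'
  have hL : Lsq M (q J * q J') := (hCLM.eq M _ _ (hq0 J) (hq0 J')).1 hJJ
  set Δ : Finset (Pl F) := (J \ J') ∪ (J' \ J) with hΔ
  have hΔA : Δ ⊆ A := Finset.union_subset (Finset.sdiff_subset.trans hJ) (Finset.sdiff_subset.trans hJ')
  have hΔne : Δ.Nonempty := by
    rw [Finset.nonempty_iff_ne_empty]
    intro h
    apply hne
    rw [hΔ, Finset.union_eq_empty, Finset.sdiff_eq_empty_iff_subset, Finset.sdiff_eq_empty_iff_subset] at h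
    exact Finset.Subset.antisymm h.1 h.2
  have hqΔ : q J * q J' = q Δ * q (J ∩ J') ^ 2 := by
    have e1 : q J = q (J \ J') * q (J ∩ J') := by
      have := Finset.prod_union (f := fun v => ((G.pi v : 𝓞 F) : F)) (Finset.disjoint_sdiff_inter J J')
      rw [Finset.sdiff_union_inter] at this
      exact this
    have e2 : q J' = q (J' \ J) * q (J ∩ J') := by
      have := Finset.prod_union (f := fun v => ((G.pi v : 𝓞 F) : F)) (Finset.disjoint_sdiff_inter J' J)
      rw [Finset.sdiff_union_inter, Finset.inter_comm J' J] at this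
      exact this
    have e3 : q Δ = q (J \ J') * q (J' \ J) := by
      refine Finset.prod_union ?_
      rw [Finset.disjoint_left]
      intro v hv hv'
      rw [Finset.mem_sdiff] at hv hv'
      exact hv.2 hv'.1
    rw [e1, e2, e3]; ring
  have hLΔ : Lsq M (q Δ) := by
    rw [hqΔ] at hL
    exact (hCLM.lsq M _ _ (hq0 _)).1 hL
  have hqA : q A = q (A \ Δ) * q Δ := (Finset.prod_sdiff hΔA).symm
  have hcl1 : cl M (G.tw u (A \ Δ) : F) = cl M x := by
    rw [← hAcl, hCLM.eq M _ _ (by rw [htw]; exact mul_ne_zero hu0 (hq0 _))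
      (by rw [htw]; exact mul_ne_zero hu0 (hq0 _)), htw, htw, hqA]
    have : (u : F) * q (A \ Δ) * ((u : F) * (q (A \ Δ) * q Δ)) = q Δ * ((u : F) * q (A \ Δ)) ^ 2 := by ring
    rw [this]
    exact (hCLM.lsq M _ _ (mul_ne_zero hu0 (hq0 _))).2 hLΔ
  have hle := hmin (A \ Δ) (Finset.mem_filter.2
    ⟨Finset.mem_powerset.2 (Finset.sdiff_subset.trans hAA'), hcl1⟩)
  have hlt2 : (A \ Δ).card < A.card := by
    apply Finset.card_lt_card
    rw [Finset.ssubset_iff_subset_ne]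
    refine ⟨Finset.sdiff_subset, fun h => ?_⟩
    obtain ⟨v, hv⟩ := hΔne
    have := hΔA hv
    rw [← h, Finset.mem_sdiff] at this
    exact this.2 hv
  exact absurd hle (not_le.2 hlt2)

end Pool.Agent.Lib.MP_8cb858_nt.PU
end

section
/-! # PU, block G, module CLM (helper29): the classes modulo local squares -/
namespace Pool.Agent.Lib.MP_8cb858_nt.PU

open Polynomial NumberField IsDedekindDomain Pool.Agent.Lib.MP_8cb858_nt.SEL
open Pool.Agent.Lib.MP_8cb858_nt.PF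
open scoped Classical WithZero

namespace CLMM

lemma sq_div {K : Type} [Field K] {a b : K} (hb : b ≠ 0) (h : IsSquare (a * b ^ 2)) : IsSquare a := by
  obtain ⟨c, hc⟩ := h
  refine ⟨c / b, ?_⟩
  field_simp
  rw [hc]; ring

section
variable {F : Type} [Field F] [NumberField F]

lemma lmul (M : Finset (Pl F)) (x y : F) (hx : Lsq M x) (hy : Lsq M y) : Lsq M (x * y) := by
  refine ⟨fun v hv => ?_, fun v => ?_⟩
  · rw [map_mul]; exact (hx.1 v hv).mul (hy.1 v hv)
  · rw [map_mul]; exact (hx.2 v).mul (hy.2 v)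

lemma one (M : Finset (Pl F)) (y : F) : Lsq M (y ^ 2) := by
  refine ⟨fun v hv => ?_, fun v => ?_⟩
  · rw [map_pow]; exact ⟨_, sq _⟩
  · rw [map_pow]; exact ⟨_, sq _⟩

lemma lsq (M : Finset (Pl F)) (x y : F) (hy : y ≠ 0) : Lsq M (x * y ^ 2) ↔ Lsq M x := by
  constructor
  · intro h
    refine ⟨fun v hv => ?_, fun v => ?_⟩
    · have h1 := h.1 v hv
      rw [map_mul, map_pow] at h1
      exact sq_div ((_root_.map_ne_zero _).2 hy) h1
    · have h1 := h.2 v
      rw [map_mul, map_pow] at h1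
      exact sq_div ((_root_.map_ne_zero _).2 hy) h1
  · intro h
    exact lmul M _ _ h (one M y)

lemma cl_eq (M : Finset (Pl F)) (x y : F) (hx : x ≠ 0) (hy : y ≠ 0) : cl M x = cl M y ↔ Lsq M (x * y) := by
  constructor
  · intro h
    have h1 : y ∈ cl M y := ⟨hy, by rw [← sq]; exact one M y⟩
    rw [← h] at h1
    exact h1.2
  · intro h
    ext z
    refine and_congr_right fun hz => ?_
    constructor
    · intro h1
      have h2 := lmul M _ _ h h1
      rw [show x * y * (x * z) = (y * z) * x ^ 2 by ring] at h2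
      exact (lsq M _ _ hx).1 h2
    · intro h1
      have h2 := lmul M _ _ h h1
      rw [show x * y * (y * z) = (x * z) * y ^ 2 by ring] at h2
      exact (lsq M _ _ hy).1 h2

lemma cl_mul (M : Finset (Pl F)) (x x' y y' : F) (hx : x ≠ 0) (hx' : x' ≠ 0) (hy : y ≠ 0) (hy' : y' ≠ 0)
    (h1 : cl M x = cl M x') (h2 : cl M y = cl M y') : cl M (x * y) = cl M (x' * y') := by
  rw [cl_eq M _ _ hx hx'] at h1
  rw [cl_eq M _ _ hy hy'] at h2
  rw [cl_eq M _ _ (mul_ne_zero hx hy) (mul_ne_zero hx' hy')]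
  have := lmul M _ _ h1 h2
  rwa [show x * x' * (y * y') = x * y * (x' * y') by ring] at this

end

end CLMM

open CLMM in
theorem specCLM : SpecCLM where
  lmul := fun M x y hx hy => lmul M x y hx hy
  lsq := fun M x y hy => lsq M x y hy
  one := fun M y => one M y
  eq := fun M x y hx hy => cl_eq M x y hx hy
  mul := fun M x x' y y' hx hx' hy hy' h1 h2 => cl_mul M x x' y y' hx hx' hy hy' h1 h2
  prd := by
    intro F _ _ M ι s f g h
    induction s using Finset.induction_on with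
    | empty => simp
    | insert a s ha ih =>
      rw [Finset.prod_insert ha, Finset.prod_insert ha]
      obtain ⟨h1, h2, h3⟩ := h a (Finset.mem_insert_self _ _)
      have hs : ∀ i ∈ s, f i ≠ 0 ∧ g i ≠ 0 ∧ cl M (f i) = cl M (g i) :=
        fun i hi => h i (Finset.mem_insert_of_mem hi)
      exact cl_mul M _ _ _ _ h1 h2 (Finset.prod_ne_zero_iff.2 fun i hi => (hs i hi).1)
        (Finset.prod_ne_zero_iff.2 fun i hi => (hs i hi).2.1) h3 (ih hs)
  mon := by
    intro F _ _ M M' x y hx hy hM h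
    rw [cl_eq _ _ _ hx hy] at h ⊢
    exact ⟨fun v hv => h.1 v (hM hv), h.2⟩
  val := by
    intro F _ _ M x hx h v hv
    obtain ⟨c, hc⟩ := h.1 v hv
    have h0 : algebraMap F (v.adicCompletion F) x ≠ 0 := (_root_.map_ne_zero _).2 hx
    have hc0 : c ≠ 0 := by
      rintro rfl
      exact h0 (by rw [hc]; simp)
    have hv0 : vv v c ≠ 0 := (Valuation.ne_zero_iff _).2 hc0
    refine ⟨(vv v c).log, ?_⟩
    rw [hc, map_mul, two_mul, WithZero.exp_add, WithZero.exp_log hv0]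

end Pool.Agent.Lib.MP_8cb858_nt.PU
end

section
/-!
# GNA: generators outside a finite set of places
-/
set_option autoImplicit false

namespace Pool.Agent.Lib.MP_8cb858_nt.PU

open Polynomial NumberField IsDedekindDomain Pool.Agent.Lib.MP_8cb858_nt.SEL
open Pool.Agent.Lib.MP_8cb858_nt.PF
open scoped Classical WithZero nonZeroDivisors

namespace GNAM

variable {F : Type} [Field F] [NumberField F]

theorem vv_one (hNF : PF.SpecNF) (w : Pl F) (x : 𝓞 F) (hx : x ≠ 0) (h : x ∉ w.asIdeal) :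
    vv w (lc w x) = 1 := by
  obtain ⟨h1, h2⟩ := hNF.int F w x 1
  rw [pow_one] at h2
  have h3 : ¬ vv w (lc w x) ≤ WithZero.exp (-((1 : ℕ) : ℤ)) := fun h' => h (h2.2 h')
  have h0 : vv w (lc w x) ≠ 0 := by
    intro h0
    exact h3 (by rw [h0]; exact zero_le)
  obtain ⟨n, hn⟩ : ∃ n : ℤ, vv w (lc w x) = WithZero.exp n :=
    ⟨WithZero.log (vv w (lc w x)), (WithZero.exp_log h0).symm⟩
  rw [hn] at h1 h3 ⊢
  rw [WithZero.exp_le_exp] at h3
  rw [← WithZero.exp_zero, WithZero.exp_le_exp] at h1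
  have : n = 0 := by push_cast at h3; omega
  rw [this, WithZero.exp_zero]

theorem vv_exp (hNF : PF.SpecNF) (w : Pl F) (x : 𝓞 F) (h : x ∈ w.asIdeal)
    (h' : x ∉ w.asIdeal ^ 2) : vv w (lc w x) = WithZero.exp (-1 : ℤ) := by
  obtain ⟨-, h2⟩ := hNF.int F w x 1
  obtain ⟨-, h4⟩ := hNF.int F w x 2
  rw [pow_one] at h2
  have h1 := h2.1 h
  have h3 : ¬ vv w (lc w x) ≤ WithZero.exp (-((2 : ℕ) : ℤ)) := fun h'' => h' (h4.2 h'')
  have h0 : vv w (lc w x) ≠ 0 := by
    intro h0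
    exact h3 (by rw [h0]; exact zero_le)
  obtain ⟨n, hn⟩ : ∃ n : ℤ, vv w (lc w x) = WithZero.exp n :=
    ⟨WithZero.log (vv w (lc w x)), (WithZero.exp_log h0).symm⟩
  change vv w (lc w x) ≤ WithZero.exp (-((1 : ℕ) : ℤ)) at h1
  rw [hn] at h1 h3 ⊢
  rw [WithZero.exp_le_exp] at h3 h1
  have : n = -1 := by push_cast at h3 h1; omega
  rw [this]

theorem fin_div (I : Ideal (𝓞 F)) (h : I ≠ ⊥) : {v : Pl F | v.asIdeal ∣ I}.Finite :=
  Ideal.finite_factors h

theorem fin_six : {v : Pl F | (6 : 𝓞 F) ∈ v.asIdeal}.Finite := by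
  have h0 : Ideal.span {(6 : 𝓞 F)} ≠ ⊥ := by
    rw [Ne, Ideal.span_singleton_eq_bot]
    norm_num
  refine (fin_div _ h0).subset fun w hw => ?_
  show w.asIdeal ∣ Ideal.span {(6 : 𝓞 F)}
  rw [Ideal.dvd_iff_le, Ideal.span_singleton_le_iff_mem]
  exact hw

end GNAM

theorem specGNA (hUNR : SpecUNR) (hNF : PF.SpecNF) : SpecGNA := by
  intro F _ _
  -- representatives of the classes
  choose c hc using ClassGroup.mk0_surjective (R := 𝓞 F)
  let S1 : Finset (Pl F) := (GNAM.fin_six (F := F)).toFinset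
  let S2 : Finset (Pl F) := (hUNR F).toFinset
  have hne : ∀ C : ClassGroup (𝓞 F), ((c C : (Ideal (𝓞 F))⁰) : Ideal (𝓞 F)) ≠ ⊥ := fun C =>
    nonZeroDivisors.ne_zero (c C).2
  let S3 : Finset (Pl F) := Finset.univ.biUnion fun C : ClassGroup (𝓞 F) =>
    (GNAM.fin_div _ (hne C)).toFinset
  have key : ∀ v : Pl F, v ∉ S1 ∪ S2 ∪ S3 → ∃ (p : 𝓞 F) (C : ClassGroup (𝓞 F)),
      Ideal.span {p} = v.asIdeal * (c C : Ideal (𝓞 F)) := by
    intro v _
    let v0 : (Ideal (𝓞 F))⁰ := ⟨v.asIdeal, mem_nonZeroDivisors_of_ne_zero v.ne_bot⟩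
    have h1 : ClassGroup.mk0 (v0 * c (ClassGroup.mk0 v0)⁻¹) = 1 := by
      rw [map_mul, hc, mul_inv_cancel]
    rw [ClassGroup.mk0_eq_one_iff] at h1
    obtain ⟨p, hp⟩ := h1.principal
    exact ⟨p, _, hp.symm⟩
  choose! p hp using key
  have hmem : ∀ v : Pl F, v ∉ S1 ∪ S2 ∪ S3 → (6 : 𝓞 F) ∉ v.asIdeal ∧ Unr v ∧
      ∀ C, ¬ v.asIdeal ∣ (c C : Ideal (𝓞 F)) := by
    intro v hv
    simp only [Finset.mem_union, not_or] at hv
    obtain ⟨⟨h1, h2⟩, h3⟩ := hv
    refine ⟨?_, ?_, ?_⟩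
    · simpa [S1] using h1
    · simpa [S2] using h2
    · intro C hC
      apply h3
      rw [Finset.mem_biUnion]
      exact ⟨C, Finset.mem_univ _, (Set.Finite.mem_toFinset _).2 hC⟩
  have hp0 : ∀ v : Pl F, v ∉ S1 ∪ S2 ∪ S3 → p v ≠ 0 := by
    intro v hv h0
    obtain ⟨C, hC⟩ := hp v hv
    rw [h0, Ideal.span_singleton_zero] at hC
    rcases mul_eq_zero.1 hC.symm with h | h
    · exact v.ne_bot h
    · exact hne C h
  have hin : ∀ v : Pl F, v ∉ S1 ∪ S2 ∪ S3 → p v ∈ v.asIdeal := by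
    intro v hv
    obtain ⟨C, hC⟩ := hp v hv
    rw [← Ideal.span_singleton_le_iff_mem, hC]
    exact Ideal.mul_le_left (I := v.asIdeal) (J := (c C : Ideal (𝓞 F)))
  have hout : ∀ v w : Pl F, v ∉ S1 ∪ S2 ∪ S3 → w ∉ S1 ∪ S2 ∪ S3 → w ≠ v → p v ∉ w.asIdeal := by
    intro v w hv hw hwv hm
    obtain ⟨C, hC⟩ := hp v hv
    rw [← Ideal.span_singleton_le_iff_mem, hC, ← Ideal.dvd_iff_le] at hm
    rcases w.prime.dvd_or_dvd hm with h | h
    · apply hwv
      have h1 := Ideal.dvd_iff_le.1 h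
      have h2 : v.asIdeal = w.asIdeal := v.isMaximal.eq_of_le w.isPrime.ne_top h1
      exact (HeightOneSpectrum.ext h2).symm
    · exact (hmem w hw).2.2 C h
  have hsq : ∀ v : Pl F, v ∉ S1 ∪ S2 ∪ S3 → p v ∉ v.asIdeal ^ 2 := by
    intro v hv hm
    obtain ⟨C, hC⟩ := hp v hv
    rw [← Ideal.span_singleton_le_iff_mem, hC, ← Ideal.dvd_iff_le, pow_two] at hm
    exact (hmem v hv).2.2 C ((mul_dvd_mul_iff_left v.ne_bot).1 hm)
  refine ⟨S1 ∪ S2 ∪ S3, fun v => if v ∈ S1 ∪ S2 ∪ S3 then 1 else p v,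
    1 + ∑ C : ClassGroup (𝓞 F), (Ideal.absNorm (c C : Ideal (𝓞 F)) : ℝ), ?_, ?_, ?_, ?_, ?_, ?_⟩
  · have : 0 ≤ ∑ C : ClassGroup (𝓞 F), (Ideal.absNorm (c C : Ideal (𝓞 F)) : ℝ) :=
      Finset.sum_nonneg fun _ _ => Nat.cast_nonneg _
    linarith
  · intro v hv
    exact ⟨(hmem v hv).1, (hmem v hv).2.1⟩
  · intro v
    dsimp only
    split_ifs with h
    · exact one_ne_zero
    · exact hp0 v h
  · intro v hv
    dsimp only
    rw [if_neg hv]
    exact GNAM.vv_exp hNF v _ (hin v hv) (hsq v hv)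
  · intro v w hv hw hwv
    dsimp only
    rw [if_neg hv]
    exact GNAM.vv_one hNF w _ (hp0 v hv) (hout v w hv hw hwv)
  · intro v
    have h1 : (1 : ℝ) ≤ nv v := by
      have : nv v ≠ 0 := by
        unfold nv
        rw [Ne, Ideal.absNorm_eq_zero_iff]
        exact v.ne_bot
      exact_mod_cast Nat.one_le_iff_ne_zero.2 this
    have h2 : 0 ≤ ∑ C : ClassGroup (𝓞 F), (Ideal.absNorm (c C : Ideal (𝓞 F)) : ℝ) :=
      Finset.sum_nonneg fun _ _ => Nat.cast_nonneg _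
    dsimp only
    split_ifs with h
    · rw [Ideal.span_singleton_one, Ideal.absNorm_top, Nat.cast_one]
      nlinarith
    · obtain ⟨C, hC⟩ := hp v h
      rw [hC, map_mul, Nat.cast_mul, mul_comm]
      refine mul_le_mul_of_nonneg_right ?_ (Nat.cast_nonneg _)
      have h3 : (Ideal.absNorm (c C : Ideal (𝓞 F)) : ℝ) ≤
          ∑ C : ClassGroup (𝓞 F), (Ideal.absNorm (c C : Ideal (𝓞 F)) : ℝ) :=
        Finset.single_le_sum (f := fun C : ClassGroup (𝓞 F) =>
          (Ideal.absNorm (c C : Ideal (𝓞 F)) : ℝ)) (fun _ _ => Nat.cast_nonneg _)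
          (Finset.mem_univ C)
      linarith

end Pool.Agent.Lib.MP_8cb858_nt.PU
end

section
/-!
# GNB: finitely many classes of elements with even valuations outside `S`
-/
set_option autoImplicit false

namespace Pool.Agent.Lib.MP_8cb858_nt.PU

open Polynomial NumberField IsDedekindDomain Pool.Agent.Lib.MP_8cb858_nt.SEL
open Pool.Agent.Lib.MP_8cb858_nt.PF
open scoped Classical WithZero nonZeroDivisors

namespace GNBM

variable {F : Type} [Field F] [NumberField F]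

theorem val_eq (v : Pl F) (x : F) : vv v (algebraMap F (v.adicCompletion F) x) = v.valuation F x :=
  v.valuedAdicCompletion_eq_valuation' x

theorem supp_finite (x : F) (hx : x ≠ 0) : {w : Pl F | w.valuation F x ≠ 1}.Finite := by
  refine ((HeightOneSpectrum.Support.finite (𝓞 F) x).union
    (HeightOneSpectrum.Support.finite (𝓞 F) x⁻¹)).subset ?_
  intro w hw
  have h0 : w.valuation F x ≠ 0 := (Valuation.ne_zero_iff _).2 hx
  rcases lt_trichotomy (w.valuation F x) 1 with h | h | h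
  · right
    change 1 < w.valuation F x⁻¹
    rw [map_inv₀]
    exact (one_lt_inv₀ (zero_lt_iff.2 h0)).2 h
  · exact absurd h hw
  · left
    exact h

/-- A generator of the power of a place. -/
theorem gen (v : Pl F) (h : ℕ) (hh : h = Fintype.card (ClassGroup (𝓞 F))) : ∃ g : 𝓞 F, g ≠ 0 ∧
    v.valuation F (g : F) = WithZero.exp (-(h : ℤ)) ∧ ∀ w : Pl F, w ≠ v → w.valuation F (g : F) = 1 := by
  have hv0 : v.asIdeal ∈ (Ideal (𝓞 F))⁰ := mem_nonZeroDivisors_of_ne_zero v.ne_bot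
  have h1 : ClassGroup.mk0 ((⟨v.asIdeal, hv0⟩ : (Ideal (𝓞 F))⁰) ^ h) = 1 := by
    rw [map_pow, hh, pow_card_eq_one]
  have h2 : (((⟨v.asIdeal, hv0⟩ : (Ideal (𝓞 F))⁰) ^ h : (Ideal (𝓞 F))⁰) : Ideal (𝓞 F)).IsPrincipal := by
    have := (ClassGroup.mk0_eq_one_iff (SetLike.coe_mem ((⟨v.asIdeal, hv0⟩ : (Ideal (𝓞 F))⁰) ^ h))).1 h1
    exact this
  rw [SubmonoidClass.coe_pow] at h2
  obtain ⟨g, hg⟩ := h2.principal
  have hg' : v.asIdeal ^ h = Ideal.span {g} := hg
  have hg0 : g ≠ 0 := by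
    rintro rfl
    rw [Ideal.span_singleton_eq_bot.2 rfl] at hg'
    exact pow_ne_zero h v.ne_bot hg'
  refine ⟨g, hg0, ?_, fun w hw => ?_⟩
  · rw [v.valuation_of_algebraMap]
    rw [v.intValuation_if_neg hg0, ← hg']
    congr 2
    have : Associates.count (Associates.mk v.asIdeal) (Associates.mk (v.asIdeal ^ h)).factors = h := by
      rw [Associates.mk_pow, Associates.count_pow (Associates.mk_ne_zero.2 v.ne_bot) v.associates_irreducible,
        Associates.count_self v.associates_irreducible, mul_one]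
    rw [this]
  · have h3 : g ∉ w.asIdeal := by
      intro h4
      have h5 : v.asIdeal ^ h ≤ w.asIdeal := by
        rw [hg', Ideal.span_singleton_le_iff_mem]
        exact h4
      have h6 : v.asIdeal ≤ w.asIdeal := w.isPrime.le_of_pow_le h5
      exact hw (HeightOneSpectrum.ext (v.isMaximal.eq_of_le w.isPrime.ne_top h6)).symm
    refine le_antisymm (w.valuation_le_one g) (not_lt.1 fun h4 => h3 ?_)
    exact (w.valuation_lt_one_iff_mem g).1 h4

/-- Elements with the same valuations differ by a unit. -/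
theorem unit_of (x y : F) (hx : x ≠ 0) (hy : y ≠ 0)
    (h : ∀ w : Pl F, w.valuation F x = w.valuation F y) : ∃ ε : (𝓞 F)ˣ, x = y * ((ε : 𝓞 F) : F) := by
  have h1 : ∀ w : Pl F, w.valuation F (x / y) ≤ 1 := fun w => by
    rw [map_div₀, h w, div_self ((Valuation.ne_zero_iff _).2 hy)]
  have h2 : ∀ w : Pl F, w.valuation F (y / x) ≤ 1 := fun w => by
    rw [map_div₀, h w, div_self ((Valuation.ne_zero_iff _).2 hy)]
  obtain ⟨a, ha⟩ := HeightOneSpectrum.mem_integers_of_valuation_le_one (R := 𝓞 F) F (x / y) h1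
  obtain ⟨b, hb⟩ := HeightOneSpectrum.mem_integers_of_valuation_le_one (R := 𝓞 F) F (y / x) h2
  have hab : a * b = 1 := by
    apply RingOfIntegers.coe_injective
    have e : algebraMap (𝓞 F) F (a * b) = 1 := by
      rw [map_mul, ha, hb]
      field_simp
    rw [map_one]
    exact e
  refine ⟨⟨a, b, hab, by rw [mul_comm]; exact hab⟩, ?_⟩
  change x = y * algebraMap (𝓞 F) F a
  rw [ha]
  field_simp

/-- Representatives of the units modulo squares. -/
theorem units (hSUI : SpecSUI) : ∃ E : Finset (𝓞 F)ˣ, ∀ ε : (𝓞 F)ˣ, ∃ e ∈ E, ∃ η : (𝓞 F)ˣ, ε = e * η ^ 2 := by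
  obtain ⟨N, hN⟩ : ∃ N : Subgroup (𝓞 F)ˣ, N = (powMonoidHom 2 : (𝓞 F)ˣ →* (𝓞 F)ˣ).range := ⟨_, rfl⟩
  have hfi : N.FiniteIndex := ⟨by rw [hN, hSUI F]; positivity⟩
  have hfin : Finite ((𝓞 F)ˣ ⧸ N) := Subgroup.finite_quotient_of_finiteIndex
  have := Fintype.ofFinite ((𝓞 F)ˣ ⧸ N)
  refine ⟨Finset.univ.image (fun q : (𝓞 F)ˣ ⧸ N => q.out), fun ε => ?_⟩
  obtain ⟨k, hk⟩ := QuotientGroup.mk_out_eq_mul N ε
  refine ⟨(QuotientGroup.mk ε : (𝓞 F)ˣ ⧸ N).out, Finset.mem_image_of_mem _ (Finset.mem_univ _), ?_⟩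
  have hk2 : (k : (𝓞 F)ˣ) ∈ (powMonoidHom 2 : (𝓞 F)ˣ →* (𝓞 F)ˣ).range := hN ▸ k.2
  obtain ⟨η, hη⟩ := hk2
  have hη : η ^ 2 = (k : (𝓞 F)ˣ) := hη
  refine ⟨η⁻¹, ?_⟩
  rw [hk, ← hη]
  group

theorem prod_val (s : Finset (Pl F)) (f : Pl F → F) (k : Pl F → ℤ) (w : Pl F)
    (h : ∀ v ∈ s, v ≠ w → w.valuation F (f v) = 1) :
    w.valuation F (∏ v ∈ s, f v ^ k v) = if w ∈ s then w.valuation F (f w) ^ k w else 1 := by
  rw [map_prod]
  split_ifs with hw
  · rw [Finset.prod_eq_single_of_mem w hw fun v hv hvw => by rw [map_zpow₀, h v hv hvw, one_zpow], map_zpow₀]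
  · refine Finset.prod_eq_one fun v hv => ?_
    rw [map_zpow₀, h v hv (fun e => hw (e ▸ hv)), one_zpow]

end GNBM

open GNBM in
theorem specGNB (hSUI : SpecSUI) : SpecGNB := by
  intro F _ _ S pi hpi0 hpi1 hpi2
  obtain ⟨h, hh⟩ : ∃ h : ℕ, h = Fintype.card (ClassGroup (𝓞 F)) := ⟨_, rfl⟩
  have hpos : 0 < h := hh ▸ Fintype.card_pos
  have : NeZero (2 * h) := ⟨by omega⟩
  choose g hg0 hg1 hg2 using fun v : Pl F => gen v h hh
  obtain ⟨E, hE⟩ := units (F := F) hSUI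
  -- representatives
  have hX : ∀ r : {v // v ∈ S} → Fin (2 * h), ∃ X : 𝓞 F, (X ≠ 0 ∧ ∀ w, w ∉ S → w.valuation F (X : F) = 1) ∧
      ∀ X' : 𝓞 F, X' ≠ 0 → (∀ w, w ∉ S → w.valuation F (X' : F) = 1) →
        (∀ v : {v // v ∈ S}, v.1.valuation F (X' : F) = WithZero.exp (-((r v : ℕ) : ℤ))) →
        ∀ v : {v // v ∈ S}, v.1.valuation F (X : F) = WithZero.exp (-((r v : ℕ) : ℤ)) := by
    intro r
    by_cases hr : ∃ X' : 𝓞 F, X' ≠ 0 ∧ (∀ w, w ∉ S → w.valuation F (X' : F) = 1) ∧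
      ∀ v : {v // v ∈ S}, v.1.valuation F (X' : F) = WithZero.exp (-((r v : ℕ) : ℤ))
    · obtain ⟨X, h1, h2, h3⟩ := hr
      exact ⟨X, ⟨h1, h2⟩, fun _ _ _ _ => h3⟩
    · refine ⟨1, ⟨one_ne_zero, fun w _ => ?_⟩, fun X' h1 h2 h3 => absurd ⟨X', h1, h2, h3⟩ hr⟩
      rw [show (((1 : 𝓞 F)) : F) = 1 from map_one (algebraMap (𝓞 F) F), map_one]
  choose X hX1 hX2 using hX
  refine ⟨((Finset.univ : Finset ({v // v ∈ S} → Fin (2 * h))) ×ˢ E).image
    (fun p => X p.1 * (p.2 : 𝓞 F)), ?_, ?_, ?_⟩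
  · intro u hu
    obtain ⟨p, -, rfl⟩ := Finset.mem_image.1 hu
    exact mul_ne_zero (hX1 p.1).1 p.2.ne_zero
  · intro u hu w hw
    obtain ⟨p, -, rfl⟩ := Finset.mem_image.1 hu
    rw [val_eq]
    have e : (((X p.1 * (p.2 : 𝓞 F) : 𝓞 F)) : F) = (X p.1 : F) * ((p.2 : 𝓞 F) : F) := map_mul _ _ _
    rw [e, map_mul, (hX1 p.1).2 w hw, one_mul]
    have h1 := w.valuation_le_one (K := F) (p.2 : 𝓞 F)
    have h2 := w.valuation_le_one (K := F) ((p.2⁻¹ : (𝓞 F)ˣ) : 𝓞 F)
    have h3 : w.valuation F (((p.2 : 𝓞 F)) : F) * w.valuation F ((((p.2⁻¹ : (𝓞 F)ˣ) : 𝓞 F)) : F) = 1 := by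
      rw [← map_mul]
      have e2 : (((p.2 : 𝓞 F)) : F) * ((((p.2⁻¹ : (𝓞 F)ˣ) : 𝓞 F)) : F) = 1 := by
        have := congrArg (algebraMap (𝓞 F) F) (Units.mul_inv p.2)
        rw [map_mul, map_one] at this
        exact this
      rw [e2, map_one]
    exact le_antisymm h1 (h3 ▸ mul_le_of_le_one_right' h2)
  · intro x hx0 hx
    simp only [val_eq] at hx hpi1 hpi2
    have hpiF : ∀ v, (pi v : F) ≠ 0 := fun v h0 => hpi0 v (RingOfIntegers.coe_eq_zero_iff.1 h0)
    have hgF : ∀ v, (g v : F) ≠ 0 := fun v h0 => hg0 v (RingOfIntegers.coe_eq_zero_iff.1 h0)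
    choose! n hn using hx
    obtain ⟨T, hT⟩ : ∃ T : Finset (Pl F), ∀ w, w ∈ T ↔ w ∉ S ∧ w.valuation F x ≠ 1 := by
      refine ⟨(supp_finite x hx0).toFinset.filter (fun w => w ∉ S), fun w => ?_⟩
      rw [Finset.mem_filter, Set.Finite.mem_toFinset, and_comm]
      rfl
    obtain ⟨z, hz⟩ : ∃ z : F, z = ∏ v ∈ T, (pi v : F) ^ n v := ⟨_, rfl⟩
    have hz0 : z ≠ 0 := hz ▸ Finset.prod_ne_zero_iff.2 fun v _ => zpow_ne_zero _ (hpiF v)
    have hzv : ∀ w, w ∉ S → w.valuation F (x * z ^ 2) = 1 := by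
      intro w hw
      have h1 := prod_val T (fun v => (pi v : F)) n w fun v hv hvw =>
        hpi2 v w ((hT v).1 hv).1 hw (Ne.symm hvw)
      rw [← hz] at h1
      rw [map_mul, map_pow, h1]
      split_ifs with hwT
      · rw [hpi1 w hw, hn w hw, ← WithZero.exp_zsmul, ← WithZero.exp_nsmul, ← WithZero.exp_add,
          ← WithZero.exp_zero]
        congr 1
        simp only [smul_eq_mul, nsmul_eq_mul]
        push_cast
        ring
      · have h2 : w.valuation F x = 1 := by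
          by_contra h3
          exact hwT ((hT w).2 ⟨hw, h3⟩)
        rw [h2, one_pow, one_mul]
    have hx10 : x * z ^ 2 ≠ 0 := mul_ne_zero hx0 (pow_ne_zero _ hz0)
    have hm : ∀ v : Pl F, ∃ m : ℤ, v.valuation F (x * z ^ 2) = WithZero.exp (-m) := by
      intro v
      have h0 : v.valuation F (x * z ^ 2) ≠ 0 := (Valuation.ne_zero_iff _).2 hx10
      exact ⟨-WithZero.log (v.valuation F (x * z ^ 2)), by rw [neg_neg, WithZero.exp_log h0]⟩
    choose m hm using hm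
    obtain ⟨G, hG⟩ : ∃ G : F, G = ∏ v ∈ S, (g v : F) ^ (m v / (2 * h : ℤ)) := ⟨_, rfl⟩
    have hG0 : G ≠ 0 := hG ▸ Finset.prod_ne_zero_iff.2 fun v _ => zpow_ne_zero _ (hgF v)
    have hGv : ∀ w, w.valuation F G = if w ∈ S then WithZero.exp (-(h : ℤ)) ^ (m w / (2 * h : ℤ)) else 1 := by
      intro w
      have h1 := prod_val S (fun v => (g v : F)) (fun v => m v / (2 * h : ℤ)) w fun v hv hvw =>
        hg2 v w (Ne.symm hvw)
      rw [← hG, hg1] at h1
      exact h1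
    obtain ⟨x2, hx2⟩ : ∃ x2 : F, x2 = x * z ^ 2 * (G ^ 2)⁻¹ := ⟨_, rfl⟩
    have hx20 : x2 ≠ 0 := hx2 ▸ mul_ne_zero hx10 (inv_ne_zero (pow_ne_zero _ hG0))
    have v1 : ∀ w, w ∉ S → w.valuation F x2 = 1 := by
      intro w hw
      rw [hx2, map_mul, hzv w hw, map_inv₀, map_pow, hGv, if_neg hw, one_pow, inv_one, one_mul]
    have v2 : ∀ w, w ∈ S → w.valuation F x2 = WithZero.exp (-(m w % (2 * h : ℤ))) := by
      intro w hw
      rw [hx2, map_mul, hm, map_inv₀, map_pow, hGv, if_pos hw, ← WithZero.exp_zsmul, ← WithZero.exp_nsmul,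
        ← WithZero.exp_neg, ← WithZero.exp_add]
      congr 1
      have h1 := Int.mul_ediv_add_emod (m w) (2 * h : ℤ)
      simp only [smul_eq_mul, nsmul_eq_mul]
      push_cast
      linear_combination h1
    have h2h : (0 : ℤ) < 2 * h := by positivity
    obtain ⟨X', hX'⟩ := HeightOneSpectrum.mem_integers_of_valuation_le_one (R := 𝓞 F) F x2 (fun w => by
      by_cases hw : w ∈ S
      · rw [v2 w hw, ← WithZero.exp_zero, WithZero.exp_le_exp]
        have := Int.emod_nonneg (m w) h2h.ne'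
        omega
      · rw [v1 w hw])
    have hX'F : (X' : F) = x2 := hX'
    obtain ⟨r, hr⟩ : ∃ r : {v // v ∈ S} → Fin (2 * h), ∀ v, ((r v : ℕ) : ℤ) = m v.1 % (2 * h : ℤ) := by
      refine ⟨fun v => ⟨(m v.1 % (2 * h : ℤ)).toNat, ?_⟩, fun v => ?_⟩
      · have h1 := Int.emod_nonneg (m v.1) h2h.ne'
        have h3 := Int.emod_lt_of_pos (m v.1) h2h
        omega
      · exact Int.toNat_of_nonneg (Int.emod_nonneg (m v.1) h2h.ne')
    have hXr := hX2 r X' (by
      rintro rfl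
      rw [← hX'F] at hx20
      exact hx20 (map_zero _)) (fun w hw => by rw [hX'F, v1 w hw])
      (fun v => by rw [hX'F, v2 v.1 v.2, hr])
    have hXF : (X r : F) ≠ 0 := fun h0 => (hX1 r).1 (RingOfIntegers.coe_eq_zero_iff.1 h0)
    obtain ⟨ε, hε⟩ := unit_of x2 (X r : F) hx20 hXF (fun w => by
      by_cases hw : w ∈ S
      · rw [v2 w hw, hXr ⟨w, hw⟩, hr]
      · rw [v1 w hw, (hX1 r).2 w hw])
    obtain ⟨e, he, η, hη⟩ := hE ε
    have hη0 : (((η : 𝓞 F)) : F) ≠ 0 := fun h0 => η.ne_zero (RingOfIntegers.coe_eq_zero_iff.1 h0)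
    refine ⟨X r * (e : 𝓞 F), Finset.mem_image.2 ⟨(r, e), Finset.mem_product.2 ⟨Finset.mem_univ _, he⟩, rfl⟩,
      ((η : 𝓞 F) : F) * G * z⁻¹, mul_ne_zero (mul_ne_zero hη0 hG0) (inv_ne_zero hz0), ?_⟩
    have e1 : (((X r * (e : 𝓞 F) : 𝓞 F)) : F) = (X r : F) * ((e : 𝓞 F) : F) := map_mul _ _ _
    have e2 : ((ε : 𝓞 F) : F) = ((e : 𝓞 F) : F) * ((η : 𝓞 F) : F) ^ 2 := by
      rw [hη, Units.val_mul, Units.val_pow_eq_pow_val]
      rw [show (((e : 𝓞 F) * (η : 𝓞 F) ^ 2 : 𝓞 F) : F) = ((e : 𝓞 F) : F) * (((η : 𝓞 F) ^ 2 : 𝓞 F) : F) from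
        map_mul _ _ _]
      congr 1
    have e3 : x = x2 * G ^ 2 * (z ^ 2)⁻¹ := by
      rw [hx2]
      field_simp
    rw [e3, hε, e2, e1]
    field_simp

end Pool.Agent.Lib.MP_8cb858_nt.PU
end

section
/-!
# GNX: existence of the generators
-/
set_option autoImplicit false

namespace Pool.Agent.Lib.MP_8cb858_nt.PU

open Polynomial NumberField IsDedekindDomain Pool.Agent.Lib.MP_8cb858_nt.SEL
open Pool.Agent.Lib.MP_8cb858_nt.PF
open scoped Classical WithZero

theorem specGNX (hGNA : SpecGNA) (hGNB : SpecGNB) : SpecGNX := by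
  intro F _ _
  obtain ⟨S, pi, C, h1, h2, h3, h4, h5, h6⟩ := hGNA F
  obtain ⟨U, u1, u2, u3⟩ := hGNB F S pi h3 h4 h5
  exact ⟨{ S := S, pi := pi, U := U, C := C, one := h1, six := h2, ne := h3, ex := h4, un := h5,
           nrm := h6, une := u1, uun := u2, rep := u3 }⟩

end Pool.Agent.Lib.MP_8cb858_nt.PU
end

section
/-!
# LSC: finitely many square classes in the completions
-/
set_option autoImplicit false

namespace Pool.Agent.Lib.MP_8cb858_nt.PU

open Polynomial NumberField IsDedekindDomain Pool.Agent.Lib.MP_8cb858_nt.SEL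
open Pool.Agent.Lib.MP_8cb858_nt.PF
open scoped Classical WithZero

namespace LSCM

/-- A colouring by a finite type gives a colouring by `Fin`. -/
theorem to_fin {K α : Type} [Fintype α] {P : K → K → Prop} {N : ℕ} (hN : Fintype.card α = N)
    (c : K → α) (h : ∀ x y, c x = c y → P x y) :
    ∃ c : K → Fin N, ∀ x y, c x = c y → P x y := by
  subst hN
  exact ⟨fun x => Fintype.equivFin α (c x), fun x y hxy => h x y ((Fintype.equivFin α).injective hxy)⟩

/-- The colouring of a local field from a colouring of the units. -/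
theorem ext {K α : Type} [Field K] {w : Valuation K ℤᵐ⁰} {π : K} (hVAL : SpecVAL)
    (hπ : w π = WithZero.exp (-1 : ℤ)) (d : K → α)
    (hd : ∀ u v, w u = 1 → w v = 1 → d u = d v → IsSquare (u * v)) :
    ∃ c : K → ZMod 2 × α, ∀ x y, c x = c y → x ≠ 0 → y ≠ 0 → IsSquare (x * y) := by
  choose! n u hu hx using hVAL.dec (w := w) hπ
  have hπ0 : π ≠ 0 := by
    intro h
    rw [h, map_zero] at hπ
    exact WithZero.exp_ne_zero hπ.symm
  refine ⟨fun x => ((n x : ZMod 2), d (u x)), fun x y hc hx0 hy0 => ?_⟩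
  obtain ⟨h1, h2⟩ := Prod.mk.injEq .. ▸ hc
  rw [hx x hx0, hx y hy0]
  obtain ⟨s, hs⟩ := hd _ _ (hu x hx0) (hu y hy0) h2
  have h3 : Even (n x + n y) := by
    rw [ZMod.intCast_eq_intCast_iff_dvd_sub] at h1
    obtain ⟨k, hk⟩ := h1
    exact ⟨n x + k, by push_cast at hk; omega⟩
  obtain ⟨k, hk⟩ := h3
  refine ⟨π ^ k * s, ?_⟩
  have e : π ^ n x * u x * (π ^ n y * u y) = π ^ (n x + n y) * (u x * u y) := by
    rw [zpow_add₀ hπ0]; ring
  rw [e, hs, hk, zpow_add₀ hπ0]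
  ring

theorem odd (hVAL : SpecVAL) (hHNS : SpecHNS) (hRES : SpecRES) {K : Type} [Field K]
    {w : Valuation K ℤᵐ⁰} (hw : IsLF w) (h2 : w 2 = 1) :
    ∃ c : K → Fin 4, ∀ x y, c x = c y → x ≠ 0 → y ≠ 0 → IsSquare (x * y) := by
  obtain ⟨π, hπ⟩ := hVAL.uni hw
  obtain ⟨c, hc⟩ := ext hVAL hπ (fun u : K => (IsSquare u : Prop)) (by
    intro u v hu hv h
    have h : IsSquare u = IsSquare v := h
    by_cases h1 : IsSquare u
    · exact h1.mul (h ▸ h1)
    · have h1' : ¬ IsSquare v := h ▸ h1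
      have n1 : NS w u := by
        by_contra hn
        exact h1 ((hHNS.iff u hw h2 hu).2 hn)
      have n2 : NS w v := by
        by_contra hn
        exact h1' ((hHNS.iff v hw h2 hv).2 hn)
      exact (hHNS.iff (u * v) hw h2 (by rw [map_mul, hu, hv, one_mul])).2
        (hRES.mul u v hw h2 hu hv n1 n2))
  refine to_fin (α := ZMod 2 × Prop) ?_ c hc
  rw [Fintype.card_prod, Fintype.card_prop, ZMod.card]

theorem fin (hVAL : SpecVAL) (hLFB : SpecLFB) (hHNA : SpecHNA) {K : Type} [Field K] [CharZero K]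
    {w : Valuation K ℤᵐ⁰} (hw : IsLF w) :
    ∃ (N : ℕ) (c : K → Fin N), ∀ x y, c x = c y → x ≠ 0 → y ≠ 0 → IsSquare (x * y) := by
  obtain ⟨π, hπ⟩ := hVAL.uni hw
  have h40 : (4 : K) ≠ 0 := by norm_num
  have h4 : w (4 : K) ≠ 0 := (Valuation.ne_zero_iff _).2 h40
  obtain ⟨n, hn⟩ : ∃ n : ℕ, WithZero.exp (-(n : ℤ)) < w (4 : K) := by
    obtain ⟨m, hm⟩ : ∃ m : ℤ, w (4 : K) = WithZero.exp m := ⟨WithZero.log (w 4), (WithZero.exp_log h4).symm⟩
    refine ⟨(1 - m).toNat, ?_⟩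
    rw [hm, WithZero.exp_lt_exp]
    omega
  obtain ⟨s, hs⟩ := hLFB.fin hw n
  choose! r hr1 hr2 using hs
  have hne : s.Nonempty := ⟨r 0, hr1 0 (by rw [map_zero]; exact zero_le)⟩
  obtain ⟨y0, hy0⟩ := hne
  obtain ⟨c, hc⟩ := ext hVAL hπ (fun u : K => if h : r u ∈ s then (⟨r u, h⟩ : {y // y ∈ s}) else ⟨y0, hy0⟩) (by
    intro u v hu hv h
    rw [dif_pos (hr1 u hu.le), dif_pos (hr1 v hv.le)] at h
    have h1 : r u = r v := congrArg Subtype.val h
    have h3 : w (u - v) ≤ WithZero.exp (-(n : ℤ)) := by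
      have e : u - v = (u - r u) - (v - r v) := by rw [h1]; ring
      rw [e]
      exact w.map_sub_le (hr2 u hu.le) (hr2 v hv.le)
    have hv0 : v ≠ 0 := by
      intro h0
      rw [h0, map_zero] at hv
      exact zero_ne_one hv
    obtain ⟨y, -, hy⟩ := hHNA.one ((u - v) / (4 * v)) hw (by
      rw [map_div₀, map_mul, hv, mul_one]
      exact (div_lt_one₀ (zero_lt_iff.2 h4)).2 (h3.trans_lt hn))
    refine ⟨(1 + 2 * y) * v, ?_⟩
    have e1 : 1 + 4 * ((u - v) / (4 * v)) = u / v := by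
      field_simp
      ring
    rw [e1] at hy
    have e2 : (1 + 2 * y) * v * ((1 + 2 * y) * v) = (1 + 2 * y) ^ 2 * v ^ 2 := by ring
    rw [e2, hy]
    field_simp)
  exact ⟨_, to_fin (α := ZMod 2 × {y // y ∈ s}) rfl c hc⟩

end LSCM

open NumberField.InfinitePlace NumberField.InfinitePlace.Completion in
theorem specLSC (hVAL : SpecVAL) (hHNS : SpecHNS) (hRES : SpecRES) (hLFB : SpecLFB)
    (hHNA : SpecHNA) (hNF : SpecNF) : SpecLSC where
  odd := by
    intro F _ _ v h2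
    have h : vv v (2 : v.adicCompletion F) = 1 := by
      have e : algebraMap F (v.adicCompletion F) (((2 : 𝓞 F) : F)) = 2 := by
        have e1 : (((2 : 𝓞 F)) : F) = 2 := map_ofNat (algebraMap (𝓞 F) F) 2
        rw [e1, map_ofNat]
      have h3 := hNF.int F v 2 1
      rw [e, pow_one] at h3
      refine le_antisymm h3.1 (not_lt.1 fun h4 => h2 (h3.2.2 ?_))
      exact_mod_cast (hVAL.lt (vv v) _).1 h4
    obtain ⟨c, hc⟩ := LSCM.odd hVAL hHNS hRES (hNF.lf F v) h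
    exact ⟨c, fun x y hx hy h => hc x y h hx hy⟩
  fin := by
    intro F _ _ v
    obtain ⟨N, c, hc⟩ := LSCM.fin hVAL hLFB hHNA (hNF.lf F v)
    exact ⟨N, c, fun x y hx hy h => hc x y h hx hy⟩
  inf := by
    intro F _ _ v
    rcases v.isReal_or_isComplex with hv | hv
    · have φ : v.Completion ≃+* ℝ := ringEquivRealOfIsReal hv
      obtain ⟨c, hc⟩ := LSCM.to_fin (α := Prop) (N := 2) Fintype.card_prop (fun x : v.Completion => (0 ≤ φ x : Prop))
        (P := fun x y => IsSquare (x * y)) (by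
          intro x y h
          have h : (0 ≤ φ x) = (0 ≤ φ y) := h
          have h1 : 0 ≤ φ x * φ y := by
            by_cases h2 : 0 ≤ φ x
            · exact mul_nonneg h2 (h ▸ h2)
            · have h3 : ¬ 0 ≤ φ y := h ▸ h2
              exact mul_nonneg_of_nonpos_of_nonpos (not_le.1 h2).le (not_le.1 h3).le
          refine ⟨φ.symm (Real.sqrt (φ x * φ y)), φ.injective ?_⟩
          rw [map_mul, map_mul, RingEquiv.apply_symm_apply, Real.mul_self_sqrt h1])
      exact ⟨c, fun x y _ _ h => hc x y h⟩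
    · have φ : v.Completion ≃+* ℂ := ringEquivComplexOfIsComplex hv
      refine ⟨fun _ => 0, fun x y _ _ _ => ?_⟩
      obtain ⟨z, hz⟩ := IsAlgClosed.exists_pow_nat_eq (φ (x * y)) (n := 2) (by norm_num)
      refine ⟨φ.symm z, φ.injective ?_⟩
      rw [map_mul φ (φ.symm z), RingEquiv.apply_symm_apply, ← hz, pow_two]

end Pool.Agent.Lib.MP_8cb858_nt.PU
end

section
/-! # PU, block G, module NUM (helper29): the number of classes -/
namespace Pool.Agent.Lib.MP_8cb858_nt.PU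

open Polynomial NumberField IsDedekindDomain Pool.Agent.Lib.MP_8cb858_nt.SEL
open Pool.Agent.Lib.MP_8cb858_nt.PF
open scoped Classical WithZero

namespace NUMM

/-- finitely many places over 2 -/
lemma fin2 (F : Type) [Field F] [NumberField F] : {v : Pl F | (2 : 𝓞 F) ∈ v.asIdeal}.Finite := by
  have h2 : Ideal.span {(2 : 𝓞 F)} ≠ 0 := by
    intro h
    rw [Ideal.zero_eq_bot, Ideal.span_singleton_eq_bot] at h
    exact two_ne_zero h
  refine (Ideal.finite_factors h2).subset fun v hv => ?_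
  exact Ideal.dvd_iff_le.2 ((Ideal.span_singleton_le_iff_mem _).2 hv)

/-- counting classes by colours -/
lemma card_cl {F C : Type} [Nonempty F] [Fintype C] {D : Type} (cl : F → D) (col : F → C) (T : Finset F)
    (h : ∀ x ∈ T, ∀ y ∈ T, col x = col y → cl x = cl y) : (T.image cl).card ≤ Fintype.card C := by
  have hr : ∀ c ∈ T.image cl, ∃ x ∈ T, cl x = c := fun c hc => by simpa using hc
  choose! r hr1 hr2 using hr
  rw [← Finset.card_univ]
  refine Finset.card_le_card_of_injOn (fun c => col (r c)) (fun c _ => Finset.mem_coe.2 (Finset.mem_univ _)) ?_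
  intro c hc d hd hcd
  have := h _ (hr1 c hc) _ (hr1 d hd) hcd
  rw [hr2 c hc, hr2 d hd] at this
  exact this

end NUMM

open NUMM in
theorem specNUM (hLSC : SpecLSC) (hCLM : SpecCLM) : SpecNUM := by
  intro F _ _
  choose co hco using fun (v : {v : Pl F // (2 : 𝓞 F) ∉ v.asIdeal}) => hLSC.odd F v.1 v.2
  choose N cf hcf using fun v : Pl F => hLSC.fin F v
  choose ci hci using fun v : InfinitePlace F => hLSC.inf F v
  let S2 : Finset (Pl F) := (fin2 F).toFinset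
  have hS2 : ∀ v : Pl F, v ∈ S2 ↔ (2 : 𝓞 F) ∈ v.asIdeal := fun v => by simp [S2]
  refine ⟨(∏ v : S2, N v) * 2 ^ Fintype.card (InfinitePlace F), fun M T hT => ?_⟩
  let col : F → (M → Fin 4) × ((v : S2) → Fin (N v)) × (InfinitePlace F → Fin 2) := fun x =>
    (fun v => if h : (2 : 𝓞 F) ∉ v.1.asIdeal then co ⟨v.1, h⟩ (algebraMap F _ x) else 0,
      fun v => cf v.1 (algebraMap F _ x), fun v => ci v (algebraMap F _ x))
  have hcol : ∀ x ∈ T, ∀ y ∈ T, col x = col y → cl M x = cl M y := by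
    intro x hx y hy hxy
    have hx0 := hT x hx
    have hy0 := hT y hy
    rw [hCLM.eq M x y hx0 hy0]
    obtain ⟨h1, h23⟩ := Prod.ext_iff.1 hxy
    obtain ⟨h2, h3⟩ := Prod.ext_iff.1 h23
    refine ⟨fun v hv => ?_, fun v => ?_⟩
    · rw [map_mul]
      have hxv : algebraMap F (v.adicCompletion F) x ≠ 0 := (_root_.map_ne_zero _).2 hx0
      have hyv : algebraMap F (v.adicCompletion F) y ≠ 0 := (_root_.map_ne_zero _).2 hy0
      by_cases h : (2 : 𝓞 F) ∉ v.asIdeal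
      · have := congrFun h1 ⟨v, hv⟩
        simp only [col, h, not_false_eq_true, dif_pos] at this
        exact hco ⟨v, h⟩ _ _ hxv hyv this
      · have hv2 : v ∈ S2 := (hS2 v).2 (not_not.1 h)
        have := congrFun h2 ⟨v, hv2⟩
        exact hcf v _ _ hxv hyv this
    · rw [map_mul]
      exact hci v _ _ ((_root_.map_ne_zero _).2 hx0) ((_root_.map_ne_zero _).2 hy0) (congrFun h3 v)
  refine (card_cl (cl M) col T hcol).trans ?_
  rw [Fintype.card_prod, Fintype.card_prod, Fintype.card_fun, Fintype.card_pi, Fintype.card_fun, Fintype.card_coe]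
  simp only [Fintype.card_fin]
  have e4 : (4 : ℕ) ^ M.card = 2 ^ (2 * M.card) := by rw [pow_mul]; norm_num
  rw [e4, pow_add, mul_comm]
  exact Nat.mul_le_mul Nat.lt_two_pow_self.le le_rfl

end Pool.Agent.Lib.MP_8cb858_nt.PU
end

section
/-!
# TNX: the twists in terms of generators
-/
namespace Pool.Agent.Lib.MP_8cb858_nt.PU

open Polynomial NumberField IsDedekindDomain Filter Pool.Agent.Lib.MP_8cb858_nt.SEL
open Pool.Agent.Lib.MP_8cb858_nt.PF
open scoped Classical WithZero Topology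

namespace TNXM

open AUYM

variable {F : Type} [Field F] [NumberField F]

lemma val_ord (v : Pl F) {x : F} (hx : x ≠ 0) : v.valuation F x = WithZero.exp (ord v x) := by
  rw [← vv_ord v hx]
  exact (HeightOneSpectrum.valuedAdicCompletion_eq_valuation' (R := 𝓞 F) v x).symm

lemma od_iff (v : Pl F) {x : F} (hx : x ≠ 0) :
    (∃ n : ℤ, v.valuation F x = WithZero.exp (2 * n)) ↔ Even (ord v x) := by
  constructor
  · rintro ⟨n, hn⟩
    rw [val_ord v hx] at hn
    rw [WithZero.exp_injective hn]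
    exact even_two_mul n
  · rintro ⟨m, hm⟩
    exact ⟨m, by rw [val_ord v hx, hm, two_mul]⟩

lemma od_set {x : F} (hx : x ≠ 0) :
    {v : Pl F | ¬ ∃ n : ℤ, v.valuation F x = WithZero.exp (2 * n)} =
      {v : Pl F | ¬ Even (ord v x)} := by
  ext v
  rw [Set.mem_ofPred_eq, Set.mem_ofPred_eq, od_iff v hx]

lemma od_fin {x : F} (hx : x ≠ 0) : {v : Pl F | ¬ Even (ord v x)}.Finite :=
  (ord_fin x hx).subset fun v hv h0 => hv (by rw [h0]; exact Even.zero)

lemma tn_eq {x : F} (hx : x ≠ 0) : tn x = ∏ v ∈ (od_fin hx).toFinset, nv v := by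
  unfold tn
  rw [od_set hx]
  exact finprod_mem_eq_finite_toFinset_prod _ (od_fin hx)

lemma nv_pos (v : Pl F) : 1 ≤ nv v := by
  rw [Nat.one_le_iff_ne_zero]
  unfold nv
  rw [Ne, Ideal.absNorm_eq_zero_iff]
  exact v.ne_bot

lemma prod_mono {A B : Finset (Pl F)} (h : A ⊆ B) :
    ∏ v ∈ A, nv v ≤ ∏ v ∈ B, nv v :=
  Finset.prod_le_prod_of_subset_of_one_le' h fun v _ _ => nv_pos v

lemma one_unit (w : Pl F) : vv w (lc w (1 : 𝓞 F)) = 1 := by
  have : lc w (1 : 𝓞 F) = 1 := by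
    change algebraMap F (w.adicCompletion F) (algebraMap (𝓞 F) F 1) = 1
    rw [map_one, map_one]
  rw [this, map_one]

omit [NumberField F] in
lemma coe_ne {x : 𝓞 F} (hx : x ≠ 0) : (x : F) ≠ 0 := by simpa using hx

end TNXM

open AUYM TNXM in
theorem specTNX (hTWV : SpecTWV) : SpecTNX where
  rep := by
    intro F _ _ G x hx
    have hfin : {v : Pl F | v ∉ G.S ∧ ¬ Even (ord v x)}.Finite :=
      (od_fin hx).subset fun v hv => hv.2
    obtain ⟨A, hAmem⟩ : ∃ A : Finset (Pl F), ∀ v, v ∈ A ↔ v ∉ G.S ∧ ¬ Even (ord v x) :=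
      ⟨hfin.toFinset, fun v => by simp⟩
    obtain ⟨q, hq⟩ : ∃ q : F, q = ∏ v ∈ A, ((G.pi v : 𝓞 F) : F) := ⟨_, rfl⟩
    have hpi0 : ∀ v, ((G.pi v : 𝓞 F) : F) ≠ 0 := fun v => coe_ne (G.ne v)
    have hq0 : q ≠ 0 := by rw [hq]; exact Finset.prod_ne_zero_iff.2 fun v _ => hpi0 v
    have hrep : ∀ w : Pl F, w ∉ G.S → ∃ n : ℤ, vv w (algebraMap F (w.adicCompletion F) (x * q)) =
        WithZero.exp (2 * n) := by
      intro w hw
      refine even_exp (vv_ord w (mul_ne_zero hx hq0)) ?_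
      rw [ord_mul w hx hq0, hq, ord_prod w A _ (fun v _ => hpi0 v)]
      have hterm : ∀ v ∈ A, ord w ((G.pi v : 𝓞 F) : F) = if v = w then -1 else 0 := by
        intro v hv
        have hvS := ((hAmem v).1 hv).1
        split_ifs with h
        · subst h
          exact ord_of v (hpi0 v) (G.ex v hvS)
        · exact ord_of w (hpi0 v) (by
            rw [WithZero.exp_zero]; exact G.un v w hvS hw (fun h' => h h'.symm))
      rw [Finset.sum_congr rfl hterm, Finset.sum_ite_eq' A w (fun _ => (-1 : ℤ))]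
      by_cases hwA : w ∈ A
      · rw [if_pos hwA]
        have h1 := ((hAmem w).1 hwA).2
        rw [Int.not_even_iff_odd] at h1
        obtain ⟨k, hk⟩ := h1
        exact ⟨k, by rw [hk]; ring⟩
      · rw [if_neg hwA, add_zero]
        by_contra h
        exact hwA ((hAmem w).2 ⟨hw, h⟩)
    obtain ⟨u, huU, y, hy, hu⟩ := G.rep (x * q) (mul_ne_zero hx hq0) hrep
    refine ⟨u, huU, A, fun v hv => ((hAmem v).1 hv).1, ?_, y / q, div_ne_zero hy hq0, ?_⟩
    · rw [tn_eq hx]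
      refine prod_mono fun v hv => ?_
      rw [Set.Finite.mem_toFinset]
      exact ((hAmem v).1 hv).2
    · have htw : ((G.tw u A : 𝓞 F) : F) = (u : F) * q := by
        rw [hq]; simp [Gs.tw, map_prod]
      rw [htw]
      field_simp
      rw [← hu]
  nrm := by
    intro F _ _ G A hA
    have h0 : G.tw 1 A ≠ 0 := hTWV.ne G 1 A one_ne_zero
    have hx : ((G.tw 1 A : 𝓞 F) : F) ≠ 0 := coe_ne h0
    refine ⟨h0, ?_⟩
    rw [tn_eq hx]
    have hsub : (od_fin hx).toFinset ⊆ A ∪ G.S := by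
      intro v hv
      rw [Set.Finite.mem_toFinset] at hv
      by_contra hcon
      rw [Finset.mem_union, not_or] at hcon
      have h1 := hTWV.un G 1 A v (fun w _ => one_unit w) hA hcon.1 hcon.2
      apply hv
      have h2 : ord v ((G.tw 1 A : 𝓞 F) : F) = 0 :=
        ord_of v hx (by rw [WithZero.exp_zero]; exact h1)
      change Even (ord v ((G.tw 1 A : 𝓞 F) : F))
      rw [h2]; exact Even.zero
    refine (prod_mono hsub).trans (le_of_eq ?_)
    unfold NA
    rw [Finset.prod_union]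
    rw [Finset.disjoint_left]
    exact hA
  inj := by
    intro F _ _ G A A' y hA hA' hy he
    have key : ∀ (B B' : Finset (Pl F)) (z : F), (∀ v ∈ B, v ∉ G.S) → (∀ v ∈ B', v ∉ G.S) →
        z ≠ 0 → (G.tw 1 B : F) = (G.tw 1 B' : F) * z ^ 2 → B ⊆ B' := by
      intro B B' z hB hB' hz h v hv
      by_contra hv'
      have hx : ((G.tw 1 B : 𝓞 F) : F) ≠ 0 := coe_ne (hTWV.ne G 1 B one_ne_zero)
      have hx' : ((G.tw 1 B' : 𝓞 F) : F) ≠ 0 := coe_ne (hTWV.ne G 1 B' one_ne_zero)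
      have h1 : ord v ((G.tw 1 B : 𝓞 F) : F) = -1 :=
        ord_of v hx (hTWV.ex G 1 B v (fun w _ => one_unit w) hB hv)
      have h2 : ord v ((G.tw 1 B' : 𝓞 F) : F) = 0 :=
        ord_of v hx' (by
          rw [WithZero.exp_zero]
          exact hTWV.un G 1 B' v (fun w _ => one_unit w) hB' hv' (hB v hv))
      rw [h, ord_mul v hx' (pow_ne_zero 2 hz), h2, sq, ord_mul v hz hz] at h1
      omega
    refine Finset.Subset.antisymm (key A A' y hA hA' hy he) (key A' A y⁻¹ hA' hA (inv_ne_zero hy) ?_)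
    rw [he]
    field_simp

end Pool.Agent.Lib.MP_8cb858_nt.PU
end

section
/-!
# TYP: typical numbers of types
-/
namespace Pool.Agent.Lib.MP_8cb858_nt.PU

open Polynomial NumberField IsDedekindDomain Pool.Agent.Lib.MP_8cb858_nt.SEL
open Pool.Agent.Lib.MP_8cb858_nt.PF
open scoped Classical WithZero

namespace TYPM

variable {F : Type} [Field F] [NumberField F]

lemma excl (hTYZ : SpecTYZ) {q : Pl F} (hq : (6 : 𝓞 F) ∉ q.asIdeal) (E : 𝓞 F × 𝓞 F)
    (h3 : Y3 q E) : ¬ Y12 q E := by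
  intro h
  exact (hTYZ.x3 F q hq _ ((hTYZ.e3 F q E).1 h3)).1 ((hTYZ.e12 F q E).1 h)

lemma ty0 {q : Pl F} {E : 𝓞 F × 𝓞 F} : ty q E = 0 ↔ Y12 q E := by
  unfold ty
  by_cases h1 : Y12 q E
  · simp [h1]
  · rw [if_neg h1]
    by_cases h2 : Y3 q E
    · simp [h1, h2]
    · rw [if_neg h2]
      by_cases h3 : dsc E.1 E.2 ∈ q.asIdeal
      · simp [h1, h3]
      · simp [h1, h3]

lemma ty2 {q : Pl F} {E : 𝓞 F × 𝓞 F} (h : ty q E = 2) : ¬ Y12 q E ∧ ¬ Y3 q E := by
  unfold ty at h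
  by_cases h1 : Y12 q E
  · simp [h1] at h
  · rw [if_neg h1] at h
    by_cases h2 : Y3 q E
    · simp [h2] at h
    · exact ⟨h1, h2⟩

lemma six {S : Dat F} {r0 : ℕ} (hB : Big S r0) (i : Fin S.r) {q : Pl F} (hq : q ∈ S.L i) :
    (6 : 𝓞 F) ∉ q.asIdeal :=
  (S.G.six q (fun h => hB.ok.lpr i q hq (hB.ok.gs h))).1

lemma cheb {r N A : ℝ} (hr : 0 < r) (c : ℝ) (hc : 0 < c)
    (h : A * (r / c) ^ 2 ≤ r / 4 * N) : A ≤ c ^ 2 / 4 / r * N := by
  have h1 : A * (r / c) ^ 2 * (c ^ 2 / r ^ 2) ≤ r / 4 * N * (c ^ 2 / r ^ 2) :=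
    mul_le_mul_of_nonneg_right h (by positivity)
  have e1 : A * (r / c) ^ 2 * (c ^ 2 / r ^ 2) = A := by field_simp
  have e2 : r / 4 * N * (c ^ 2 / r ^ 2) = c ^ 2 / 4 / r * N := by field_simp
  rw [e1, e2] at h1
  exact h1

lemma mean_ge {κ : ℝ} {L : Finset (Pl F)} {E : 𝓞 F × 𝓞 F} (hL : (0 : ℝ) < L.card) (h : Tok κ L E) :
    1 / 2 - κ ≤ ((L.filter (fun q => ty q E = 0)).card : ℝ) / (L.card : ℝ) := by
  rw [le_div_iff₀ hL]
  have e : L.filter (fun q => ty q E = 0) = L.filter (fun q => Y12 q E) := by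
    refine Finset.filter_congr (fun q _ => ?_)
    exact ty0
  rw [e]
  have := (abs_le.1 h.t12).1
  linarith

lemma mean_le (hTYZ : SpecTYZ) {κ : ℝ} {L : Finset (Pl F)} {E : 𝓞 F × 𝓞 F} (hL : (0 : ℝ) < L.card)
    (hp : ∀ q ∈ L, (6 : 𝓞 F) ∉ q.asIdeal) (h : Tok κ L E) :
    ((L.filter (fun q => ty q E = 2)).card : ℝ) / (L.card : ℝ) ≤ 1 / 6 + 2 * κ := by
  rw [div_le_iff₀ hL]
  have d1 : Disjoint (L.filter (fun q => Y12 q E)) (L.filter (fun q => Y3 q E)) := by
    rw [Finset.disjoint_left]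
    intro q h1 h2
    rw [Finset.mem_filter] at h1 h2
    exact excl hTYZ (hp q h1.1) _ h2.2 h1.2
  have d2 : Disjoint (L.filter (fun q => ty q E = 2))
      (L.filter (fun q => Y12 q E) ∪ L.filter (fun q => Y3 q E)) := by
    rw [Finset.disjoint_left]
    intro q h1 h2
    rw [Finset.mem_union, Finset.mem_filter, Finset.mem_filter] at h2
    rw [Finset.mem_filter] at h1
    obtain ⟨h3, h4⟩ := ty2 h1.2
    rcases h2 with h2 | h2
    · exact h3 h2.2
    · exact h4 h2.2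
  have hc : (L.filter (fun q => ty q E = 2)).card + ((L.filter (fun q => Y12 q E)).card +
      (L.filter (fun q => Y3 q E)).card) ≤ L.card := by
    rw [← Finset.card_union_of_disjoint d1, ← Finset.card_union_of_disjoint d2]
    refine Finset.card_le_card ?_
    intro q hq
    rw [Finset.mem_union, Finset.mem_union, Finset.mem_filter, Finset.mem_filter,
      Finset.mem_filter] at hq
    rcases hq with hq | hq | hq
    · exact hq.1
    · exact hq.1
    · exact hq.1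
  have hc' : ((L.filter (fun q => ty q E = 2)).card : ℝ) +
      (((L.filter (fun q => Y12 q E)).card : ℝ) +
      ((L.filter (fun q => Y3 q E)).card : ℝ)) ≤ (L.card : ℝ) := by
    exact_mod_cast hc
  have h1 := (abs_le.1 h.t12).1
  have h2 := (abs_le.1 h.t3).1
  linarith

end TYPM

theorem specTYP (hCHB : SpecCHB) (hTYZ : SpecTYZ) : SpecTYP := by
  intro ε hε
  refine ⟨⌈252500 / ε⌉₊ + 2, ?_⟩
  intro F _ _ S κ E hB hκ hκ1 hT
  have hr2 : 2 ≤ S.r := le_trans (by omega) hB.r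
  have hr : (0 : ℝ) < S.r := by
    have : 0 < S.r := by omega
    exact_mod_cast this
  have hrε : 252500 / (S.r : ℝ) ≤ ε := by
    have h1 : 252500 / ε ≤ (S.r : ℝ) := by
      refine (Nat.le_ceil _).trans ?_
      have : ⌈252500 / ε⌉₊ ≤ S.r := le_trans (by omega) hB.r
      exact_mod_cast this
    rw [div_le_iff₀ hr]
    rw [div_le_iff₀ hε] at h1
    linarith
  have hLc : ∀ i, (0 : ℝ) < (S.L i).card := fun i => (Real.exp_pos _).trans_le (hB.card i)
  have hLp : ∀ i, ∀ q ∈ S.L i, (6 : 𝓞 F) ∉ q.asIdeal := fun i q hq => TYPM.six hB i hq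
  -- the two exceptional sets
  have hA := hCHB _ S.r S.L (fun _ q => ty q E = 0) (S.r / 100) (by positivity)
  have hC := hCHB _ S.r S.L (fun _ q => ty q E = 2) (S.r / 1000) (by positivity)
  have hA' := TYPM.cheb hr 100 (by norm_num) hA
  have hC' := TYPM.cheb hr 1000 (by norm_num) hC
  have hsub : S.Om.filter (fun p => ¬ (48 * S.r ≤ 100 * (S.Ux E p).card ∧
      100 * (S.Jx E p).card ≤ 17 * S.r)) ⊆
      (Fintype.piFinset S.L).filter (fun p =>
        (S.r : ℝ) / 100 ≤ |((Finset.univ.filter (fun i => ty (p i) E = 0)).card : ℝ) -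
        ∑ i, (((S.L i).filter (fun q => ty q E = 0)).card : ℝ) / ((S.L i).card : ℝ)|) ∪
      (Fintype.piFinset S.L).filter (fun p =>
        (S.r : ℝ) / 1000 ≤ |((Finset.univ.filter (fun i => ty (p i) E = 2)).card : ℝ) -
        ∑ i, (((S.L i).filter (fun q => ty q E = 2)).card : ℝ) / ((S.L i).card : ℝ)|) := by
    intro p hp
    rw [Finset.mem_filter] at hp
    rw [Finset.mem_union, Finset.mem_filter, Finset.mem_filter]
    by_contra hcon
    rw [not_or] at hcon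
    obtain ⟨h1, h2⟩ := hcon
    have h1' : |((Finset.univ.filter (fun i => ty (p i) E = 0)).card : ℝ) -
        ∑ i, (((S.L i).filter (fun q => ty q E = 0)).card : ℝ) / ((S.L i).card : ℝ)| <
        (S.r : ℝ) / 100 := by
      rw [not_and, not_le] at h1
      exact h1 hp.1
    have h2' : |((Finset.univ.filter (fun i => ty (p i) E = 2)).card : ℝ) -
        ∑ i, (((S.L i).filter (fun q => ty q E = 2)).card : ℝ) / ((S.L i).card : ℝ)| <
        (S.r : ℝ) / 1000 := by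
      rw [not_and, not_le] at h2
      exact h2 hp.1
    have s1 : (S.r : ℝ) * (1 / 2 - κ) ≤
        ∑ i, (((S.L i).filter (fun q => ty q E = 0)).card : ℝ) / ((S.L i).card : ℝ) := by
      have : ∑ _i : Fin S.r, (1 / 2 - κ) ≤
          ∑ i, (((S.L i).filter (fun q => ty q E = 0)).card : ℝ) / ((S.L i).card : ℝ) :=
        Finset.sum_le_sum (fun i _ => TYPM.mean_ge (hLc i) (hT i))
      rw [Finset.sum_const, nsmul_eq_mul, Finset.card_univ, Fintype.card_fin] at this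
      exact this
    have s2 : ∑ i, (((S.L i).filter (fun q => ty q E = 2)).card : ℝ) / ((S.L i).card : ℝ) ≤
        (S.r : ℝ) * (1 / 6 + 2 * κ) := by
      have : ∑ i, (((S.L i).filter (fun q => ty q E = 2)).card : ℝ) / ((S.L i).card : ℝ) ≤
          ∑ _i : Fin S.r, (1 / 6 + 2 * κ) :=
        Finset.sum_le_sum (fun i _ => TYPM.mean_le hTYZ (hLc i) (hLp i) (hT i))
      rw [Finset.sum_const, nsmul_eq_mul, Finset.card_univ, Fintype.card_fin] at this
      exact this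
    have b1 := (abs_lt.1 h1').1
    have b2 := (abs_lt.1 h2').2
    have k1 : (S.r : ℝ) * κ ≤ S.r * (1 / 1000) := mul_le_mul_of_nonneg_left hκ1 hr.le
    apply hp.2
    constructor
    · have : (48 : ℝ) * S.r ≤ 100 * ((S.Ux E p).card : ℝ) := by
        unfold Dat.Ux
        nlinarith
      exact_mod_cast this
    · have : (100 : ℝ) * ((S.Jx E p).card : ℝ) ≤ 17 * S.r := by
        unfold Dat.Jx
        nlinarith
      exact_mod_cast this
  have hcard := (Finset.card_le_card hsub).trans (Finset.card_union_le _ _)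
  have hcard' := (Nat.cast_le (α := ℝ)).2 hcard
  rw [Nat.cast_add] at hcard'
  refine hcard'.trans (le_trans (add_le_add (le_trans (le_of_eq ?_) hA')
    (le_trans (le_of_eq ?_) hC')) ?_)
  · congr!
  · congr!
  have hOm : (0 : ℝ) ≤ (S.Om.card : ℝ) := Nat.cast_nonneg _
  have e : (100 : ℝ) ^ 2 / 4 / S.r * ((Fintype.piFinset S.L).card : ℝ) +
      (1000 : ℝ) ^ 2 / 4 / S.r * ((Fintype.piFinset S.L).card : ℝ) =
      252500 / (S.r : ℝ) * (S.Om.card : ℝ) := by
    unfold Dat.Om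
    ring
  rw [e]
  exact mul_le_mul_of_nonneg_right hrε hOm

end Pool.Agent.Lib.MP_8cb858_nt.PU
end

section
/-!
# Module VAP: valuations of the products
-/
namespace Pool.Agent.Lib.MP_8cb858_nt.PU

open Polynomial NumberField IsDedekindDomain Pool.Agent.Lib.MP_8cb858_nt.SEL
open Pool.Agent.Lib.MP_8cb858_nt.PF
open scoped Classical WithZero

namespace VAPM

variable {F : Type} [Field F] [NumberField F]

theorem mem (S : Dat F) {p : Fin S.r → Pl F} (hp : p ∈ S.Om) (i : Fin S.r) : p i ∈ S.L i := by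
  unfold Dat.Om at hp
  exact Fintype.mem_piFinset.1 hp i

theorem inj (S : Dat F) {p : Fin S.r → Pl F} (hS : S.Ok) (hp : p ∈ S.Om) (i j : Fin S.r)
    (h : p i = p j) : i = j := by
  by_contra hij
  have hd := hS.dis i j hij
  rw [Finset.disjoint_left] at hd
  exact hd (mem S hp i) (h ▸ mem S hp j)

theorem pp_eq (hTWV : SpecTWV) (S : Dat F) {p : Fin S.r → Pl F} (hS : S.Ok) (hp : p ∈ S.Om)
    (I : Finset (Fin S.r)) : S.pp p I = S.G.tw 1 (I.image p) := by
  have h := hTWV.img S.G 1 ∅ (Fin S.r) I p (fun i _ j _ e => inj S hS hp i j e)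
    (fun i _ => Finset.notMem_empty _)
  rw [Finset.empty_union] at h
  rw [← h]
  unfold Dat.pp Gs.tw
  simp

theorem one_un (G : Gs F) : ∀ w, w ∉ G.S → vv w (lc w (1 : 𝓞 F)) = 1 := by
  intro w _
  simp [lc]

end VAPM

open VAPM in
theorem specVAP (hTWV : SpecTWV) : SpecVAP where
  inj := by
    intro F _ _ S p hS hp
    refine ⟨inj S hS hp, fun i => ⟨mem S hp i, hS.lpr i _ (mem S hp i), ?_, ?_⟩⟩
    · exact fun h => hS.lpr i _ (mem S hp i) (hS.gs h)
    · exact fun h => hS.lpr i _ (mem S hp i) (hS.a1 _ h).1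
  ne := by
    intro F _ _ S p I hS hp
    have h1 : S.pp p I ≠ 0 := by
      unfold Dat.pp
      exact Finset.prod_ne_zero_iff.2 fun i _ => S.G.ne (p i)
    refine ⟨h1, ?_, ?_⟩
    · intro h
      apply h1
      exact_mod_cast h
    · exact hTWV.ne S.G S.u1 S.A1 (S.G.une _ hS.u1)
  val := by
    intro F _ _ S p I hS hp
    rw [pp_eq hTWV S hS hp]
    have hA : ∀ w ∈ I.image p, w ∉ S.G.S := by
      intro w hw
      obtain ⟨i, -, rfl⟩ := Finset.mem_image.1 hw
      exact fun h => hS.lpr i _ (mem S hp i) (hS.gs h)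
    refine ⟨fun i hi => ?_, fun v hv hne => ?_⟩
    · exact hTWV.ex S.G 1 _ (p i) (one_un S.G) hA (Finset.mem_image_of_mem _ hi)
    · refine hTWV.un S.G 1 _ v (one_un S.G) hA ?_ hv
      intro h
      obtain ⟨i, hi, rfl⟩ := Finset.mem_image.1 h
      exact hne i hi rfl
  d1 := by
    intro F _ _ S hS v hv
    exact hTWV.un S.G S.u1 S.A1 v (S.G.uun _ hS.u1) (fun w hw => (hS.a1 w hw).2)
      (fun h => hv (hS.a1 v h).1) (fun h => hv (hS.gs h))
  cop := by
    intro F _ _ S p J W hS hp hd v hv hvS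
    have hA : ∀ w ∈ W.image p, w ∉ S.G.S := by
      intro w hw
      obtain ⟨i, -, rfl⟩ := Finset.mem_image.1 hw
      exact fun h => hS.lpr i _ (mem S hp i) (hS.gs h)
    have h := hTWV.un S.G 1 (W.image p) v (one_un S.G) hA (by
      intro h
      obtain ⟨i, hi, rfl⟩ := Finset.mem_image.1 h
      unfold Dat.Kp at hv
      rcases Finset.mem_union.1 hv with h1 | h1
      · exact hS.lpr i _ (mem S hp i) h1
      · obtain ⟨j, hj, e⟩ := Finset.mem_image.1 h1
        have := inj S hS hp j i e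
        subst this
        exact Finset.disjoint_left.1 hd hj hi) hvS
    rw [pp_eq hTWV S hS hp]
    exact h
  im := by
    intro F _ _ S p V hS hp
    exact hTWV.img S.G S.u1 S.A1 (Fin S.r) V p (fun i _ j _ e => inj S hS hp i j e)
      (fun i _ h => hS.lpr i _ (mem S hp i) (hS.a1 _ h).1)
  mul := by
    intro F _ _ S p V W hd
    unfold Dat.pp
    exact (Finset.prod_union hd).symm

end Pool.Agent.Lib.MP_8cb858_nt.PU
end

section
/-!
# PER: the family with twist ideal `I` is a twist of the family with twist ideal `c`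
-/
namespace Pool.Agent.Lib.MP_8cb858_nt.PV

open Polynomial NumberField IsDedekindDomain Filter Pool.Agent.Lib.MP_8cb858_nt.SEL
open Pool.Agent.Lib.MP_8cb858_nt.PF Pool.Agent.Lib.MP_8cb858_nt.PU
open scoped Classical WithZero Topology

namespace PERM

theorem mem_cancel {R : Type} [CommRing R] [IsDomain R] {x : R} (hx : x ≠ 0) (z : R)
    (K : Ideal R) : x * z ∈ Ideal.span {x} * K ↔ z ∈ K := by
  rw [Ideal.mem_span_singleton_mul]
  constructor
  · rintro ⟨w, hw, e⟩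
    rw [← mul_left_cancel₀ hx e]
    exact hw
  · intro h
    exact ⟨z, h, rfl⟩

variable {F : Type} [Field F] [NumberField F]

/-- the correspondence -/
def Rl (g y : 𝓞 F) (q r : 𝓞 F × 𝓞 F) : Prop :=
  g ^ 2 * q.1 = y ^ 2 * r.1 ∧ g ^ 3 * q.2 = y ^ 3 * r.2

theorem ex_iff (hTRF : SpecTRF) {g y : 𝓞 F} {I c : Ideal (𝓞 F)} (hg : g ≠ 0) (hy : y ≠ 0)
    (h : Ideal.span {y} * c = Ideal.span {g} * I) {q r : 𝓞 F × 𝓞 F} (hr : Rl g y q r) :
    Ex I q ↔ Ex c r := by
  have h1 : ∀ J : Ideal (𝓞 F), Dv (I * J) q ↔ Dv (c * J) r := fun J =>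
    hTRF.eq F g y I c hg hy h q.1 q.2 r.1 r.2 hr.1 hr.2 J
  have h2 := h1 ⊤
  rw [Ideal.mul_top, Ideal.mul_top] at h2
  unfold Ex
  rw [h2]
  simp only [h1]

theorem val_iff {g y A a : F} (hg : g ≠ 0) (hy : y ≠ 0) (k : ℕ) (e : g ^ k * A = y ^ k * a)
    (v : InfinitePlace F) (s : ℝ) : v A ≤ s ^ k ↔ v a ≤ (s * (v g / v y)) ^ k := by
  have hvg : 0 < v g := v.pos_iff.2 hg
  have hvy : 0 < v y := v.pos_iff.2 hy
  have h1 : v g ^ k * v A = v y ^ k * v a := by
    have := congrArg v e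
    simpa only [map_mul, map_pow] using this
  have h2 : v a = v A * (v g / v y) ^ k := by
    rw [div_pow, mul_div_assoc', eq_div_iff (pow_pos hvy k).ne']
    linear_combination -h1
  rw [h2, mul_pow]
  exact (mul_le_mul_iff_of_pos_right (pow_pos (div_pos hvg hvy) k)).symm

theorem dsc_iff {g y : 𝓞 F} (hg : g ≠ 0) (hy : y ≠ 0) {q r : 𝓞 F × 𝓞 F} (hr : Rl g y q r) :
    4 * q.1 ^ 3 + 27 * q.2 ^ 2 ≠ 0 ↔ 4 * r.1 ^ 3 + 27 * r.2 ^ 2 ≠ 0 := by
  have h1 : g ^ 6 * (4 * q.1 ^ 3 + 27 * q.2 ^ 2) = y ^ 6 * (4 * r.1 ^ 3 + 27 * r.2 ^ 2) := by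
    have e1 : (g ^ 2 * q.1) ^ 3 = (y ^ 2 * r.1) ^ 3 := by rw [hr.1]
    have e2 : (g ^ 3 * q.2) ^ 2 = (y ^ 3 * r.2) ^ 2 := by rw [hr.2]
    linear_combination 4 * e1 + 27 * e2
  rw [not_iff_not]
  constructor
  · intro h
    rw [h, mul_zero] at h1
    exact (mul_eq_zero.1 h1.symm).resolve_left (pow_ne_zero 6 hy)
  · intro h
    rw [h, mul_zero] at h1
    exact (mul_eq_zero.1 h1).resolve_left (pow_ne_zero 6 hg)

theorem bx_iff {g y : 𝓞 F} (hg : g ≠ 0) (hy : y ≠ 0) {q r : 𝓞 F × 𝓞 F} (hr : Rl g y q r)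
    (ρ : InfinitePlace F → ℝ) :
    q ∈ Bx F ρ ↔ r ∈ Bx F (fun v => ρ v * (v (g : F) / v (y : F))) := by
  have hg' : (g : F) ≠ 0 := by exact_mod_cast hg
  have hy' : (y : F) ≠ 0 := by exact_mod_cast hy
  have e1 : (g : F) ^ 2 * (q.1 : F) = (y : F) ^ 2 * (r.1 : F) := by exact_mod_cast hr.1
  have e2 : (g : F) ^ 3 * (q.2 : F) = (y : F) ^ 3 * (r.2 : F) := by exact_mod_cast hr.2
  unfold Bx
  refine and_congr (dsc_iff hg hy hr) (forall_congr' fun v => ?_)
  exact and_congr (val_iff hg' hy' 2 e1 v _) (val_iff hg' hy' 3 e2 v _)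

end PERM

open PERM in
theorem specPER (hTRF : SpecTRF) : SpecPER := by
  intro F _ _ J p g y I c hg hy h ρ W
  have hg' : (g : F) ≠ 0 := by exact_mod_cast hg
  have hg2 : g ^ 2 ≠ 0 := pow_ne_zero 2 hg
  have hg3 : g ^ 3 ≠ 0 := pow_ne_zero 3 hg
  have hy2 : y ^ 2 ≠ 0 := pow_ne_zero 2 hy
  have hy3 : y ^ 3 ≠ 0 := pow_ne_zero 3 hy
  -- corresponding pairs
  have key : ∀ q r : 𝓞 F × 𝓞 F, Rl g y q r →
      (q ∈ {q ∈ Fam J p I ρ | Nat.card (Sel 2 (curve (q.1 : F) (q.2 : F))) ∈ W} ↔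
      r ∈ {q ∈ Jf J p g y c ∩ Bx F (fun v => ρ v * (v (g : F) / v (y : F))) |
        Nat.card (Sel 2 (curve ((q.1 : F) * ((y : F) / (g : F)) ^ 2)
          ((q.2 : F) * ((y : F) / (g : F)) ^ 3))) ∈ W}) := by
    intro q r hr
    have e1 : (g : F) ^ 2 * (q.1 : F) = (y : F) ^ 2 * (r.1 : F) := by exact_mod_cast hr.1
    have e2 : (g : F) ^ 3 * (q.2 : F) = (y : F) ^ 3 * (r.2 : F) := by exact_mod_cast hr.2
    have c1 : (r.1 : F) * ((y : F) / (g : F)) ^ 2 = (q.1 : F) := by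
      rw [div_pow, mul_div_assoc', div_eq_iff (pow_ne_zero 2 hg')]
      linear_combination -e1
    have c2 : (r.2 : F) * ((y : F) / (g : F)) ^ 3 = (q.2 : F) := by
      rw [div_pow, mul_div_assoc', div_eq_iff (pow_ne_zero 3 hg')]
      linear_combination -e2
    have d1 : y ^ 2 * r.1 - g ^ 2 * p.1 ∈ Ideal.span {g ^ 2} * J ↔ q.1 - p.1 ∈ J := by
      rw [← hr.1, ← mul_sub]
      exact mem_cancel hg2 _ _
    have d2 : y ^ 3 * r.2 - g ^ 3 * p.2 ∈ Ideal.span {g ^ 3} * J ↔ q.2 - p.2 ∈ J := by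
      rw [← hr.2, ← mul_sub]
      exact mem_cancel hg3 _ _
    change (q ∈ Bx F ρ ∧ q.1 - p.1 ∈ J ∧ q.2 - p.2 ∈ J ∧ Ex I q) ∧
        Nat.card (Sel 2 (curve (q.1 : F) (q.2 : F))) ∈ W ↔
      ((Ex c r ∧ y ^ 2 * r.1 - g ^ 2 * p.1 ∈ Ideal.span {g ^ 2} * J ∧
        y ^ 3 * r.2 - g ^ 3 * p.2 ∈ Ideal.span {g ^ 3} * J) ∧
        r ∈ Bx F (fun v => ρ v * (v (g : F) / v (y : F)))) ∧
        Nat.card (Sel 2 (curve ((r.1 : F) * ((y : F) / (g : F)) ^ 2)
          ((r.2 : F) * ((y : F) / (g : F)) ^ 3))) ∈ W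
    rw [c1, c2, d1, d2, ← bx_iff hg hy hr ρ, ← ex_iff hTRF hg hy h hr]
    tauto
  have hdn : ∀ q ∈ {q ∈ Fam J p I ρ | Nat.card (Sel 2 (curve (q.1 : F) (q.2 : F))) ∈ W},
      ∃ r, Rl g y q r := by
    rintro q ⟨hq, -⟩
    obtain ⟨a, b, ha, hb⟩ := hTRF.dn F g y I c hg hy h q.1 q.2 hq.2.2.2.1
    exact ⟨(a, b), ha, hb⟩
  have hup : ∀ r ∈ {q ∈ Jf J p g y c ∩ Bx F (fun v => ρ v * (v (g : F) / v (y : F))) |
        Nat.card (Sel 2 (curve ((q.1 : F) * ((y : F) / (g : F)) ^ 2)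
          ((q.2 : F) * ((y : F) / (g : F)) ^ 3))) ∈ W}, ∃ q, Rl g y q r := by
    rintro r ⟨hr, -⟩
    obtain ⟨A, B, hA, hB⟩ := hTRF.up F g y I c hg hy h r.1 r.2 hr.1.1.1
    exact ⟨(A, B), hA, hB⟩
  have inj1 : ∀ q r r' : 𝓞 F × 𝓞 F, Rl g y q r → Rl g y q r' → r = r' := by
    intro q r r' h1 h2
    exact Prod.ext (mul_left_cancel₀ hy2 (h1.1.symm.trans h2.1))
      (mul_left_cancel₀ hy3 (h1.2.symm.trans h2.2))
  have inj2 : ∀ q q' r : 𝓞 F × 𝓞 F, Rl g y q r → Rl g y q' r → q = q' := by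
    intro q q' r h1 h2
    exact Prod.ext (mul_left_cancel₀ hg2 (h1.1.trans h2.1.symm))
      (mul_left_cancel₀ hg3 (h1.2.trans h2.2.symm))
  choose f hf using hdn
  refine Set.ncard_congr f ?_ ?_ ?_
  · intro q hq
    exact (key q _ (hf q hq)).1 hq
  · intro q q' hq hq' e
    have h1 := hf q hq
    rw [e] at h1
    exact inj2 _ _ _ h1 (hf q' hq')
  · intro r hr
    obtain ⟨q, hq⟩ := hup r hr
    have hq' := (key q r hq).2 hr
    exact ⟨q, hq', inj1 _ _ _ (hf q hq') hq⟩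

end Pool.Agent.Lib.MP_8cb858_nt.PV
end

section
/-!
# TAL: the tail of the twist ideals
-/
namespace Pool.Agent.Lib.MP_8cb858_nt.PV

open Polynomial NumberField IsDedekindDomain Filter Pool.Agent.Lib.MP_8cb858_nt.SEL
open Pool.Agent.Lib.MP_8cb858_nt.PF Pool.Agent.Lib.MP_8cb858_nt.PU
open scoped Classical WithZero Topology

namespace TALM

variable {F : Type} [Field F] [NumberField F]

lemma bx_finite (ρ : InfinitePlace F → ℝ) : (Bx F ρ).Finite := by
  refine ((CNUM.box_finite (fun v => ρ v ^ 2)).prod (CNUM.box_finite (fun v => ρ v ^ 3))).subset ?_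
  rintro ⟨a, b⟩ ⟨_, h⟩
  exact ⟨fun v => (h v).1, fun v => (h v).2⟩

/-- Union bound. -/
lemma union_bd {ι : Type} (T : Finset ι) (ρ : InfinitePlace F → ℝ)
    (Q : ι → 𝓞 F × 𝓞 F → Prop) (P : 𝓞 F × 𝓞 F → Prop)
    (hP : ∀ E ∈ Bx F ρ, P E → ∃ t ∈ T, Q t E) :
    ({E ∈ Bx F ρ | P E}.ncard : ℝ) ≤ ∑ t ∈ T, ({E ∈ Bx F ρ | Q t E}.ncard : ℝ) := by
  have hf := bx_finite ρ
  have key : ∀ R : 𝓞 F × 𝓞 F → Prop, {E ∈ Bx F ρ | R E}.ncard = (hf.toFinset.filter R).card := by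
    intro R
    rw [← Set.ncard_coe_finset]
    congr 1
    ext E
    simp
  have h1 : (hf.toFinset.filter P) ⊆ T.biUnion (fun t => hf.toFinset.filter (Q t)) := by
    intro E hE
    rw [Finset.mem_filter, Set.Finite.mem_toFinset] at hE
    obtain ⟨t, ht, hq⟩ := hP E hE.1 hE.2
    rw [Finset.mem_biUnion]
    exact ⟨t, ht, Finset.mem_filter.mpr ⟨(Set.Finite.mem_toFinset hf).mpr hE.1, hq⟩⟩
  rw [key P, Finset.sum_congr rfl fun t _ => by rw [key (Q t)]]
  exact_mod_cast (Finset.card_le_card h1).trans Finset.card_biUnion_le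

lemma one_le_norm {I : Ideal (𝓞 F)} (h : I ≠ ⊥) : (1 : ℝ) ≤ (Ideal.absNorm I : ℝ) := by
  exact_mod_cast Nat.one_le_iff_ne_zero.2 (Ideal.absNorm_eq_zero_iff.not.2 h)

end TALM

open TALM in
theorem specTAL (hUPB : SpecUPB) (hSUI : SpecSUI) (hIDA : SpecIDA) : SpecTAL := by
  intro F _ _
  obtain ⟨C1, hC1, h1⟩ := hUPB F
  obtain ⟨C2, hC2, h2⟩ := hSUI F
  refine ⟨C1 * C2, one_le_mul_of_one_le_of_one_le hC1 hC2, fun t T ρ ht hT hρ => ?_⟩
  have hNt : (1 : ℝ) ≤ (Ideal.absNorm t : ℝ) := one_le_norm ht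
  have hV : 1 ≤ vol ρ := CNUM.one_le_vol hρ
  have hS : {J : Ideal (𝓞 F) | J ≠ ⊥ ∧ T ≤ (Ideal.absNorm J : ℝ) ∧
      (Ideal.absNorm (t * J) : ℝ) ≤ vol ρ}.Finite := by
    refine (hIDA.fin F (vol ρ)).subset fun J hJ => ⟨hJ.1, le_trans ?_ hJ.2.2⟩
    rw [map_mul, Nat.cast_mul]
    exact le_mul_of_one_le_left (Nat.cast_nonneg _) hNt
  have hne : ∀ J : Ideal (𝓞 F), J ≠ ⊥ → t * J ≠ ⊥ := fun J hJ => mul_ne_zero ht hJ
  have hu := union_bd hS.toFinset ρ (fun J q => Dv (t * J) q)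
    (fun q => ∃ J : Ideal (𝓞 F), J ≠ ⊥ ∧ T ≤ (Ideal.absNorm J : ℝ) ∧ Dv (t * J) q) (by
      rintro q hq ⟨J, hJ, hTJ, hD⟩
      refine ⟨J, ?_, hD⟩
      rw [Set.Finite.mem_toFinset]
      refine ⟨hJ, hTJ, ?_⟩
      rcases (h1 (t * J) ρ (hne J hJ) hρ).1 with h | h
      · exact h
      · exfalso
        have : q ∈ {q ∈ Bx F ρ | Dv (t * J) q} := ⟨hq, hD⟩
        rw [h] at this
        exact this)
  refine hu.trans ?_
  have h3 : ∀ J ∈ hS.toFinset, ({q ∈ Bx F ρ | Dv (t * J) q}.ncard : ℝ) ≤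
      C1 * (vol ρ ^ 5 / (Ideal.absNorm t : ℝ) ^ 5) * (1 / (Ideal.absNorm J : ℝ) ^ 5) := by
    intro J hJ
    rw [Set.Finite.mem_toFinset] at hJ
    refine ((h1 (t * J) ρ (hne J hJ.1) hρ).2).trans (le_of_eq ?_)
    rw [map_mul, Nat.cast_mul, mul_pow]
    have := one_le_norm hJ.1
    field_simp
  refine (Finset.sum_le_sum h3).trans ?_
  rw [← Finset.mul_sum]
  have h4 := (h2 T hS.toFinset hT (fun J hJ => by
    rw [Set.Finite.mem_toFinset] at hJ
    exact ⟨hJ.1, hJ.2.1⟩)).2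
  calc C1 * (vol ρ ^ 5 / (Ideal.absNorm t : ℝ) ^ 5) *
        ∑ J ∈ hS.toFinset, 1 / (Ideal.absNorm J : ℝ) ^ 5
      ≤ C1 * (vol ρ ^ 5 / (Ideal.absNorm t : ℝ) ^ 5) * (C2 / T ^ 4) :=
        mul_le_mul_of_nonneg_left h4 (by positivity)
    _ = C1 * C2 * (vol ρ ^ 5 / ((Ideal.absNorm t : ℝ) ^ 5 * T ^ 4)) := by
        field_simp

end Pool.Agent.Lib.MP_8cb858_nt.PV
end

section
/-!
# TNB: the norm of the twist by `y/g`
-/
namespace Pool.Agent.Lib.MP_8cb858_nt.PV

open Polynomial NumberField IsDedekindDomain Filter Pool.Agent.Lib.MP_8cb858_nt.SEL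
open Pool.Agent.Lib.MP_8cb858_nt.PF Pool.Agent.Lib.MP_8cb858_nt.PU
open scoped Classical WithZero Topology

namespace TNBM

variable {F : Type} [Field F] [NumberField F]

lemma pow_dvd {g y : 𝓞 F} {I c : Ideal (𝓞 F)} {v : Pl F} (hI : ¬ v.asIdeal ∣ I)
    (h : Ideal.span {y} * c = Ideal.span {g} * I) {n : ℕ} (hd : v.asIdeal ^ n ∣ Ideal.span {y}) :
    v.asIdeal ^ n ∣ Ideal.span {g} := by
  have h1 : v.asIdeal ^ n ∣ Ideal.span {g} * I := by
    rw [← h]
    exact hd.mul_right c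
  exact v.prime.pow_dvd_of_dvd_mul_right n hI h1

lemma val_le {g y : 𝓞 F} (hg : g ≠ 0) {v : Pl F}
    (h : ∀ n : ℕ, v.asIdeal ^ n ∣ Ideal.span {g} → v.asIdeal ^ n ∣ Ideal.span {y}) :
    v.intValuation y ≤ v.intValuation g := by
  have h1 := v.intValuation_if_neg hg
  have h2 := (v.intValuation_le_pow_iff_dvd g _).1 h1.le
  rw [h1]
  exact (v.intValuation_le_pow_iff_dvd y _).2 (h _ h2)

lemma val_eq {g y : 𝓞 F} (hg : g ≠ 0) (hy : y ≠ 0) {I c : Ideal (𝓞 F)} {v : Pl F}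
    (hI : ¬ v.asIdeal ∣ I) (hc : ¬ v.asIdeal ∣ c)
    (h : Ideal.span {y} * c = Ideal.span {g} * I) :
    v.valuation F ((y : F) / (g : F)) = 1 := by
  have h1 : v.intValuation y = v.intValuation g :=
    le_antisymm (val_le hg fun n hn => pow_dvd hc h.symm hn) (val_le hy fun n hn => pow_dvd hI h hn)
  have h2 : v.valuation F (y : F) = v.valuation F (g : F) := by
    have e1 := v.valuation_of_algebraMap (K := F) y
    have e2 := v.valuation_of_algebraMap (K := F) g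
    rw [show (y : F) = algebraMap (𝓞 F) F y from rfl, show (g : F) = algebraMap (𝓞 F) F g from rfl,
      e1, e2, h1]
  have hg' : (g : F) ≠ 0 := TNXM.coe_ne hg
  rw [map_div₀, h2, div_self]
  exact (_root_.map_ne_zero _).2 hg'

end TNBM

open TNBM in
theorem specTNB : SpecTNB := by
  intro F _ _ g y I c hg hy hI hc h
  have hx : (y : F) / (g : F) ≠ 0 := div_ne_zero (TNXM.coe_ne hy) (TNXM.coe_ne hg)
  rw [TNXM.tn_eq hx]
  have h1 : ∏ v ∈ (TNXM.od_fin hx).toFinset, v.asIdeal ∣ I * c := by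
    refine (IDAM.prod_dvd _ _).1 fun v hv => ?_
    rw [Set.Finite.mem_toFinset, Set.mem_ofPred_eq, ← TNXM.od_iff v hx] at hv
    by_contra hcon
    have hI' : ¬ v.asIdeal ∣ I := fun h' => hcon (h'.mul_right c)
    have hc' : ¬ v.asIdeal ∣ c := fun h' => hcon (h'.mul_left I)
    refine hv ⟨0, ?_⟩
    rw [val_eq hg hy hI' hc' h]
    simp
  have h2 := IDAM.prod_norm (TNXM.od_fin hx).toFinset
  unfold NA at h2
  rw [← h2, ← map_mul]
  refine Nat.le_of_dvd (Nat.pos_of_ne_zero ?_) (map_dvd _ h1)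
  rw [Ne, Ideal.absNorm_eq_zero_iff]
  exact mul_ne_zero hI hc

end Pool.Agent.Lib.MP_8cb858_nt.PV
end
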